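import Pool.Agent.Lib.MP_305fdd_al.F2.PF.Defs

/-!
# MP_305fdd_al, F_2 project, section PF, part A: the pieces [F2PF ..]

Every `def S_xx : Prop` is one independent piece; its docstring contains the complete proof.  The other
statements may be taken as hypotheses.

Notation. `x_t = (1, t)`, so `dot (1, t) m = m.1 + t * m.2`.  `sd t u = u.2 - t * u.1` is positive iff the
functional `u` is on the right side of `x_t`.  Two identities are used all the time (`ring`, `field_simp`):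
(*) `dot u m = u.1 * (m.1 + t * m.2) + sd t u * m.2`;
(**) if `sd t u ≠ 0`, `α = sd t' u / sd t u`, `β = (t' - t) / sd t u`, then
`m.1 + t' * m.2 = α * (m.1 + t * m.2) + β * dot u m` for all `m`.
On a line, for `0 ≠ f ∈ B` and `t ∈ J`: `y t f` is the minimum of the `m.1 + t * m.2`, `m ∈ M f`; it is attained
at the `m` with `IsR (M f) t m` and at the `m` with `IsL (M f) t m`.
-/

set_option autoImplicit false

namespace Pool.Agent.F2PF

open Pool.Agent.F2Ch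

/-! ## 1. Exponents -/

/-- [F2PF in] (about 80 lines) Leading exponents.
Proof. (a) Existence: `Finset.exists_min_image` for `m ↦ m.1 + t * m.2`, then for `m ↦ m.2` on the filter of the minimizers (or minimise `toLex (m.1 + t * m.2, m.2)`).  (b) Uniqueness: `m.2 = m'.2` by `tie`
twice and `m.1 + t * m.2 = m'.1 + t * m'.2`.  (c) For `m' ≠ m` in `S`: either `m.1 + t * m.2 < m'.1 + t * m'.2`, then this stays true for `t'` near `t` (continuity; take
`δ = gap / (1 + |m.2 - m'.2|)`), or equality and `m.2 ≤ m'.2`, and `m.2 < m'.2` because `m ≠ m'`; then for `t' > t`: `m'.1 + t' m'.2 - (m.1 + t' m.2) = (t' - t)(m'.2 - m.2) > 0`.  `S` is finite, take the minimum of the `δ`.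
(d) Reflection: unfold; `rf (rf m) = m`; `(rf m).1 + (-t) * (rf m).2 = m.1 + t * m.2`. -/
def S_in : Prop :=
  (∀ (S : Finset (ℝ × ℝ)) (t : ℝ), S.Nonempty → ∃ m, IsR S t m) ∧
  (∀ (S : Finset (ℝ × ℝ)) (t : ℝ) (m m' : ℝ × ℝ), IsR S t m → IsR S t m' → m = m') ∧
  (∀ (S : Finset (ℝ × ℝ)) (t : ℝ) (m : ℝ × ℝ), IsR S t m → ∃ δ > 0, ∀ t', t < t' → t' < t + δ →
    ∀ m' ∈ S, m' ≠ m → m.1 + t' * m.2 < m'.1 + t' * m'.2) ∧
  (∀ (S : Finset (ℝ × ℝ)) (t : ℝ) (m : ℝ × ℝ), IsL S t m ↔ IsR (S.image rf) (-t) (rf m)) ∧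
  (∀ (S : Finset (ℝ × ℝ)) (t : ℝ) (m : ℝ × ℝ), IsR S t m ↔ IsL (S.image rf) (-t) (rf m))

/-- [F2PF refl] (about 60 lines) Uses `S_in`. Reflection of a line.
Proof. `Line`: `isv` clear; `(M f).image rf` is nonempty; `y (-t) f ≤ m.1 + (-t) m.2 = (rf m).1 + t (rf m).2`; `nd` with `rf a`, `rf b` (the determinant changes the sign).
`dot (rf u) (rf m) = dot u m`; so (`S_in`) `u ∈ DR B M t` iff `rf u ∈ DL B (reflected M) (-t)` and vice versa; `sd (-t) (rf u) = - sd t u`. -/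
def S_refl : Prop :=
  ∀ (K : Type) [Field K] (B : Set K) (J : Set ℝ) (y : ℝ → K → ℝ) (M : K → Finset (ℝ × ℝ)),
    Line B J y M →
    Line B {t | -t ∈ J} (fun t => y (-t)) (fun f => (M f).image rf) ∧
    (∀ t u, u ∈ DR B M t ↔ rf u ∈ DL B (fun f => (M f).image rf) (-t)) ∧
    (∀ t u, u ∈ DL B M t ↔ rf u ∈ DR B (fun f => (M f).image rf) (-t)) ∧
    ∀ t u, sd (-t) (rf u) = -sd t u

/-- [F2PF shift] (about 60 lines) Change of the base point of a line.
Proof. `(m.1 + t0 m.2) + s m.2 = m.1 + (t0 + s) m.2`; the map `m ↦ (m.1 + t0 m.2, m.2)` is injective and preserves the conditions in `IsR` (for `t0 + s` and `s`).  With `u' = (u.1, u.2 - t0 * u.1)` one has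
`dot u' (m.1 + t0 m.2, m.2) = dot u m` and `sd s u' = sd (t0 + s) u`.  `nd`: `a' = (a.1 + t0 a.2, a.2)`, the same determinant. -/
def S_shift : Prop :=
  ∀ (K : Type) [Field K] (B : Set K) (J : Set ℝ) (y : ℝ → K → ℝ) (M : K → Finset (ℝ × ℝ)) (t0 : ℝ),
    Line B J y M →
    Line B {s | t0 + s ∈ J} (fun s => y (t0 + s))
      (fun f => (M f).image fun m => (m.1 + t0 * m.2, m.2)) ∧
    (∀ s u, u ∈ DR B M (t0 + s) ↔ (u.1, u.2 - t0 * u.1) ∈
      DR B (fun f => (M f).image fun m => (m.1 + t0 * m.2, m.2)) s) ∧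
    (∀ s u, u ∈ DL B M (t0 + s) ↔ (u.1, u.2 - t0 * u.1) ∈
      DL B (fun f => (M f).image fun m => (m.1 + t0 * m.2, m.2)) s) ∧
    ∀ s (u : ℝ × ℝ), sd s (u.1, u.2 - t0 * u.1) = sd (t0 + s) u

/-- [F2PF germ] (about 60 lines) Uses `S_in`. The values near the right side of `t0`.
Proof. (a) `m` minimises, so `y t0 f = m.1 + t0 m.2` (`Line.le`, `Line.ex`).  (b) By `S_in` (c) `m` is the only minimizer for `t' ∈ (t0, t0 + δ)`. (c) If `J` contains `[t0, t1]` with `t0 < t1` and `f = x i * g` with `f, g ∈ B` (`Bs.frac`), the leading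
exponents `m_f`, `m_g` at the right side of `t0` satisfy `y t f - y t g = a.1 + t a.2` for `t` near `t0`, and `y t f = m_f.1 + t m_f.2`, `y t g = m_g.1 + t m_g.2` on an interval, so `m_f = m_g + a`.  If
`dot u m = 0` for all leading exponents then `dot u a = 0 = dot u b` and the determinant gives `u = 0`. -/
def S_germ : Prop :=
  ∀ (K : Type) [Field K] (B : Set K), Bs B → ∀ (J : Set ℝ) (y : ℝ → K → ℝ)
    (M : K → Finset (ℝ × ℝ)), Line B J y M → ∀ t0 ∈ J,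
    (∀ f ∈ B, f ≠ 0 → ∀ m, (IsR (M f) t0 m ∨ IsL (M f) t0 m) → y t0 f = m.1 + t0 * m.2) ∧
    (∀ f ∈ B, f ≠ 0 → ∀ m, IsR (M f) t0 m → ∃ δ > 0, ∀ t', t0 < t' → t' < t0 + δ → t' ∈ J →
      y t' f = m.1 + t' * m.2 ∧ ∀ m', (IsR (M f) t' m' ∨ IsL (M f) t' m') → m' = m) ∧
    ∀ t1, t0 < t1 → Set.Icc t0 t1 ⊆ J → ∀ u : ℝ × ℝ,
      (∀ f ∈ B, f ≠ 0 → ∀ m, IsR (M f) t0 m → dot u m = 0) → u = 0

/-! ## 2. Persistence, key principle, signs -/

/-- [F2PF pers] (about 60 lines) Persistence of functionals and comparison, to the right.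
Proof. Let `m` be a leading exponent of `f` at `t` (right or left side according to the hypothesis on `u`; it exists since `M f` is finite nonempty: `S_in`), `m'` one at `t'`.  `m.1 + t m.2 ≤ m'.1 + t m'.2` and
`m'.1 + t' m'.2 ≤ m.1 + t' m.2`.  By (**) for `d = m' - m`: `0 ≥ d.1 + t' d.2 = α (d.1 + t d.2) + β dot u d` with `α ≥ 0`, `d.1 + t d.2 ≥ 0`, `β > 0`; so `dot u d ≤ 0`, `dot u m' ≤ dot u m ≤ 0`.
Comparison: `y t' f ≤ m.1 + t' m.2 = α (m.1 + t m.2) + β dot u m ≤ α * y t f`. -/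
def S_pers : Prop :=
  ∀ (K : Type) [Field K] (B : Set K) (J : Set ℝ) (y : ℝ → K → ℝ) (M : K → Finset (ℝ × ℝ)),
    Line B J y M → ∀ t ∈ J, ∀ t' ∈ J, t < t' → ∀ u : ℝ × ℝ, (u ∈ DR B M t ∨ u ∈ DL B M t) →
    0 < sd t u → 0 ≤ sd t' u →
    u ∈ DR B M t' ∧ u ∈ DL B M t' ∧ ∀ f ∈ B, f ≠ 0 → y t' f ≤ sd t' u / sd t u * y t f

/-- [F2PF persL] (about 30 lines) Uses `S_refl`, `S_pers`. The same to the left: apply `S_pers` to the reflected line. -/
def S_persL : Prop :=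
  ∀ (K : Type) [Field K] (B : Set K) (J : Set ℝ) (y : ℝ → K → ℝ) (M : K → Finset (ℝ × ℝ)),
    Line B J y M → ∀ t ∈ J, ∀ t' ∈ J, t' < t → ∀ u : ℝ × ℝ, (u ∈ DR B M t ∨ u ∈ DL B M t) →
    sd t u < 0 → sd t' u ≤ 0 →
    u ∈ DR B M t' ∧ u ∈ DL B M t' ∧ ∀ f ∈ B, f ≠ 0 → y t' f ≤ sd t' u / sd t u * y t f

/-- [F2PF key] (about 40 lines) Key principle: a functional which is itself a point of the line makes this point semi-good.
Proof. (a) For `0 ≠ f ∈ B` and a leading exponent `m` at `t`: `y r f ≤ m.1 + r m.2 = dot u m / c ≤ 0`.  (b) If `sd t' u ≤ 0 < sd t u` then `u.2 ≤ t' u.1` and `t u.1 < u.2`, so `u.1 > 0` (`t < t'`) and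
`r = u.2 / u.1 ∈ (t, t']`, `u = (u.1, u.1 * r)`: (a) makes `y r` semi-good. -/
def S_key : Prop :=
  ∀ (K : Type) [Field K] (B : Set K) (J : Set ℝ) (y : ℝ → K → ℝ) (M : K → Finset (ℝ × ℝ)),
    Line B J y M → ∀ t ∈ J, ∀ u : ℝ × ℝ, (u ∈ DR B M t ∨ u ∈ DL B M t) →
    (∀ r ∈ J, ∀ c : ℝ, 0 < c → u = (c, c * r) → SG B (y r)) ∧
    ∀ t', t < t' → Set.Icc t t' ⊆ J → (∀ r, t < r → r ≤ t' → ¬ SG B (y r)) →
      0 < sd t u → 0 < sd t' u

/-- [F2PF nsg] (about 60 lines) Signs at a point which is not semi-good.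
Proof. (a) If `sd t u = 0` then by (*) `dot u m = u.1 * (m.1 + t m.2)` for all `m`; for a leading exponent `m` of `f`: `u.1 * y t f ≤ 0` for all `0 ≠ f ∈ B`.  `u.1 > 0` contradicts `¬ SG`, `u.1 < 0`
contradicts `AtInf`, `u.1 = 0` gives `u = 0` (`u.2 = sd t u + t u.1`).  (b) If `sd t u > 0 > sd t u'`, then `z = (- sd t u') • u + (sd t u) • u'` is in the cone (`dot` is additive), `sd t z = 0`, so `z = 0` by (a), i.e. `dot z m = 0` and, both
summands being `≤ 0`, `dot u m = 0` for all leading exponents `m` at the right side.  By `S_germ` (third part) `u = 0`, a contradiction to `sd t u > 0`. -/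
def S_nsg : Prop :=
  ∀ (K : Type) [Field K] (B : Set K), Bs B → ∀ (J : Set ℝ) (y : ℝ → K → ℝ)
    (M : K → Finset (ℝ × ℝ)), Line B J y M → ∀ t ∈ J, AtInf B (y t) → ¬ SG B (y t) →
    (∀ u : ℝ × ℝ, (u ∈ DR B M t ∨ u ∈ DL B M t) → u ≠ 0 → sd t u ≠ 0) ∧
    (∀ t1, t < t1 → Set.Icc t t1 ⊆ J → ∀ u ∈ DR B M t, ∀ u' ∈ DR B M t, 0 < sd t u →
      0 ≤ sd t u') ∧
    ∀ t1, t1 < t → Set.Icc t1 t ⊆ J → ∀ u ∈ DL B M t, ∀ u' ∈ DL B M t, sd t u < 0 → sd t u' ≤ 0

/-- [F2PF val] (about 80 lines) No valley at a point which is not semi-good.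
Proof. Suppose `u ∈ DR B M t` with `sd t u < 0` and `u' ∈ DL B M t` with `0 < sd t u'`.  For `0 ≠ f ∈ B` let `m`, `m'` be the right and left leading exponents, `Y = y t f = m.1 + t m.2 = m'.1 + t m'.2`.  `m.2 ≤ m'.2` (`tie`).  By (*):
`u.1 Y + sd t u * m.2 ≤ 0` gives `a Y ≤ m.2` with `a = u.1 / (- sd t u)`; `u'.1 Y + sd t u' * m'.2 ≤ 0` gives `m'.2 ≤ b Y` with `b = - u'.1 / sd t u'`.  So `a Y ≤ b Y` for all `f`; `Y` takes a positive value (`¬ SG`) and a negative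
value (`AtInf`), so `a = b` and `m.2 = a Y`, `m.1 = (1 - t a) Y` for all `f`: the nonzero functional `z = (a, - (1 - t a))` vanishes at all right leading exponents, against `S_germ` (third part). (`z ≠ 0`: if `a = 0` then `z.2 = -1`.) -/
def S_val : Prop :=
  ∀ (K : Type) [Field K] (B : Set K), Bs B → ∀ (J : Set ℝ) (y : ℝ → K → ℝ)
    (M : K → Finset (ℝ × ℝ)), Line B J y M → ∀ t ∈ J, AtInf B (y t) → ¬ SG B (y t) →
    ∀ t1, t < t1 → Set.Icc t t1 ⊆ J → ∀ u ∈ DR B M t, ∀ u' ∈ DL B M t, sd t u < 0 →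
      sd t u' ≤ 0

/-- [F2PF clo] (about 100 lines) The sets of functionals are closed at the right side.
Proof. Take `t_n ↓ t` (`t_n ∈ (t, t + 1/(n+1))`), `u_n ≠ 0` as in the hypothesis, scaled to `‖u_n‖ = 1` (`DR`, `DL` are cones).  The unit sphere of `ℝ × ℝ` is compact, pass to a subsequence `u_n → u`, `‖u‖ = 1`.  For `0 ≠ f ∈ B` with right leading exponent
`m` at `t`: by `S_germ` for large `n` the (right or left) leading exponent of `f` at `t_n` is `m`, so `dot (u_n) m ≤ 0` and in the limit `dot u m ≤ 0`.  `σ * sd t u = lim σ * sd (t_n) (u_n) ≥ 0`. -/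
def S_clo : Prop :=
  ∀ (K : Type) [Field K] (B : Set K), Bs B → ∀ (J : Set ℝ) (y : ℝ → K → ℝ)
    (M : K → Finset (ℝ × ℝ)), Line B J y M → ∀ t ∈ J, ∀ t1, t < t1 → Set.Icc t t1 ⊆ J →
    ∀ σ : ℝ, (∀ δ > 0, ∃ t', t < t' ∧ t' < t + δ ∧ ∃ u : ℝ × ℝ,
      (u ∈ DR B M t' ∨ u ∈ DL B M t') ∧ u ≠ 0 ∧ 0 ≤ σ * sd t' u) →
    ∃ u ∈ DR B M t, u ≠ 0 ∧ 0 ≤ σ * sd t u

/-- [F2PF sgn] (about 120 lines) Uses `S_pers`, `S_persL`, `S_key`, `S_nsg`, `S_val`, `S_clo`, `S_refl`. The direction of decrease is constant on a line.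
Proof. For `t` in the open interval, by `hR`, `hL`, `S_nsg` (first part), `S_val` and `hno`: there are nonzero `u ∈ DR`, `u' ∈ DL` with `sd t u`, `sd t u'` both positive or both negative (the case `sd t u < 0 < sd t u'` is excluded by `S_val`, the case `sd t u' < 0 < sd t u` by
`hno`), and by `S_nsg` exactly one of the two cases holds; call `t` rightward or leftward.  If `t` is rightward then every larger `t'` in the interval is rightward: `S_key` (second part) and `S_pers` give `u ∈ DR B M t' ∩ DL B M t'` with `0 < sd t' u`.  Leftward points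
propagate to the left in the same way (`S_persL` and `S_key` for the reflected line).  Suppose there are both rightward and leftward points; then all leftward points are smaller than all rightward points; let `t_*` be the infimum of the rightward points, in the open interval.  By `S_clo` with
`σ = 1`: a nonzero `u ∈ DR B M t_*` with `0 ≤ sd t_* u`, so `> 0` by `S_nsg`: `t_*` is rightward.  By `S_clo` for the reflected line (the points to the left of `t_*` are leftward): a nonzero `u ∈ DL B M t_*` with `sd t_* u ≤ 0`: `t_*` is leftward.  Contradiction. -/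
def S_sgn : Prop :=
  ∀ (K : Type) [Field K] (B : Set K), Bs B → ∀ (t1 t2 : ℝ) (y : ℝ → K → ℝ)
    (M : K → Finset (ℝ × ℝ)), Line B (Set.Ioo t1 t2) y M →
    (∀ t, t1 < t → t < t2 → AtInf B (y t) ∧ ¬ SG B (y t)) →
    (∀ t, t1 < t → t < t2 → ∃ u ∈ DR B M t, u ≠ 0) →
    (∀ t, t1 < t → t < t2 → ∃ u ∈ DL B M t, u ≠ 0) →
    (∀ t, t1 < t → t < t2 → ¬ (DesR B M t ∧ DesL B M t)) →
    (∀ t, t1 < t → t < t2 → DesR B M t ∧ ∃ u ∈ DL B M t, 0 < sd t u) ∨
    ∀ t, t1 < t → t < t2 → DesL B M t ∧ ∃ u ∈ DR B M t, sd t u < 0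

/-! ## 3. Comparison of valuations and limits -/

/-- [F2PF strict] (about 80 lines) Two different points of a line are not equivalent.
Proof. (a) General fact: let `v' ≤ c v`, `v ≤ c' v'` on `B` (`c, c' > 0`), `v` not semi-good and at infinity.  `v ≤ c' v' ≤ c c' v` on `B`, with `v f > 0` for one `f` and `v f < 0` for another: `c c' = 1`.  So `v' ≤ c v ≤ v'`: `v' f = c v f` for `0 ≠ f ∈ B`, hence for all `f ∈ K`
(`Bs.frac`, `IsV.mul`, `IsV.zero`): `Pr v v'`.  (b) Applied to `y t`, `y t'`: `a.1 + t' a.2 = c (a.1 + t a.2)` and the same for `b`, so `(1 - c, t' - c t)` is orthogonal to `a` and `b`, which are independent: `c = 1`, `t = t'`. -/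
def S_strict : Prop :=
  (∀ (K : Type) [Field K] (B : Set K), Bs B → ∀ v v' : K → ℝ, IsV v → IsV v' → AtInf B v →
    ¬ SG B v → Le B v' v → Le B v v' → Pr v v') ∧
  ∀ (K : Type) [Field K] (B : Set K), Bs B → ∀ (J : Set ℝ) (y : ℝ → K → ℝ)
    (M : K → Finset (ℝ × ℝ)), Line B J y M → ∀ t ∈ J, ∀ t' ∈ J, Pr (y t) (y t') → t = t'

/-- [F2PF lim] (about 120 lines) Limits of inequalities.  (`v` runs along a filter `F`, `v i f → x f` for all `f ∈ B`.)
Proof. (a) `b ≤ c_i (v i)` on `B` with `c_i > 0` for all `i`.  Take `g ∈ B` with `x g < 0`; eventually `v i g < x g / 2 < 0`, and `b g ≤ c_i (v i g) < 0`, so `c_i ≤ b g / (v i g) ≤ 2 b g / x g`: bounded.  Take an ultrafilter `U ≤ F`; along it `c_i → c ∈ [0, C]` (compactness) and `b f ≤ c x f` for all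
`0 ≠ f ∈ B`.  If `c = 0` then `b` is semi-good, contradiction.
(b) `v i ≤ c_i b` on `B`.  Take `g` with `x g > 0`: eventually `v i g > x g / 2`, so `b g > 0` and `c_i ≥ x g / (2 b g) > 0`.  Take `h` with `b h < 0`: `v i h ≤ c_i b h`, so `c_i ≤ (v i h) / (b h)`, bounded (it converges).  So along an ultrafilter `c_i → c > 0` and `x f ≤ c b f`.
(c) Along an ultrafilter as in (b); `c ≥ 0` only. -/
def S_lim : Prop :=
  ∀ (K : Type) [Field K] (B : Set K), ∀ (ι : Type) (F : Filter ι) [F.NeBot] (v : ι → K → ℝ)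
    (x b : K → ℝ), (∀ f ∈ B, f ≠ 0 → Filter.Tendsto (fun i => v i f) F (nhds (x f))) →
    ((∀ i, Le B b (v i)) → AtInf B x → ¬ SG B b → Le B b x) ∧
    ((∀ i, Le B (v i) b) → AtInf B b → ¬ SG B x → Le B x b) ∧
    ((∀ i, Le B (v i) b) → AtInf B b → ∃ c : ℝ, 0 ≤ c ∧ ∀ f ∈ B, f ≠ 0 → x f ≤ c * b f)

/-! ## 4. Fatness -/

/-- [F2PF fstart] (about 80 lines) Fatness at the start.  (`w` is the order along the reducible locus, `c` a further value, `π` a uniformiser of `w`.)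
Proof. Let `0 ≠ f ∈ B`, `w f = j ≥ 0`.  By induction on `j` there is `g ∈ B` with `q ^ j * f = π ^ j * g`: if `j > 0` then `q f = π f1`, `f1 ∈ B`, `w f1 = j - 1`, and `q ^ (j-1) f1 = π ^ (j-1) g`.  `w g = 0`, so `c g ≤ 0` and
`c f = j c π + c g - j c q ≤ j (c π - c q)`.  With `μ = max 0 (c π - c q)`: `c f ≤ μ * w f`, so `(-μ, 1)` and `(-μ-1, 1)` are in `DV`. -/
def S_fstart : Prop :=
  ∀ (K : Type) [Field K] (B : Set K), Bs B → ∀ (w : K → ℤ) (c : K → ℝ), IsV w →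
    (∀ f g, f ≠ 0 → g ≠ 0 → c (f * g) = c f + c g) →
    ∀ (π q : K), π ∈ B → q ∈ B → π ≠ 0 → q ≠ 0 → w π = 1 → w q = 0 →
    (∀ f ∈ B, f ≠ 0 → 0 ≤ w f) → (∀ f ∈ B, f ≠ 0 → 0 < w f → ∃ g ∈ B, q * f = π * g) →
    (∀ g ∈ B, g ≠ 0 → w g = 0 → c g ≤ 0) →
    ∃ μ : ℝ, 0 ≤ μ ∧ (-μ, 1) ∈ DV B (fun f => (w f : ℝ)) c ∧
      (-μ - 1, 1) ∈ DV B (fun f => (w f : ℝ)) c

/-- [F2PF fvert] (about 80 lines) FATNESS PASSES A VERTEX.
Proof. `G = c_out + ρ c_in` is additive on `K^*`.  For `f ∈ B` with `w f = a > 0` and `g ∈ B` with `w g = -b < 0`: `h = f ^ b * g ^ a ∈ B`, `w h = 0`, so `b G f + a G g = G h ≤ 0`, `G f / a ≤ - G g / b`.  Let `λ` be the supremum of the `G f / w f` over the `f ∈ B` with `w f > 0` (a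
nonempty set bounded above by any `- G g / b`).  Then `G f ≤ λ w f` if `w f > 0`; if `w g = -b < 0`: `λ ≤ - G g / b`, so `G g ≤ λ w g`; if `w h = 0`: `G h ≤ 0`.  So `c_out f ≤ λ w f - ρ c_in f` on `B`.  All `u ∈ DV B w c_in`, `u ≠ 0`, have `u.2 < 0` (hypothesis `hs`);
for such `u`: `c_in f ≥ (u.1 / -u.2) w f`, so `c_out f ≤ (λ - ρ u.1 / (-u.2)) w f`, i.e. `(-(λ + ρ u.1 / u.2), 1) ∈ DV B w c_out`; two non proportional `u` give two different such functionals. -/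
def S_fvert : Prop :=
  ∀ (K : Type) [Field K] (B : Set K), Bs B → ∀ (w : K → ℤ) (cin cout : K → ℝ), IsV w →
    (∀ f g, f ≠ 0 → g ≠ 0 → cin (f * g) = cin f + cin g) →
    (∀ f g, f ≠ 0 → g ≠ 0 → cout (f * g) = cout f + cout g) →
    (∃ f ∈ B, f ≠ 0 ∧ 0 < w f) → (∃ f ∈ B, f ≠ 0 ∧ w f < 0) →
    ∀ ρ : ℝ, 0 < ρ → (∀ h ∈ B, h ≠ 0 → w h = 0 → cout h + ρ * cin h ≤ 0) →
    (∀ u ∈ DV B (fun f => (w f : ℝ)) cin, u ≠ 0 → u.2 < 0) →
    Fat (DV B (fun f => (w f : ℝ)) cin) →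
    Fat (DV B (fun f => (w f : ℝ)) cout) ∧ ∃ u ∈ DV B (fun f => (w f : ℝ)) cout, 0 < u.2

/-- [F2PF fline] (about 60 lines) Uses `S_pers`, `S_key`. Fatness persists along a line as long as there is no semi-good point.
Proof. All nonzero elements `z` of `DR B M t` have `0 < sd t z`: by `S_nsg` `sd t z ≠ 0` and (second part, with `u`) `0 ≤ sd t z`.  Let `z, z'` be two independent ones; `S_key` (second part) gives `0 < sd t' z`, `0 < sd t' z'`, and `S_pers` gives `z, z' ∈ DR B M t' ∩ DL B M t'`. -/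
def S_fline : Prop :=
  ∀ (K : Type) [Field K] (B : Set K), Bs B → ∀ (J : Set ℝ) (y : ℝ → K → ℝ)
    (M : K → Finset (ℝ × ℝ)), Line B J y M → ∀ t t', t < t' → Set.Icc t t' ⊆ J →
    AtInf B (y t) → (∀ r, t ≤ r → r ≤ t' → ¬ SG B (y r)) → DesR B M t → Fat (DR B M t) →
    Fat (DR B M t') ∧ Fat (DL B M t') ∧ (∃ u ∈ DR B M t', 0 < sd t' u) ∧
      ∃ u ∈ DL B M t', 0 < sd t' u

/-- [F2PF inner] (about 100 lines) Uses `S_pers`, `S_key`, `S_nsg`. THE FIRST SEMI-GOOD POINT INSIDE A LINE.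
Proof. All nonzero `z ∈ DR B M t0` have `0 < sd t0 z` (`S_nsg`).  `0 ≤ sd ts z`: otherwise `r = z.2 / z.1` (as in `S_key`) is in `(t0, ts)`, `z = (z.1, z.1 * r)` and `y r` is semi-good, a contradiction (apply `S_key` (b) with `t' < ts` close to `ts`, or (a) directly).  As `DR B M t0` is
two-dimensional there is `z` with `0 < sd ts z` (two elements with `sd ts = 0` are proportional).  `S_pers` (from `t0` to `ts`): `z ∈ DR B M ts ∩ DL B M ts`.  Put `δ` with `ts + δ ≤ t2` and `0 ≤ sd r z` for `r < ts + δ` (`sd r z = sd ts z - (r - ts) z.1`, so `δ = sd ts z / (1 + |z.1|)` works, even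
with `0 < sd r z`).  For `ts < r < ts + δ`: `S_pers` from `ts` to `r`: `y r f ≤ α * y ts f` with `α = sd r z / sd ts z > 0` and `y ts f ≤ 0`: so `y r` is semi-good, and `y r f = 0` implies `y ts f = 0` (`0 ≤ α y ts f ≤ 0`).  From `t0` to `ts`: `y ts f ≤ β * y t0 f` with `β > 0`;
so if `y ts f = 0` then `0 ≤ y t0 f`. -/
def S_inner : Prop :=
  ∀ (K : Type) [Field K] (B : Set K), Bs B → ∀ (t0 ts t2 : ℝ) (y : ℝ → K → ℝ)
    (M : K → Finset (ℝ × ℝ)), t0 < ts → ts < t2 → Line B (Set.Ico t0 t2) y M →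
    AtInf B (y t0) → (∀ r, t0 ≤ r → r < ts → ¬ SG B (y r)) → SG B (y ts) → DesR B M t0 →
    Fat (DR B M t0) →
    ∃ δ > 0, ts + δ ≤ t2 ∧ ∀ r, ts < r → r < ts + δ →
      SG B (y r) ∧ (∀ f ∈ B, f ≠ 0 → y r f = 0 → y ts f = 0) ∧
      ∀ f ∈ B, f ≠ 0 → y r f = 0 → 0 ≤ y t0 f

/-- [F2PF arr] (about 100 lines) Uses `S_persL`, `S_key`, `S_refl`. ARRIVAL AT A SEMI-GOOD POINT.  (The line is described from the arrival point `t = 0`; the path comes from the right and descends to the left.)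
Proof. Let `z ∈ DL B M t` be nonzero: `sd t z < 0` (`S_nsg`, third part).  `sd 0 z ≤ 0`: otherwise (as in `S_inner`, mirrored) `z.1 > 0` and `r = z.2 / z.1 ∈ (0, t)` would be semi-good by `S_key` (a).  (`sd 0 z = z.2`.)  `Fat`: there is `z ∈ DL B M t` with `z.2 = sd 0 z < 0`.  `S_persL` from `t` to `0`
(`sd 0 z ≤ 0`): `z ∈ DR B M 0` and `y 0 f ≤ α * y t f` with `α = sd 0 z / sd t z > 0`: so `y 0 f = 0` implies `0 ≤ y t f`.  For `y 0 f = 0` and the right leading exponent `m` at `0`: `m.1 = y 0 f = 0` and `dot z m = z.2 * m.2 ≤ 0`, so `0 ≤ m.2`. -/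
def S_arr : Prop :=
  ∀ (K : Type) [Field K] (B : Set K), Bs B → ∀ (s : ℝ) (y : ℝ → K → ℝ)
    (M : K → Finset (ℝ × ℝ)), Line B (Set.Ico 0 s) y M → ∀ t, 0 < t → t < s →
    AtInf B (y t) → (∀ r, 0 < r → r ≤ t → ¬ SG B (y r)) → DesL B M t → Fat (DL B M t) →
    (∀ f ∈ B, f ≠ 0 → y 0 f = 0 → 0 ≤ y t f) ∧
    (∃ c : ℝ, 0 < c ∧ ∀ f ∈ B, f ≠ 0 → y 0 f ≤ c * y t f) ∧
    ∃ z ∈ DR B M 0, z.2 < 0

/-- [F2PF inter] (about 100 lines) Uses `S_pers`, `S_clo`, `S_lim`. Near a semi-good end point a line without semi-good points descends TOWARDS it (helper76).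
Proof. Suppose `DesR B M t` for some `t ∈ (0, s)`... More precisely suppose that there are `t_n ↓ 0` with `u_n ∈ DR B M (t_n)`, `0 < sd (t_n) (u_n)`, and fix `r ∈ (0, s)`.  `S_key` (no semi-good points) gives `0 < sd r (u_n)` and `S_pers`: `y r ≤ c_n * y (t_n)` on `B` with `c_n > 0` for `t_n < r`.
`y (t_n) f → y 0 f` for `f ∈ B` (minimum of affine functions).  `S_lim` (first part, `b = y r` not semi-good, `x = y 0` at infinity): `Le B (y r) (y 0)`, and `y 0` is semi-good, so `y r` is semi-good, a contradiction.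
So for all small `t` no `u ∈ DR B M t` has `0 < sd t u`; with the hypothesis that `DR B M t ≠ 0` and `S_nsg` all nonzero `u ∈ DR B M t` have `sd t u < 0`, and then (`S_val`: no valley) `DL B M t` contains no `u'` with `0 < sd t u'`. -/
def S_inter : Prop :=
  ∀ (K : Type) [Field K] (B : Set K), Bs B → ∀ (s : ℝ) (y : ℝ → K → ℝ)
    (M : K → Finset (ℝ × ℝ)), 0 < s → Line B (Set.Ico 0 s) y M → SG B (y 0) → AtInf B (y 0) →
    (∀ t, 0 < t → t < s → AtInf B (y t) ∧ ¬ SG B (y t)) →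
    ∃ δ > 0, δ ≤ s ∧ ∀ t, 0 < t → t < δ →
      (∀ u ∈ DR B M t, ¬ 0 < sd t u) ∧
      ((∃ u ∈ DR B M t, u ≠ 0) → ∀ u' ∈ DL B M t, ¬ 0 < sd t u')

/-! ## 5. Existence of functionals -/

/-- [F2PF gor] (about 150 lines) Gordan's lemma in the plane.
Proof. For `s ∈ S` let `K_s` be the set of the `u` in the unit circle `{u | u.1 ^ 2 + u.2 ^ 2 = 1}` with `u.1 s.1 + u.2 s.2 ≤ 0`, a closed subset of a compact set.  By the finite intersection property it is enough that finitely many `K_s`, `s ∈ F`, have a common point, `F ⊆ S` finite nonempty.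
CLAIM: `0` is not in the convex hull of `F` (in `ℝ × ℝ`).  Then the hull is compact convex and `geometric_hahn_banach_point_compact`/`_point_closed` gives a linear functional `g` with `g s < 0` for all `s ∈ F` (separate `0` from the hull), i.e. `u ≠ 0` with `u.1 s.1 + u.2 s.2 < 0`; normalise.
Claim: suppose `∑_{s ∈ F'} λ_s s = 0`, `F' ⊆ F` nonempty, all `λ_s > 0` real, `F'` minimal.  The real solution space of `∑ μ_s s = 0` is then one-dimensional (otherwise a second solution allows to make one coefficient `0` keeping the others `≥ 0` and not all `0`: `F'` not minimal), and it is defined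
by an integer matrix, so it contains a nonzero rational vector, which is a real multiple of `λ`; scaling, there are positive integers `n_s` with `∑ n_s s = 0`.  As `S` is closed under addition, `0 = ∑ n_s s ∈ S`, a contradiction.
(Alternative for the claim: induction on `card F` with rational coefficients only, i.e. Gordan over `ℚ`.) -/
def S_gor : Prop :=
  ∀ S : Set (ℤ × ℤ), (∀ a ∈ S, ∀ b ∈ S, a + b ∈ S) → (0 : ℤ × ℤ) ∉ S →
    ∃ u : ℝ × ℝ, u ≠ 0 ∧ ∀ s ∈ S, u.1 * (s.1 : ℝ) + u.2 * (s.2 : ℝ) ≤ 0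

/-- [F2PF ext] (about 40 lines) From an ideal to the ring.
Proof. `f ^ n * h ∈ I` is nonzero, so `0 ≥ dot u (w (f^n h), c (f^n h)) = n dot u (w f, c f) + dot u (w h, c h)` for all `n`; divide by `n`.  The same for an inequality `v' ≤ c v`: `n v' f + v' h ≤ c (n v f + v h)`. -/
def S_ext : Prop :=
  ∀ (K : Type) [Field K] (B I : Set K), (∀ a ∈ B, ∀ b ∈ B, a * b ∈ B) →
    (∀ a ∈ B, ∀ h ∈ I, a * h ∈ I) → (∃ h ∈ I, h ≠ 0) →
    (∀ (w c : K → ℝ), (∀ f g, f ≠ 0 → g ≠ 0 → w (f * g) = w f + w g) →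
      (∀ f g, f ≠ 0 → g ≠ 0 → c (f * g) = c f + c g) → ∀ u : ℝ × ℝ,
      (∀ h ∈ I, h ≠ 0 → dot u (w h, c h) ≤ 0) → u ∈ DV B w c) ∧
    ∀ v v' : K → ℝ, IsV v → IsV v' → ∀ c : ℝ, (∀ h ∈ I, h ≠ 0 → v' h ≤ c * v h) →
      ∀ f ∈ B, f ≠ 0 → v' f ≤ c * v f

end Pool.Agent.F2PF
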