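import Pool.Agent.Lib.MP_305fdd_al.F2.ChApi
import Pool.Agent.Lib.MP_305fdd_al.F2.PF.Stm

/-!
# MP_305fdd_al, F_2 project, section PF, part B (geometry of `P_a`): definitions

`K` is the fraction field of `B = Br k g = k[g]`, `φ : K → K` is the Cartier operator, `E` is the set of the traces `T l`
with `cl l ≠ 0`, `A ⊆ E` the set of the traces `T l` with `cl l ∈ Q a - 0`, `R = ord_R`.  `LocF` is the list of the local facts.
-/

set_option autoImplicit false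

namespace Pool.Agent.F2PF

open MvPolynomial Pool.Agent.F2Ch

section
variable {K : Type} [Field K]

/-- all values are integer multiples of one positive real number (compare `F2D.Disc`) -/
def Dv (w : K → ℝ) : Prop := ∃ γ : ℝ, 0 < γ ∧ ∀ f, f ≠ 0 → ∃ n : ℤ, w f = n • γ

/-- the second component -/
def c2 (V : K → ℝ ×ₗ ℝ) (f : K) : ℝ := (ofLex (V f)).2

/-- equivalent flags -/
def Eqv (V V' : K → ℝ ×ₗ ℝ) : Prop := ∀ f, 0 < V f ↔ 0 < V' f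

/-- pole type: the points near `w` on the side of `V` are below `w` -/
def PT (B : Set K) (w : K → ℝ) (V : K → ℝ ×ₗ ℝ) : Prop := ∃ μ : ℝ, (μ, 1) ∈ DV B w (c2 V)

/-- `b_0` type: the points near `w` on the side of `V` are above `w` -/
def BT (B : Set K) (w : K → ℝ) (V : K → ℝ ×ₗ ℝ) : Prop := ∃ μ : ℝ, (μ, -1) ∈ DV B w (c2 V)

end

section
variable (k : Type) (p : ℕ) {K : Type} [Field k] [Field K] [Algebra k K] {n : ℕ} (φ : K → K)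
  (g : Fin n → K)

/-- the ring `B = k[g]` -/
def Br (k : Type) {K : Type} [Field k] [Field K] [Algebra k K] {n : ℕ} (g : Fin n → K) : Set K :=
  {f : K | ∃ q : MvPolynomial (Fin n) k, aeval g q = f}

/-- a flag at `w` -/
structure Flag (w : K → ℝ) (V : K → ℝ ×ₗ ℝ) : Prop where
  inz : InZ k p φ V
  fst : ∀ f, (ofLex (V f)).1 = w f
  nt : ∃ f, f ≠ 0 ∧ w f = 0 ∧ c2 V f ≠ 0

/-- The frame: `k` perfect of characteristic `p`, `K` has `p`-degree `3` (`b0`, `ρ0`). -/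
structure Base (b0 : Fin (p ^ 3) → K) (ρ0 : Fin (p ^ 3) → K → K) : Prop where
  gen : FracGen k g
  pb : IsPB p b0 ρ0
  pinv : IsPinv p φ
  one : φ 1 = 1

/-- THE LOCAL FACTS (for an exotic group and a generic class `a`). -/
structure LocF (E A : Set K) (R : K → ℝ) : Prop where
  sub : A ⊆ E
  ct : ∀ z ∈ E, z ∈ Br k g ∧ z ≠ 0 ∧
    ∃ (M : ℕ) (c : k), φ^[M] z = 0 ∧ c ≠ 0 ∧ φ^[M] (z ^ 2) = algebraMap k K c
  Rinz : InZ k p φ R
  Rdv : Dv R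
  Rnn : ∀ f ∈ Br k g, f ≠ 0 → 0 ≤ R f
  Rpos : ∃ j, 0 < R (g j)
  R9 : ∀ v : K → ℝ, InZ k p φ v → (∃ f, v f ≠ 0) → (∀ f ∈ Br k g, f ≠ 0 → 0 ≤ v f) → Pr R v
  R7e : ∃ V, Flag k p φ R V ∧ ∃ z ∈ A, V z = 0
  R7u : ∀ V V', Flag k p φ R V → (∃ z ∈ A, V z = 0) → Flag k p φ R V' → (∃ z ∈ A, V' z = 0) →
    Eqv V V'
  R7f : ∀ V, Flag k p φ R V → (∃ z ∈ A, V z = 0) →
    ∃ μ : ℝ, (-μ, 1) ∈ DV (Br k g) R (c2 V) ∧ (-μ - 1, 1) ∈ DV (Br k g) R (c2 V)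
  ld : ∀ (Γ : Type) [AddCommGroup Γ] [LinearOrder Γ] [IsOrderedAddMonoid Γ] (V : K → Γ)
    (x : Fin 2 → K) (ex : K → Fin 2 → ℤ), InZ k p φ V → IsVB V x ex → (∃ z ∈ E, V z = 0) →
    ∃ u : ℝ × ℝ, u ≠ 0 ∧ ∀ f ∈ Br k g, f ≠ 0 → u.1 * (ex f 0 : ℝ) + u.2 * (ex f 1 : ℝ) ≤ 0
  l1 : ∀ w : K → ℝ, InZ k p φ w → Dv w → AtInf (Br k g) w → ∃ z ∈ E, w z = 0
  l1' : ∀ w : K → ℝ, InZ k p φ w → Dv w → AtInf (Br k g) w → ∀ z ∈ A, w z = 0 → ∀ z' ∈ E,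
    w z' = 0 → z' ∈ A
  l2 : ∀ w : K → ℝ, InZ k p φ w → Dv w → AtInf (Br k g) w → ∀ V, Flag k p φ w V →
    (∃ z ∈ A, V z = 0) → (¬ SG (Br k g) w ∨ ∀ z ∈ E, w z = 0 → V z = 0) →
    ∃ V', Flag k p φ w V' ∧ (∃ z ∈ A, V' z = 0) ∧ ¬ Eqv V V'
  l3 : ∀ w : K → ℝ, InZ k p φ w → Dv w → AtInf (Br k g) w → ¬ SG (Br k g) w → ∀ V V',
    Flag k p φ w V → (∃ z ∈ A, V z = 0) → PT (Br k g) w V → Flag k p φ w V' →
    (∃ z ∈ A, V' z = 0) → PT (Br k g) w V' → Eqv V V'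
  l6 : ∀ w : K → ℝ, InZ k p φ w → Dv w → AtInf (Br k g) w → ¬ SG (Br k g) w → ∀ V V',
    Flag k p φ w V → (∃ z ∈ A, V z = 0) → PT (Br k g) w V → Flag k p φ w V' →
    (∃ z ∈ A, V' z = 0) → BT (Br k g) w V' →
    ∃ ρ : ℝ, 0 < ρ ∧ ∀ h ∈ Br k g, h ≠ 0 → w h = 0 → c2 V h + ρ * c2 V' h ≤ 0
  l8 : ∀ (κ Γ : Type) [Field κ] [Algebra k κ] [AddCommGroup Γ] [LinearOrder Γ]
    [IsOrderedAddMonoid Γ] (V : K → Γ) (x : Fin 2 → K) (ex : K → Fin 2 → ℤ) (ac : K → κ)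
    (φb : κ → κ) (N : Set (Fin 2 → ℤ)) (L : K → AddMonoidAlgebra κ (Fin 2 → ℤ)),
    Chart k p φ g V x ex ac φb N L → ∀ (u : Fin 2 → ℝ) (w : K → ℝ), Good N u →
    OnCh k p φ g L u w → Dv w → SG (Br k g) w → (∃ f, w f ≠ 0) → ∀ z ∈ E, w z = 0 →
    (∀ m, (L z).coeff m ≠ 0 → m = 0 ∨ 0 < wt u m) → False

/-- A line in a chart of rank two: `y t`, `s1 ≤ t ≤ s2`, is the valuation of weight `d + t e`; the interior
points are in the cell.  `M f` is the set of the pairs of weights of the exponents of `L f`. -/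
def CL (s1 s2 : ℝ) (y : ℝ → K → ℝ) (M : K → Finset (ℝ × ℝ)) : Prop :=
  s1 < s2 ∧ ∃ (κ Γ : Type) (_ : Field κ) (_ : Algebra k κ) (_ : AddCommGroup Γ)
    (_ : LinearOrder Γ) (_ : IsOrderedAddMonoid Γ) (V : K → Γ) (x : Fin 2 → K)
    (ex : K → Fin 2 → ℤ) (ac : K → κ) (φb : κ → κ) (N : Set (Fin 2 → ℤ))
    (L : K → AddMonoidAlgebra κ (Fin 2 → ℤ)) (d e : Fin 2 → ℝ),
    Chart k p φ g V x ex ac φb N L ∧ d 0 * e 1 - d 1 * e 0 ≠ 0 ∧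
    (∀ t, s1 < t → t < s2 → Good N (fun i => d i + t * e i)) ∧
    (∀ t, s1 ≤ t → t ≤ s2 → OnCh k p φ g L (fun i => d i + t * e i) (y t) ∧
      ∀ i, y t (x i) = d i + t * e i) ∧
    ∀ f m', m' ∈ M f ↔ ∃ m, (L f).coeff m ≠ 0 ∧ m' = (wt d m, wt e m)

/-- The points of `P_a`: compatible, not semi-good, with an elliptic element of class in `Q a - 0`; if
the point is divisorial there is an `a`-flag. -/
def PA (A : Set K) (x : K → ℝ) : Prop :=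
  InZ k p φ x ∧ ¬ SG (Br k g) x ∧ (∃ z ∈ A, x z = 0) ∧
    (Dv x → ∃ V, Flag k p φ x V ∧ ∃ z ∈ A, V z = 0)

/-- `y`, `M` is a line on `[0, s]` of points which are not semi-good, with a common elliptic element of class
in `Q a - 0`, and it descends (to the right). -/
structure DnL (A : Set K) (s : ℝ) (y : ℝ → K → ℝ) (M : K → Finset (ℝ × ℝ)) : Prop where
  cl : CL k p φ g 0 s y M
  ns : ∀ t, 0 ≤ t → t ≤ s → ¬ SG (Br k g) (y t)
  el : ∃ z ∈ A, ∀ t, 0 ≤ t → t ≤ s → y t z = 0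
  des : DesR (Br k g) M 0

/-- `x'` is the bottom of a straight descending segment with top `x`, or proportional to `x`. -/
def Dn (A : Set K) (x x' : K → ℝ) : Prop :=
  (PA k p φ g A x ∧ Pr x x') ∨
  ∃ (s : ℝ) (y : ℝ → K → ℝ) (M : K → Finset (ℝ × ℝ)), DnL k p φ g A s y M ∧ Pr x (y 0) ∧
    Pr (y s) x'

/-- `x'` is reached from `x` by finitely many straight descending segments -/
def Rch (A : Set K) (x x' : K → ℝ) : Prop := Relation.ReflTransGen (Dn k p φ g A) x x'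

/-- the point `x ≠ R` of `P_a` is fat from above: it is the bottom of a descending line whose last flag
has a two-dimensional cone of functionals. -/
def FatA (A : Set K) (x : K → ℝ) : Prop :=
  ∃ (s : ℝ) (y : ℝ → K → ℝ) (M : K → Finset (ℝ × ℝ)), DnL k p φ g A s y M ∧ Pr (y s) x ∧
    ∃ u ∈ DL (Br k g) M s, ∃ u' ∈ DL (Br k g) M s, 0 < sd s u ∧ 0 < sd s u' ∧
      u.1 * u'.2 - u.2 * u'.1 ≠ 0

/-- the standing assumptions -/
def Ctx (E A : Set K) (R : K → ℝ) : Prop :=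
  (∃ (b0 : Fin (p ^ 3) → K) (ρ0 : Fin (p ^ 3) → K → K), Base k p φ g b0 ρ0) ∧
    LocF k p φ g E A R

/-- `V` is the flag at the right side of the point `y t` of a line -/
structure RFl (y : ℝ → K → ℝ) (M : K → Finset (ℝ × ℝ)) (t : ℝ) (V : K → ℝ ×ₗ ℝ) : Prop where
  inz : InZ k p φ V
  fst : ∀ f, (ofLex (V f)).1 = y t f
  near : ∀ f, f ≠ 0 → ∃ δ > 0, ∀ ε, 0 < ε → ε < δ → y (t + ε) f = y t f + ε * c2 V f
  nd : ∃ x1 x2, x1 ≠ 0 ∧ x2 ≠ 0 ∧ y t x1 * c2 V x2 - y t x2 * c2 V x1 ≠ 0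
  dr : ∀ u : ℝ × ℝ, u ∈ DR (Br k g) M t ↔ (u.1, sd t u) ∈ DV (Br k g) (y t) (c2 V)

/-- `V` is the flag at the left side of the point `y t` of a line -/
structure LFl (y : ℝ → K → ℝ) (M : K → Finset (ℝ × ℝ)) (t : ℝ) (V : K → ℝ ×ₗ ℝ) : Prop where
  inz : InZ k p φ V
  fst : ∀ f, (ofLex (V f)).1 = y t f
  near : ∀ f, f ≠ 0 → ∃ δ > 0, ∀ ε, 0 < ε → ε < δ → y (t - ε) f = y t f + ε * c2 V f
  nd : ∃ x1 x2, x1 ≠ 0 ∧ x2 ≠ 0 ∧ y t x1 * c2 V x2 - y t x2 * c2 V x1 ≠ 0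
  dl : ∀ u : ℝ × ℝ, u ∈ DL (Br k g) M t ↔ (u.1, -sd t u) ∈ DV (Br k g) (y t) (c2 V)

/-- the exponents of the line `τ ↦ y (t + τ)` -/
noncomputable def sh (t : ℝ) (M : K → Finset (ℝ × ℝ)) : K → Finset (ℝ × ℝ) :=
  fun f => (M f).image fun m => (m.1 + t * m.2, m.2)

/-- the exponents of the line `τ ↦ y (t - τ)` -/
noncomputable def rsh (t : ℝ) (M : K → Finset (ℝ × ℝ)) : K → Finset (ℝ × ℝ) :=
  fun f => (M f).image fun m => (m.1 + t * m.2, -m.2)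

/-- The bottom of `P_a` is approached along one line, from the right. -/
structure Bot (A : Set K) (s : ℝ) (y : ℝ → K → ℝ) (M : K → Finset (ℝ × ℝ)) : Prop where
  cl : CL k p φ g 0 s y M
  pa : ∀ t, 0 < t → t ≤ s → PA k p φ g A (y t)
  des : ∀ t, 0 < t → t < s → DesL (Br k g) M t
  seg : ∀ t t', 0 < t → t < t' → t' ≤ s →
    DnL k p φ g A (t' - t) (fun τ => y (t' - τ)) (rsh t' M)
  cof : ∀ w, PA k p φ g A w → ∀ δ > 0, ∃ t, 0 < t ∧ t < δ ∧ t ≤ s ∧ Rch k p φ g A w (y t)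

/-- fat at the right side of the parameter `t`, all directions descending -/
def FatR (B : Set K) (M : K → Finset (ℝ × ℝ)) (t : ℝ) : Prop :=
  ∃ u ∈ DR B M t, ∃ u' ∈ DR B M t, 0 < sd t u ∧ 0 < sd t u' ∧ u.1 * u'.2 - u.2 * u'.1 ≠ 0

end

end Pool.Agent.F2PF
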