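import Pool.Agent.Lib.MP_305fdd_al.F2.PF.Stm

/-!
# MP_305fdd_al, F_2 project, section PF: piece `ext` (from an ideal to the ring)
-/

set_option autoImplicit false

namespace Pool.Agent.F2PF

open Pool.Agent.F2Ch

private theorem ext_arch {x y : ℝ} (h : ∀ n : ℕ, (n : ℝ) * x + y ≤ 0) : x ≤ 0 := by
  by_contra hx
  push Not at hx
  obtain ⟨n, hn⟩ := exists_nat_gt (-y / x)
  have h1 := h n
  rw [div_lt_iff₀ hx] at hn
  linarith

private theorem ext_pow {K : Type} [Field K] {w : K → ℝ}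
    (hw : ∀ f g, f ≠ 0 → g ≠ 0 → w (f * g) = w f + w g) {f h : K} (hf : f ≠ 0) (hh : h ≠ 0)
    (n : ℕ) : w (f ^ n * h) = n * w f + w h := by
  induction n with
  | zero => simp
  | succ n ih =>
    rw [pow_succ', mul_assoc, hw _ _ hf (mul_ne_zero (pow_ne_zero n hf) hh), ih]
    push_cast
    ring

theorem p_ext : S_ext := by
  intro K _ B I _ hI hh
  obtain ⟨h, hhI, hh0⟩ := hh
  have hpow : ∀ f ∈ B, ∀ n : ℕ, f ^ n * h ∈ I := by
    intro f hf n
    induction n with
    | zero => simpa using hhI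
    | succ n ih =>
      rw [pow_succ', mul_assoc]
      exact hI f hf _ ih
  refine ⟨fun w c hw hc u hu f hf hf0 => ?_, fun v v' hv hv' c hc f hf hf0 => ?_⟩
  · refine ext_arch (y := dot u (w h, c h)) fun n => ?_
    have h1 := hu (f ^ n * h) (hpow f hf n) (mul_ne_zero (pow_ne_zero n hf0) hh0)
    rw [ext_pow hw hf0 hh0, ext_pow hc hf0 hh0] at h1
    unfold dot at h1 ⊢
    simp only at h1 ⊢
    linarith
  · have h2 : v' f - c * v f ≤ 0 := by
      refine ext_arch (y := v' h - c * v h) fun n => ?_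
      have h1 := hc (f ^ n * h) (hpow f hf n) (mul_ne_zero (pow_ne_zero n hf0) hh0)
      rw [ext_pow hv.mul hf0 hh0, ext_pow hv'.mul hf0 hh0] at h1
      linarith
    linarith

end Pool.Agent.F2PF
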