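import Pool.Agent.Lib.MP_305fdd_al.F2.PF.Stm

/-!
# MP_305fdd_al, F_2 project, section PF: piece `gor` (Gordan's lemma in the plane)

Proof used here: fix `s₀ ∈ S`; every `t ∈ S` has the coordinates `α = ⟨s₀, t⟩`, `β = det (s₀, t)`.  If all
`β ≤ 0`, or all `β ≥ 0`, a functional is clear.  Otherwise let `c` be the infimum of the `α / β` with `β > 0`;
the functional `c β - α` is `≤ 0` on `S`.
-/

set_option autoImplicit false

namespace Pool.Agent.F2PF

open Pool.Agent.F2Ch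

private theorem gor_nsmul {S : Set (ℤ × ℤ)} (hS : ∀ a ∈ S, ∀ b ∈ S, a + b ∈ S) {s : ℤ × ℤ}
    (hs : s ∈ S) {n : ℤ} (hn : 0 < n) : (n * s.1, n * s.2) ∈ S := by
  obtain ⟨m, rfl⟩ : ∃ m : ℕ, n = m + 1 := ⟨(n - 1).toNat, by omega⟩
  induction m with
  | zero => simpa using hs
  | succ m ih =>
    have h1 := hS _ (ih (by positivity)) _ hs
    have h2 : (((m + 1 : ℕ) : ℤ) + 1) * s.1 = ((m : ℤ) + 1) * s.1 + s.1 := by push_cast; ring
    have h3 : (((m + 1 : ℕ) : ℤ) + 1) * s.2 = ((m : ℤ) + 1) * s.2 + s.2 := by push_cast; ring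
    rw [h2, h3]
    exact h1

/-- collinear elements have the same direction -/
private theorem gor_col {S : Set (ℤ × ℤ)} (hS : ∀ a ∈ S, ∀ b ∈ S, a + b ∈ S)
    (h0 : (0 : ℤ × ℤ) ∉ S) {s t : ℤ × ℤ} (hs : s ∈ S) (ht : t ∈ S)
    (hd : s.1 * t.2 - s.2 * t.1 = 0) : 0 < s.1 * t.1 + s.2 * t.2 := by
  by_contra hα
  push Not at hα
  have hs0 : 0 < s.1 ^ 2 + s.2 ^ 2 := by
    rcases eq_or_ne s.1 0 with h | h
    · rcases eq_or_ne s.2 0 with h' | h'
      · exact absurd (by rwa [show s = 0 from Prod.ext h h'] at hs) h0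
      · positivity
    · positivity
  have h1 := gor_nsmul hS ht hs0
  rcases hα.lt_or_eq with h2 | h2
  · have h3 := hS _ h1 _ (gor_nsmul hS hs (neg_pos.2 h2))
    apply h0
    convert h3 using 1
    ext
    · simp only [Prod.fst_zero, Prod.fst_add]
      linear_combination (s.2) * hd
    · simp only [Prod.snd_zero, Prod.snd_add]
      linear_combination (-s.1) * hd
  · apply h0
    convert h1 using 1
    ext
    · simp only [Prod.fst_zero]
      linear_combination (s.2) * hd + (-s.1) * h2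
    · simp only [Prod.snd_zero]
      linear_combination (-s.1) * hd + (-s.2) * h2

/-- elements on different sides -/
private theorem gor_tri {S : Set (ℤ × ℤ)} (hS : ∀ a ∈ S, ∀ b ∈ S, a + b ∈ S)
    (h0 : (0 : ℤ × ℤ) ∉ S) {s t r : ℤ × ℤ} (hs : s ∈ S) (ht : t ∈ S) (hr : r ∈ S)
    (h1 : 0 < s.1 * t.2 - s.2 * t.1) (h2 : s.1 * r.2 - s.2 * r.1 < 0) :
    0 < r.1 * t.2 - r.2 * t.1 := by
  by_contra hd
  push Not at hd
  have h3 := hS _ (gor_nsmul hS ht (neg_pos.2 h2)) _ (gor_nsmul hS hr h1)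
  rcases hd.lt_or_eq with h4 | h4
  · have h5 := hS _ h3 _ (gor_nsmul hS hs (neg_pos.2 h4))
    apply h0
    convert h5 using 1
    ext
    · simp only [Prod.fst_zero, Prod.fst_add]
      ring
    · simp only [Prod.snd_zero, Prod.snd_add]
      ring
  · apply h0
    convert h3 using 1
    ext
    · simp only [Prod.fst_zero, Prod.fst_add]
      linear_combination (-s.1) * h4
    · simp only [Prod.snd_zero, Prod.snd_add]
      linear_combination (-s.2) * h4

theorem p_gor : S_gor := by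
  intro S hS h0
  rcases Set.eq_empty_or_nonempty S with rfl | ⟨s, hs⟩
  · exact ⟨(1, 0), by simp, by simp⟩
  have hs0 : s ≠ 0 := fun h => h0 (h ▸ hs)
  have hsr : ((s.1 : ℝ), (s.2 : ℝ)) ≠ (0, 0) := by
    intro h
    apply hs0
    have h1 := congrArg Prod.fst h
    have h2 := congrArg Prod.snd h
    simp only at h1 h2
    exact Prod.ext (by exact_mod_cast h1) (by exact_mod_cast h2)
  by_cases hL : ∃ t ∈ S, 0 < s.1 * t.2 - s.2 * t.1
  · by_cases hR : ∃ r ∈ S, s.1 * r.2 - s.2 * r.1 < 0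
    · obtain ⟨t1, ht1, ht1'⟩ := hL
      obtain ⟨r1, hr1, hr1'⟩ := hR
      set A : Set ℝ := {x | ∃ t ∈ S, 0 < s.1 * t.2 - s.2 * t.1 ∧
        x = (((s.1 * t.1 + s.2 * t.2 : ℤ)) : ℝ) / ((s.1 * t.2 - s.2 * t.1 : ℤ) : ℝ)} with hA
      have hlow : ∀ r ∈ S, s.1 * r.2 - s.2 * r.1 < 0 → ∀ x ∈ A,
          (((s.1 * r.1 + s.2 * r.2 : ℤ)) : ℝ) / ((s.1 * r.2 - s.2 * r.1 : ℤ) : ℝ) ≤ x := by
        rintro r hr hr' x ⟨t, ht, ht', rfl⟩
        have h5 := gor_tri hS h0 hs ht hr ht' hr'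
        have hn : 0 < s.1 ^ 2 + s.2 ^ 2 := by
          rcases eq_or_ne s.1 0 with h | h
          · rcases eq_or_ne s.2 0 with h' | h'
            · exact absurd (Prod.ext h h') hs0
            · positivity
          · positivity
        have h6 : (s.1 * r.2 - s.2 * r.1) * (s.1 * t.1 + s.2 * t.2) <
            (s.1 * r.1 + s.2 * r.2) * (s.1 * t.2 - s.2 * t.1) := by
          have : 0 < (s.1 ^ 2 + s.2 ^ 2) * (r.1 * t.2 - r.2 * t.1) := mul_pos hn h5
          nlinarith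
        have h7 : ((s.1 * r.2 - s.2 * r.1 : ℤ) : ℝ) < 0 := by exact_mod_cast hr'
        have h8 : (0 : ℝ) < ((s.1 * t.2 - s.2 * t.1 : ℤ) : ℝ) := by exact_mod_cast ht'
        have h9 : ((s.1 * r.2 - s.2 * r.1 : ℤ) : ℝ) * ((s.1 * t.1 + s.2 * t.2 : ℤ) : ℝ) <
            ((s.1 * r.1 + s.2 * r.2 : ℤ) : ℝ) * ((s.1 * t.2 - s.2 * t.1 : ℤ) : ℝ) := by
          exact_mod_cast h6
        rw [div_le_iff_of_neg h7, div_mul_eq_mul_div, div_le_iff₀ h8]
        linarith
      have hne : A.Nonempty := ⟨_, t1, ht1, ht1', rfl⟩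
      have hbdd : BddBelow A := ⟨_, fun x hx => hlow r1 hr1 hr1' x hx⟩
      set c := sInf A with hc
      refine ⟨(-(c * s.2) - s.1, c * s.1 - s.2), ?_, fun t ht => ?_⟩
      · intro h
        have e1 := congrArg Prod.fst h
        have e2 := congrArg Prod.snd h
        simp only [Prod.fst_zero, Prod.snd_zero] at e1 e2
        have e3 : ((s.1 : ℝ) ^ 2 + (s.2 : ℝ) ^ 2) = 0 := by
          linear_combination (-(s.1 : ℝ)) * e1 - (s.2 : ℝ) * e2
        have e4 : (s.1 : ℝ) = 0 := by nlinarith [sq_nonneg (s.1 : ℝ), sq_nonneg (s.2 : ℝ)]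
        have e5 : (s.2 : ℝ) = 0 := by nlinarith [sq_nonneg (s.1 : ℝ), sq_nonneg (s.2 : ℝ)]
        exact hsr (by rw [e4, e5])
      · show (-(c * s.2) - s.1) * (t.1 : ℝ) + (c * s.1 - s.2) * (t.2 : ℝ) ≤ 0
        have key : c * ((s.1 * t.2 - s.2 * t.1 : ℤ) : ℝ) ≤ ((s.1 * t.1 + s.2 * t.2 : ℤ) : ℝ) := by
          rcases lt_trichotomy (s.1 * t.2 - s.2 * t.1) 0 with hβ | hβ | hβ
          · have h7 : ((s.1 * t.2 - s.2 * t.1 : ℤ) : ℝ) < 0 := by exact_mod_cast hβ
            have h8 := le_csInf hne (hlow t ht hβ)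
            rwa [div_le_iff_of_neg h7] at h8
          · have h8 := gor_col hS h0 hs ht hβ
            rw [hβ]
            simp only [Int.cast_zero, mul_zero]
            exact_mod_cast h8.le
          · have h7 : (0 : ℝ) < ((s.1 * t.2 - s.2 * t.1 : ℤ) : ℝ) := by exact_mod_cast hβ
            have h8 := csInf_le hbdd (show _ ∈ A from ⟨t, ht, hβ, rfl⟩)
            rwa [le_div_iff₀ h7] at h8
        push_cast at key
        linarith
    · push Not at hR
      refine ⟨(s.2, -s.1), ?_, fun t ht => ?_⟩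
      · intro h
        have e1 := congrArg Prod.fst h
        have e2 := congrArg Prod.snd h
        simp only [Prod.fst_zero, Prod.snd_zero] at e1 e2
        exact hsr (Prod.ext (by linarith) e1)
      · have h5 : (0 : ℝ) ≤ ((s.1 * t.2 - s.2 * t.1 : ℤ) : ℝ) := by exact_mod_cast hR t ht
        push_cast at h5
        show (s.2 : ℝ) * (t.1 : ℝ) + -(s.1 : ℝ) * (t.2 : ℝ) ≤ 0
        linarith
  · push Not at hL
    refine ⟨(-s.2, s.1), ?_, fun t ht => ?_⟩
    · intro h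
      have e1 := congrArg Prod.fst h
      have e2 := congrArg Prod.snd h
      simp only [Prod.fst_zero, Prod.snd_zero] at e1 e2
      exact hsr (Prod.ext e2 (by linarith))
    · have h5 : ((s.1 * t.2 - s.2 * t.1 : ℤ) : ℝ) ≤ 0 := by exact_mod_cast hL t ht
      push_cast at h5
      show -(s.2 : ℝ) * (t.1 : ℝ) + (s.1 : ℝ) * (t.2 : ℝ) ≤ 0
      linarith

end Pool.Agent.F2PF
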