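import Pool.Agent.Lib.MP_305fdd_al.F2.ChDefs

/-!
# MP_305fdd_al, F_2 project, section PF (order, lines, fatness): definitions

`B` is a set of elements of the field `K` (the trace ring), real valuations are functions
`v : K → ℝ` with `IsV v`.  A line is a one-parameter family `y t`, `t ∈ J`, of valuations such that for
`0 ≠ f ∈ B` the function `t ↦ y t f` is the minimum of finitely many affine functions
`t ↦ m.1 + t * m.2`, `m ∈ M f`.
-/

set_option autoImplicit false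

namespace Pool.Agent.F2PF

open Pool.Agent.F2Ch

section
variable {K : Type} [Field K]

/-- `B` contains `1`, is closed under products and `K` is its field of fractions -/
structure Bs (B : Set K) : Prop where
  one : (1 : K) ∈ B
  mul : ∀ a ∈ B, ∀ b ∈ B, a * b ∈ B
  frac : ∀ x : K, ∃ a ∈ B, ∃ b ∈ B, b ≠ 0 ∧ x * b = a

/-- `v ≤ 0` on `B` (semi-good) -/
def SG (B : Set K) (v : K → ℝ) : Prop := ∀ f ∈ B, f ≠ 0 → v f ≤ 0

/-- `v' ≤ c v` on `B` for some `c > 0` -/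
def Le (B : Set K) (v' v : K → ℝ) : Prop := ∃ c : ℝ, 0 < c ∧ ∀ f ∈ B, f ≠ 0 → v' f ≤ c * v f

/-- `v` is at infinity: not `≥ 0` on `B` -/
def AtInf (B : Set K) (v : K → ℝ) : Prop := ∃ f ∈ B, f ≠ 0 ∧ v f < 0

/-- `v` and `v'` are proportional -/
def Pr (v v' : K → ℝ) : Prop := ∃ c : ℝ, 0 < c ∧ ∀ f, v' f = c * v f

end

/-! ### Pairs -/

/-- the value of the functional `u` at the exponent `m` -/
def dot (u m : ℝ × ℝ) : ℝ := u.1 * m.1 + u.2 * m.2

/-- positive iff `u` is on the right side of the point `(1, t)` -/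
def sd (t : ℝ) (u : ℝ × ℝ) : ℝ := u.2 - t * u.1

/-- the plane cone `D` is two-dimensional -/
def Fat (D : Set (ℝ × ℝ)) : Prop := ∃ u ∈ D, ∃ u' ∈ D, u.1 * u'.2 - u.2 * u'.1 ≠ 0

/-- `m` is the leading exponent at the right side of the parameter `t` -/
structure IsR (S : Finset (ℝ × ℝ)) (t : ℝ) (m : ℝ × ℝ) : Prop where
  mem : m ∈ S
  min : ∀ m' ∈ S, m.1 + t * m.2 ≤ m'.1 + t * m'.2
  tie : ∀ m' ∈ S, m'.1 + t * m'.2 = m.1 + t * m.2 → m.2 ≤ m'.2

/-- `m` is the leading exponent at the left side of the parameter `t` -/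
structure IsL (S : Finset (ℝ × ℝ)) (t : ℝ) (m : ℝ × ℝ) : Prop where
  mem : m ∈ S
  min : ∀ m' ∈ S, m.1 + t * m.2 ≤ m'.1 + t * m'.2
  tie : ∀ m' ∈ S, m'.1 + t * m'.2 = m.1 + t * m.2 → m'.2 ≤ m.2

/-- reflection of exponents and functionals -/
def rf (m : ℝ × ℝ) : ℝ × ℝ := (m.1, -m.2)

section
variable {K : Type} [Field K]

/-- A line of valuations. -/
structure Line (B : Set K) (J : Set ℝ) (y : ℝ → K → ℝ) (M : K → Finset (ℝ × ℝ)) : Prop where
  isv : ∀ t ∈ J, IsV (y t)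
  ne : ∀ f ∈ B, f ≠ 0 → (M f).Nonempty
  le : ∀ f ∈ B, f ≠ 0 → ∀ t ∈ J, ∀ m ∈ M f, y t f ≤ m.1 + t * m.2
  ex : ∀ f ∈ B, f ≠ 0 → ∀ t ∈ J, ∃ m ∈ M f, y t f = m.1 + t * m.2
  nd : ∃ (x1 x2 : K) (a b : ℝ × ℝ), x1 ≠ 0 ∧ x2 ≠ 0 ∧ a.1 * b.2 - a.2 * b.1 ≠ 0 ∧
    ∀ t ∈ J, y t x1 = a.1 + t * a.2 ∧ y t x2 = b.1 + t * b.2

/-- the functionals which are `≤ 0` on `B` at the right side of `t` -/
def DR (B : Set K) (M : K → Finset (ℝ × ℝ)) (t : ℝ) : Set (ℝ × ℝ) :=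
  {u | ∀ f ∈ B, f ≠ 0 → ∀ m, IsR (M f) t m → dot u m ≤ 0}

/-- the functionals which are `≤ 0` on `B` at the left side of `t` -/
def DL (B : Set K) (M : K → Finset (ℝ × ℝ)) (t : ℝ) : Set (ℝ × ℝ) :=
  {u | ∀ f ∈ B, f ≠ 0 → ∀ m, IsL (M f) t m → dot u m ≤ 0}

/-- the functionals which are `≤ 0` on the values `(w f, c f)`, `f ∈ B` -/
def DV (B : Set K) (w c : K → ℝ) : Set (ℝ × ℝ) :=
  {u | ∀ f ∈ B, f ≠ 0 → dot u (w f, c f) ≤ 0}

/-- the line descends to the right at the right side of `t` -/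
def DesR (B : Set K) (M : K → Finset (ℝ × ℝ)) (t : ℝ) : Prop := ∃ u ∈ DR B M t, 0 < sd t u

/-- the line descends to the left at the left side of `t` -/
def DesL (B : Set K) (M : K → Finset (ℝ × ℝ)) (t : ℝ) : Prop := ∃ u ∈ DL B M t, sd t u < 0

end

end Pool.Agent.F2PF
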