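import Pool.Agent.Lib.MP_305fdd_al.F2.PF.DefsB
import Pool.Agent.Lib.MP_305fdd_al.F2.UL.Stm

/-!
# MP_305fdd_al, F_2 project, section PF, part B1 (lines and flags in charts): the pieces [F2PF ..]

Every `def S_xx : Prop` is one independent piece; its docstring contains the complete proof.  The other statements (of
`PF/Stm.lean`, of this file, of `UL/Stm.lean`) may be taken as hypotheses, and so may `S_X1` .. `S_X6` of `ChApi.lean`.

Conventions.  `B = Br k g`.  `CL k p φ g s1 s2 y M`: a closed line in a chart of rank two.  `RFl`, `LFl`: the flags at the right and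
at the left of a point of a line.  `Ctx`: the standing assumptions (`Base` and the local facts `LocF`).
-/

set_option autoImplicit false

namespace Pool.Agent.F2PF

open MvPolynomial Pool.Agent.F2Ch

/-! ## 1. Lines -/

/-- [F2PF line] (about 100 lines) First properties of lines.
Proof. `Bs`: `1 = aeval g 1`, products, `FracGen` (`Base.gen`).  Let `CL` hold with the chart `V, x, ex, ac, φb, N, L` and `d, e`.  For `0 ≠ f ∈ B` and `t ∈ [s1, s2]`, `OnCh.min` says that `y t f` is the minimum of the `wt (d + t e) m`, `m ∈ supp (L f)`, and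
`wt (d + t e) m = wt d m + t * wt e m` (so `M f` is nonempty, and `Line.le`, `Line.ex`).  `isv`: `OnCh.inz.isv`.  `nd`: `x1 = x 0`, `x2 = x 1` (nonzero: `Chart.vb.ne`), `a = (d 0, e 0)`, `b = (d 1, e 1)`.  `y t` is not trivial: `y t (x i) = d i + t * e i` are not both `0` because the
determinant is nonzero.  Restriction: clear. -/
def S_line : Prop :=
  ∀ (p : ℕ) [Fact p.Prime] (k K : Type) [Field k] [CharP k p] [PerfectRing k p] [Field K]
    [Algebra k K] (n : ℕ) (g : Fin n → K) (φ : K → K),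
    (FracGen k g → Bs (Br k g)) ∧
    ∀ (s1 s2 : ℝ) (y : ℝ → K → ℝ) (M : K → Finset (ℝ × ℝ)), CL k p φ g s1 s2 y M →
      Line (Br k g) (Set.Icc s1 s2) y M ∧
      (∀ t, s1 ≤ t → t ≤ s2 → InZ k p φ (y t) ∧ ∃ f, y t f ≠ 0) ∧
      ∀ a b, s1 ≤ a → a < b → b ≤ s2 → CL k p φ g a b y M

/-- [F2PF crev] (about 80 lines) Reversal and shift of lines.
Proof. Reversal: the same chart, `d' = d`, `e' = -e`: `wt (-e) m = - wt e m`, `rf (wt d m, wt e m) = (wt d m, - wt e m)`, `d + t e' = d + (-t) e`.  Shift: `d' = d + c e`, `e' = e`: `wt (d + c e) m = wt d m + c * wt e m`, determinant `d' 0 * e 1 - d' 1 * e 0 = d 0 * e 1 - d 1 * e 0`. -/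
def S_crev : Prop :=
  ∀ (p : ℕ) [Fact p.Prime] (k K : Type) [Field k] [CharP k p] [PerfectRing k p] [Field K]
    [Algebra k K] (n : ℕ) (g : Fin n → K) (φ : K → K) (s1 s2 : ℝ) (y : ℝ → K → ℝ)
    (M : K → Finset (ℝ × ℝ)), CL k p φ g s1 s2 y M →
    CL k p φ g (-s2) (-s1) (fun t => y (-t)) (fun f => (M f).image rf) ∧
    ∀ c : ℝ, CL k p φ g (s1 - c) (s2 - c) (fun t => y (c + t))
      (fun f => (M f).image fun m => (m.1 + c * m.2, m.2))

/-- [F2PF pr] (about 80 lines) Scaling.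
Proof. `v' = c v`, `c > 0`: everything is homogeneous (`InZ`: `IsV`, `Triv`, `Compat`; `n • (c * γ)`).  (For `Pr` symmetric: `v = c⁻¹ v'`.)  Last part: `V' f = toLex (c * w f, c2 V f)`: the map `(a, b) ↦ (c a, b)` is an additive automorphism of `ℝ ×ₗ ℝ` which preserves the order, so `V'` is in `InZ` and has
the same signs. -/
def S_pr : Prop :=
  ∀ (p : ℕ) [Fact p.Prime] (k K : Type) [Field k] [CharP k p] [PerfectRing k p] [Field K]
    [Algebra k K] (n : ℕ) (g : Fin n → K) (φ : K → K),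
    (∀ v v' v'' : K → ℝ, Pr v v ∧ (Pr v v' → Pr v' v) ∧ (Pr v v' → Pr v' v'' → Pr v v'')) ∧
    (∀ v v' : K → ℝ, Pr v v' → (InZ k p φ v → InZ k p φ v') ∧ (SG (Br k g) v → SG (Br k g) v') ∧
      (AtInf (Br k g) v → AtInf (Br k g) v') ∧ (Dv v → Dv v') ∧ (∀ f, v f = 0 → v' f = 0) ∧
      (∀ f, 0 < v f → 0 < v' f) ∧ Le (Br k g) v v' ∧ Le (Br k g) v' v) ∧
    ∀ (V : K → ℝ ×ₗ ℝ) (w w' : K → ℝ), InZ k p φ V → (∀ f, (ofLex (V f)).1 = w f) → Pr w w' →
      ∃ V' : K → ℝ ×ₗ ℝ, InZ k p φ V' ∧ (∀ f, (ofLex (V' f)).1 = w' f) ∧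
        (∀ f, c2 V' f = c2 V f) ∧ Eqv V V' ∧ ∀ f, V f = 0 ↔ V' f = 0

/-- [F2PF ell] (about 80 lines) Ellipticity.
Proof. (a) `z ∈ E`, `φ^[M] (z ^ 2) = c ≠ 0` (`LocF.ct`).  If `0 < V z` then `0 < V (z ^ 2)`; `Compat` iterated: `V f ≤ p ^ M • V (φ^[M] f)` as long as the iterates are nonzero (they are: `φ 0 = 0` by `IsPinv.pow_mul` with `a = 0`, so all the iterates of `z ^ 2` up to `M` are nonzero because the last one is);
`V (algebraMap c) = 0` by `Triv`: `0 < V (z^2) ≤ p^M • 0 = 0`, a contradiction.  (b) `v z = 0 ≤ c * v' z`, so `0 ≤ v' z`, and `v' z ≤ 0` by (a).  (c) `y t z ≤ 0` by (a); `y t z = m.1 + t * m.2` for some `m ∈ M z` (`Line.ex`), `0 ≤ m.1 + a * m.2` and `0 ≤ m.1 + b * m.2` (`Line.le`), so `0 ≤ m.1 + t * m.2`. -/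
def S_ell : Prop :=
  ∀ (p : ℕ) [Fact p.Prime] (k K : Type) [Field k] [CharP k p] [PerfectRing k p] [Field K]
    [Algebra k K] (n : ℕ) (g : Fin n → K) (φ : K → K) (E A : Set K) (R : K → ℝ),
    Ctx k p φ g E A R → ∀ z ∈ E,
    (∀ (Γ : Type) [AddCommGroup Γ] [LinearOrder Γ] [IsOrderedAddMonoid Γ] (V : K → Γ),
      InZ k p φ V → V z ≤ 0) ∧
    (∀ v v' : K → ℝ, InZ k p φ v' → Le (Br k g) v v' → v z = 0 → v' z = 0) ∧
    ∀ (s1 s2 : ℝ) (y : ℝ → K → ℝ) (M : K → Finset (ℝ × ℝ)), CL k p φ g s1 s2 y M →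
      ∀ a b, s1 ≤ a → b ≤ s2 → y a z = 0 → y b z = 0 → ∀ t, a ≤ t → t ≤ b → y t z = 0

/-- [F2PF anti] (about 80 lines) Uses `S_strict`, `S_line`, `S_pr`. Antisymmetry of the order; points of a line are not proportional.
Proof. (a) If `AtInf v`: `S_strict` (first part; `Bs` from `S_line`).  Otherwise `0 ≤ v f` for `0 ≠ f ∈ B`; `v` is not trivial, so `Pr R v` (`LocF.R9`).  `v ≤ c v'` on `B`, so `0 ≤ v' f`, and `v'` is not trivial (`0 < v f ≤ c v' f` for some `f`), so `Pr R v'`.  (b) `S_strict` (second part).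
(c) semi-good and nontrivial implies at infinity: otherwise `v f = 0` for all `0 ≠ f ∈ B`, so `v = 0` (`Bs.frac`).  (d) not at infinity and nontrivial: `Pr R v` by `R9`; conversely `Pr R v` implies `0 ≤ v f` (`Rnn`).  `R` is not semi-good (`Rpos`, `g j ∈ B`). -/
def S_anti : Prop :=
  ∀ (p : ℕ) [Fact p.Prime] (k K : Type) [Field k] [CharP k p] [PerfectRing k p] [Field K]
    [Algebra k K] (n : ℕ) (g : Fin n → K) (φ : K → K) (E A : Set K) (R : K → ℝ),
    Ctx k p φ g E A R →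
    (∀ v v' : K → ℝ, InZ k p φ v → InZ k p φ v' → ¬ SG (Br k g) v → Le (Br k g) v' v →
      Le (Br k g) v v' → Pr v v') ∧
    (∀ (s1 s2 : ℝ) (y : ℝ → K → ℝ) (M : K → Finset (ℝ × ℝ)), CL k p φ g s1 s2 y M →
      ∀ t t', s1 ≤ t → t ≤ s2 → s1 ≤ t' → t' ≤ s2 → Pr (y t) (y t') → t = t') ∧
    (∀ v : K → ℝ, InZ k p φ v → (∃ f, v f ≠ 0) → SG (Br k g) v → AtInf (Br k g) v) ∧
    (∀ v : K → ℝ, InZ k p φ v → (∃ f, v f ≠ 0) → (AtInf (Br k g) v ↔ ¬ Pr R v)) ∧
    ¬ SG (Br k g) R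

/-- [F2PF rk2] (about 200 lines) RANK TWO.  (Uses `S_X2`, `S_X3`.)
Proof. `S_X2` for `V`: a chart of rank `r`, `r + s = 3`.  `r = 3`: then `s = 0`, `κ` has a `p`-basis with one element `b' 0`; `1 = (ρ 1) ^ p * b' 0`, so `b' 0` is a `p`-th power and every `c ∈ κ` is a `p`-th power; `S_X3` with `ι = Unit`, `u = V ∘ x`, `w = V` (`Chart.good`, `Chart.onch`), `aeval g q = z`,
`M, c` from `LocF.ct` gives `m ≠ 0` with `wt (V ∘ x) m = 0`, against `vb.indep`.  `r ≤ 1`: all values are integer multiples of one `γ` (`0` if `r = 0`): `V x1 = n1 • γ`, `V x2 = n2 • γ`, and the determinant is `n1 n2 γ.1 γ.2 - n2 n1 γ.1 γ.2 = 0`, a contradiction.  So `r = 2`.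
Let `a i = w (x i)` (first component of `V (x i)`), so `w f = ex f 0 * a 0 + ex f 1 * a 1` for `f ≠ 0`.  Let `f ≠ 0`, `w f = 0`, `V f ≠ 0`: `e = ex f ≠ 0` and `e 0 * a 0 + e 1 * a 1 = 0`, so `a 0 = λ e 1`, `a 1 = - λ e 0` and all values of `w` are in `λ ℤ`: `Dv w` (`γ = |λ|`, or `1` if `λ = 0`).
Conversely let `Dv w`: `a 0 = n0 • γ`, `a 1 = n1 • γ`, not both `0` (`w` is not trivial by `nd`); `f = x 0 ^ n1 * x 1 ^ (-n0)` has `w f = 0` and `V f = wt (V ∘ x) (n1, -n0) ≠ 0` (`indep`), so `c2 V f ≠ 0`. -/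
def S_rk2 : Prop :=
  ∀ (p : ℕ) [Fact p.Prime] (k K : Type) [Field k] [CharP k p] [PerfectRing k p] [Field K]
    [Algebra k K] (n : ℕ) (g : Fin n → K) (φ : K → K) (E A : Set K) (R : K → ℝ),
    Ctx k p φ g E A R → ∀ (w : K → ℝ) (V : K → ℝ ×ₗ ℝ), InZ k p φ V →
    (∀ f, (ofLex (V f)).1 = w f) →
    (∃ x1 x2, x1 ≠ 0 ∧ x2 ≠ 0 ∧ w x1 * c2 V x2 - w x2 * c2 V x1 ≠ 0) → (∃ z ∈ E, V z = 0) →
    (∃ (κ : Type) (_ : Field κ) (_ : Algebra k κ) (x : Fin 2 → K) (ex : K → Fin 2 → ℤ)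
      (ac : K → κ) (φb : κ → κ) (N : Set (Fin 2 → ℤ)) (L : K → AddMonoidAlgebra κ (Fin 2 → ℤ)),
      Chart k p φ g V x ex ac φb N L) ∧
    (¬ Dv w → ∀ f, w f = 0 → V f = 0) ∧
    (Dv w → ∃ f, f ≠ 0 ∧ w f = 0 ∧ c2 V f ≠ 0)

/-- [F2PF rfl] (about 200 lines) Uses `S_line`, `S_in`, `S_germ`. THE FLAG AT THE RIGHT SIDE of a point of a line.
Proof. Chart data of `CL` and `d, e`; `u i = toLex (d i + t * e i, e i) : ℝ ×ₗ ℝ`.  `Good N u`: for `m ∈ N`, `0 < wt (d + t' e) m` for `t < t' < s2`; let `t' → t`: `0 ≤ wt (d + t e) m`, and if it is `0` then `0 < (t' - t) * wt e m`.  `wt u m = toLex (wt (d + t e) m, wt e m)`.  `Chart.cell` with `Γ' = ℝ ×ₗ ℝ`: `V` with `OnCh .. L u V`,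
`V (x i) = u i`.  For `0 ≠ f ∈ B` and `IsR (M f) t m`: `V f = toLex (m.1 + t * m.2, m.2)` (lexicographic minimum over the support of `L f`; note that `m.1 + t * m.2` is the least first component, and among the exponents with this first component `m.2` is the least second component).  So `(V f).1 = y t f` (`S_germ`) for
`f ∈ B`, and for all `f ∈ K` by `FracGen` (both sides are additive on products).  `near` for `f ∈ B`: `S_germ`, `y t' f = m.1 + t' * m.2 = y t f + (t' - t) * m.2`; for `f ∈ K` by `FracGen`.  `nd`: `x 0`, `x 1`: the determinant is `(d 0 + t e 0) e 1 - (d 1 + t e 1) e 0`.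
`dr`: `dot u (m.1, m.2) = u.1 * (m.1 + t * m.2) + (u.2 - t * u.1) * m.2 = dot (u.1, sd t u) (y t f, c2 V f)`.  Last claim: `near` for `z` and two values of `ε`: `y t z + ε c2 V z = 0` for all small `ε`, so both are `0`. -/
def S_rfl : Prop :=
  ∀ (p : ℕ) [Fact p.Prime] (k K : Type) [Field k] [CharP k p] [PerfectRing k p] [Field K]
    [Algebra k K] (n : ℕ) (g : Fin n → K) (φ : K → K), FracGen k g → ∀ (s1 s2 : ℝ)
    (y : ℝ → K → ℝ) (M : K → Finset (ℝ × ℝ)), CL k p φ g s1 s2 y M → ∀ t, s1 ≤ t → t < s2 →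
    (∃ V, RFl k p φ g y M t V) ∧
    ∀ V, RFl k p φ g y M t V → ∀ z, z ≠ 0 →
      (∃ δ > 0, ∀ t', t < t' → t' < t + δ → t' ≤ s2 → y t' z = 0) → V z = 0

/-- [F2PF lfl] (about 80 lines) Uses `S_rfl`, `S_crev`, `S_refl`. THE FLAG AT THE LEFT SIDE.
Proof. `S_rfl` for the reversed line at `-t`.  `near`: `y (-(-t + ε)) = y (t - ε)`.  `dl`: `u ∈ DL B M t ↔ rf u ∈ DR B (reversed M) (-t)` (`S_refl`) `↔ (u.1, sd (-t) (rf u)) ∈ DV ..`, and `sd (-t) (rf u) = - sd t u`. -/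
def S_lfl : Prop :=
  ∀ (p : ℕ) [Fact p.Prime] (k K : Type) [Field k] [CharP k p] [PerfectRing k p] [Field K]
    [Algebra k K] (n : ℕ) (g : Fin n → K) (φ : K → K), FracGen k g → ∀ (s1 s2 : ℝ)
    (y : ℝ → K → ℝ) (M : K → Finset (ℝ × ℝ)), CL k p φ g s1 s2 y M → ∀ t, s1 < t → t ≤ s2 →
    (∃ V, LFl k p φ g y M t V) ∧
    ∀ V, LFl k p φ g y M t V → ∀ z, z ≠ 0 →
      (∃ δ > 0, ∀ t', t' < t → t - δ < t' → s1 ≤ t' → y t' z = 0) → V z = 0

/-- [F2PF cflag] (about 200 lines) Uses `S_rk2`. FROM A FLAG TO A LINE.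
Proof. `S_rk2` applies to `V`: `nd` with `x1` such that `w x1 ≠ 0` and `x2 = f` from `Flag.nt` (`w f = 0`, `c2 V f ≠ 0`).  So there is a chart of rank two at `V`.  `d i = w (x i)`, `e i = c2 V (x i)`; the determinant is not `0`: otherwise `(d 0, d 1)` and `(e 0, e 1)` are dependent; as `w x1 = wt d (ex x1) ≠ 0`, `d ≠ 0`, so `e = γ d` and `c2 V f = γ w f`, against `nt`.
`Good N (d + t e)` for `0 < t < s0`: `N` is finite, and `0 < V-weight of m` means `0 < wt d m`, or `wt d m = 0 < wt e m`.  For `0 < t < s0` let `y t` be the valuation of `Chart.cell`, `y 0 = w` (and `y t = w` for the other `t`).  `OnCh` at `t = 0`: `w` is the first component of `V`: `InZ` (first components of inequalities in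
`ℝ ×ₗ ℝ`), and by `OnCh.min` for `V` (`Chart.onch`) `V f` is the lexicographic minimum of the `(wt d m, wt e m)`, so `w f` is the minimum of the `wt d m`.  `M f` = the image of the support of `L f`.  `s` with `s < s0`.  `RFl`: `inz`, `fst` clear; `near`: for `0 ≠ f ∈ B` the lexicographic minimum is attained at an exponent which is minimal for
`d + t e` for all small `t > 0`; then `FracGen`; `nd` shown; `dr`: for `IsR (M f) 0 m`, `m = (w f, c2 V f)`, and `sd 0 u = u.2`.  Elliptic: `V z = 0`: some exponent `m` of `L z` has `V`-weight `0`, so `m = 0` (`vb.indep`), the other exponents have positive `V`-weight (minimum, `indep`), so for small `t > 0` all exponents have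
`wt (d + t e) m ≥ 0` with equality for `m = 0`: `y t z = 0` for `0 ≤ t ≤ s`, `s` small. -/
def S_cflag : Prop :=
  ∀ (p : ℕ) [Fact p.Prime] (k K : Type) [Field k] [CharP k p] [PerfectRing k p] [Field K]
    [Algebra k K] (n : ℕ) (g : Fin n → K) (φ : K → K) (E A : Set K) (R : K → ℝ),
    Ctx k p φ g E A R → ∀ (w : K → ℝ) (V : K → ℝ ×ₗ ℝ), (∃ f, w f ≠ 0) → Flag k p φ w V →
    ∀ z ∈ E, V z = 0 →
    ∃ (s : ℝ) (y : ℝ → K → ℝ) (M : K → Finset (ℝ × ℝ)), CL k p φ g 0 s y M ∧ y 0 = w ∧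
      RFl k p φ g y M 0 V ∧ ∀ t, 0 ≤ t → t ≤ s → y t z = 0

/-- [F2PF cirr] (about 150 lines) FROM AN IRRATIONAL POINT TO A TWO-SIDED LINE.  (Uses `S_X2`, `S_X3`.)
Proof. `S_X2` for `V = x : K → ℝ`.  `r = 3` is excluded as in `S_rk2`; `r = 0` or `r = 1` would give `Dv x` (`vb.gen`: `x f = ex f 0 • x (x_0)`, `vb.pos`; for `r = 0` all values are `0`).  So `r = 2`; `d i = x (x_i)`, `Good N d` (`Chart.good`), `e = (- d 1, d 0)` (determinant `d 0 ^ 2 + d 1 ^ 2 > 0`).  `N` is finite, so `Good N (d + t e)` for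
`|t| < s0`.  `y t` from `Chart.cell`; `y 0 = x` by `Chart.uniq` (`Chart.onch`).  Elliptic: `x z = 0`: the minimal exponent of `L z` at `d` has weight `0` so it is `0` (`indep`), the others are positive at `d`, hence at `d + t e` for small `|t|`: `y t z = 0`.  Take `s < s0` small. -/
def S_cirr : Prop :=
  ∀ (p : ℕ) [Fact p.Prime] (k K : Type) [Field k] [CharP k p] [PerfectRing k p] [Field K]
    [Algebra k K] (n : ℕ) (g : Fin n → K) (φ : K → K) (E A : Set K) (R : K → ℝ),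
    Ctx k p φ g E A R → ∀ x : K → ℝ, InZ k p φ x → ¬ Dv x → ∀ z ∈ E, x z = 0 →
    ∃ (s : ℝ) (y : ℝ → K → ℝ) (M : K → Finset (ℝ × ℝ)), 0 < s ∧ CL k p φ g (-s) s y M ∧
      y 0 = x ∧ ∀ t, -s ≤ t → t ≤ s → y t z = 0

/-- [F2PF irr] (about 150 lines) IRRATIONAL POINTS OF A LINE are two-sided.
Proof. Chart data `d, e`.  Claim: if `y t` is not divisorial and `m` is an integer vector with `wt (d + t e) m = 0` then `m = 0`: otherwise `d i + t e i = λ * (m 1, - m 0)` and all `wt (d + t e) m'` are in `λ ℤ`; `y t f` is one of them for `0 ≠ f ∈ B`, so for all `f` (`FracGen`): `Dv (y t)`.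
(a) For `0 ≠ f ∈ B` let `IsR (M f) t m`, `IsL (M f) t m'`: they come from exponents `μ, μ'` of `L f` with `wt (d + t e) μ = wt (d + t e) μ'`, so `μ = μ'` by the claim and `m = m'`.  So `DR = DL` (both exist: `M f` is finite nonempty).
(b) At `t = s1`: for `m ∈ N`, `m ≠ 0` (`Good N` at interior points), `0 ≤ wt (d + s1 e) m` by continuity and `≠ 0` by the claim; `N` is finite, so `Good N (d + t e)` for `s1 - δ' < t ≤ s1`.  Take `y' t` from `Chart.cell` for these `t`, and `y' t = y t` for `t ≥ s1` (`y' s1 = y s1` is on the chart by hypothesis);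
`δ = δ' / 2`. -/
def S_irr : Prop :=
  ∀ (p : ℕ) [Fact p.Prime] (k K : Type) [Field k] [CharP k p] [PerfectRing k p] [Field K]
    [Algebra k K] (n : ℕ) (g : Fin n → K) (φ : K → K), FracGen k g → ∀ (s1 s2 : ℝ)
    (y : ℝ → K → ℝ) (M : K → Finset (ℝ × ℝ)), CL k p φ g s1 s2 y M →
    (∀ t, s1 ≤ t → t ≤ s2 → ¬ Dv (y t) → DR (Br k g) M t = DL (Br k g) M t) ∧
    (¬ Dv (y s1) → ∃ (δ : ℝ) (y' : ℝ → K → ℝ), 0 < δ ∧ (∀ t, s1 ≤ t → t ≤ s2 → y' t = y t) ∧
      CL k p φ g (s1 - δ) s2 y' M)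

/-- [F2PF dense] (about 120 lines) Divisorial points are dense on a line; continuity.
Proof. (a) `u = d + a e`, `u' = d + b e` are linearly independent, so there is a real vector `r` with `wt u r = -1`, `wt u' r = 1`; by continuity and density there is a rational, hence (multiply) an integer vector `m` with `wt u m < 0 < wt u' m`; the affine function `t ↦ wt (d + t e) m` has a zero `t ∈ (a, b)`, and `m ≠ 0`.
Then `d + t e = λ (m 1, - m 0)` and all values of `y t` are in `λ ℤ` (`OnCh.min`, `FracGen`): `Dv` with `γ = |λ|` (`λ ≠ 0` as `d + t e ≠ 0`).  (b) For `0 ≠ f ∈ B`, `t ↦ y t f` is a minimum of finitely many affine functions (`Line.le`, `Line.ex`), so it is continuous on `[s1, s2]`; if it is `> 0` (`< 0`) at `t0` it is so near `t0`. -/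
def S_dense : Prop :=
  ∀ (p : ℕ) [Fact p.Prime] (k K : Type) [Field k] [CharP k p] [PerfectRing k p] [Field K]
    [Algebra k K] (n : ℕ) (g : Fin n → K) (φ : K → K), FracGen k g → ∀ (s1 s2 : ℝ)
    (y : ℝ → K → ℝ) (M : K → Finset (ℝ × ℝ)), CL k p φ g s1 s2 y M →
    (∀ a b, s1 ≤ a → a < b → b ≤ s2 → ∃ t, a < t ∧ t < b ∧ Dv (y t)) ∧
    (∀ f ∈ Br k g, f ≠ 0 → ContinuousOn (fun t => y t f) (Set.Icc s1 s2)) ∧
    (∀ t0, s1 ≤ t0 → t0 ≤ s2 → ¬ SG (Br k g) (y t0) → ∃ δ > 0, ∀ t, s1 ≤ t → t ≤ s2 →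
      |t - t0| < δ → ¬ SG (Br k g) (y t)) ∧
    ∀ t0, s1 ≤ t0 → t0 ≤ s2 → AtInf (Br k g) (y t0) → ∃ δ > 0, ∀ t, s1 ≤ t → t ≤ s2 →
      |t - t0| < δ → AtInf (Br k g) (y t)

/-- [F2PF gap] (about 100 lines) The two flags of a divisorial point inside a line are not equivalent.
Proof. Chart data: `y t' (x i) = d i + t' e i` for all `t'`.  By `near` (`f = x i`), `c2 V (x i) = e i` and `c2 V' (x i) = - e i`.  `Dv (y t)`: `d i + t e i = n_i • γ`, not both `0` (determinant).  `f = x 0 ^ n_1 * x 1 ^ (- n_0)`: `y t f = 0`, `c2 V f = n_1 e 0 - n_0 e 1 =: β`, `c2 V' f = - β`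
(`V`, `V'` are valuations), and `β ≠ 0` because `(n_0, n_1) γ = d + t e` and `e` are independent.  So exactly one of `0 < V f`, `0 < V' f` holds. -/
def S_gap : Prop :=
  ∀ (p : ℕ) [Fact p.Prime] (k K : Type) [Field k] [CharP k p] [PerfectRing k p] [Field K]
    [Algebra k K] (n : ℕ) (g : Fin n → K) (φ : K → K) (s1 s2 : ℝ)
    (y : ℝ → K → ℝ) (M : K → Finset (ℝ × ℝ)), CL k p φ g s1 s2 y M → ∀ t, s1 < t → t < s2 →
    Dv (y t) → ∀ V V', RFl k p φ g y M t V → LFl k p φ g y M t V' → ¬ Eqv V V'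

/-- [F2PF cS] (about 60 lines) LEMMA S for a line.
Proof. `LocF.l8` with the chart of `CL`, `u = d + t e` (`Good`), `w = y t`.  For an exponent `m` of `L z`: `wt (d + t' e) m ≥ y t' z = 0` for all `t' ∈ (s1, s2)` (`OnCh.min`, `z ∈ B`).  If `wt (d + t e) m = 0` then `wt e m = 0` (the affine function `wt d m + t' wt e m` is `≥ 0` near `t` and `0` at `t`), so `wt d m = 0` and `m = 0`
(determinant). -/
def S_cS : Prop :=
  ∀ (p : ℕ) [Fact p.Prime] (k K : Type) [Field k] [CharP k p] [PerfectRing k p] [Field K]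
    [Algebra k K] (n : ℕ) (g : Fin n → K) (φ : K → K) (E A : Set K) (R : K → ℝ),
    Ctx k p φ g E A R → ∀ (s1 s2 : ℝ)
    (y : ℝ → K → ℝ) (M : K → Finset (ℝ × ℝ)), CL k p φ g s1 s2 y M → ∀ z ∈ E,
    (∀ t, s1 < t → t < s2 → y t z = 0) → ∀ t, s1 < t → t < s2 → Dv (y t) →
    ¬ SG (Br k g) (y t)

/-- [F2PF ult] (about 200 lines) Uses `F2UL.S_lim`, `F2UL.S_fin` (and `S_X2`, `S_X3`, `S_X5` if needed). ULTRALIMITS of families of real compatible valuations.
Proof. `r i = max_j |v i (g j)|` is positive: otherwise `0 ≤ v i` on `B` (polynomials in the `g j`, ultrametric inequality), so `Pr R (v i)` (`R9`), against `Rpos`.  `v' i = v i / r i` is normalised (`F2UL.Nrm`, with `t = g`).  `HR k p φ g j0` for the `j0` of `Rpos`: `R9`.  `F2UL.S_lim`: a limit `m`.  The hypothesis of `F2UL.S_fin` on finite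
sets: the element `z ∈ E` of `hz` and `LocF.ct` (`z = aeval g q`).  First alternative of `S_fin`: almost all `v' i` are proportional to `m`; take `i0` among them.  Second alternative (`Run`, with the chart of `gm U v'`, `x`, `b`, `s0`, `y`, `τ`): `s = s0 / 2`, `d i = m (x i)`, `e = b`, `M f` = image of the support of `L f`; at `t = 0`:
`y 0 = m` (`zero`), `OnCh` from `IsLim.inz` and `minz`.  `τ i → 0+` and `Pr (y (τ i)) (v' i)`, `Pr (v' i) (v i)`. -/
def S_ult : Prop :=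
  ∀ (p : ℕ) [Fact p.Prime] (k K : Type) [Field k] [CharP k p] [PerfectRing k p] [Field K]
    [Algebra k K] (n : ℕ) (g : Fin n → K) (φ : K → K) (E A : Set K) (R : K → ℝ),
    Ctx k p φ g E A R → ∀ (I : Type) (U : Ultrafilter I) (v : I → K → ℝ),
    (∀ i, InZ k p φ (v i) ∧ ∃ f, v i f ≠ 0) → (∀ S : Finset I, ∃ z ∈ E, ∀ i ∈ S, v i z = 0) →
    (∃ i0, ∀ᶠ i in (U : Filter I), Pr (v i0) (v i)) ∨
    ∃ (s : ℝ) (y : ℝ → K → ℝ) (M : K → Finset (ℝ × ℝ)), CL k p φ g 0 s y M ∧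
      ∀ δ > 0, ∀ᶠ i in (U : Filter I), ∃ t, 0 < t ∧ t < δ ∧ t < s ∧ Pr (y t) (v i)

/-! ## 2. Monotonicity -/

/-- [F2PF dne] (about 120 lines) Uses `S_rk2`, `S_rfl`, `S_lfl`. EXISTENCE OF FUNCTIONALS at the points of a line with an elliptic element.
Proof. Let `V` be the right flag at `t` (`S_rfl`), `V z = 0`.  `S_rk2`: a chart of rank two at `V`, so `x, ex` with `IsVB V x ex`; `LocF.ld`: `(u1, u2) ≠ 0` with `u1 * ex f 0 + u2 * ex f 1 ≤ 0` on `B - 0`.  The vectors `(w (x 0), w (x 1))` and `(c2 V (x 0), c2 V (x 1))` are independent (`nd` and `vb.gen`: `w f = wt (w ∘ x) (ex f)`, `c2 V f = wt (c2 V ∘ x) (ex f)`), so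
`u1 * n0 + u2 * n1 = α * w + β * c2 V` as functions of the exponent `(n0, n1)`, with `(α, β) ≠ 0`: so `(α, β) ∈ DV B w (c2 V)`, and `u = (α, β + t α)` is in `DR B M t` (`RFl.dr`), `u ≠ 0`.  The left side: the same with `LFl` (`u = (α, - β + t α)`). -/
def S_dne : Prop :=
  ∀ (p : ℕ) [Fact p.Prime] (k K : Type) [Field k] [CharP k p] [PerfectRing k p] [Field K]
    [Algebra k K] (n : ℕ) (g : Fin n → K) (φ : K → K) (E A : Set K) (R : K → ℝ),
    Ctx k p φ g E A R → ∀ (s1 s2 : ℝ)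
    (y : ℝ → K → ℝ) (M : K → Finset (ℝ × ℝ)), CL k p φ g s1 s2 y M → ∀ z ∈ E,
    (∀ t, s1 < t → t < s2 → y t z = 0) →
    (∀ t, s1 ≤ t → t < s2 → ∃ u ∈ DR (Br k g) M t, u ≠ 0) ∧
    ∀ t, s1 < t → t ≤ s2 → ∃ u ∈ DL (Br k g) M t, u ≠ 0

/-- [F2PF mono] (about 150 lines) Uses `S_sgn`, `S_dne`, `S_rfl`, `S_lfl`, `S_gap`, `S_irr`, `S_nsg`, `S_anti`, `S_rk2`, `S_pr`, `S_line`. MONOTONICITY of a line without semi-good points and with an elliptic element of class `a`.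
Proof. Let `s1 < t < s2`, `V` the right and `V'` the left flag at `t`, `V z = 0 = V' z` (`S_rfl`, `S_lfl`).
(1) `AtInf (y t)`: otherwise `Pr R (y t)` (`S_anti`); rescale `V, V'` to flags at `R` (`S_pr`; `nt` from `S_rk2` as `Dv R`); `LocF.R7u`: they are equivalent, against `S_gap`.
(2) `DR`, `DL` are nonzero: `S_dne`.  (3) Not both `DesR` and `DesL`: let `u ∈ DR`, `0 < sd t u` and `u' ∈ DL`, `sd t u' < 0`.  If `y t` is divisorial: by `dr`, `dl` (divide by `sd`) both flags are of pole type, so they are equivalent (`LocF.l3`), against `S_gap`.  If it is not divisorial then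
`DR = DL` (`S_irr`), against `S_nsg` (second part).  Now `S_sgn` (for the restriction of `Line` to the open interval). -/
def S_mono : Prop :=
  ∀ (p : ℕ) [Fact p.Prime] (k K : Type) [Field k] [CharP k p] [PerfectRing k p] [Field K]
    [Algebra k K] (n : ℕ) (g : Fin n → K) (φ : K → K) (E A : Set K) (R : K → ℝ),
    Ctx k p φ g E A R → ∀ (s1 s2 : ℝ)
    (y : ℝ → K → ℝ) (M : K → Finset (ℝ × ℝ)), CL k p φ g s1 s2 y M → ∀ z ∈ A,
    (∀ t, s1 < t → t < s2 → y t z = 0) → (∀ t, s1 < t → t < s2 → ¬ SG (Br k g) (y t)) →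
    (∀ t, s1 < t → t < s2 → AtInf (Br k g) (y t)) ∧
    ((∀ t, s1 < t → t < s2 → DesR (Br k g) M t ∧ ∃ u ∈ DL (Br k g) M t, 0 < sd t u) ∨
      ∀ t, s1 < t → t < s2 → DesL (Br k g) M t ∧ ∃ u ∈ DR (Br k g) M t, sd t u < 0)

end Pool.Agent.F2PF
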