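import Pool.Agent.Lib.MP_305fdd_al.F2.PF.Stm

set_option autoImplicit false

namespace Pool.Agent.F2PF

open Pool.Agent.F2Ch

theorem p_arr (h1 : S_persL) (h2 : S_key) (h3 : S_nsg) : S_arr := by
  intro K _ B hB s y M hL t ht0 hts hinf hnsg hdes hfat
  have htJ : t ∈ Set.Ico (0 : ℝ) s := ⟨ht0.le, hts⟩
  have h0J : (0 : ℝ) ∈ Set.Ico (0 : ℝ) s := ⟨le_rfl, ht0.trans hts⟩
  have hIcc : Set.Icc (0 : ℝ) t ⊆ Set.Ico (0 : ℝ) s := fun x hx => ⟨hx.1, hx.2.trans_lt hts⟩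
  obtain ⟨hn1, -, hn3⟩ := h3 K B hB _ y M hL t htJ hinf (hnsg t ht0 le_rfl)
  obtain ⟨u, huD, hu⟩ := hdes
  have hneg : ∀ z ∈ DL B M t, z ≠ 0 → sd t z < 0 := by
    intro z hz hz0
    have e1 := hn1 z (Or.inr hz) hz0
    have e2 := hn3 0 ht0 hIcc u huD z hz hu
    exact lt_of_le_of_ne e2 e1
  have hle : ∀ z ∈ DL B M t, z ≠ 0 → z.2 ≤ 0 := by
    intro z hz hz0
    by_contra hcon
    have hz2 : 0 < z.2 := not_le.mp hcon
    have e1 := hneg z hz hz0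
    simp only [sd] at e1
    have hz1 : 0 < z.1 := by
      by_contra hc
      have := mul_nonpos_of_nonneg_of_nonpos ht0.le (not_lt.mp hc)
      linarith
    have hr0 : 0 < z.2 / z.1 := div_pos hz2 hz1
    have hrt : z.2 / z.1 < t := by rw [div_lt_iff₀ hz1]; linarith
    have e2 := (h2 K B _ y M hL t htJ z (Or.inr hz)).1 (z.2 / z.1) ⟨hr0.le, hrt.trans hts⟩ z.1 hz1
      (by rw [mul_div_cancel₀ _ hz1.ne'])
    exact hnsg _ hr0 hrt.le e2
  have hz : ∃ z ∈ DL B M t, z.2 < 0 := by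
    obtain ⟨z, hz, z', hz', hdet⟩ := hfat
    have hz0 : z ≠ 0 := by
      rintro rfl
      apply hdet
      simp
    have hz'0 : z' ≠ 0 := by
      rintro rfl
      apply hdet
      simp
    rcases (hle z hz hz0).lt_or_eq with h | h
    · exact ⟨z, hz, h⟩
    rcases (hle z' hz' hz'0).lt_or_eq with h' | h'
    · exact ⟨z', hz', h'⟩
    exfalso
    apply hdet
    rw [h, h']
    ring
  obtain ⟨z, hzD, hz2⟩ := hz
  have hz0 : z ≠ 0 := by
    rintro rfl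
    simp at hz2
  have e1 := hneg z hzD hz0
  have e0 : sd 0 z < 0 := by simp only [sd]; linarith
  obtain ⟨a1, a2, a3⟩ := h1 K B _ y M hL t htJ 0 h0J ht0 z (Or.inr hzD) e1 e0.le
  have hα : 0 < sd 0 z / sd t z := div_pos_of_neg_of_neg e0 e1
  refine ⟨?_, ⟨_, hα, a3⟩, ⟨z, a1, hz2⟩⟩
  intro f hf hf0 hy
  have e2 := a3 f hf hf0
  rw [hy] at e2
  by_contra hcon
  have := mul_neg_of_pos_of_neg hα (not_le.mp hcon)
  linarith

end Pool.Agent.F2PF
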