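import Pool.Agent.Lib.MP_305fdd_al.F2.PF.StmC

set_option autoImplicit false

namespace Pool.Agent.F2PF

open MvPolynomial Pool.Agent.F2Ch

theorem p_bfat (hfat : S_fat) (hfdep : S_fdep) (hrsh : S_rsh) (hdnl : S_dnl) : S_bfat := by
  intro p hp k K _ _ _ _ _ n g φ E A R hctx s y M hbot t ht hts
  have hgen : FracGen k g := by
    obtain ⟨⟨b0, ρ0, hb⟩, -⟩ := hctx
    exact hb.gen
  refine ⟨?_, ?_, hbot.des t ht hts⟩
  · have h1 := hbot.seg t s ht hts le_rfl
    have h2 := (hdnl p k K n g φ E A R hctx (s - t) (fun τ => y (s - τ)) (rsh s M) h1).2.1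
      (s - t) (by linarith) le_rfl
    have h3 : s - (s - t) = t := by ring
    simpa only [h3] using h2
  · have h0 : (0 : ℝ) < t / 2 := by linarith
    have h1 := hbot.seg (t / 2) t h0 (by linarith) hts.le
    have hx := hfat p k K n g φ E A R hctx (y t) (hbot.pa t ht hts.le)
    have hpr : Pr (y t) ((fun τ => y (t - τ)) 0) := by
      refine ⟨1, one_pos, fun f => ?_⟩
      simp
    obtain ⟨v, hv, v', hv', -, -, hind⟩ :=
      hfdep p k K n g φ E A R hctx (y t) (t - t / 2) (fun τ => y (t - τ)) (rsh t M) hx h1 hpr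
    have hR := (hrsh p k K n g φ hgen 0 s y M hbot.cl).2.2
    have key : ∀ v : ℝ × ℝ, v ∈ DR (Br k g) (rsh t M) 0 →
        (v.1, t * v.1 - v.2) ∈ DL (Br k g) M t := by
      intro v hv
      have h := (hR t 0 (v.1, t * v.1 - v.2)).1
      rw [sub_zero] at h
      apply h.2
      have e : ((v.1, t * v.1 - v.2) : ℝ × ℝ).1 = v.1 := rfl
      have e2 : t * ((v.1, t * v.1 - v.2) : ℝ × ℝ).1 - ((v.1, t * v.1 - v.2) : ℝ × ℝ).2 = v.2 := by
        simp
      rw [e2]
      exact hv
    refine ⟨_, key v hv, _, key v' hv', ?_⟩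
    intro h
    apply hind
    simp only at h
    linarith

end Pool.Agent.F2PF
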