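import Pool.Agent.Lib.MP_305fdd_al.F2.PF.StmC

/-!
# MP_305fdd_al, F_2 project, section PF, part B: [F2PF bnd] a divisorial limit which is not semi-good
-/

set_option autoImplicit false

namespace Pool.Agent.F2PF

open MvPolynomial Pool.Agent.F2Ch

theorem p_bnd (hkeyL : S_keyL) (hpersL : S_persL) (hanti : S_anti) (hell : S_ell)
    (hdense : S_dense) (hbfat : S_bfat) (hsegl : S_segl) (hdnl : S_dnl) (hline : S_line) :
    S_bnd := by
  intro p _ k K _ _ _ _ _ n g φ E A R hC s y M hB hns hdv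
  obtain ⟨b0, ρ0, hBase⟩ := hC.1
  have hL := hC.2
  have hgen := hBase.gen
  have hs0 : 0 < s := hB.cl.1
  obtain ⟨hLine, hInz, hsub⟩ := (hline p k K n g φ).2 0 s y M hB.cl
  have h0 : InZ k p φ (y 0) ∧ ∃ f, y 0 f ≠ 0 := hInz 0 le_rfl hs0.le
  obtain ⟨-, -, -, hantid, -⟩ := hanti p k K n g φ E A R hC
  obtain ⟨hda, -, -, -⟩ := hdense p k K n g φ hgen 0 s y M hB.cl
  -- not semi-good points
  have hNS : ∀ r, 0 ≤ r → r ≤ s → ¬ SG (Br k g) (y r) := by
    intro r hr hrs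
    rcases hr.eq_or_lt with h | h
    · rw [← h]
      exact hns
    · exact (hB.pa r h hrs).2.1
  -- comparison with the end point
  have hLe : ∀ t, 0 < t → t < s → Le (Br k g) (y 0) (y t) := by
    intro t ht hts
    obtain ⟨u, hu, hsd⟩ := hB.des t ht hts
    have htJ : t ∈ Set.Icc 0 s := ⟨ht.le, hts.le⟩
    have h0J : (0 : ℝ) ∈ Set.Icc 0 s := ⟨le_rfl, hs0.le⟩
    have h1 := hkeyL K (Br k g) (Set.Icc 0 s) y M hLine t htJ u (Or.inr hu) 0 ht
      (Set.Icc_subset_Icc_right hts.le) (fun r hr hrt => hNS r hr (hrt.le.trans hts.le)) hsd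
    obtain ⟨-, -, h2⟩ := hpersL K (Br k g) (Set.Icc 0 s) y M hLine t htJ 0 h0J ht u (Or.inr hu)
      hsd h1.le
    exact ⟨sd 0 u / sd t u, div_pos_of_neg_of_neg h1 hsd, h2⟩
  have hs2 : 0 < s / 2 := half_pos hs0
  have hs2' : s / 2 < s := half_lt_self hs0
  have hAt : AtInf (Br k g) (y 0) := by
    rw [hantid (y 0) h0.1 h0.2]
    rintro ⟨c, hc, hcR⟩
    obtain ⟨⟨f, hf, hf0, hneg⟩, -, -⟩ := hbfat p k K n g φ E A R hC s y M hB (s / 2) hs2 hs2'
    obtain ⟨c', hc', hle⟩ := hLe (s / 2) hs2 hs2'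
    have h1 := hle f hf hf0
    have h2 : 0 ≤ y 0 f := by
      rw [hcR f]
      exact mul_nonneg hc.le (hL.Rnn f hf hf0)
    exact absurd (h2.trans h1) (not_le.2 (mul_neg_of_pos_of_neg hc' hneg))
  obtain ⟨z', hz'E, hz'0⟩ := hL.l1 (y 0) h0.1 hdv hAt
  obtain ⟨-, hellb, -⟩ := hell p k K n g φ E A R hC z' hz'E
  have hz't : ∀ t, 0 ≤ t → t < s → y t z' = 0 := by
    intro t ht hts
    rcases ht.eq_or_lt with h | h
    · rw [← h]
      exact hz'0
    · exact hellb (y 0) (y t) (hInz t ht hts.le).1 (hLe t h hts) hz'0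
  obtain ⟨t2, ht2, ht2s, hdv2⟩ := hda 0 s le_rfl hs0 le_rfl
  have hz'A : z' ∈ A := by
    obtain ⟨-, -, ⟨z1, hz1, hz10⟩, -⟩ := hB.pa t2 ht2 ht2s.le
    exact hL.l1' (y t2) (hInz t2 ht2.le ht2s.le).1 hdv2
      (hbfat p k K n g φ E A R hC s y M hB t2 ht2 ht2s).1 z1 hz1 hz10 z' hz'E
      (hz't t2 ht2.le ht2s)
  -- the descending segments
  have hseg : ∀ t, 0 < t → t < s → PA k p φ g A (y 0) ∧ Dn k p φ g A (y t) (y 0) := by
    intro t ht hts
    have hcl := hsub 0 t le_rfl ht hts.le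
    have h1 := hsegl p k K n g φ E A R hC 0 t y M hcl z' hz'A
      (fun r hr hrt => hz't r hr (hrt.trans_lt hts))
      (fun r hr hrt => hNS r hr (hrt.trans hts.le))
      (fun r hr hrt => hB.des r hr (hrt.trans hts)) 0 t le_rfl ht le_rfl
    rw [sub_zero] at h1
    obtain ⟨h2, -, -, -, -, h3⟩ := hdnl p k K n g φ E A R hC t (fun τ => y (t - τ)) (rsh t M) h1
    have h4 := h2 t ht.le le_rfl
    have h5 := h3 0 t le_rfl ht.le le_rfl
    simp only [sub_self, sub_zero] at h4 h5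
    exact ⟨h4, h5⟩
  refine ⟨y 0, (hseg (s / 2) hs2 hs2').1, hAt, ?_⟩
  intro w hw
  obtain ⟨t, ht, hts, -, hr⟩ := hB.cof w hw s hs0
  exact Relation.ReflTransGen.tail hr (hseg t ht hts).2

end Pool.Agent.F2PF
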