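import Pool.Agent.Lib.MP_305fdd_al.F2.PF.StmC

/-!
# MP_305fdd_al, F_2 project, section PF: [F2PF bni]
-/

set_option autoImplicit false

namespace Pool.Agent.F2PF

open MvPolynomial Pool.Agent.F2Ch

private theorem bni_dv {K : Type} [Field K] {v v' : K → ℝ} (h : Pr v v') (hd : Dv v) : Dv v' := by
  obtain ⟨c, hc, h⟩ := h
  obtain ⟨γ, hγ, hd⟩ := hd
  refine ⟨c * γ, mul_pos hc hγ, fun f hf => ?_⟩
  obtain ⟨n, hn⟩ := hd f hf
  refine ⟨n, ?_⟩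
  rw [h f, hn, mul_smul_comm]

theorem p_bni (hirr : S_irr) (hdense : S_dense) (hkeyL : S_keyL) (hpersL : S_persL)
    (hell : S_ell) (hbfat : S_bfat) (hpal : S_pal) (hanti : S_anti) (hrch : S_rch)
    (hline : S_line) : S_bni := by
  intro p _ k K _ _ _ _ _ n g φ E A R hC s y M hB hns0 hDv0
  obtain ⟨⟨b0, ρ0, hbase⟩, hL⟩ := id hC
  obtain ⟨a1, a2, a3, a4, a5⟩ := hanti p k K n g φ E A R hC
  have hg := hbase.gen
  have hs : 0 < s := hB.cl.1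
  obtain ⟨δ, y', hδ, hyy, hcl⟩ := (hirr p k K n g φ hg 0 s y M hB.cl).2 hDv0
  rw [zero_sub] at hcl
  have hy0 : y' 0 = y 0 := hyy 0 le_rfl hs.le
  obtain ⟨hln, hlz, hlr⟩ := (hline p k K n g φ).2 (-δ) s y' M hcl
  -- the point `y 0` is at infinity
  have hz0 : InZ k p φ (y' 0) := (hlz 0 (by linarith) hs.le).1
  have hnt0 : ∃ f, y' 0 f ≠ 0 := (hlz 0 (by linarith) hs.le).2
  have hDv0' : ¬ Dv (y' 0) := by rw [hy0]; exact hDv0
  have hns0' : ¬ SG (Br k g) (y' 0) := by rw [hy0]; exact hns0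
  have hinf0 : AtInf (Br k g) (y' 0) :=
    (a4 (y' 0) hz0 hnt0).2 fun h => hDv0' (bni_dv h hL.Rdv)
  obtain ⟨d1, -, d3, d4⟩ := hdense p k K n g φ hg (-δ) s y' M hcl
  obtain ⟨δ1, hδ1, hd1⟩ := d3 0 (by linarith) hs.le hns0'
  obtain ⟨δ2, hδ2, hd2⟩ := d4 0 (by linarith) hs.le hinf0
  obtain ⟨ε, hε, hε0, hε1, hε2⟩ : ∃ ε, 0 < ε ∧ ε ≤ δ ∧ ε < δ1 ∧ ε < δ2 := by
    refine ⟨min δ (min (δ1 / 2) (δ2 / 2)), lt_min hδ (lt_min (half_pos hδ1) (half_pos hδ2)),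
      min_le_left _ _, ?_, ?_⟩
    · exact lt_of_le_of_lt ((min_le_right _ _).trans (min_le_left _ _)) (half_lt_self hδ1)
    · exact lt_of_le_of_lt ((min_le_right _ _).trans (min_le_right _ _)) (half_lt_self hδ2)
  have hnsn : ∀ r, -ε ≤ r → r ≤ 0 → ¬ SG (Br k g) (y' r) := by
    intro r h1 h2
    refine hd1 r (by linarith) (by linarith) ?_
    rw [sub_zero, abs_of_nonpos h2]
    linarith
  have hinfn : ∀ r, -ε ≤ r → r ≤ 0 → AtInf (Br k g) (y' r) := by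
    intro r h1 h2
    refine hd2 r (by linarith) (by linarith) ?_
    rw [sub_zero, abs_of_nonpos h2]
    linarith
  have hnsp : ∀ r, 0 < r → r ≤ s → ¬ SG (Br k g) (y' r) := by
    intro r h1 h2
    rw [hyy r h1.le h2]
    exact (hB.pa r h1 h2).2.1
  obtain ⟨r, hr1, hr2, hrDv⟩ := d1 (-ε) 0 (by linarith) (by linarith) hs.le
  obtain ⟨t2, ht2, ht2s, ht2Dv⟩ := d1 0 s (by linarith) hs le_rfl
  have hrδ : -δ ≤ r := by linarith
  -- all points of the line are above `y' r`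
  have hle : ∀ t, 0 < t → t < s → Le (Br k g) (y' r) (y' t) := by
    intro t h1 h2
    obtain ⟨u, hu, hsu⟩ := hB.des t h1 h2
    have hrt : r < t := by linarith
    have hsub : Set.Icc r t ⊆ Set.Icc (-δ) s := Set.Icc_subset_Icc hrδ h2.le
    have htJ : t ∈ Set.Icc (-δ) s := ⟨by linarith, h2.le⟩
    have hrJ : r ∈ Set.Icc (-δ) s := ⟨hrδ, by linarith⟩
    have h3 : sd r u < 0 := hkeyL K (Br k g) (Set.Icc (-δ) s) y' M hln t htJ u (Or.inr hu) r hrt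
      hsub (fun q h4 h5 => by
        by_cases h6 : q ≤ 0
        · exact hnsn q (by linarith) h6
        · exact hnsp q (not_le.1 h6) (by linarith)) hsu
    obtain ⟨-, -, h4⟩ := hpersL K (Br k g) (Set.Icc (-δ) s) y' M hln t htJ r hrJ hrt u (Or.inr hu)
      hsu h3.le
    exact ⟨sd r u / sd t u, div_pos_of_neg_of_neg h3 hsu, h4⟩
  have hzr : InZ k p φ (y' r) := (hlz r hrδ (by linarith)).1
  have hzt : ∀ t, 0 < t → t ≤ s → InZ k p φ (y' t) := fun t h1 h2 => (hlz t (by linarith) h2).1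
  obtain ⟨z', hz'E, hz'⟩ := hL.l1 (y' r) hzr hrDv (hinfn r hr1.le hr2.le)
  obtain ⟨-, e2, e3⟩ := hell p k K n g φ E A R hC z' hz'E
  have hz't : y' t2 z' = 0 := e2 (y' r) (y' t2) (hzt t2 ht2 ht2s.le) (hle t2 ht2 ht2s) hz'
  have hpa2 := hB.pa t2 ht2 ht2s.le
  have hyt2 : y' t2 = y t2 := hyy t2 ht2.le ht2s.le
  rw [← hyt2] at hpa2
  obtain ⟨z1, hz1A, hz1⟩ := hpa2.2.2.1
  have hinf2 : AtInf (Br k g) (y' t2) := by
    rw [hyt2]
    exact (hbfat p k K n g φ E A R hC s y M hB t2 ht2 ht2s).1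
  have hz'A : z' ∈ A := hL.l1' (y' t2) (hzt t2 ht2 ht2s.le) ht2Dv hinf2 z1 hz1A hz1 z' hz'E hz't
  have hell' : ∀ t, r ≤ t → t ≤ t2 → y' t z' = 0 :=
    e3 (-δ) s y' M hcl r t2 hrδ ht2s.le hz' hz't
  have hrt2 : r < t2 := by linarith
  have hpar : PA k p φ g A (y' r) :=
    (hpal p k K n g φ E A R hC r t2 y' M (hlr r t2 hrδ hrt2 ht2s.le) z' hz'A hell').2.2 r le_rfl
      hrt2.le (hnsn r hr1.le hr2.le)
  obtain ⟨t, ht0, hts, -, hR⟩ := hB.cof (y' r) hpar s hs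
  have hyt : y' t = y t := hyy t ht0.le hts.le
  rw [← hyt] at hR
  obtain ⟨-, hle2, -, -⟩ := (hrch p k K n g φ E A R hC).2 (y' r) (y' t) hpar hR
  have hpr : Pr (y' r) (y' t) := a1 (y' r) (y' t) hzr (hzt t ht0 hts.le) (hnsn r hr1.le hr2.le)
    hle2 (hle t ht0 hts)
  have := a2 (-δ) s y' M hcl r t hrδ (by linarith) (by linarith) hts.le hpr
  linarith

end Pool.Agent.F2PF
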