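import Pool.Agent.Lib.MP_305fdd_al.F2.PF.StmC

/-!
# MP_305fdd_al, F_2 project, section PF: the bottom of `P_a` ([F2PF bot])
-/

set_option autoImplicit false

namespace Pool.Agent.F2PF

open MvPolynomial Pool.Agent.F2Ch

private theorem bot_le_trans {K : Type} [Field K] {B : Set K} {u v w : K → ℝ} (h1 : Le B u v)
    (h2 : Le B v w) : Le B u w := by
  obtain ⟨c, hc, h1⟩ := h1
  obtain ⟨d, hd, h2⟩ := h2
  refine ⟨c * d, mul_pos hc hd, fun f hf hf0 => ?_⟩
  calc u f ≤ c * v f := h1 f hf hf0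
    _ ≤ c * (d * w f) := mul_le_mul_of_nonneg_left (h2 f hf hf0) hc.le
    _ = c * d * w f := by ring

theorem p_bot (hult : S_ult) (hzorn : S_zorn) (htot : S_tot) (hrch : S_rch) (hsegb : S_segb)
    (hsegl : S_segl) (hpal : S_pal) (hcflag : S_cflag) (hdense : S_dense) (hanti : S_anti)
    (hline : S_line) (hpr : S_pr) : S_bot := by
  classical
  intro p _ k K _ _ _ _ _ n g φ E A R hC
  obtain ⟨b0, ρ0, hbase⟩ := hC.1
  have hL := hC.2
  have hF : FracGen k g := hbase.gen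
  obtain ⟨hA1, hA2, hA3, hA4, hA5⟩ := hanti p k K n g φ E A R hC
  obtain ⟨hPR, hRw⟩ := hzorn p k K n g φ E A R hC
  have hT := htot p k K n g φ E A R hC
  obtain ⟨hR1, hR2⟩ := hrch p k K n g φ E A R hC
  obtain ⟨hPr1, hPr2, -⟩ := hpr p k K n g φ
  have hrefl : ∀ v : K → ℝ, Pr v v := fun v => (hPr1 v v v).1
  have hsymm : ∀ {v v' : K → ℝ}, Pr v v' → Pr v' v := fun {v v'} h => (hPr1 v v' v).2.1 h
  have htot' : ∀ w w' : K → ℝ, PA k p φ g A w → PA k p φ g A w' →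
      Rch k p φ g A w w' ∨ Rch k p φ g A w' w := fun w w' hw hw' =>
    hT R w w' (hRw w hw) (hRw w' hw')
  -- a point of `P_a` below `R`
  obtain ⟨v1, hv1, hv1R⟩ : ∃ v1, PA k p φ g A v1 ∧ ¬ Pr R v1 := by
    obtain ⟨V, hV, z, hz, hVz⟩ := hL.R7e
    obtain ⟨j, hj⟩ := hL.Rpos
    obtain ⟨s, y, M, hCL, hy0, -, hyz⟩ := hcflag p k K n g φ E A R hC R V ⟨g j, hj.ne'⟩ hV z
      (hL.sub hz) hVz
    have hs : 0 < s := hCL.1
    obtain ⟨δ, hδ, hδ'⟩ := (hdense p k K n g φ hF 0 s y M hCL).2.2.1 0 le_rfl hs.le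
      (by rw [hy0]; exact hA5)
    have ht0 : 0 < min (δ / 2) s := lt_min (by linarith) hs
    have hts : min (δ / 2) s ≤ s := min_le_right _ _
    have htδ : min (δ / 2) s ≤ δ / 2 := min_le_left _ _
    refine ⟨y (min (δ / 2) s), ?_, ?_⟩
    · refine (hpal p k K n g φ E A R hC 0 s y M hCL z hz hyz).2.2 _ ht0.le hts ?_
      refine hδ' _ ht0.le hts ?_
      rw [sub_zero, abs_of_pos ht0]
      linarith
    · intro h
      rw [← hy0] at h
      have := hA2 0 s y M hCL 0 _ le_rfl hs.le ht0.le hts h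
      linarith
  -- the index type and the ultrafilter
  let I : Type := {w : K → ℝ // PA k p φ g A w}
  have hIne : Nonempty I := ⟨⟨v1, hv1⟩⟩
  have hdir : Directed (· ≥ ·) (fun w : I => Filter.principal
      {v : I | Rch k p φ g A w.1 v.1}) := by
    intro w w'
    rcases htot' w.1 w'.1 w.2 w'.2 with h | h
    · refine ⟨w', ?_, le_rfl⟩
      show Filter.principal _ ≤ Filter.principal _
      rw [Filter.principal_mono]
      intro v hv
      exact Relation.ReflTransGen.trans h hv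
    · refine ⟨w, le_rfl, ?_⟩
      show Filter.principal _ ≤ Filter.principal _
      rw [Filter.principal_mono]
      intro v hv
      exact Relation.ReflTransGen.trans h hv
  have hne : Filter.NeBot (⨅ w : I, Filter.principal {v : I | Rch k p φ g A w.1 v.1}) := by
    refine Filter.iInf_neBot_of_directed hdir fun w => ?_
    rw [Filter.principal_neBot_iff]
    exact ⟨w, Relation.ReflTransGen.refl⟩
  let U : Ultrafilter I := Ultrafilter.of
    (⨅ w : I, Filter.principal {v : I | Rch k p φ g A w.1 v.1})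
  have hU : ∀ w : I, ∀ᶠ v in (U : Filter I), Rch k p φ g A w.1 v.1 := by
    intro w
    have h1 : (U : Filter I) ≤ Filter.principal {v : I | Rch k p φ g A w.1 v.1} :=
      (Ultrafilter.of_le _).trans (iInf_le _ w)
    exact h1 (Filter.mem_principal_self _)
  have hlow : ∀ S : Finset I, ∃ v : I, ∀ w ∈ S, Rch k p φ g A w.1 v.1 := by
    intro S
    have h1 : ∀ᶠ v in (U : Filter I), ∀ w ∈ S, Rch k p φ g A w.1 v.1 :=
      (Filter.eventually_all_finset S).2 fun w _ => hU w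
    exact h1.exists
  have hnt : ∀ w : K → ℝ, PA k p φ g A w → ∃ f, w f ≠ 0 := by
    intro w hw
    by_contra h
    push Not at h
    exact hw.2.1 fun f _ _ => (h f).le
  rcases hult p k K n g φ E A R hC I U (fun v => v.1) (fun v => ⟨v.2.1, hnt v.1 v.2⟩) (by
      intro S
      obtain ⟨v, hv⟩ := hlow S
      obtain ⟨z, hz, hvz⟩ := v.2.2.2.1
      exact ⟨z, hL.sub hz, fun w hw =>
        (hR2 w.1 v.1 w.2 (hv w hw)).2.2.1 z (hL.sub hz) hvz⟩) with ⟨m, hm⟩ | ⟨s, y, M, hCL, hy⟩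
  · -- a minimum
    left
    have hmin : ∀ w, PA k p φ g A w → Rch k p φ g A w m.1 := by
      intro w hw
      obtain ⟨v, hv1, hv2⟩ := ((hU ⟨w, hw⟩).and hm).exists
      exact Relation.ReflTransGen.trans hv1 (hR1 v.1 m.1 v.2 (hsymm hv2)).2
    refine ⟨m.1, m.2, ?_, hmin⟩
    rw [hA4 m.1 m.2.1 (hnt m.1 m.2)]
    intro hRm
    apply hv1R
    obtain ⟨c, hc, hle⟩ := (hR2 v1 m.1 hv1 (hmin v1 hv1)).2.1
    obtain ⟨c', hc', hRm'⟩ := hRm
    refine hL.R9 v1 hv1.1 (hnt v1 hv1) fun f hf hf0 => ?_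
    have h1 : 0 ≤ m.1 f := by
      rw [hRm' f]
      exact mul_nonneg hc'.le (hL.Rnn f hf hf0)
    have h3 := h1.trans (hle f hf hf0)
    exact nonneg_of_mul_nonneg_right h3 hc
  · -- a line
    right
    have hs : 0 < s := hCL.1
    obtain ⟨-, -, hrestr⟩ := (hline p k K n g φ).2 0 s y M hCL
    obtain ⟨v0, s0, hs0, -, hs0s, hPv0⟩ := (hy s hs).exists
    have hscal : ∀ {v v' : K → ℝ}, Pr v v' → (∀ f, v f = 0 → v' f = 0) :=
      fun {v v'} h => (hPr2 v v' h).2.2.2.2.1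
    -- the basic claim
    have hQ : ∀ t1, 0 < t1 → t1 ≤ s0 → ∃ t', 0 < t' ∧ t' < t1 ∧ ∃ z ∈ A,
        CL k p φ g t' s0 y M ∧ (∀ t, t' ≤ t → t ≤ s0 → y t z = 0 ∧ ¬ SG (Br k g) (y t)) ∧
        ∀ t, t' < t → t < s0 → DesL (Br k g) M t := by
      intro t1 ht1 ht1s
      obtain ⟨v, hv, t', ht', ht't1, ht's, hPt'⟩ := ((hU v0).and (hy t1 ht1)).exists
      obtain ⟨z, hz, hvz⟩ := v.2.2.2.1
      obtain ⟨-, hLe, hell, -⟩ := hR2 v0.1 v.1 v0.2 hv
      have hv0z := hell z (hL.sub hz) hvz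
      have hcl : CL k p φ g t' s0 y M := hrestr t' s0 ht'.le (ht't1.trans_le ht1s) hs0s.le
      have hle : Le (Br k g) (y t') (y s0) :=
        bot_le_trans (hPr2 _ _ hPt').2.2.2.2.2.2.1
          (bot_le_trans hLe (hPr2 _ _ hPv0).2.2.2.2.2.2.2)
      have hns : ¬ SG (Br k g) (y t') := fun h => v.2.2.1 ((hPr2 _ _ hPt').2.1 h)
      obtain ⟨h1, h2⟩ := hsegb p k K n g φ E A R hC t' s0 y M hcl z hz
        (hscal (hsymm hPt') z hvz) (hscal (hsymm hPv0) z hv0z) hns hle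
      exact ⟨t', ht', ht't1, z, hz, hcl, h1, h2⟩
    refine ⟨s0, y, M, ⟨hrestr 0 s0 le_rfl hs0 hs0s.le, ?_, ?_, ?_, ?_⟩⟩
    · intro t ht hts
      obtain ⟨t', ht', ht't, z, hz, hcl, h1, -⟩ := hQ t ht hts
      exact (hpal p k K n g φ E A R hC t' s0 y M hcl z hz fun r hr hrs => (h1 r hr hrs).1).2.2 t
        ht't.le hts (h1 t ht't.le hts).2
    · intro t ht hts
      obtain ⟨t', ht', ht't, z, hz, hcl, -, h2⟩ := hQ t ht hts.le
      exact h2 t ht't hts
    · intro t t2 ht htt2 ht2s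
      obtain ⟨t', ht', ht't, z, hz, hcl, h1, h2⟩ := hQ t ht (htt2.le.trans ht2s)
      exact hsegl p k K n g φ E A R hC t' s0 y M hcl z hz (fun r hr hrs => (h1 r hr hrs).1)
        (fun r hr hrs => (h1 r hr hrs).2) h2 t t2 ht't.le htt2 ht2s
    · intro w hw δ hδ
      obtain ⟨v, hv, t, ht, htδ, -, hPt⟩ := ((hU ⟨w, hw⟩).and (hy (min δ s0)
        (lt_min hδ hs0))).exists
      exact ⟨t, ht, htδ.trans_le (min_le_left _ _), (htδ.trans_le (min_le_right _ _)).le,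
        Relation.ReflTransGen.trans hv (hR1 v.1 (y t) v.2 (hsymm hPt)).2⟩

end Pool.Agent.F2PF
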