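import Pool.Agent.Lib.MP_305fdd_al.F2.PF.StmC

/-!
# MP_305fdd_al, F_2 project, section PF: the piece [F2PF bsd]

The limit of the bottom line is not a divisorial semi-good point.
-/

set_option autoImplicit false

namespace Pool.Agent.F2PF

open MvPolynomial Pool.Agent.F2Ch

private theorem bsd_sub {K : Type} [Field K] {B : Set K} {J J' : Set ℝ} {y : ℝ → K → ℝ}
    {M : K → Finset (ℝ × ℝ)} (hJ : J' ⊆ J) (h : Line B J y M) : Line B J' y M where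
  isv := fun t ht => h.isv t (hJ ht)
  ne := h.ne
  le := fun f hf hf0 t ht => h.le f hf hf0 t (hJ ht)
  ex := fun f hf hf0 t ht => h.ex f hf hf0 t (hJ ht)
  nd := by
    obtain ⟨x1, x2, a, b, h1, h2, h3, h4⟩ := h.nd
    exact ⟨x1, x2, a, b, h1, h2, h3, fun t ht => h4 t (hJ ht)⟩

private theorem bsd_zero {K : Type} [Field K] {w : K → ℝ} {V : K → ℝ ×ₗ ℝ}
    (hfst : ∀ f, (ofLex (V f)).1 = w f) {z : K} (hz : w z = 0) (h0 : 0 ≤ c2 V z) (h1 : V z ≤ 0) :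
    V z = 0 := by
  refine le_antisymm h1 ?_
  rw [Prod.Lex.le_iff]
  right
  refine ⟨?_, h0⟩
  show (0 : ℝ) = (ofLex (V z)).1
  rw [hfst z, hz]

theorem p_bsd (h_arr : S_arr) (h_bfat : S_bfat) (h_rfl : S_rfl) (h_rk2 : S_rk2) (h_ell : S_ell)
    (h_dense : S_dense) (h_anti : S_anti) (h_cflag : S_cflag) (h_nsn : S_nsn) (h_two : S_two)
    (h_line : S_line) : S_bsd := by
  intro p _ k K _ _ _ _ _ n g φ E A R hctx s y M hbot hsg hdv
  obtain ⟨⟨b0, ρ0, hB⟩, hL⟩ := id hctx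
  have hgen := hB.gen
  obtain ⟨hBs', hline⟩ := h_line p k K n g φ
  have hBs := hBs' hgen
  have hcl := hbot.cl
  have hs : 0 < s := hcl.1
  obtain ⟨hLn, hinz, hsub⟩ := hline 0 s y M hcl
  obtain ⟨hi0, hne0⟩ := hinz 0 le_rfl hs.le
  obtain ⟨-, -, ha3, -, -⟩ := h_anti p k K n g φ E A R hctx
  have hinf0 : AtInf (Br k g) (y 0) := ha3 (y 0) hi0 hne0 hsg
  -- the arrival
  have harr : ∀ t, 0 < t → t < s → Le (Br k g) (y 0) (y t) ∧ ∃ ζ ∈ DR (Br k g) M 0, ζ.2 < 0 := by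
    intro t ht0 hts
    obtain ⟨h1, h2, h3⟩ := h_bfat p k K n g φ E A R hctx s y M hbot t ht0 hts
    obtain ⟨-, h5, h6⟩ := h_arr K (Br k g) hBs s y M (bsd_sub Set.Ico_subset_Icc_self hLn) t ht0 hts
      h1 (fun r hr0 hrt => (hbot.pa r hr0 (by linarith)).2.1) h3 h2
    exact ⟨h5, h6⟩
  -- the right flag
  obtain ⟨⟨V, hV⟩, -⟩ := h_rfl p k K n g φ hgen 0 s y M hcl 0 le_rfl hs
  obtain ⟨-, ζ, hζ, hζ2⟩ := harr (s / 2) (by linarith) (by linarith)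
  have hc2 : ∀ f ∈ Br k g, f ≠ 0 → y 0 f = 0 → 0 ≤ c2 V f := by
    intro f hf hf0 hf1
    have h1 := (hV.dr ζ).1 hζ f hf hf0
    simp only [dot, sd, hf1, mul_zero, zero_mul, zero_add, sub_zero] at h1
    by_contra hc
    push Not at hc
    have := mul_pos_of_neg_of_neg hζ2 hc
    linarith
  have hstar : ∀ z ∈ E, y 0 z = 0 → V z = 0 := by
    intro z hzE hz
    obtain ⟨hzB, hz0, -⟩ := hL.ct z hzE
    obtain ⟨he1, -, -⟩ := h_ell p k K n g φ E A R hctx z hzE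
    exact bsd_zero hV.fst hz (hc2 z hzB hz0 hz) (he1 (ℝ ×ₗ ℝ) V hV.inz)
  obtain ⟨z0, hz0E, hz0⟩ := hL.l1 (y 0) hi0 hdv hinf0
  have hell : ∀ t, 0 ≤ t → t < s → y t z0 = 0 := by
    intro t ht0 hts
    rcases ht0.eq_or_lt with h | h
    · rw [← h]
      exact hz0
    · obtain ⟨-, he2, -⟩ := h_ell p k K n g φ E A R hctx z0 hz0E
      exact he2 (y 0) (y t) (hinz t ht0 hts.le).1 (harr t h hts).1 hz0
  -- `z0 ∈ A`
  obtain ⟨hden, -, -, -⟩ := h_dense p k K n g φ hgen 0 s y M hcl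
  obtain ⟨t1, ht10, ht1s, ht1d⟩ := hden 0 s le_rfl hs le_rfl
  have hz0A : z0 ∈ A := by
    obtain ⟨h1, -, ⟨z, hzA, hz⟩, -⟩ := hbot.pa t1 ht10 ht1s.le
    exact hL.l1' (y t1) h1 ht1d (h_bfat p k K n g φ E A R hctx s y M hbot t1 ht10 ht1s).1 z hzA hz
      z0 hz0E (hell t1 ht10.le ht1s)
  have hVz0 : V z0 = 0 := hstar z0 hz0E hz0
  -- `V` is a flag
  have hflag : Flag k p φ (y 0) V :=
    ⟨hV.inz, hV.fst, (h_rk2 p k K n g φ E A R hctx (y 0) V hV.inz hV.fst hV.nd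
      ⟨z0, hz0E, hVz0⟩).2.2 hdv⟩
  obtain ⟨V1, hV1, ⟨z1, hz1A, hz1⟩, hneq⟩ := hL.l2 (y 0) hi0 hdv hinf0 V hflag ⟨z0, hz0A, hVz0⟩
    (Or.inr hstar)
  obtain ⟨s', y', M', hcl', hy0, hR1, hel1⟩ := h_cflag p k K n g φ E A R hctx (y 0) V1 hne0 hV1 z1
    (hL.sub hz1A) hz1
  have hs' : 0 < s' := hcl'.1
  obtain ⟨hns', hdes'⟩ := h_nsn p k K n g φ E A R hctx s' y' M' hcl' z1 hz1A hel1
    (by rw [hy0]; exact hsg)
  obtain ⟨-, -, hsub'⟩ := hline 0 s' y' M' hcl'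
  refine hneq (h_two p k K n g φ E A R hctx (s / 2) (s' / 2) y y' M M'
    (hsub 0 (s / 2) le_rfl (by linarith) (by linarith))
    (hsub' 0 (s' / 2) le_rfl (by linarith) (by linarith))
    ⟨1, one_pos, fun f => by rw [hy0, one_mul]⟩ hinf0
    ⟨z0, hz0A, fun t h1 h2 => hell t h1 (by linarith)⟩
    ⟨z1, hz1A, fun t h1 h2 => hel1 t h1 (by linarith)⟩
    (fun t h1 h2 => (hbot.pa t h1 (by linarith)).2.1)
    (fun t h1 h2 => hns' t h1 (by linarith))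
    (fun t h1 h2 => hbot.des t h1 (by linarith))
    (fun t h1 h2 => hdes' t h1 (by linarith)) V V1 hV hR1)

end Pool.Agent.F2PF
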