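import Pool.Agent.Lib.MP_305fdd_al.F2.PF.StmC

/-!
# MP_305fdd_al, F_2 project, section PF: the piece [F2PF bsi]

The limit of the bottom line is not an irrational semi-good point.
-/

set_option autoImplicit false

namespace Pool.Agent.F2PF

open MvPolynomial Pool.Agent.F2Ch

private theorem bsi_sub {K : Type} [Field K] {B : Set K} {J J' : Set ℝ} {y : ℝ → K → ℝ}
    {M : K → Finset (ℝ × ℝ)} (hJ : J' ⊆ J) (h : Line B J y M) : Line B J' y M where
  isv := fun t ht => h.isv t (hJ ht)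
  ne := h.ne
  le := fun f hf hf0 t ht => h.le f hf hf0 t (hJ ht)
  ex := fun f hf hf0 t ht => h.ex f hf hf0 t (hJ ht)
  nd := by
    obtain ⟨x1, x2, a, b, h1, h2, h3, h4⟩ := h.nd
    exact ⟨x1, x2, a, b, h1, h2, h3, fun t ht => h4 t (hJ ht)⟩

theorem p_bsi (h_irr : S_irr) (h_bfat : S_bfat) (h_rsh : S_rsh) (h_inner : S_inner)
    (h_dense : S_dense) (h_anti : S_anti) (h_ell : S_ell) (h_cS : S_cS) (h_line : S_line) :
    S_bsi := by
  intro p _ k K _ _ _ _ _ n g φ E A R hctx s y M hbot hsg hdv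
  obtain ⟨⟨b0, ρ0, hB⟩, hL⟩ := id hctx
  have hgen := hB.gen
  obtain ⟨hBs', hline⟩ := h_line p k K n g φ
  have hBs := hBs' hgen
  have hcl := hbot.cl
  have hs : 0 < s := hcl.1
  -- the extended line
  obtain ⟨δ, y', hδ, hyy, hcl'⟩ := (h_irr p k K n g φ hgen 0 s y M hcl).2 hdv
  obtain ⟨hLn', hinz', hsub'⟩ := hline (0 - δ) s y' M hcl'
  have hy0 : y' 0 = y 0 := hyy 0 le_rfl hs.le
  -- the point `s / 2`
  have hh : 0 < s / 2 := by linarith
  have hh2 : s / 2 < s := by linarith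
  obtain ⟨hinf, hfat, hdes⟩ := h_bfat p k K n g φ E A R hctx s y M hbot (s / 2) hh hh2
  obtain ⟨hr1, -, hr3⟩ := h_rsh p k K n g φ hgen (0 - δ) s y' M hcl'
  have hY : CL k p φ g 0 (s / 2 - (0 - δ)) (fun τ => y' (s / 2 - τ)) (rsh (s / 2) M) :=
    (hr1 (0 - δ) (s / 2) le_rfl (by linarith) hh2.le).2
  have hYL : Line (Br k g) (Set.Ico 0 (s / 2 - (0 - δ))) (fun τ => y' (s / 2 - τ))
      (rsh (s / 2) M) :=
    bsi_sub Set.Ico_subset_Icc_self (hline _ _ _ _ hY).1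
  -- functionals
  have hfun : ∀ u : ℝ × ℝ, u ∈ DL (Br k g) M (s / 2) →
      (u.1, s / 2 * u.1 - u.2) ∈ DR (Br k g) (rsh (s / 2) M) 0 ∧
      sd 0 (u.1, s / 2 * u.1 - u.2) = -sd (s / 2) u := by
    intro u hu
    obtain ⟨h1, -, h3⟩ := hr3 (s / 2) 0 u
    rw [sub_zero] at h1 h3
    exact ⟨h1.1 hu, h3⟩
  have hdes' : DesR (Br k g) (rsh (s / 2) M) 0 := by
    obtain ⟨u, hu, hu2⟩ := hdes
    obtain ⟨h1, h2⟩ := hfun u hu
    exact ⟨_, h1, by rw [h2]; linarith⟩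
  have hfat' : Fat (DR (Br k g) (rsh (s / 2) M) 0) := by
    obtain ⟨u, hu, u', hu', hne⟩ := hfat
    refine ⟨_, (hfun u hu).1, _, (hfun u' hu').1, ?_⟩
    intro h0
    apply hne
    simp only at h0
    linarith
  -- the first semi-good point
  obtain ⟨δ', hδ', hle, hnear⟩ := h_inner K (Br k g) hBs 0 (s / 2) (s / 2 - (0 - δ))
    (fun τ => y' (s / 2 - τ)) (rsh (s / 2) M) hh (by linarith) hYL
    (by
      show AtInf (Br k g) (y' (s / 2 - 0))
      rw [sub_zero, hyy (s / 2) hh.le hh2.le]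
      exact hinf)
    (by
      intro r hr0 hr1
      show ¬ SG (Br k g) (y' (s / 2 - r))
      rw [hyy (s / 2 - r) (by linarith) (by linarith)]
      exact (hbot.pa (s / 2 - r) (by linarith) (by linarith)).2.1)
    (by
      show SG (Br k g) (y' (s / 2 - s / 2))
      rw [sub_self, hy0]
      exact hsg)
    hdes' hfat'
  have hδδ : δ' ≤ δ := by linarith
  have hnear' : ∀ r, -δ' < r → r < 0 → SG (Br k g) (y' r) ∧
      ∀ f ∈ Br k g, f ≠ 0 → y' r f = 0 → y' 0 f = 0 := by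
    intro r h1 h2
    obtain ⟨h3, h4, -⟩ := hnear (s / 2 - r) (by linarith) (by linarith)
    have e1 : s / 2 - (s / 2 - r) = r := by ring
    have e2 : s / 2 - s / 2 = (0 : ℝ) := by ring
    simp only [e1, e2] at h3 h4
    exact ⟨h3, h4⟩
  -- a divisorial point
  obtain ⟨hden, -, -, -⟩ := h_dense p k K n g φ hgen (0 - δ) s y' M hcl'
  obtain ⟨r', hr'1, hr'2, hr'd⟩ := hden (-δ') 0 (by linarith) (by linarith) hs.le
  obtain ⟨hsgr', hzer'⟩ := hnear' r' hr'1 hr'2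
  obtain ⟨hi, hi2⟩ := hinz' r' (by linarith) (by linarith)
  obtain ⟨-, -, ha3, -, -⟩ := h_anti p k K n g φ E A R hctx
  have hinf' := ha3 (y' r') hi hi2 hsgr'
  obtain ⟨z, hzE, hz⟩ := hL.l1 (y' r') hi hr'd hinf'
  obtain ⟨hzB, hz0, -⟩ := hL.ct z hzE
  have hz' : y' 0 z = 0 := hzer' z hzB hz0 hz
  obtain ⟨-, -, he3⟩ := h_ell p k K n g φ E A R hctx z hzE
  have hell := he3 (0 - δ) s y' M hcl' r' 0 (by linarith) hs.le hz hz'
  -- a second divisorial point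
  obtain ⟨r, hr1', hr2', hrd⟩ := hden r' 0 (by linarith) hr'2 hs.le
  have hclr : CL k p φ g r' 0 y' M := hsub' r' 0 (by linarith) hr'2 hs.le
  exact h_cS p k K n g φ E A R hctx r' 0 y' M hclr z hzE
    (fun t h1 h2 => hell t h1.le h2.le) r hr1' hr2' hrd (hnear' r (by linarith) hr2').1

end Pool.Agent.F2PF
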