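import Pool.Agent.Lib.MP_305fdd_al.F2.PF.StmC

/-!
# MP_305fdd_al, F_2 project, section PF, part B2: the piece [F2PF btw]

A point between the ends of a descending segment is on it.
-/

set_option autoImplicit false

namespace Pool.Agent.F2PF

open MvPolynomial Pool.Agent.F2Ch

theorem p_btw (hdet : S_det) (hdnl : S_dnl) (hrch : S_rch) (hpr : S_pr) : S_btw := by
  intro p _ k K _ _ _ _ _ n g φ E A R hctx s y M hl x v b hx hb hxv hvb
  have pr_symm : ∀ {v v' : K → ℝ}, Pr v v' → Pr v' v := fun {v v'} h =>
    ((hpr p k K n g φ).1 v v' v).2.1 h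
  have pr_trans : ∀ {v v' v'' : K → ℝ}, Pr v v' → Pr v' v'' → Pr v v'' := fun {v v' v''} h h' =>
    ((hpr p k K n g φ).1 v v' v'').2.2 h h'
  have hr := hrch p k K n g φ E A R hctx
  have key : ∀ x, Rch k p φ g A x v → ∀ (s : ℝ) (y : ℝ → K → ℝ) (M : K → Finset (ℝ × ℝ)),
      DnL k p φ g A s y M → Pr x (y 0) → Pr (y s) b → ∃ t, 0 ≤ t ∧ t ≤ s ∧ Pr (y t) v := by
    intro x hx
    induction hx using Relation.ReflTransGen.head_induction_on with
    | refl =>
      intro s y M hl hx _
      exact ⟨0, le_rfl, hl.cl.1.le, pr_symm hx⟩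
    | @head x x1 hstep hch ih =>
      intro s y M hl hx hb
      have hs : 0 < s := hl.cl.1
      have hd := hdnl p k K n g φ E A R hctx s y M hl
      have hpb : PA k p φ g A b := (hr.1 _ _ (hd.1 s hs.le le_rfl) hb).1
      rcases hstep with ⟨_, h1⟩ | ⟨s', y', M', hl', h0', h1'⟩
      · exact ih s y M hl (pr_trans (pr_symm h1) hx) hb
      · have hs' : 0 < s' := hl'.cl.1
        have hd' := hdnl p k K n g φ E A R hctx s' y' M' hl'
        have hpx1 : PA k p φ g A x1 := (hr.1 _ _ (hd'.1 s' hs'.le le_rfl) h1').1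
        rcases hdet p k K n g φ E A R hctx s s' y y' M M' hl hl' (pr_trans (pr_symm hx) h0') with
          ⟨t, ht0, hts, ht⟩ | ⟨t', ht0, hts, ht⟩
        · have hyt : Pr (y t) x1 := pr_trans ht h1'
          rcases lt_or_eq_of_le hts with h | h
          · have hl2 := (hd.2.2.2.2.1 t s ht0 h le_rfl).2
            have e0 : y (t + 0) = y t := by rw [add_zero]
            have e1 : y (t + (s - t)) = y s := by rw [add_sub_cancel]
            obtain ⟨τ, h0, h1, h2⟩ := ih (s - t) (fun τ => y (t + τ)) (sh t M) hl2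
              (by simpa only [e0] using pr_symm hyt) (by simpa only [e1] using hb)
            exact ⟨t + τ, by linarith, by linarith, h2⟩
          · subst h
            have hbx : Pr b x1 := pr_trans (pr_symm hb) hyt
            have hvx : Rch k p φ g A v x1 := Relation.ReflTransGen.trans hvb (hr.1 _ _ hpb hbx).2
            have := (hr.2 x1 v hpx1 hch).2.2.2 hvx
            exact ⟨t, ht0, le_rfl, pr_trans hyt this⟩
        · have hby : Pr b (y' t') := pr_trans (pr_symm hb) ht
          have h2 : Rch k p φ g A b (y' t') := (hr.1 _ _ hpb hby).2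
          have h3 : Rch k p φ g A (y' t') (y' s') :=
            Relation.ReflTransGen.single (hd'.2.2.2.2.2 t' s' ht0 hts le_rfl)
          have h4 : Rch k p φ g A (y' s') x1 := (hr.1 _ _ (hd'.1 s' hs'.le le_rfl) h1').2
          have h5 : Rch k p φ g A b v := ((h2.trans h3).trans h4).trans hch
          have := (hr.2 b v hpb h5).2.2.2 hvb
          exact ⟨s, hs.le, le_rfl, pr_trans hb this⟩
  exact key x hxv s y M hl hx hb

end Pool.Agent.F2PF
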