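import Pool.Agent.Lib.MP_305fdd_al.F2.PF.StmB

/-!
# MP_305fdd_al, F_2 project, section PF, part B: piece [F2PF cS]
-/

set_option autoImplicit false

namespace Pool.Agent.F2PF

open MvPolynomial Pool.Agent.F2Ch

private theorem cS_wt (d e : Fin 2 → ℝ) (t : ℝ) (m : Fin 2 → ℤ) :
    wt (fun i => d i + t * e i) m = wt d m + t * wt e m := by
  unfold wt
  simp only [Fin.sum_univ_two, zsmul_eq_mul]
  ring

private theorem cS_det (d e : Fin 2 → ℝ) (h : d 0 * e 1 - d 1 * e 0 ≠ 0) (m : Fin 2 → ℤ)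
    (h1 : wt d m = 0) (h2 : wt e m = 0) : m = 0 := by
  unfold wt at h1 h2
  simp only [Fin.sum_univ_two, zsmul_eq_mul] at h1 h2
  have h3 : (m 0 : ℝ) * (d 0 * e 1 - d 1 * e 0) = 0 := by linear_combination e 1 * h1 - d 1 * h2
  have h4 : (m 1 : ℝ) * (d 0 * e 1 - d 1 * e 0) = 0 := by linear_combination d 0 * h2 - e 0 * h1
  have h5 : (m 0 : ℝ) = 0 := (mul_eq_zero.1 h3).resolve_right h
  have h6 : (m 1 : ℝ) = 0 := (mul_eq_zero.1 h4).resolve_right h
  funext i
  fin_cases i
  · exact_mod_cast h5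
  · exact_mod_cast h6

theorem p_cS : S_cS := by
  intro p _ k K _ _ _ _ _ n g φ E A R hC s1 s2 y M hCL z hz hy t ht1 ht2 hDv hSG
  obtain ⟨-, hL⟩ := hC
  obtain ⟨hs, κ, Γ, iκ, iA, iG, iO, iM, V, x, ex, ac, φb, N, L, d, e, hch, hdet, hgood, hon, hM⟩ := hCL
  obtain ⟨⟨q, hq⟩, hz0⟩ := (hL.ct z hz).1, (hL.ct z hz).2.1
  have hF : ∀ m, (L z).coeff m ≠ 0 → ∀ t', s1 < t' → t' < s2 → 0 ≤ wt d m + t' * wt e m := by
    intro m hm t' h1 h2
    have h3 := ((hon t' h1.le h2.le).1.min q (by rw [hq]; exact hz0)).1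
    rw [hq] at h3
    have h4 := h3 m hm
    rw [hy t' h1 h2, cS_wt] at h4
    exact h4
  refine hL.l8 κ Γ V x ex ac φb N L hch (fun i => d i + t * e i) (y t) (hgood t ht1 ht2)
    (hon t ht1.le ht2.le).1 hDv hSG ?_ z hz (hy t ht1 ht2) ?_
  · by_contra hn
    push Not at hn
    have h0 := (hon t ht1.le ht2.le).2 0
    have h1 := (hon t ht1.le ht2.le).2 1
    rw [hn] at h0 h1
    apply hdet
    linear_combination e 0 * h1 - e 1 * h0
  · intro m hm
    by_cases h0 : 0 < wt (fun i => d i + t * e i) m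
    · exact Or.inr h0
    · left
      rw [cS_wt] at h0
      have h1 := hF m hm t ht1 ht2
      have h2 : wt d m + t * wt e m = 0 := le_antisymm (not_lt.1 h0) h1
      have h3 : wt e m = 0 := by
        rcases lt_trichotomy (wt e m) 0 with h | h | h
        · exfalso
          have h4 := hF m hm ((t + s2) / 2) (by linarith) (by linarith)
          have h5 : ((t + s2) / 2 - t) * wt e m < 0 := mul_neg_of_pos_of_neg (by linarith) h
          linarith
        · exact h
        · exfalso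
          have h4 := hF m hm ((s1 + t) / 2) (by linarith) (by linarith)
          have h5 : ((s1 + t) / 2 - t) * wt e m < 0 := mul_neg_of_neg_of_pos (by linarith) h
          linarith
      have h4 : wt d m = 0 := by rw [h3] at h2; linarith
      exact cS_det d e hdet m h4 h3

end Pool.Agent.F2PF
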