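import Pool.Agent.Lib.MP_305fdd_al.F2.PF.StmB

/-!
# MP_305fdd_al, [F2PF cirr]: from an irrational point to a two-sided line
-/

set_option autoImplicit false

namespace Pool.Agent.F2PF

open MvPolynomial Pool.Agent.F2Ch Filter Topology

private theorem cirr_wt2 (d e : Fin 2 → ℝ) (t : ℝ) (m : Fin 2 → ℤ) :
    wt (fun i => d i + t * e i) m = wt d m + t * wt e m := by
  unfold wt
  rw [Fin.sum_univ_two, Fin.sum_univ_two, Fin.sum_univ_two]
  simp only [zsmul_eq_mul]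
  ring

private theorem cirr_ev (a b : ℝ) (h : 0 < a) : ∀ᶠ t in 𝓝 (0 : ℝ), 0 < a + t * b := by
  have hc : Tendsto (fun t : ℝ => a + t * b) (𝓝 0) (𝓝 (a + 0 * b)) :=
    (continuous_const.add (continuous_id.mul continuous_const)).tendsto 0
  rw [zero_mul, add_zero] at hc
  exact hc.eventually (lt_mem_nhds h)

/-- a `p`-basis with one element -/
private theorem cirr_perf (p : ℕ) {κ : Type} [Field κ] (b' : Fin (p ^ 0) → κ)
    (ρ' : Fin (p ^ 0) → κ → κ) (h : IsPB p b' ρ') (c : κ) : ∃ c', c' ^ p = c := by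
  have hone : ∀ f : κ, (ρ' 0 f) ^ p * b' 0 = f := by
    intro f
    have h1 := h.repr f
    have h2 : (∑ i : Fin (p ^ 0), (ρ' i f) ^ p * b' i) = (ρ' 0 f) ^ p * b' 0 :=
      Fin.sum_univ_one (fun i : Fin 1 => (ρ' i f) ^ p * b' i)
    rw [← h2]
    exact h1
  have h1 := hone 1
  have h2 : ρ' 0 1 ^ p ≠ 0 := left_ne_zero_of_mul_eq_one h1
  refine ⟨ρ' 0 c * (ρ' 0 1)⁻¹, ?_⟩
  have h3 : b' 0 = (ρ' 0 1 ^ p)⁻¹ := eq_inv_of_mul_eq_one_right h1
  rw [mul_pow, inv_pow, ← h3]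
  exact hone c

/-- [F2PF cirr] -/
theorem p_cirr (hX2 : S_X2) (hX3 : S_X3) : S_cirr := by
  intro p _ k K _ _ _ _ _ n g φ E A R hctx V hV hnD z hz hVz
  obtain ⟨⟨b0, ρ0, hbase⟩, hloc⟩ := hctx
  obtain ⟨hzB, hz0, M0, c0, hM0, hc0, hM0'⟩ := hloc.ct z hz
  obtain ⟨qz, hqz⟩ := hzB
  obtain ⟨r, s, κ, i1, i2, x, ex, ac, φb, N, L, hch, hrs, -, -, b', ρ', hpb⟩ :=
    hX2 p k K ℝ n g hbase.gen 3 b0 ρ0 hbase.pb φ hbase.pinv hbase.one V hV
  have hr : r = 2 := by
    have hr3 : r ≤ 3 := by omega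
    interval_cases r
    · exfalso
      apply hnD
      refine ⟨1, one_pos, fun f hf => ⟨0, ?_⟩⟩
      rw [hch.vb.gen f hf]
      unfold wt
      simp
    · exfalso
      apply hnD
      refine ⟨V (x 0), hch.vb.pos 0, fun f hf => ⟨ex f 0, ?_⟩⟩
      rw [hch.vb.gen f hf]
      unfold wt
      rw [Fin.sum_univ_one]
    · rfl
    · exfalso
      have hs : s = 0 := by omega
      subst hs
      obtain ⟨m, hm, hm'⟩ := hX3 p k K ℝ n g hbase.gen φ hbase.pinv hbase.one κ V hV 3 x ex ac φb N L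
        hch (cirr_perf p b' ρ' hpb) ℝ Unit (fun _ i => V (x i)) (fun _ => V) (fun _ => hch.good)
        (fun _ => hch.onch) qz M0 c0 (fun _ => Or.inr (by rw [hqz, hVz]))
        (by rw [hqz]; exact hM0) hc0 (by rw [hqz]; exact hM0')
      exact hm (hch.vb.indep m (hm' ()))
  subst hr
  obtain ⟨d, hd⟩ : ∃ d : Fin 2 → ℝ, d = fun i => V (x i) := ⟨_, rfl⟩
  obtain ⟨e, he⟩ : ∃ e : Fin 2 → ℝ, e = ![-d 1, d 0] := ⟨_, rfl⟩
  have hVx : (fun i => V (x i)) = d := hd.symm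
  have hpos : ∀ i, 0 < d i := fun i => by rw [hd]; exact hch.vb.pos i
  have hdet : d 0 * e 1 - d 1 * e 0 ≠ 0 := by
    have h1 : d 0 * e 1 - d 1 * e 0 = d 0 * d 0 + d 1 * d 1 := by
      rw [he]
      simp
    rw [h1]
    have := mul_pos (hpos 0) (hpos 0)
    have := mul_pos (hpos 1) (hpos 1)
    linarith
  have hgood := hch.good
  have honch := hch.onch
  have hindep := hch.vb.indep
  rw [hVx] at hgood honch hindep
  have hEv1 : ∀ᶠ t in 𝓝 (0 : ℝ), ∀ m ∈ N, 0 < wt d m + t * wt e m := by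
    rw [eventually_all_finite hch.fin]
    intro m hm
    exact cirr_ev _ _ (hgood m hm)
  have hLz := honch.min qz (by rwa [hqz])
  rw [hqz, hVz] at hLz
  obtain ⟨hLz1, mz, hmz, hmz0⟩ := hLz
  obtain rfl : mz = 0 := hindep mz hmz0.symm
  have hEv2 : ∀ᶠ t in 𝓝 (0 : ℝ), ∀ m ∈ (L z).coeff.support, 0 ≤ wt d m + t * wt e m := by
    rw [eventually_all_finset]
    intro m hm
    rcases (hLz1 m (Finsupp.mem_support_iff.1 hm)).lt_or_eq with h | h
    · filter_upwards [cirr_ev _ (wt e m) h] with t ht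
      exact ht.le
    · have hm0 := hindep m h.symm
      subst hm0
      refine Eventually.of_forall fun t => ?_
      unfold wt
      simp
  obtain ⟨s0, hs0, hs0'⟩ := Metric.eventually_nhds_iff.1 (hEv1.and hEv2)
  have hs1 : ∀ t : ℝ, |t| < s0 → (∀ m ∈ N, 0 < wt d m + t * wt e m) ∧
      ∀ m ∈ (L z).coeff.support, 0 ≤ wt d m + t * wt e m := fun t ht =>
    hs0' (by rwa [Real.dist_0_eq_abs])
  have hex : ∀ t : ℝ, ∃ y : K → ℝ, |t| < s0 →
      OnCh k p φ g L (fun i => d i + t * e i) y ∧ ∀ i, y (x i) = d i + t * e i := by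
    intro t
    by_cases ht : |t| < s0
    · have hG : Good N (fun i => d i + t * e i) := by
        intro m hm
        rw [cirr_wt2]
        exact (hs1 t ht).1 m hm
      obtain ⟨y, hy1, hy2⟩ := hch.cell ℝ (fun i => d i + t * e i) hG
      exact ⟨y, fun _ => ⟨hy1, hy2⟩⟩
    · exact ⟨V, fun h => absurd h ht⟩
  choose y hy using hex
  have hy0 : y 0 = V := by
    have h1 := (hy 0 (by rw [abs_zero]; exact hs0)).1
    have h2 : (fun i => d i + 0 * e i) = d := by
      funext i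
      rw [zero_mul, add_zero]
    rw [h2] at h1
    exact hch.uniq ℝ d (y 0) V h1 honch
  have habs : ∀ t : ℝ, -(s0 / 2) ≤ t → t ≤ s0 / 2 → |t| < s0 := by
    intro t h1 h2
    rw [abs_lt]
    constructor <;> linarith
  refine ⟨s0 / 2, y, fun f => (L f).coeff.support.image fun m => (wt d m, wt e m), by linarith, ?_,
    hy0, ?_⟩
  · refine ⟨by linarith, κ, ℝ, i1, i2, inferInstance, inferInstance, inferInstance, V, x, ex,
      ac, φb, N, L, d, e, hch, hdet, ?_, fun t h1 h2 => hy t (habs t h1 h2), ?_⟩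
    · intro t ht1 ht2 m hm
      rw [cirr_wt2]
      exact (hs1 t (habs t ht1.le ht2.le)).1 m hm
    · intro f m'
      rw [Finset.mem_image]
      constructor
      · rintro ⟨m, hm, h⟩
        exact ⟨m, Finsupp.mem_support_iff.1 hm, h.symm⟩
      · rintro ⟨m, hm, h⟩
        exact ⟨m, Finsupp.mem_support_iff.2 hm, h.symm⟩
  · intro t ht1 ht2
    have h1 := (hy t (habs t ht1 ht2)).1.min qz (by rwa [hqz])
    rw [hqz] at h1
    obtain ⟨h2, m, hm, h3⟩ := h1
    have h4 := h2 0 hmz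
    have h5 := (hs1 t (habs t ht1 ht2)).2 m (Finsupp.mem_support_iff.2 hm)
    rw [cirr_wt2] at h3 h4
    have h6 : wt d (0 : Fin 2 → ℤ) + t * wt e (0 : Fin 2 → ℤ) = 0 := by
      unfold wt; simp
    rw [h6] at h4
    rw [← h3] at h5
    exact le_antisymm h4 h5

end Pool.Agent.F2PF
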