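import Pool.Agent.Lib.MP_305fdd_al.F2.PF.Stm

/-!
# MP_305fdd_al, F_2 project, section PF: the sets of functionals are closed at the right side
-/

set_option autoImplicit false

namespace Pool.Agent.F2PF

open Pool.Agent.F2Ch

private theorem clo_cone {K : Type} [Field K] {B : Set K} {M : K → Finset (ℝ × ℝ)} {t c : ℝ}
    {u : ℝ × ℝ} (hc : 0 ≤ c) (hu : u ∈ DR B M t ∨ u ∈ DL B M t) :
    c • u ∈ DR B M t ∨ c • u ∈ DL B M t := by
  have key : ∀ m, dot (c • u) m = c * dot u m := by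
    intro m
    simp only [dot, Prod.smul_fst, Prod.smul_snd, smul_eq_mul]
    ring
  rcases hu with hu | hu
  · left
    intro f hf hf0 m hm
    rw [key]
    exact mul_nonpos_of_nonneg_of_nonpos hc (hu f hf hf0 m hm)
  · right
    intro f hf hf0 m hm
    rw [key]
    exact mul_nonpos_of_nonneg_of_nonpos hc (hu f hf hf0 m hm)

private theorem clo_isL (hin : S_in) (S : Finset (ℝ × ℝ)) (t : ℝ) (hS : S.Nonempty) :
    ∃ m, IsL S t m := by
  obtain ⟨m, hm⟩ := hin.1 (S.image rf) (-t) (hS.image rf)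
  refine ⟨rf m, (hin.2.2.2.1 S t (rf m)).2 ?_⟩
  have : rf (rf m) = m := by simp [rf]
  rw [this]
  exact hm

/-- [F2PF clo] The sets of functionals are closed at the right side. -/
theorem p_clo (hin : S_in) (hgerm : S_germ) : S_clo := by
  intro K _ B hB J y M hL t ht t1 ht1 hJ σ hyp
  have h1 : ∀ n : ℕ, ∃ tn : ℝ, t < tn ∧ tn < t1 ∧ tn < t + 1 / ((n : ℝ) + 1) ∧ ∃ u : ℝ × ℝ,
      (u ∈ DR B M tn ∨ u ∈ DL B M tn) ∧ ‖u‖ = 1 ∧ 0 ≤ σ * sd tn u := by
    intro n
    have hd : 0 < min (1 / ((n : ℝ) + 1)) (t1 - t) :=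
      lt_min (by positivity) (by linarith)
    obtain ⟨tn, h1, h2, u, h3, h4, h5⟩ := hyp _ hd
    have h6 := min_le_left (1 / ((n : ℝ) + 1)) (t1 - t)
    have h7 := min_le_right (1 / ((n : ℝ) + 1)) (t1 - t)
    have hn : 0 < ‖u‖ := norm_pos_iff.2 h4
    refine ⟨tn, h1, by linarith, by linarith, ‖u‖⁻¹ • u, clo_cone (by positivity) h3, ?_, ?_⟩
    · rw [norm_smul, norm_inv, norm_norm, inv_mul_cancel₀ hn.ne']
    · have h8 : σ * sd tn (‖u‖⁻¹ • u) = ‖u‖⁻¹ * (σ * sd tn u) := by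
        simp only [sd, Prod.smul_fst, Prod.smul_snd, smul_eq_mul]
        ring
      rw [h8]
      exact mul_nonneg (by positivity) h5
  choose tn ha hb hc u hu hun hs using h1
  have hcomp : IsCompact (Metric.sphere (0 : ℝ × ℝ) 1) := isCompact_sphere 0 1
  obtain ⟨a, ha1, φ, hφ, hlim⟩ := hcomp.tendsto_subseq (x := u) (fun n => by simp [hun n])
  have htn : Filter.Tendsto tn Filter.atTop (nhds t) := by
    have h2 : Filter.Tendsto (fun n : ℕ => t + 1 / ((n : ℝ) + 1)) Filter.atTop (nhds t) := by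
      have := (tendsto_one_div_add_atTop_nhds_zero_nat (𝕜 := ℝ)).const_add t
      simpa using this
    exact tendsto_of_tendsto_of_tendsto_of_le_of_le tendsto_const_nhds h2
      (fun n => (ha n).le) (fun n => (hc n).le)
  have htn' := htn.comp hφ.tendsto_atTop
  refine ⟨a, ?_, ?_, ?_⟩
  · intro f hf hf0 m hm
    obtain ⟨δ, hδ, h3⟩ := (hgerm K B hB J y M hL t ht).2.1 f hf hf0 m hm
    have h4 : ∀ᶠ n in Filter.atTop, dot (u (φ n)) m ≤ 0 := by
      have h5 : ∀ᶠ n in Filter.atTop, (tn ∘ φ) n < t + δ :=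
        htn'.eventually_lt_const (by linarith)
      filter_upwards [h5] with n hn
      have h6 := (h3 _ (ha _) hn (hJ ⟨(ha _).le, (hb _).le⟩)).2
      obtain ⟨m', hm'⟩ := hin.1 (M f) (tn (φ n)) (hL.ne f hf hf0)
      obtain ⟨m'', hm''⟩ := clo_isL hin (M f) (tn (φ n)) (hL.ne f hf hf0)
      rw [h6 m' (Or.inl hm')] at hm'
      rw [h6 m'' (Or.inr hm'')] at hm''
      rcases hu (φ n) with h | h
      · exact h f hf hf0 _ hm'
      · exact h f hf hf0 _ hm''
    have h7 : Filter.Tendsto (fun n => dot (u (φ n)) m) Filter.atTop (nhds (dot a m)) := by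
      have : Continuous (fun v : ℝ × ℝ => dot v m) := by
        unfold dot
        fun_prop
      exact (this.tendsto a).comp hlim
    exact le_of_tendsto h7 h4
  · rintro rfl
    simp at ha1
  · have h7 : Filter.Tendsto (fun n => σ * sd ((tn ∘ φ) n) ((u ∘ φ) n)) Filter.atTop
        (nhds (σ * sd t a)) := by
      have : Continuous (fun v : ℝ × (ℝ × ℝ) => σ * sd v.1 v.2) := by
        unfold sd
        fun_prop
      exact (this.tendsto (t, a)).comp (htn'.prodMk_nhds hlim)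
    exact ge_of_tendsto' h7 (fun n => hs _)

end Pool.Agent.F2PF
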