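import Pool.Agent.Lib.MP_305fdd_al.F2.PF.StmC

set_option autoImplicit false

namespace Pool.Agent.F2PF

open MvPolynomial Pool.Agent.F2Ch

private theorem cloL_rf_rf (u : ℝ × ℝ) : rf (rf u) = u := by
  unfold rf
  simp

private theorem cloL_rf_ne {u : ℝ × ℝ} (hu : u ≠ 0) : rf u ≠ 0 := by
  intro h
  apply hu
  have h1 := congrArg rf h
  rw [cloL_rf_rf] at h1
  rw [h1]
  unfold rf
  simp

theorem p_cloL (h1 : S_clo) (h2 : S_refl) : S_cloL := by
  intro K _ B hB J y M hL t ht t1 ht1 hJ σ hσ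
  obtain ⟨r1, r2, r3, r4⟩ := h2 K B J y M hL
  have ht' : -t ∈ {t | -t ∈ J} := by
    simp only [Set.mem_setOf_eq, neg_neg]
    exact ht
  have hJ' : Set.Icc (-t) (-t1) ⊆ {t | -t ∈ J} := by
    intro r hr
    exact hJ ⟨by linarith [hr.2], by linarith [hr.1]⟩
  obtain ⟨u, hu1, hu2, hu3⟩ := h1 K B hB _ _ _ r1 (-t) ht' (-t1) (by linarith) hJ' (-σ) (by
    intro δ hδ
    obtain ⟨t', a1, a2, v, a3, a4, a5⟩ := hσ δ hδ
    refine ⟨-t', by linarith, by linarith, rf v, ?_, cloL_rf_ne a4, ?_⟩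
    · rcases a3 with a3 | a3
      · exact Or.inr ((r2 t' v).1 a3)
      · exact Or.inl ((r3 t' v).1 a3)
    · rw [r4]
      linarith)
  refine ⟨rf u, ?_, cloL_rf_ne hu2, ?_⟩
  · rw [r3, cloL_rf_rf]
    exact hu1
  · have h3 := r4 t (rf u)
    rw [cloL_rf_rf] at h3
    rw [h3] at hu3
    linarith

end Pool.Agent.F2PF
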