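import Pool.Agent.Lib.MP_305fdd_al.F2.PF.StmB

set_option autoImplicit false

namespace Pool.Agent.F2PF

open MvPolynomial Pool.Agent.F2Ch

private lemma crev_neg {r : ℕ} (e : Fin r → ℝ) (m : Fin r → ℤ) :
    wt (fun i => -e i) m = -wt e m := by
  simp only [wt, smul_neg, Finset.sum_neg_distrib]

private lemma crev_add {r : ℕ} (d e : Fin r → ℝ) (c : ℝ) (m : Fin r → ℤ) :
    wt (fun i => d i + c * e i) m = wt d m + c * wt e m := by
  simp only [wt, smul_add, Finset.sum_add_distrib, Finset.mul_sum]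
  congr 1
  refine Finset.sum_congr rfl fun i _ => ?_
  rw [mul_smul_comm]

theorem p_crev : S_crev := by
  intro p _ k K _ _ _ _ _ n g φ s1 s2 y M hCL
  obtain ⟨hs, κ, Γ, i1, i2, i3, i4, i5, V, x, ex, ac, φb, N, L, d, e, hch, hdet, hgood, hon, hM⟩ := hCL
  refine ⟨⟨by linarith, κ, Γ, i1, i2, i3, i4, i5, V, x, ex, ac, φb, N, L, d, fun i => -e i, hch, ?_,
    ?_, ?_, ?_⟩, fun c => ⟨by linarith, κ, Γ, i1, i2, i3, i4, i5, V, x, ex, ac, φb, N, L,
      fun i => d i + c * e i, e, hch, ?_, ?_, ?_, ?_⟩⟩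
  · intro h
    apply hdet
    show d 0 * e 1 - d 1 * e 0 = 0
    have h' : d 0 * (-e 1) - d 1 * (-e 0) = 0 := h
    linarith
  · intro t h1 h2
    have h := hgood (-t) (by linarith) (by linarith)
    have e1 : (fun i => d i + -t * e i) = fun i => d i + t * -e i := by
      funext i; ring
    rw [e1] at h
    exact h
  · intro t h1 h2
    have h := hon (-t) (by linarith) (by linarith)
    have e1 : (fun i => d i + -t * e i) = fun i => d i + t * -e i := by
      funext i; ring
    rw [e1] at h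
    refine ⟨h.1, fun i => ?_⟩
    show y (-t) (x i) = d i + t * -e i
    rw [h.2 i]; ring
  · intro f m'
    rw [Finset.mem_image]
    constructor
    · rintro ⟨m1, hm1, rfl⟩
      obtain ⟨m, hm, rfl⟩ := (hM f m1).mp hm1
      exact ⟨m, hm, by rw [crev_neg]; rfl⟩
    · rintro ⟨m, hm, rfl⟩
      exact ⟨(wt d m, wt e m), (hM f _).mpr ⟨m, hm, rfl⟩, by rw [crev_neg]; rfl⟩
  · intro h
    apply hdet
    have h' : (d 0 + c * e 0) * e 1 - (d 1 + c * e 1) * e 0 = 0 := h
    linarith
  · intro t h1 h2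
    have h := hgood (c + t) (by linarith) (by linarith)
    have e1 : (fun i => d i + (c + t) * e i) = fun i => d i + c * e i + t * e i := by
      funext i; ring
    rw [e1] at h
    exact h
  · intro t h1 h2
    have h := hon (c + t) (by linarith) (by linarith)
    have e1 : (fun i => d i + (c + t) * e i) = fun i => d i + c * e i + t * e i := by
      funext i; ring
    rw [e1] at h
    refine ⟨h.1, fun i => ?_⟩
    show y (c + t) (x i) = d i + c * e i + t * e i
    rw [h.2 i]; ring
  · intro f m'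
    rw [Finset.mem_image]
    constructor
    · rintro ⟨m1, hm1, rfl⟩
      obtain ⟨m, hm, rfl⟩ := (hM f m1).mp hm1
      exact ⟨m, hm, by rw [crev_add]⟩
    · rintro ⟨m, hm, rfl⟩
      exact ⟨(wt d m, wt e m), (hM f _).mpr ⟨m, hm, rfl⟩, by rw [crev_add]⟩

end Pool.Agent.F2PF
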