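import Pool.Agent.Lib.MP_305fdd_al.F2.PF.StmB

/-!
# MP_305fdd_al, F_2 project, section PF: piece [F2PF dense]
-/

set_option autoImplicit false

namespace Pool.Agent.F2PF

open MvPolynomial Pool.Agent.F2Ch

/-- an integer vector which separates two independent real vectors -/
private lemma dense_int (u0 u1 v0 v1 : ℝ) (h : u0 * v1 - u1 * v0 ≠ 0) :
    ∃ m0 m1 : ℤ, (m0 : ℝ) * u0 + (m1 : ℝ) * u1 < 0 ∧ 0 < (m0 : ℝ) * v0 + (m1 : ℝ) * v1 := by
  have hopen : IsOpen {z : ℝ × ℝ | z.1 * u0 + z.2 * u1 < 0 ∧ 0 < z.1 * v0 + z.2 * v1} := by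
    have c1 : Continuous fun z : ℝ × ℝ => z.1 * u0 + z.2 * u1 := by fun_prop
    have c2 : Continuous fun z : ℝ × ℝ => z.1 * v0 + z.2 * v1 := by fun_prop
    exact (isOpen_lt c1 continuous_const).inter (isOpen_lt continuous_const c2)
  have hne : ({z : ℝ × ℝ | z.1 * u0 + z.2 * u1 < 0 ∧ 0 < z.1 * v0 + z.2 * v1}).Nonempty := by
    refine ⟨((-v1 - u1) / (u0 * v1 - u1 * v0), (u0 + v0) / (u0 * v1 - u1 * v0)), ?_, ?_⟩
    · have : (-v1 - u1) / (u0 * v1 - u1 * v0) * u0 + (u0 + v0) / (u0 * v1 - u1 * v0) * u1 = -1 := by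
        rw [div_mul_eq_mul_div, div_mul_eq_mul_div, ← add_div, div_eq_iff h]
        ring
      simp only
      rw [this]; norm_num
    · have : (-v1 - u1) / (u0 * v1 - u1 * v0) * v0 + (u0 + v0) / (u0 * v1 - u1 * v0) * v1 = 1 := by
        rw [div_mul_eq_mul_div, div_mul_eq_mul_div, ← add_div, div_eq_iff h]
        ring
      simp only
      rw [this]; norm_num
  have hd : DenseRange (Prod.map ((↑) : ℚ → ℝ) ((↑) : ℚ → ℝ)) :=
    DenseRange.prodMap Rat.denseRange_cast Rat.denseRange_cast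
  obtain ⟨⟨q0, q1⟩, hq1, hq2⟩ := hd.exists_mem_open hopen hne
  simp only [Prod.map_fst, Prod.map_snd] at hq1 hq2
  have hp0 : (0 : ℝ) < (q0.den : ℝ) := by exact_mod_cast q0.den_pos
  have hp1 : (0 : ℝ) < (q1.den : ℝ) := by exact_mod_cast q1.den_pos
  have e0 : (q0 : ℝ) * (q0.den : ℝ) = (q0.num : ℝ) := by exact_mod_cast Rat.mul_den_eq_num q0
  have e1 : (q1 : ℝ) * (q1.den : ℝ) = (q1.num : ℝ) := by exact_mod_cast Rat.mul_den_eq_num q1
  refine ⟨q0.num * q1.den, q1.num * q0.den, ?_, ?_⟩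
  · push_cast
    have : (q0.num : ℝ) * (q1.den : ℝ) * u0 + (q1.num : ℝ) * (q0.den : ℝ) * u1 =
        ((q0.den : ℝ) * (q1.den : ℝ)) * ((q0 : ℝ) * u0 + (q1 : ℝ) * u1) := by
      rw [← e0, ← e1]; ring
    rw [this]
    exact mul_neg_of_pos_of_neg (mul_pos hp0 hp1) hq1
  · push_cast
    have : (q0.num : ℝ) * (q1.den : ℝ) * v0 + (q1.num : ℝ) * (q0.den : ℝ) * v1 =
        ((q0.den : ℝ) * (q1.den : ℝ)) * ((q0 : ℝ) * v0 + (q1 : ℝ) * v1) := by
      rw [← e0, ← e1]; ring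
    rw [this]
    exact mul_pos (mul_pos hp0 hp1) hq2

/-- values proportional to an integer vector: divisorial -/
private lemma dense_dv {k : Type} {p : ℕ} {K κ : Type} [Field k] [Field K] [Algebra k K]
    [Field κ] {n : ℕ} {g : Fin n → K} {φ : K → K} (hg : FracGen k g)
    {L : K → AddMonoidAlgebra κ (Fin 2 → ℤ)} {u : Fin 2 → ℝ} {w : K → ℝ}
    (ho : OnCh k p φ g L u w) (m0 m1 : ℤ) (hm : m0 ≠ 0 ∨ m1 ≠ 0)
    (h0 : (m0 : ℝ) * u 0 + (m1 : ℝ) * u 1 = 0) (hu : u 0 ≠ 0 ∨ u 1 ≠ 0) : Dv w := by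
  have hs : (0 : ℝ) < (m0 : ℝ) ^ 2 + (m1 : ℝ) ^ 2 := by
    rcases hm with h | h
    · have : (m0 : ℝ) ≠ 0 := by exact_mod_cast h
      positivity
    · have : (m1 : ℝ) ≠ 0 := by exact_mod_cast h
      positivity
  obtain ⟨l, hl⟩ : ∃ l : ℝ, l = (u 0 * (m1 : ℝ) - u 1 * (m0 : ℝ)) / ((m0 : ℝ) ^ 2 + (m1 : ℝ) ^ 2) :=
    ⟨_, rfl⟩
  have e0 : u 0 = l * (m1 : ℝ) := by
    rw [hl, div_mul_eq_mul_div, eq_div_iff hs.ne']
    have : (m0 : ℝ) * ((m0 : ℝ) * u 0 + (m1 : ℝ) * u 1) = 0 := by rw [h0, mul_zero]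
    linear_combination this
  have e1 : u 1 = - l * (m0 : ℝ) := by
    rw [hl, ← neg_div, div_mul_eq_mul_div, eq_div_iff hs.ne']
    have : (m1 : ℝ) * ((m0 : ℝ) * u 0 + (m1 : ℝ) * u 1) = 0 := by rw [h0, mul_zero]
    linear_combination this
  have hl0 : l ≠ 0 := by
    rintro rfl
    rcases hu with h | h
    · exact h (by rw [e0]; ring)
    · exact h (by rw [e1]; ring)
  -- values on the ring
  have hB : ∀ q : MvPolynomial (Fin n) k, aeval g q ≠ 0 → ∃ N : ℤ, w (aeval g q) = (N : ℝ) * l := by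
    intro q hq
    obtain ⟨-, m, -, hm'⟩ := ho.min q hq
    refine ⟨m 0 * m1 - m 1 * m0, ?_⟩
    rw [hm', wt, Fin.sum_univ_two, zsmul_eq_mul, zsmul_eq_mul, e0, e1]
    push_cast
    ring
  have hK : ∀ f : K, f ≠ 0 → ∃ N : ℤ, w f = (N : ℝ) * l := by
    intro f hf
    obtain ⟨a, b, hb, hab⟩ := hg f
    have ha : aeval g a ≠ 0 := by rw [← hab]; exact mul_ne_zero hf hb
    obtain ⟨N, hN⟩ := hB a ha
    obtain ⟨N', hN'⟩ := hB b hb
    have := ho.inz.isv.mul f (aeval g b) hf hb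
    rw [hab, hN, hN'] at this
    refine ⟨N - N', ?_⟩
    push_cast
    linarith
  refine ⟨|l|, abs_pos.mpr hl0, fun f hf => ?_⟩
  obtain ⟨N, hN⟩ := hK f hf
  rcases lt_or_ge l 0 with h | h
  · refine ⟨-N, ?_⟩
    rw [hN, abs_of_neg h, zsmul_eq_mul]
    push_cast; ring
  · refine ⟨N, ?_⟩
    rw [hN, abs_of_nonneg h, zsmul_eq_mul]

theorem p_dense (hline : S_line) : S_dense := by
  intro p _ k K _ _ _ _ _ n g φ hg s1 s2 y M hcl
  have hL := ((hline p k K n g φ).2 s1 s2 y M hcl).1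
  have hcont : ∀ f ∈ Br k g, f ≠ 0 → ContinuousOn (fun t => y t f) (Set.Icc s1 s2) := by
    intro f hf hf0
    have hne := hL.ne f hf hf0
    have hc : Continuous (fun t : ℝ => (M f).inf' hne (fun m => m.1 + t * m.2)) := by
      apply Continuous.finset_inf'_apply
      intro m _
      fun_prop
    refine hc.continuousOn.congr fun t ht => ?_
    apply le_antisymm
    · exact Finset.le_inf' _ _ fun m hm => hL.le f hf hf0 t ht m hm
    · obtain ⟨m, hm, he⟩ := hL.ex f hf hf0 t ht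
      simp only
      rw [he]
      exact Finset.inf'_le (fun m : ℝ × ℝ => m.1 + t * m.2) hm
  refine ⟨?_, hcont, ?_, ?_⟩
  · intro a b ha hab hb
    obtain ⟨-, κ, Γ, _, _, _, _, _, V, x, ex, ac, φb, N, L, d, e, hch, hdet, hgood, hon, hM⟩ := hcl
    have hdet' : (d 0 + a * e 0) * (d 1 + b * e 1) - (d 1 + a * e 1) * (d 0 + b * e 0) ≠ 0 := by
      have : (d 0 + a * e 0) * (d 1 + b * e 1) - (d 1 + a * e 1) * (d 0 + b * e 0) =
          (b - a) * (d 0 * e 1 - d 1 * e 0) := by ring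
      rw [this]
      exact mul_ne_zero (sub_ne_zero.mpr hab.ne') hdet
    obtain ⟨m0, m1, h1, h2⟩ := dense_int _ _ _ _ hdet'
    have hfc : ContinuousOn (fun t : ℝ => (m0 : ℝ) * (d 0 + t * e 0) + (m1 : ℝ) * (d 1 + t * e 1))
        (Set.Icc a b) := by fun_prop
    obtain ⟨t, ⟨ht1, ht2⟩, ht0⟩ := intermediate_value_Ioo hab.le hfc ⟨h1, h2⟩
    refine ⟨t, ht1, ht2, ?_⟩
    have hm : m0 ≠ 0 ∨ m1 ≠ 0 := by
      by_contra hcon
      push Not at hcon
      rw [hcon.1, hcon.2] at h1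
      simp at h1
    have hu : d 0 + t * e 0 ≠ 0 ∨ d 1 + t * e 1 ≠ 0 := by
      by_contra hcon
      push Not at hcon
      apply hdet
      have q0 : d 0 = - (t * e 0) := by linarith [hcon.1]
      have q1 : d 1 = - (t * e 1) := by linarith [hcon.2]
      rw [q0, q1]; ring
    exact dense_dv hg (hon t (by linarith) (by linarith)).1 m0 m1 hm ht0 hu
  · intro t0 h1 h2 hns
    unfold SG at hns
    push Not at hns
    obtain ⟨f, hf, hf0, hpos⟩ := hns
    have hca := hcont f hf hf0 t0 ⟨h1, h2⟩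
    have hev := hca.eventually (lt_mem_nhds hpos)
    rw [eventually_nhdsWithin_iff, Metric.eventually_nhds_iff] at hev
    obtain ⟨δ, hδ, hh⟩ := hev
    refine ⟨δ, hδ, fun t ht1 ht2 htd hsg => ?_⟩
    have := hh (y := t) (by rw [Real.dist_eq]; exact htd) ⟨ht1, ht2⟩
    exact absurd (hsg f hf hf0) (not_le.mpr this)
  · intro t0 h1 h2 hns
    obtain ⟨f, hf, hf0, hneg⟩ := hns
    have hca := hcont f hf hf0 t0 ⟨h1, h2⟩
    have hev := hca.eventually (gt_mem_nhds hneg)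
    rw [eventually_nhdsWithin_iff, Metric.eventually_nhds_iff] at hev
    obtain ⟨δ, hδ, hh⟩ := hev
    refine ⟨δ, hδ, fun t ht1 ht2 htd => ?_⟩
    have := hh (y := t) (by rw [Real.dist_eq]; exact htd) ⟨ht1, ht2⟩
    exact ⟨f, hf, hf0, this⟩

end Pool.Agent.F2PF
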