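import Pool.Agent.Lib.MP_305fdd_al.F2.PF.StmC

/-!
# MP_305fdd_al, F_2 project, section PF: the piece `S_det`
-/

set_option autoImplicit false

namespace Pool.Agent.F2PF

open MvPolynomial Pool.Agent.F2Ch Filter Topology

private theorem det_ext {K : Type} [Field K] {B : Set K} (hB : Bs B) {v v' : K → ℝ} (hv : IsV v)
    (hv' : IsV v') {c : ℝ} (hc : 0 < c) (h : ∀ f ∈ B, f ≠ 0 → v' f = c * v f) : Pr v v' := by
  refine ⟨c, hc, fun f => ?_⟩
  by_cases hf : f = 0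
  · subst hf
    rw [hv.zero, hv'.zero, mul_zero]
  · obtain ⟨a, ha, b, hb, hb0, hab⟩ := hB.frac f
    have ha0 : a ≠ 0 := by
      rw [← hab]
      exact mul_ne_zero hf hb0
    have h1 := hv.mul f b hf hb0
    have h2 := hv'.mul f b hf hb0
    rw [hab] at h1 h2
    have h3 := h a ha ha0
    have h4 := h b hb hb0
    rw [h1] at h3
    rw [h2, h4] at h3
    linarith

private theorem det_nz {K : Type} [Field K] {B : Set K} (hB : Bs B) {v : K → ℝ} (hv : IsV v)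
    (h : ∃ f, v f ≠ 0) : ∃ f ∈ B, f ≠ 0 ∧ v f ≠ 0 := by
  by_contra hcon
  push Not at hcon
  obtain ⟨f, hf⟩ := h
  have hf0 : f ≠ 0 := by
    rintro rfl
    exact hf hv.zero
  obtain ⟨a, ha, b, hb, hb0, hab⟩ := hB.frac f
  have ha0 : a ≠ 0 := by
    rw [← hab]
    exact mul_ne_zero hf0 hb0
  have h1 := hv.mul f b hf0 hb0
  rw [hab, hcon a ha ha0, hcon b hb hb0] at h1
  apply hf
  linarith

theorem p_det (hloc : S_loc) (hdnl : S_dnl) (hdense : S_dense) (hline : S_line) : S_det := by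
  intro p _ k K _ _ _ _ _ n g φ E A R hC s s' y y' M M' hy hy' h0
  by_contra hcon
  push Not at hcon
  obtain ⟨h1, h2⟩ := hcon
  obtain ⟨⟨b0, ρ0, hbase⟩, hL⟩ := id hC
  obtain ⟨hBs', hln⟩ := hline p k K n g φ
  have hBs : Bs (Br k g) := hBs' hbase.gen
  have hs : 0 < s := hy.cl.1
  have hs' : 0 < s' := hy'.cl.1
  obtain ⟨hLy, hzy, -⟩ := hln 0 s y M hy.cl
  obtain ⟨hLy', hzy', -⟩ := hln 0 s' y' M' hy'.cl
  have hcy := (hdense p k K n g φ hbase.gen 0 s y M hy.cl).2.1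
  have hcy' := (hdense p k K n g φ hbase.gen 0 s' y' M' hy'.cl).2.1
  set P : Set ℝ := {t | ∃ t', 0 ≤ t' ∧ t' ≤ s' ∧ Pr (y t) (y' t')} with hP
  have hcl : IsClosed (P ∩ Set.Icc 0 s) := by
    rw [← isSeqClosed_iff_isClosed]
    intro x a hx hxa
    have haI : a ∈ Set.Icc 0 s := isClosed_Icc.isSeqClosed (fun m => (hx m).2) hxa
    refine ⟨?_, haI⟩
    choose τ hτ0 hτs hτ using fun m => (hx m).1
    obtain ⟨b, hb, ψ, hψ, hψb⟩ := isCompact_Icc.tendsto_subseq
      (fun m => (⟨hτ0 m, hτs m⟩ : τ m ∈ Set.Icc 0 s'))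
    have hxa' : Tendsto (x ∘ ψ) atTop (𝓝 a) := hxa.comp hψ.tendsto_atTop
    have hya : ∀ f ∈ Br k g, f ≠ 0 →
        Tendsto (fun m => y (x (ψ m)) f) atTop (𝓝 (y a f)) := by
      intro f hf hf0
      have h3 := (hcy f hf hf0 a haI).tendsto
      exact h3.comp (tendsto_nhdsWithin_iff.mpr ⟨hxa', Filter.Eventually.of_forall
        fun m => (hx (ψ m)).2⟩)
    have hyb : ∀ f ∈ Br k g, f ≠ 0 →
        Tendsto (fun m => y' (τ (ψ m)) f) atTop (𝓝 (y' b f)) := by
      intro f hf hf0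
      have h3 := (hcy' f hf hf0 b hb).tendsto
      exact h3.comp (tendsto_nhdsWithin_iff.mpr ⟨hψb, Filter.Eventually.of_forall
        fun m => ⟨hτ0 (ψ m), hτs (ψ m)⟩⟩)
    obtain ⟨f0, hf0B, hf0, hf0v⟩ := det_nz hBs (hzy a haI.1 haI.2).1.isv (hzy a haI.1 haI.2).2
    have key : ∀ f ∈ Br k g, f ≠ 0 → y a f0 * y' b f = y' b f0 * y a f := by
      intro f hf hfne
      have h3 : Tendsto (fun m => y (x (ψ m)) f0 * y' (τ (ψ m)) f) atTop
          (𝓝 (y a f0 * y' b f)) := (hya f0 hf0B hf0).mul (hyb f hf hfne)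
      have h4 : Tendsto (fun m => y' (τ (ψ m)) f0 * y (x (ψ m)) f) atTop
          (𝓝 (y' b f0 * y a f)) := (hyb f0 hf0B hf0).mul (hya f hf hfne)
      have h5 : (fun m => y (x (ψ m)) f0 * y' (τ (ψ m)) f) =
          fun m => y' (τ (ψ m)) f0 * y (x (ψ m)) f := by
        funext m
        obtain ⟨c, hc, hcf⟩ := hτ (ψ m)
        rw [hcf f, hcf f0]
        ring
      rw [h5] at h3
      exact tendsto_nhds_unique h3 h4
    have hnn : 0 ≤ y' b f0 * y a f0 := by
      have h4 : Tendsto (fun m => y' (τ (ψ m)) f0 * y (x (ψ m)) f0) atTop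
          (𝓝 (y' b f0 * y a f0)) := (hyb f0 hf0B hf0).mul (hya f0 hf0B hf0)
      refine ge_of_tendsto' h4 fun m => ?_
      obtain ⟨c, hc, hcf⟩ := hτ (ψ m)
      rw [hcf f0]
      have := mul_self_nonneg (y (x (ψ m)) f0)
      nlinarith
    have hceq : ∀ f ∈ Br k g, f ≠ 0 → y' b f = y' b f0 / y a f0 * y a f := by
      intro f hf hfne
      have := key f hf hfne
      field_simp
      linarith
    have hc0 : y' b f0 ≠ 0 := by
      intro h3
      obtain ⟨f1, hf1B, hf1, hf1v⟩ := det_nz hBs (hzy' b hb.1 hb.2).1.isv (hzy' b hb.1 hb.2).2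
      apply hf1v
      rw [hceq f1 hf1B hf1, h3]
      simp
    have hcpos : 0 < y' b f0 / y a f0 := by
      have h3 : 0 < y' b f0 * y a f0 := lt_of_le_of_ne hnn (by
        intro h4
        rcases mul_eq_zero.mp h4.symm with h5 | h5
        · exact hc0 h5
        · exact hf0v h5)
      have h4 : y' b f0 / y a f0 = y' b f0 * y a f0 / (y a f0) ^ 2 := by
        field_simp
      rw [h4]
      positivity
    exact ⟨b, hb.1, hb.2, det_ext hBs (hzy a haI.1 haI.2).1.isv (hzy' b hb.1 hb.2).1.isv hcpos hceq⟩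
  have h0P : (0 : ℝ) ∈ P := ⟨0, le_rfl, hs'.le, h0⟩
  have hsub : Set.Icc 0 s ⊆ P := by
    refine hcl.Icc_subset_of_forall_mem_nhdsWithin h0P ?_
    rintro t ⟨⟨t', ht'0, ht's, hpr⟩, ht0, hts⟩
    have ht's' : t' < s' := by
      rcases lt_or_eq_of_le ht's with h3 | h3
      · exact h3
      · subst h3
        exact absurd hpr (h1 t ht0 hts.le)
    have hA := ((hdnl p k K n g φ E A R hC s y M hy).2.2.2.2.1 t s ht0 hts le_rfl).2
    have hA' := ((hdnl p k K n g φ E A R hC s' y' M' hy').2.2.2.2.1 t' s' ht'0 ht's' le_rfl).2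
    obtain ⟨δ, hδ, hδ'⟩ := hloc p k K n g φ E A R hC _ _ _ _ _ _ hA hA' (by simpa using hpr)
    rw [mem_nhdsGT_iff_exists_Ioo_subset]
    refine ⟨t + δ, by simp [hδ], ?_⟩
    intro r hr
    obtain ⟨t'', h3, h4, h5⟩ := hδ' (r - t) (by linarith [hr.1]) (by linarith [hr.2])
    refine ⟨t' + t'', by linarith, by linarith, ?_⟩
    simpa using h5
  obtain ⟨t', h3, h4, h5⟩ := hsub ⟨hs.le, le_rfl⟩
  exact h2 t' h3 h4 h5

end Pool.Agent.F2PF
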