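import Pool.Agent.Lib.MP_305fdd_al.F2.PF.StmC

/-!
# MP_305fdd_al, F_2 project, section PF: piece dnl (properties of descending segments)
-/

set_option autoImplicit false

namespace Pool.Agent.F2PF

open MvPolynomial Pool.Agent.F2Ch

theorem p_dnl (h1 : S_line) (h2 : S_rsh) (h3 : S_key) (h4 : S_pers) (h5 : S_pal) (h6 : S_anti)
    (h7 : S_pr) : S_dnl := by
  intro p _ k K _ _ _ _ _ n g φ E A R hC s y M hD
  have hCtx := hC
  obtain ⟨⟨b0, ρ0, hbase⟩, hL⟩ := hC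
  have hgen : FracGen k g := hbase.gen
  obtain ⟨-, hline⟩ := h1 p k K n g φ
  obtain ⟨hLine, hinz, -⟩ := hline 0 s y M hD.cl
  have hs : 0 < s := hD.cl.1
  obtain ⟨hpr, -, -⟩ := h7 p k K n g φ
  obtain ⟨-, hantiB, -, hantiD, -⟩ := h6 p k K n g φ E A R hCtx
  obtain ⟨hshift, hdr, -⟩ := h2 p k K n g φ hgen 0 s y M hD.cl
  obtain ⟨u, huR, hu0⟩ := hD.des
  have hkey : ∀ t, 0 ≤ t → t ≤ s → 0 < sd t u := by
    intro t ht0 hts
    rcases ht0.eq_or_lt with h | h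
    · rw [← h]
      exact hu0
    · exact (h3 K (Br k g) (Set.Icc 0 s) y M hLine 0 ⟨le_rfl, hs.le⟩ u (Or.inl huR)).2 t h
        (Set.Icc_subset_Icc_right hts) (fun r ha hb => hD.ns r ha.le (hb.trans hts)) hu0
  have hpers : ∀ t, 0 < t → t ≤ s → u ∈ DR (Br k g) M t ∧ u ∈ DL (Br k g) M t := by
    intro t ht0 hts
    obtain ⟨ha, hb, -⟩ := h4 K (Br k g) (Set.Icc 0 s) y M hLine 0 ⟨le_rfl, hs.le⟩ t
      ⟨ht0.le, hts⟩ ht0 u (Or.inl huR) hu0 (hkey t ht0.le hts).le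
    exact ⟨ha, hb⟩
  have hDR : ∀ t, 0 ≤ t → t ≤ s → u ∈ DR (Br k g) M t := by
    intro t ht0 hts
    rcases ht0.eq_or_lt with h | h
    · rw [← h]
      exact huR
    · exact (hpers t h hts).1
  have hle : ∀ t t', 0 ≤ t → t < t' → t' ≤ s → Le (Br k g) (y t') (y t) := by
    intro t t' ha hb hc
    obtain ⟨-, -, h⟩ := h4 K (Br k g) (Set.Icc 0 s) y M hLine t ⟨ha, hb.le.trans hc⟩ t'
      ⟨ha.trans hb.le, hc⟩ hb u (Or.inl (hDR t ha (hb.le.trans hc))) (hkey t ha (hb.le.trans hc))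
      (hkey t' (ha.trans hb.le) hc).le
    exact ⟨sd t' u / sd t u, div_pos (hkey t' (ha.trans hb.le) hc) (hkey t ha (hb.le.trans hc)), h⟩
  obtain ⟨z, hzA, hz⟩ := hD.el
  have hPA : ∀ t, 0 ≤ t → t ≤ s → PA k p φ g A (y t) := fun t ha hb =>
    (h5 p k K n g φ E A R hCtx 0 s y M hD.cl z hzA hz).2.2 t ha hb (hD.ns t ha hb)
  have hAt : ∀ t, 0 < t → t ≤ s → AtInf (Br k g) (y t) := by
    intro t ht0 hts
    obtain ⟨hi, hnt⟩ := hinz t ht0.le hts
    obtain ⟨hi0, hnt0⟩ := hinz 0 le_rfl hs.le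
    by_contra hcon
    have hRt : Pr R (y t) := by
      by_contra hcon2
      exact hcon ((hantiD (y t) hi hnt).2 hcon2)
    have hR0 : Pr R (y 0) := by
      by_contra hcon2
      obtain ⟨f, hf, hf0, hneg⟩ := (hantiD (y 0) hi0 hnt0).2 hcon2
      obtain ⟨c, hc, hcle⟩ := hle 0 t le_rfl ht0 hts
      apply hcon
      exact ⟨f, hf, hf0, (hcle f hf hf0).trans_lt (mul_neg_of_pos_of_neg hc hneg)⟩
    have hP : Pr (y 0) (y t) := (hpr (y 0) R (y t)).2.2 ((hpr R (y 0) R).2.1 hR0) hRt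
    exact ht0.ne (hantiB 0 s y M hD.cl 0 t le_rfl hs.le ht0.le hts hP)
  have hseg : ∀ t t', 0 ≤ t → t < t' → t' ≤ s →
      DnL k p φ g A (t' - t) (fun τ => y (t + τ)) (sh t M) := by
    intro t t' ha hb hc
    refine ⟨(hshift t t' ha hb hc).1, ?_, ⟨z, hzA, ?_⟩, ?_⟩
    · intro τ h8 h9
      exact hD.ns (t + τ) (by linarith) (by linarith)
    · intro τ h8 h9
      exact hz (t + τ) (by linarith) (by linarith)
    · obtain ⟨hr, -, hsd⟩ := hdr t 0 u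
      refine ⟨(u.1, u.2 - t * u.1), hr.1 ?_, ?_⟩
      · rw [add_zero]
        exact hDR t ha (hb.le.trans hc)
      · rw [hsd, add_zero]
        exact hkey t ha (hb.le.trans hc)
  refine ⟨hPA, hAt, ?_, ?_, ?_, ?_⟩
  · intro t ha hb
    exact ⟨u, hDR t ha hb.le, hkey t ha hb.le⟩
  · intro t ha hb
    exact ⟨u, (hpers t ha hb).2, hkey t ha.le hb⟩
  · intro t t' ha hb hc
    exact ⟨hle t t' ha hb hc, hseg t t' ha hb hc⟩
  · intro t t' ha hb hc
    rcases hb.eq_or_lt with h | h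
    · rw [← h]
      exact Or.inl ⟨hPA t ha (hb.trans hc), (hpr (y t) R R).1⟩
    · refine Or.inr ⟨t' - t, fun τ => y (t + τ), sh t M, hseg t t' ha h hc, ?_, ?_⟩
      · show Pr (y t) (y (t + 0))
        rw [add_zero]
        exact (hpr (y t) R R).1
      · show Pr (y (t + (t' - t))) (y t')
        rw [add_sub_cancel]
        exact (hpr (y t') R R).1

end Pool.Agent.F2PF
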