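import Pool.Agent.Lib.MP_305fdd_al.F2.PF.StmB

/-!
# MP_305fdd_al, F_2 project, section PF, part B: [F2PF ell] ellipticity
-/

set_option autoImplicit false

namespace Pool.Agent.F2PF

open MvPolynomial Pool.Agent.F2Ch

private theorem ell_zero {p : ℕ} {K : Type} [Field K] {φ : K → K} (h : IsPinv p φ) : φ 0 = 0 := by
  have h1 := h.add 0 0
  rw [add_zero] at h1
  exact left_eq_add.1 h1

private theorem ell_it0 {p : ℕ} {K : Type} [Field K] {φ : K → K} (h : IsPinv p φ) (N : ℕ) :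
    φ^[N] 0 = 0 := by
  induction N with
  | zero => rfl
  | succ N ih => rw [Function.iterate_succ_apply, ell_zero h, ih]

private theorem ell_comp {p : ℕ} {K : Type} [Field K] {φ : K → K} (h : IsPinv p φ)
    {Γ : Type} [AddCommGroup Γ] [LinearOrder Γ] [IsOrderedAddMonoid Γ] {V : K → Γ}
    (hV : Compat p φ V) (N : ℕ) : ∀ f, φ^[N] f ≠ 0 → V f ≤ p ^ N • V (φ^[N] f) := by
  induction N with
  | zero => intro f _; simp
  | succ N ih =>
    intro f hf
    rw [Function.iterate_succ_apply] at hf ⊢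
    have h1 : φ f ≠ 0 := by
      intro h0
      rw [h0, ell_it0 h N] at hf
      exact hf rfl
    calc V f ≤ p • V (φ f) := hV f h1
      _ ≤ p • (p ^ N • V (φ^[N] (φ f))) := nsmul_le_nsmul_right (ih _ hf) p
      _ = p ^ (N + 1) • V (φ^[N] (φ f)) := by rw [smul_smul, pow_succ']

private theorem ell_wt (d e : Fin 2 → ℝ) (t : ℝ) (m : Fin 2 → ℤ) :
    wt (fun i => d i + t * e i) m = wt d m + t * wt e m := by
  simp only [wt, Fin.sum_univ_two, zsmul_eq_mul]
  ring

theorem p_ell : S_ell := by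
  intro p _ k K _ _ _ _ _ n g φ E A R hC z hz
  obtain ⟨⟨b0, ρ0, hB⟩, hL⟩ := hC
  obtain ⟨hzB, hz0, M0, c, -, hc, hct⟩ := hL.ct z hz
  have key : ∀ (Γ : Type) [AddCommGroup Γ] [LinearOrder Γ] [IsOrderedAddMonoid Γ] (V : K → Γ),
      InZ k p φ V → V z ≤ 0 := by
    intro Γ _ _ _ V hV
    have h0 : φ^[M0] (z ^ 2) ≠ 0 := by
      rw [hct]
      simpa using hc
    have h1 := ell_comp hB.pinv hV.compat M0 (z ^ 2) h0
    rw [hct, hV.triv c, smul_zero, pow_two, hV.isv.mul z z hz0 hz0] at h1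
    by_contra h2
    rw [not_le] at h2
    exact absurd (add_pos h2 h2) (not_lt.2 h1)
  refine ⟨key, ?_, ?_⟩
  · rintro v v' hv' ⟨c', hc', hle⟩ hvz
    have h1 := hle z hzB hz0
    rw [hvz] at h1
    have h2 : 0 ≤ v' z := by
      by_contra h3
      rw [not_le] at h3
      exact absurd (mul_neg_of_pos_of_neg hc' h3) (not_lt.2 h1)
    exact le_antisymm (key ℝ v' hv') h2
  · rintro s1 s2 y M ⟨hs, κ, Γ, i1, i2, i3, i4, i5, V, x, ex, ac, φb, N, L, d, e, hCh, hdet, hgood,
      hon, hM⟩ a b ha hb hya hyb t hat htb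
    obtain ⟨q, hq⟩ := hzB
    have hq0 : aeval g q ≠ 0 := by rw [hq]; exact hz0
    have hmin := fun t' h1 h2 => (hon t' h1 h2).1.min q hq0
    rw [hq] at hmin
    have hab : a ≤ b := hat.trans htb
    have hA := (hmin a ha (hab.trans hb)).1
    have hBb := (hmin b (ha.trans hab) hb).1
    obtain ⟨-, m, hm, hmt⟩ := hmin t (ha.trans hat) (htb.trans hb)
    have h1 := hA m hm
    have h2 := hBb m hm
    rw [hya, ell_wt] at h1
    rw [hyb, ell_wt] at h2
    rw [ell_wt] at hmt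
    have h3 : y t z ≤ 0 := key ℝ (y t) (hon t (ha.trans hat) (htb.trans hb)).1.inz
    refine le_antisymm h3 ?_
    rw [hmt]
    rcases le_or_gt 0 (wt e m) with h4 | h4
    · nlinarith [mul_le_mul_of_nonneg_right hat h4]
    · nlinarith [mul_le_mul_of_nonpos_right htb h4.le]

end Pool.Agent.F2PF
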