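import Pool.Agent.Lib.MP_305fdd_al.F2.PF.StmC

/-!
# MP_305fdd_al, F_2 project, section PF: [F2PF fat] every point of `P_a` is fat from above
-/

set_option autoImplicit false

namespace Pool.Agent.F2PF

open MvPolynomial Pool.Agent.F2Ch

theorem p_fat (hzorn : S_zorn) (hfdep : S_fdep) (hfper : S_fper) (hpr : S_pr) : S_fat := by
  intro p _ k K _ _ _ _ _ n g φ E A R hC x hx
  have hP := (hpr p k K n g φ).1
  have hz : Rch k p φ g A R x := (hzorn p k K n g φ E A R hC).2 x hx
  clear hx
  unfold Rch at hz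
  induction hz with
  | refl => exact Or.inl (hP R R R).1
  | tail _ hbc ih =>
    rename_i b c _
    rcases hbc with ⟨_, hbc⟩ | ⟨s, y, M, hD, h0, hs⟩
    · rcases ih with h | ⟨s, y, M, hD, hb, hu⟩
      · exact Or.inl ((hP R b c).2.2 h hbc)
      · exact Or.inr ⟨s, y, M, hD, (hP (y s) b c).2.2 hb hbc, hu⟩
    · right
      have hF := hfdep p k K n g φ E A R hC b s y M ih hD h0
      have hpos : 0 < s := hD.cl.1
      obtain ⟨u, hu, u', hu', h1, h2, h3⟩ :=
        (hfper p k K n g φ A s y M hD hF).2 s hpos le_rfl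
      exact ⟨s, y, M, hD, hs, u, hu, u', hu', h1, h2, h3⟩

end Pool.Agent.F2PF
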