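import Pool.Agent.Lib.MP_305fdd_al.F2.PF.StmC

set_option autoImplicit false

namespace Pool.Agent.F2PF

open MvPolynomial Pool.Agent.F2Ch

theorem fdep_sd (u : ℝ × ℝ) : sd 0 u = u.2 := by
  unfold sd
  ring

/-- second components are additive -/
theorem fdep_c2 {K : Type} [Field K] {V : K → ℝ ×ₗ ℝ} (hV : IsV V) (f g : K) (hf : f ≠ 0)
    (hg : g ≠ 0) : c2 V (f * g) = c2 V f + c2 V g := by
  unfold c2
  rw [hV.mul f g hf hg]
  rfl

theorem fdep_flag_smul {K : Type} [Field K] {B : Set K} {w c : K → ℝ} {u : ℝ × ℝ}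
    (hu : u ∈ DV B w c) (r : ℝ) (hr : 0 ≤ r) : (r * u.1, r * u.2) ∈ DV B w c := by
  intro f hf hf0
  have h := hu f hf hf0
  have h2 : dot (r * u.1, r * u.2) (w f, c f) = r * dot u (w f, c f) := by
    unfold dot
    ring
  rw [h2]
  exact mul_nonpos_of_nonneg_of_nonpos hr h

/-- two independent functionals at a point at infinity which is not semi-good and from which the
line descends -/
theorem fdep_two (h_nsg : S_nsg) {k : Type} {p : ℕ} {K : Type} [Field k] [Field K] [Algebra k K]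
    {n : ℕ} {φ : K → K} {g : Fin n → K} {s : ℝ} {y : ℝ → K → ℝ} {M : K → Finset (ℝ × ℝ)}
    (hB : Bs (Br k g)) (hL : Line (Br k g) (Set.Icc 0 s) y M) (hs : 0 < s)
    (hinf : AtInf (Br k g) (y 0)) (hns : ¬ SG (Br k g) (y 0)) (hdes : DesR (Br k g) M 0)
    {V : K → ℝ ×ₗ ℝ} (hV : RFl k p φ g y M 0 V) (a b : ℝ × ℝ) (ha : a ∈ DV (Br k g) (y 0) (c2 V))
    (hb : b ∈ DV (Br k g) (y 0) (c2 V)) (hab : a.1 * b.2 - a.2 * b.1 ≠ 0) :
    FatR (Br k g) M 0 := by
  have hin : ∀ v : ℝ × ℝ, v ∈ DV (Br k g) (y 0) (c2 V) → v ∈ DR (Br k g) M 0 := by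
    intro v hv
    rw [hV.dr v, fdep_sd]
    exact hv
  obtain ⟨h1, h2, -⟩ := h_nsg K (Br k g) hB (Set.Icc 0 s) y M hL 0 ⟨le_rfl, hs.le⟩ hinf hns
  obtain ⟨u0, hu0, hu0p⟩ := hdes
  have hpos : ∀ v : ℝ × ℝ, v ∈ DV (Br k g) (y 0) (c2 V) → v ≠ 0 → 0 < sd 0 v := by
    intro v hv hv0
    have h3 := h1 v (Or.inl (hin v hv)) hv0
    have h4 := h2 s hs subset_rfl u0 hu0 v (hin v hv) hu0p
    exact lt_of_le_of_ne h4 (Ne.symm h3)
  have ha0 : a ≠ 0 := by
    rintro rfl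
    apply hab
    simp
  have hb0 : b ≠ 0 := by
    rintro rfl
    apply hab
    simp
  exact ⟨a, hin a ha, b, hin b hb, hpos a ha ha0, hpos b hb hb0, hab⟩

/-- the case of a divisorial vertex -/
theorem fdep_vert (h_fvert : S_fvert) {K : Type} [Field K] {B : Set K} (hB : Bs B) {w : K → ℝ}
    (hw : IsV w) (hdv : Dv w) (hinf : AtInf B w) (hns : ¬ SG B w) (cin cout : K → ℝ)
    (hcin : ∀ f g, f ≠ 0 → g ≠ 0 → cin (f * g) = cin f + cin g)
    (hcout : ∀ f g, f ≠ 0 → g ≠ 0 → cout (f * g) = cout f + cout g) (ρ : ℝ) (hρ : 0 < ρ)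
    (h6 : ∀ h ∈ B, h ≠ 0 → w h = 0 → cout h + ρ * cin h ≤ 0) (a b : ℝ × ℝ)
    (ha : a ∈ DV B w cin) (hb : b ∈ DV B w cin) (ha2 : a.2 < 0) (hb2 : b.2 < 0)
    (hab : a.1 * b.2 - a.2 * b.1 ≠ 0) :
    ∃ q ∈ DV B w cout, ∃ q' ∈ DV B w cout, q.1 * q'.2 - q.2 * q'.1 ≠ 0 := by
  classical
  obtain ⟨γ, hγ, hn⟩ := hdv
  have hex : ∃ w0 : K → ℤ, w0 0 = 0 ∧ ∀ f, w f = w0 f * γ := by
    choose! N hN using hn
    refine ⟨fun f => if f = 0 then 0 else N f, if_pos rfl, fun f => ?_⟩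
    show w f = ((if f = 0 then 0 else N f : ℤ) : ℝ) * γ
    by_cases hf : f = 0
    · rw [if_pos hf, hf, hw.zero]
      simp
    · rw [if_neg hf, hN f hf, zsmul_eq_mul]
  obtain ⟨w0, hw00, hw0⟩ := hex
  have hinj : ∀ m m' : ℤ, (m : ℝ) * γ = m' * γ → m = m' := by
    intro m m' h
    exact_mod_cast mul_right_cancel₀ hγ.ne' h
  have hle : ∀ m m' : ℤ, (m : ℝ) * γ ≤ m' * γ → m ≤ m' := by
    intro m m' h
    exact_mod_cast le_of_mul_le_mul_right h hγ
  have hV0 : IsV w0 := by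
    refine ⟨hw00, fun x y hx hy => ?_, fun x y hx hy hxy => ?_⟩
    · apply hinj
      have h1 := hw.mul x y hx hy
      rw [hw0, hw0, hw0] at h1
      push_cast
      linarith
    · have h1 := hw.add x y hx hy hxy
      rw [min_le_iff] at h1 ⊢
      rw [hw0, hw0, hw0] at h1
      rcases h1 with h1 | h1
      · exact Or.inl (hle _ _ h1)
      · exact Or.inr (hle _ _ h1)
  have hposf : ∃ f ∈ B, f ≠ 0 ∧ 0 < w0 f := by
    by_contra hcon
    push Not at hcon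
    apply hns
    intro f hf hf0
    rw [hw0]
    exact mul_nonpos_of_nonpos_of_nonneg (by exact_mod_cast hcon f hf hf0) hγ.le
  have hnegf : ∃ f ∈ B, f ≠ 0 ∧ w0 f < 0 := by
    obtain ⟨f, hf, hf0, hneg⟩ := hinf
    refine ⟨f, hf, hf0, ?_⟩
    by_contra hcon
    push Not at hcon
    rw [hw0] at hneg
    have : (0 : ℝ) ≤ w0 f * γ := mul_nonneg (by exact_mod_cast hcon) hγ.le
    linarith
  have hzero : ∀ u ∈ DV B (fun f => (w0 f : ℝ)) cin, u.2 = 0 → u.1 = 0 := by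
    intro u hu hu2
    obtain ⟨f, hf, hf0, hfp⟩ := hposf
    obtain ⟨f', hf', hf0', hfn⟩ := hnegf
    have h1 := hu f hf hf0
    have h2 := hu f' hf' hf0'
    unfold dot at h1 h2
    simp only [hu2, zero_mul, add_zero] at h1 h2
    have hfp' : (0 : ℝ) < w0 f := by exact_mod_cast hfp
    have hfn' : (w0 f' : ℝ) < 0 := by exact_mod_cast hfn
    nlinarith
  have hconv : ∀ (c : K → ℝ) (u : ℝ × ℝ), u ∈ DV B w c → (γ * u.1, u.2) ∈ DV B (fun f => (w0 f : ℝ)) c := by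
    intro c u hu f hf hf0
    have h1 := hu f hf hf0
    unfold dot at h1 ⊢
    simp only at h1 ⊢
    rw [hw0] at h1
    linarith
  have hconv' : ∀ (c : K → ℝ) (u : ℝ × ℝ), u ∈ DV B (fun f => (w0 f : ℝ)) c →
      (u.1 / γ, u.2) ∈ DV B w c := by
    intro c u hu f hf hf0
    have h1 := hu f hf hf0
    unfold dot at h1 ⊢
    simp only at h1 ⊢
    rw [hw0]
    have h2 : u.1 / γ * (w0 f * γ) = u.1 * w0 f := by
      field_simp
    rw [h2]
    exact h1
  have ha' := hconv cin a ha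
  have hb' := hconv cin b hb
  have hneg : ∀ u ∈ DV B (fun f => (w0 f : ℝ)) cin, u ≠ 0 → u.2 < 0 := by
    intro u hu hu0
    by_contra hcon
    push Not at hcon
    rcases hcon.eq_or_lt with h0 | hpos
    · apply hu0
      exact Prod.ext (hzero u hu h0.symm) h0.symm
    · have hcomb : ∀ d : ℝ × ℝ, d ∈ DV B (fun f => (w0 f : ℝ)) cin → d.2 < 0 →
          u.2 * d.1 - d.2 * u.1 = 0 := by
        intro d hd hd2
        have h1 : (u.2 * d.1 - d.2 * u.1, u.2 * d.2 - d.2 * u.2) ∈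
            DV B (fun f => (w0 f : ℝ)) cin := by
          intro f hf hf0
          have h2 := hu f hf hf0
          have h3 := hd f hf hf0
          have h4 : dot (u.2 * d.1 - d.2 * u.1, u.2 * d.2 - d.2 * u.2) ((w0 f : ℝ), cin f) =
              u.2 * dot d ((w0 f : ℝ), cin f) + (-d.2) * dot u ((w0 f : ℝ), cin f) := by
            unfold dot
            ring
          show dot (u.2 * d.1 - d.2 * u.1, u.2 * d.2 - d.2 * u.2) ((w0 f : ℝ), cin f) ≤ 0
          rw [h4]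
          have h5 := mul_nonpos_of_nonneg_of_nonpos hpos.le h3
          have h6 := mul_nonpos_of_nonneg_of_nonpos (neg_pos.2 hd2).le h2
          simp only at h5 h6
          linarith
        exact hzero _ h1 (by show u.2 * d.2 - d.2 * u.2 = 0; ring)
      have h1 := hcomb _ ha' ha2
      have h2 := hcomb _ hb' hb2
      simp only at h1 h2
      apply hab
      have h3 : u.2 * (γ * (a.1 * b.2 - a.2 * b.1)) = 0 := by
        have : u.2 * (γ * (a.1 * b.2 - a.2 * b.1)) =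
          b.2 * (u.2 * (γ * a.1) - a.2 * u.1) - a.2 * (u.2 * (γ * b.1) - b.2 * u.1) := by ring
        rw [this, h1, h2]
        ring
      rcases mul_eq_zero.1 h3 with h4 | h4
      · exact absurd h4 hpos.ne'
      · rcases mul_eq_zero.1 h4 with h5 | h5
        · exact absurd h5 hγ.ne'
        · exact h5
  have hfat : Fat (DV B (fun f => (w0 f : ℝ)) cin) := by
    refine ⟨_, ha', _, hb', ?_⟩
    simp only
    have : γ * a.1 * b.2 - a.2 * (γ * b.1) = γ * (a.1 * b.2 - a.2 * b.1) := by ring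
    rw [this]
    exact mul_ne_zero hγ.ne' hab
  obtain ⟨⟨q, hq, q', hq', hqq⟩, -⟩ := h_fvert K B hB w0 cin cout hV0 hcin hcout hposf hnegf ρ hρ
    (fun h hh hh0 hwh => h6 h hh hh0 (by rw [hw0, hwh]; simp)) hneg hfat
  refine ⟨_, hconv' cout q hq, _, hconv' cout q' hq', ?_⟩
  simp only
  have : q.1 / γ * q'.2 - q.2 * (q'.1 / γ) = (q.1 * q'.2 - q.2 * q'.1) / γ := by ring
  rw [this]
  exact div_ne_zero hqq hγ.ne'

theorem p_fdep (h_fvert : S_fvert) (h_nsg : S_nsg) (h_fun : S_fun) (h_rfl : S_rfl)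
    (h_lfl : S_lfl) (h_pal : S_pal) (h_pr : S_pr) (h_dnl : S_dnl) (h_line : S_line) :
    S_fdep := by
  intro p _ k K _ _ _ _ _ n g φ E A R hC x s y M hx hD hxy
  obtain ⟨b0, ρ0, hbase⟩ := hC.1
  obtain ⟨hBs, hcut⟩ := h_line p k K n g φ
  have hB := hBs hbase.gen
  obtain ⟨hL, hnt, hres⟩ := hcut 0 s y M hD.cl
  have hs : 0 < s := hD.cl.1
  obtain ⟨hp1, hp2, hp3⟩ := h_pr p k K n g φ
  obtain ⟨z, hz, hyz⟩ := hD.el
  have hns : ¬ SG (Br k g) (y 0) := hD.ns 0 le_rfl hs.le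
  obtain ⟨V, hV⟩ := (h_rfl p k K n g φ hbase.gen 0 s y M hD.cl 0 le_rfl hs).1
  obtain ⟨hpalR, -, -⟩ := h_pal p k K n g φ E A R hC 0 s y M hD.cl z hz hyz
  obtain ⟨hVz, hVfl⟩ := hpalR 0 le_rfl hs V hV
  rcases hx with hR | hfat
  · -- the point is `R`
    have hRy : Pr R (y 0) := (hp1 R x (y 0)).2.2 hR hxy
    have hyR : Pr (y 0) R := (hp1 R (y 0) R).2.1 hRy
    have hdv : Dv (y 0) := (hp2 _ _ hRy).2.2.2.1 hC.2.Rdv
    have hfl := hVfl hdv
    obtain ⟨V', hV'1, hV'2, hV'3, hV'4, hV'5⟩ := hp3 V (y 0) R hV.inz hV.fst hyR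
    have hflR : Flag k p φ R V' := by
      refine ⟨hV'1, hV'2, ?_⟩
      obtain ⟨f, hf0, hf1, hf2⟩ := hfl.nt
      refine ⟨f, hf0, (hp2 _ _ hyR).2.2.2.2.1 f hf1, ?_⟩
      rw [hV'3]
      exact hf2
    obtain ⟨μ, hμ1, hμ2⟩ := hC.2.R7f V' hflR ⟨z, hz, (hV'5 z).1 hVz⟩
    obtain ⟨c, hc, hcR⟩ := hRy
    have hin : ∀ ν : ℝ, (ν, 1) ∈ DV (Br k g) R (c2 V') → (ν / c, 1) ∈ DR (Br k g) M 0 := by
      intro ν hν
      rw [hV.dr, fdep_sd]
      intro f hf hf0
      have h1 := hν f hf hf0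
      unfold dot at h1 ⊢
      simp only at h1 ⊢
      rw [hcR f, ← hV'3 f]
      have h2 : ν / c * (c * R f) = ν * R f := by
        field_simp
      rw [h2]
      exact h1
    refine ⟨_, hin _ hμ1, _, hin _ hμ2, ?_, ?_, ?_⟩
    · rw [fdep_sd]
      exact one_pos
    · rw [fdep_sd]
      exact one_pos
    · simp only
      have : -μ / c * 1 - 1 * ((-μ - 1) / c) = 1 / c := by ring
      rw [this]
      exact one_div_ne_zero hc.ne'
  · -- the point is fat from above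
    obtain ⟨s1, y1, M1, hD1, hpr1, u, hu, u', hu', hsu, hsu', hdet⟩ := hfat
    have hs1 : 0 < s1 := hD1.cl.1
    obtain ⟨z1, hz1, hyz1⟩ := hD1.el
    have hpr : Pr (y1 s1) (y 0) := (hp1 (y1 s1) x (y 0)).2.2 hpr1 hxy
    have hpr' : Pr (y 0) (y1 s1) := (hp1 (y1 s1) (y 0) R).2.1 hpr
    obtain ⟨-, hinf1, -, -, -, -⟩ := h_dnl p k K n g φ E A R hC s1 y1 M1 hD1
    have hinf : AtInf (Br k g) (y 0) := (hp2 _ _ hpr).2.2.1 (hinf1 s1 hs1 le_rfl)
    obtain ⟨V1, hV1⟩ := (h_lfl p k K n g φ hbase.gen 0 s1 y1 M1 hD1.cl s1 hs1 le_rfl).1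
    obtain ⟨-, hpalL, -⟩ := h_pal p k K n g φ E A R hC 0 s1 y1 M1 hD1.cl z1 hz1 hyz1
    obtain ⟨hV1z, hV1fl⟩ := hpalL s1 hs1 le_rfl V1 hV1
    obtain ⟨V', hV'1, hV'2, hV'3, hV'4, hV'5⟩ := hp3 V1 (y1 s1) (y 0) hV1.inz hV1.fst hpr
    obtain ⟨c, hc, hcy⟩ := hpr'
    have hin : ∀ v : ℝ × ℝ, v ∈ DL (Br k g) M1 s1 →
        (c * v.1, -sd s1 v) ∈ DV (Br k g) (y 0) (c2 V') := by
      intro v hv f hf hf0
      have h1 := (hV1.dl v).1 hv f hf hf0
      unfold dot at h1 ⊢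
      simp only at h1 ⊢
      rw [hcy f] at h1
      rw [hV'3 f]
      linarith
    have ha := hin u hu
    have hb := hin u' hu'
    have hdet' : (c * u.1) * (-sd s1 u') - (-sd s1 u) * (c * u'.1) ≠ 0 := by
      have : (c * u.1) * (-sd s1 u') - (-sd s1 u) * (c * u'.1) =
          -c * (u.1 * u'.2 - u.2 * u'.1) := by
        unfold sd
        ring
      rw [this]
      exact mul_ne_zero (neg_ne_zero.2 hc.ne') hdet
    by_cases hdv : Dv (y 0)
    · have hfl := hVfl hdv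
      have hdv1 : Dv (y1 s1) := (hp2 _ _ ⟨c, hc, hcy⟩).2.2.2.1 hdv
      have hfl1 := hV1fl hdv1
      have hfl' : Flag k p φ (y 0) V' := by
        refine ⟨hV'1, hV'2, ?_⟩
        obtain ⟨f, hf0, hf1, hf2⟩ := hfl1.nt
        refine ⟨f, hf0, (hp2 _ _ hpr).2.2.2.2.1 f hf1, ?_⟩
        rw [hV'3]
        exact hf2
      have hPT : PT (Br k g) (y 0) V := by
        obtain ⟨u0, hu0, hu0p⟩ := hD.des
        have h1 := (hV.dr u0).1 hu0
        rw [fdep_sd] at hu0p h1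
        refine ⟨u0.1 / u0.2, ?_⟩
        have h2 := fdep_flag_smul h1 (1 / u0.2) (one_div_pos.2 hu0p).le
        have h3 : ((1 / u0.2 * (u0.1, u0.2).1, 1 / u0.2 * (u0.1, u0.2).2) : ℝ × ℝ) =
            (u0.1 / u0.2, 1) := by
          ext
          · simp only
            ring
          · simp only
            field_simp
        rwa [h3] at h2
      have hBT : BT (Br k g) (y 0) V' := by
        refine ⟨c * u.1 / sd s1 u, ?_⟩
        have h2 := fdep_flag_smul ha (1 / sd s1 u) (one_div_pos.2 hsu).le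
        have h3 : ((1 / sd s1 u * (c * u.1, -sd s1 u).1, 1 / sd s1 u * (c * u.1, -sd s1 u).2) :
            ℝ × ℝ) = (c * u.1 / sd s1 u, -1) := by
          ext
          · simp only
            ring
          · simp only
            field_simp
        rwa [h3] at h2
      obtain ⟨ρ, hρ, h6⟩ := hC.2.l6 (y 0) (hnt 0 le_rfl hs.le).1 hdv hinf hns V V' hfl ⟨z, hz, hVz⟩
        hPT hfl' ⟨z1, hz1, (hV'5 z1).1 hV1z⟩ hBT
      obtain ⟨q, hq, q', hq', hqq⟩ := fdep_vert h_fvert hB (hnt 0 le_rfl hs.le).1.isv hdv hinf hns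
        (c2 V') (c2 V) (fdep_c2 hV'1.isv) (fdep_c2 hV.inz.isv) ρ hρ h6 _ _ ha hb
        (neg_neg_of_pos hsu) (neg_neg_of_pos hsu') hdet'
      exact fdep_two h_nsg hB hL hs hinf hns hD.des hV q q' hq hq' hqq
    · obtain ⟨α, β, hβ, hαβ⟩ := h_fun p k K n g φ E A R hC (y 0) (y 0) V V' hV.inz hV'1 hV.fst hV'2
        hV.nd (by
          obtain ⟨x1, x2, hx1, hx2, h⟩ := hV1.nd
          refine ⟨x1, x2, hx1, hx2, ?_⟩
          rw [hcy, hcy] at h
          rw [hV'3, hV'3]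
          intro h0
          apply h
          linear_combination c * h0)
        ⟨z, hC.2.sub hz, hVz⟩ ⟨z1, hC.2.sub hz1, (hV'5 z1).1 hV1z⟩ (hp1 (y 0) R R).1 hdv
      have hmap : ∀ v : ℝ × ℝ, v ∈ DV (Br k g) (y 0) (c2 V') →
          (v.1 + α * v.2, β * v.2) ∈ DV (Br k g) (y 0) (c2 V) := by
        intro v hv f hf hf0
        have h1 := hv f hf hf0
        unfold dot at h1 ⊢
        simp only at h1 ⊢
        rw [hαβ f] at h1
        linarith
      refine fdep_two h_nsg hB hL hs hinf hns hD.des hV _ _ (hmap _ ha) (hmap _ hb) ?_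
      simp only
      have : (c * u.1 + α * -sd s1 u) * (β * -sd s1 u') - β * -sd s1 u * (c * u'.1 + α * -sd s1 u')
          = β * ((c * u.1) * (-sd s1 u') - (-sd s1 u) * (c * u'.1)) := by ring
      rw [this]
      exact mul_ne_zero hβ hdet'

end Pool.Agent.F2PF
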