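import Pool.Agent.Lib.MP_305fdd_al.F2.PF.StmC

/-!
# MP_305fdd_al, F_2 project, section PF: equivalent flags
-/

set_option autoImplicit false

namespace Pool.Agent.F2PF

open MvPolynomial Pool.Agent.F2Ch

section val

variable {K Γ : Type} [Field K] [AddCommGroup Γ] [LinearOrder Γ] [IsOrderedAddMonoid Γ]

private theorem feq_one {v : K → Γ} (hv : IsV v) : v 1 = 0 := by
  have h := hv.mul 1 1 one_ne_zero one_ne_zero
  rw [mul_one] at h
  exact left_eq_add.1 h

/-- the valuation as a homomorphism -/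
private def feq_hom {v : K → Γ} (hv : IsV v) : Kˣ →* Multiplicative Γ where
  toFun u := Multiplicative.ofAdd (v u.1)
  map_one' := by
    show Multiplicative.ofAdd (v 1) = 1
    rw [feq_one hv]
    rfl
  map_mul' a b := by
    show Multiplicative.ofAdd (v (a.1 * b.1)) = _
    rw [hv.mul _ _ a.ne_zero b.ne_zero]
    rfl

private theorem feq_inv {v : K → Γ} (hv : IsV v) {x : K} (hx : x ≠ 0) : v x⁻¹ = -v x := by
  have h := map_inv (feq_hom hv) (Units.mk0 x hx)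
  have h' := congrArg Multiplicative.toAdd h
  have e : ((Units.mk0 x hx)⁻¹ : Kˣ).1 = x⁻¹ := rfl
  exact h'

private theorem feq_zpow {v : K → Γ} (hv : IsV v) {x : K} (hx : x ≠ 0) (m : ℤ) :
    v (x ^ m) = m • v x := by
  have h := map_zpow (feq_hom hv) (Units.mk0 x hx) m
  have h' := congrArg Multiplicative.toAdd h
  have e : (((Units.mk0 x hx) ^ m : Kˣ) : K) = x ^ m := by
    rw [Units.val_zpow_eq_zpow_val, Units.val_mk0]
  have h'' : v (((Units.mk0 x hx) ^ m : Kˣ) : K) = m • v x := h'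
  rwa [e] at h''

private theorem feq_h {v : K → Γ} (hv : IsV v) {f x0 x1 : K} (hf : f ≠ 0) (h0 : x0 ≠ 0)
    (h1 : x1 ≠ 0) (a b : ℤ) :
    v (f * x0 ^ (-a) * x1 ^ (-b)) = v f - a • v x0 - b • v x1 := by
  rw [hv.mul _ _ (mul_ne_zero hf (zpow_ne_zero _ h0)) (zpow_ne_zero _ h1),
    hv.mul _ _ hf (zpow_ne_zero _ h0), feq_zpow hv h0, feq_zpow hv h1, neg_smul, neg_smul,
    sub_eq_add_neg, sub_eq_add_neg]

/-- the values of a second valuation with the same sign -/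
private theorem feq_val {Γ' : Type} [AddCommGroup Γ'] [LinearOrder Γ'] [IsOrderedAddMonoid Γ']
    {V : K → Γ} {V' : K → Γ'} (hV : IsV V) (hV' : IsV V') (he : ∀ f, 0 < V f ↔ 0 < V' f)
    {x : Fin 2 → K} {ex : K → Fin 2 → ℤ} (hvb : IsVB V x ex) {f : K} (hf : f ≠ 0) :
    V' f = ex f 0 • V' (x 0) + ex f 1 • V' (x 1) := by
  have h0 := hvb.ne 0
  have h1 := hvb.ne 1
  have hz : V (f * x 0 ^ (-ex f 0) * x 1 ^ (-ex f 1)) = 0 := by
    rw [feq_h hV hf h0 h1, hvb.gen f hf, wt, Fin.sum_univ_two]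
    abel
  have hne : f * x 0 ^ (-ex f 0) * x 1 ^ (-ex f 1) ≠ 0 :=
    mul_ne_zero (mul_ne_zero hf (zpow_ne_zero _ h0)) (zpow_ne_zero _ h1)
  have hz' : V' (f * x 0 ^ (-ex f 0) * x 1 ^ (-ex f 1)) = 0 := by
    apply le_antisymm
    · by_contra h
      have h2 := (he _).2 (not_le.1 h)
      rw [hz] at h2
      exact lt_irrefl _ h2
    · by_contra h
      have h3 : 0 < V' (f * x 0 ^ (-ex f 0) * x 1 ^ (-ex f 1))⁻¹ := by
        rw [feq_inv hV' hne]
        exact neg_pos.2 (not_le.1 h)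
      have h2 := (he _).2 h3
      rw [feq_inv hV hne, hz, neg_zero] at h2
      exact lt_irrefl _ h2
  rw [feq_h hV' hf h0 h1] at hz'
  rw [sub_sub, sub_eq_zero] at hz'
  exact hz'

end val

private theorem feq_c2add {a b : ℝ ×ₗ ℝ} {m n : ℤ} :
    (ofLex (m • a + n • b)).2 = m * (ofLex a).2 + n * (ofLex b).2 := by
  show m • (ofLex a).2 + n • (ofLex b).2 = _
  rw [zsmul_eq_mul, zsmul_eq_mul]

private theorem feq_c1add {a b : ℝ ×ₗ ℝ} {m n : ℤ} :
    (ofLex (m • a + n • b)).1 = m * (ofLex a).1 + n * (ofLex b).1 := by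
  show m • (ofLex a).1 + n • (ofLex b).1 = _
  rw [zsmul_eq_mul, zsmul_eq_mul]

theorem p_feq (hrk2 : S_rk2) : S_feq := by
  intro p _ k K _ _ _ _ _ n g φ E A R ctx w w' V V' hV hV' hw hw' hnd hel hPr hDv hEqv
  obtain ⟨⟨κ, _, _, x, ex, ac, φb, N, L, hch⟩, -, h3⟩ :=
    hrk2 p k K n g φ E A R ctx w V hV hw hnd hel
  have hvb := hch.vb
  -- values
  have eV : ∀ f, f ≠ 0 → V f = ex f 0 • V (x 0) + ex f 1 • V (x 1) := by
    intro f hf
    rw [hvb.gen f hf, wt, Fin.sum_univ_two]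
  have eV' : ∀ f, f ≠ 0 → V' f = ex f 0 • V' (x 0) + ex f 1 • V' (x 1) := fun f hf =>
    feq_val hV.isv hV'.isv hEqv hvb hf
  have ew : ∀ f, f ≠ 0 → w f = ex f 0 * w (x 0) + ex f 1 * w (x 1) := by
    intro f hf
    rw [← hw f, ← hw (x 0), ← hw (x 1), eV f hf, feq_c1add]
  have ec : ∀ f, f ≠ 0 → c2 V f = ex f 0 * c2 V (x 0) + ex f 1 * c2 V (x 1) := by
    intro f hf
    unfold c2
    rw [eV f hf, feq_c2add]
  have ec' : ∀ f, f ≠ 0 → c2 V' f = ex f 0 * c2 V' (x 0) + ex f 1 * c2 V' (x 1) := by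
    intro f hf
    unfold c2
    rw [eV' f hf, feq_c2add]
  obtain ⟨x1, x2, hx1, hx2, hnd⟩ := hnd
  have hD : w (x 0) * c2 V (x 1) - w (x 1) * c2 V (x 0) ≠ 0 := by
    intro h
    apply hnd
    rw [ew x1 hx1, ew x2 hx2, ec x1 hx1, ec x2 hx2]
    linear_combination ((ex x1 0 : ℝ) * ex x2 1 - ex x1 1 * ex x2 0) * h
  have hform : ∀ f, c2 V' f =
      (c2 V' (x 0) * c2 V (x 1) - c2 V' (x 1) * c2 V (x 0)) /
        (w (x 0) * c2 V (x 1) - w (x 1) * c2 V (x 0)) * w f +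
      (w (x 0) * c2 V' (x 1) - w (x 1) * c2 V' (x 0)) /
        (w (x 0) * c2 V (x 1) - w (x 1) * c2 V (x 0)) * c2 V f := by
    intro f
    by_cases hf : f = 0
    · subst hf
      have z1 : w 0 = 0 := by
        rw [← hw 0, hV.isv.zero]; rfl
      have z2 : c2 V 0 = 0 := by
        unfold c2
        rw [hV.isv.zero]; rfl
      have z3 : c2 V' 0 = 0 := by
        unfold c2
        rw [hV'.isv.zero]; rfl
      rw [z1, z2, z3]
      ring
    · rw [ew f hf, ec f hf, ec' f hf]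
      rw [div_mul_eq_mul_div, div_mul_eq_mul_div, ← add_div, eq_div_iff hD]
      ring
  refine ⟨_, _, ?_, hform⟩
  obtain ⟨f, hf0, hwf, hcf⟩ := h3 hDv
  -- an element with positive second component
  obtain ⟨f, hf0, hwf, hcf⟩ : ∃ f, f ≠ 0 ∧ w f = 0 ∧ 0 < c2 V f := by
    rcases lt_or_gt_of_ne hcf with h | h
    · refine ⟨f⁻¹, inv_ne_zero hf0, ?_, ?_⟩
      · rw [← hw f⁻¹, feq_inv hV.isv hf0]
        show -(ofLex (V f)).1 = 0
        rw [hw f, hwf, neg_zero]
      · have e : c2 V f⁻¹ = -c2 V f := by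
          unfold c2
          rw [feq_inv hV.isv hf0]
          rfl
        rw [e]
        exact neg_pos.2 h
    · exact ⟨f, hf0, hwf, h⟩
  have hpos : 0 < V f := by
    rw [Prod.Lex.lt_iff]
    right
    constructor
    · show (0 : ℝ) = (ofLex (V f)).1
      rw [hw f, hwf]
    · exact hcf
  have hpos' : 0 < V' f := (hEqv f).1 hpos
  have hw'f : w' f = 0 := by
    obtain ⟨c, -, hc⟩ := hPr
    rw [hc, hwf, mul_zero]
  have hc' : 0 < c2 V' f := by
    rw [Prod.Lex.lt_iff] at hpos'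
    rcases hpos' with h | h
    · exfalso
      have h4 : (0 : ℝ) < (ofLex (V' f)).1 := h
      rw [hw' f, hw'f] at h4
      exact lt_irrefl _ h4
    · exact h.2
  rw [hform f, hwf, mul_zero, zero_add] at hc'
  exact (pos_iff_pos_of_mul_pos hc').2 hcf

end Pool.Agent.F2PF
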