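import Pool.Agent.Lib.MP_305fdd_al.F2.PF.StmC

/-!
# MP_305fdd_al, F_2 project, section PF, part B: [F2PF fin] the local facts are contradictory
-/

set_option autoImplicit false

namespace Pool.Agent.F2PF

open MvPolynomial Pool.Agent.F2Ch

theorem p_fin (hbot : S_bot) (hmin : S_min) (hbni : S_bni) (hbnd : S_bnd) (hbsi : S_bsi)
    (hbsd : S_bsd) : S_fin := by
  intro p _ k K _ _ _ _ _ n g φ E A R hC
  rcases hbot p k K n g φ E A R hC with ⟨m, h1, h2, h3⟩ | ⟨s, y, M, hB⟩
  · exact hmin p k K n g φ E A R hC m h1 h2 h3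
  · by_cases hs : SG (Br k g) (y 0)
    · by_cases hd : Dv (y 0)
      · exact hbsd p k K n g φ E A R hC s y M hB hs hd
      · exact hbsi p k K n g φ E A R hC s y M hB hs hd
    · by_cases hd : Dv (y 0)
      · obtain ⟨m, h1, h2, h3⟩ := hbnd p k K n g φ E A R hC s y M hB hs hd
        exact hmin p k K n g φ E A R hC m h1 h2 h3
      · exact hbni p k K n g φ E A R hC s y M hB hs hd

end Pool.Agent.F2PF
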