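import Pool.Agent.Lib.MP_305fdd_al.F2.PF.Stm

set_option autoImplicit false

namespace Pool.Agent.F2PF

open Pool.Agent.F2Ch

theorem p_fline (h1 : S_pers) (h2 : S_key) (h3 : S_nsg) : S_fline := by
  intro K _ B hB J y M hL t t' htt' hJ hinf hnsg hdes hfat
  have htJ : t ∈ J := hJ ⟨le_rfl, htt'.le⟩
  have ht'J : t' ∈ J := hJ ⟨htt'.le, le_rfl⟩
  obtain ⟨hn1, hn2, -⟩ := h3 K B hB J y M hL t htJ hinf (hnsg t le_rfl htt'.le)
  obtain ⟨u, huD, hu⟩ := hdes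
  have hpos : ∀ z ∈ DR B M t, z ≠ 0 → 0 < sd t z := by
    intro z hz hz0
    have e1 := hn1 z (Or.inl hz) hz0
    have e2 := hn2 t' htt' hJ u huD z hz hu
    exact lt_of_le_of_ne e2 (Ne.symm e1)
  have hall : ∀ z ∈ DR B M t, z ≠ 0 → z ∈ DR B M t' ∧ z ∈ DL B M t' ∧ 0 < sd t' z := by
    intro z hz hz0
    have e1 := (h2 K B J y M hL t htJ z (Or.inl hz)).2 t' htt' hJ
      (fun r hr1 hr2 => hnsg r hr1.le hr2) (hpos z hz hz0)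
    obtain ⟨e2, e3, -⟩ := h1 K B J y M hL t htJ t' ht'J htt' z (Or.inl hz) (hpos z hz hz0) e1.le
    exact ⟨e2, e3, e1⟩
  obtain ⟨z, hz, z', hz', hdet⟩ := hfat
  have hz0 : z ≠ 0 := by
    rintro rfl
    apply hdet
    simp
  have hz'0 : z' ≠ 0 := by
    rintro rfl
    apply hdet
    simp
  obtain ⟨a1, a2, a3⟩ := hall z hz hz0
  obtain ⟨b1, b2, b3⟩ := hall z' hz' hz'0
  exact ⟨⟨z, a1, z', b1, hdet⟩, ⟨z, a2, z', b2, hdet⟩, ⟨z, a1, a3⟩, ⟨z, a2, a3⟩⟩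

end Pool.Agent.F2PF
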