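import Pool.Agent.Lib.MP_305fdd_al.F2.PF.StmC

/-!
# MP_305fdd_al, F_2 project, section PF: the piece [F2PF fper]
-/

set_option autoImplicit false

namespace Pool.Agent.F2PF

open MvPolynomial Pool.Agent.F2Ch

theorem p_fper (h1 : S_key) (h2 : S_pers) (h3 : S_line) : S_fper := by
  intro p _ k K _ _ _ _ _ n g φ A s y M hD hF
  obtain ⟨u, hu, u', hu', hs, hs', hne⟩ := hF
  have hs0 : 0 < s := hD.cl.1
  have hL : Line (Br k g) (Set.Icc 0 s) y M := ((h3 p k K n g φ).2 0 s y M hD.cl).1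
  have key : ∀ w : ℝ × ℝ, w ∈ DR (Br k g) M 0 → 0 < sd 0 w → ∀ t, 0 < t → t ≤ s →
      w ∈ DR (Br k g) M t ∧ w ∈ DL (Br k g) M t ∧ 0 < sd t w := by
    intro w hw hw0 t ht hts
    have hsub : Set.Icc 0 t ⊆ Set.Icc 0 s := Set.Icc_subset_Icc le_rfl hts
    have h0 : (0 : ℝ) ∈ Set.Icc 0 s := ⟨le_rfl, hs0.le⟩
    have ht' : t ∈ Set.Icc 0 s := ⟨ht.le, hts⟩
    have hpos : 0 < sd t w :=
      (h1 K (Br k g) (Set.Icc 0 s) y M hL 0 h0 w (Or.inl hw)).2 t ht hsub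
        (fun r hr hrt => hD.ns r hr.le (hrt.trans hts)) hw0
    obtain ⟨a, b, -⟩ := h2 K (Br k g) (Set.Icc 0 s) y M hL 0 h0 t ht' ht w (Or.inl hw) hw0 hpos.le
    exact ⟨a, b, hpos⟩
  refine ⟨fun t ht hts => ?_, fun t ht hts => ?_⟩
  · rcases ht.eq_or_lt with rfl | ht0
    · exact ⟨u, hu, u', hu', hs, hs', hne⟩
    · obtain ⟨a, -, c⟩ := key u hu hs t ht0 hts
      obtain ⟨a', -, c'⟩ := key u' hu' hs' t ht0 hts
      exact ⟨u, a, u', a', c, c', hne⟩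
  · obtain ⟨-, b, c⟩ := key u hu hs t ht hts
    obtain ⟨-, b', c'⟩ := key u' hu' hs' t ht hts
    exact ⟨u, b, u', b', c, c', hne⟩

end Pool.Agent.F2PF
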