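import Pool.Agent.Lib.MP_305fdd_al.F2.PF.Stm

/-!
# MP_305fdd_al, F_2 project, section PF, piece fstart: fatness at the start
-/

set_option autoImplicit false

namespace Pool.Agent.F2PF

open Pool.Agent.F2Ch

theorem p_fstart : S_fstart := by
  intro K _ B _ w c hw hc π q _ _ hπ0 hq0 hwπ hwq hpos hdiv hle
  have key : ∀ j : ℕ, ∀ f ∈ B, f ≠ 0 → w f = j → c f ≤ j * (c π - c q) := by
    intro j
    induction j with
    | zero =>
      intro f hf hf0 hwf
      have := hle f hf hf0 (by simpa using hwf)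
      simpa using this
    | succ j ih =>
      intro f hf hf0 hwf
      have h1 : 0 < w f := by rw [hwf]; exact_mod_cast Nat.succ_pos j
      obtain ⟨f1, hf1, he⟩ := hdiv f hf hf0 h1
      have hf10 : f1 ≠ 0 := by
        rintro rfl
        rw [mul_zero] at he
        exact mul_ne_zero hq0 hf0 he
      have h2 : w (q * f) = w (π * f1) := by rw [he]
      rw [hw.mul _ _ hq0 hf0, hw.mul _ _ hπ0 hf10, hwq, hwπ, hwf] at h2
      have h3 : w f1 = j := by
        push_cast at h2
        omega
      have h4 : c (q * f) = c (π * f1) := by rw [he]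
      rw [hc _ _ hq0 hf0, hc _ _ hπ0 hf10] at h4
      have h5 := ih f1 hf1 hf10 h3
      push_cast
      linarith
  have key2 : ∀ f ∈ B, f ≠ 0 → (0 : ℝ) ≤ (w f : ℝ) ∧ c f ≤ (w f : ℝ) * (c π - c q) := by
    intro f hf hf0
    have h1 := hpos f hf hf0
    obtain ⟨j, hj⟩ := Int.eq_ofNat_of_zero_le h1
    refine ⟨by exact_mod_cast h1, ?_⟩
    have h2 := key j f hf hf0 hj
    rw [hj]
    exact_mod_cast h2
  refine ⟨max 0 (c π - c q), le_max_left _ _, ?_, ?_⟩
  · intro f hf hf0
    obtain ⟨h1, h2⟩ := key2 f hf hf0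
    have h3 := mul_le_mul_of_nonneg_left (le_max_right 0 (c π - c q)) h1
    simp only [dot]
    linarith
  · intro f hf hf0
    obtain ⟨h1, h2⟩ := key2 f hf hf0
    have h3 := mul_le_mul_of_nonneg_left (le_max_right 0 (c π - c q)) h1
    simp only [dot]
    linarith

end Pool.Agent.F2PF
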