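import Pool.Agent.Lib.MP_305fdd_al.F2.PF.Stm

set_option autoImplicit false

namespace Pool.Agent.F2PF

open Pool.Agent.F2Ch

private theorem fvert_ne {K : Type} [Field K] (B : Set K) (hB : Bs B) (f : K) (hf : f ∈ B) (n : ℕ) :
    f ^ n ∈ B := by
  induction n with
  | zero => rw [pow_zero]; exact hB.one
  | succ n ih => rw [pow_succ]; exact hB.mul _ ih _ hf

private theorem fvert_one {K : Type} [Field K] (c : K → ℝ)
    (hc : ∀ f g, f ≠ 0 → g ≠ 0 → c (f * g) = c f + c g) : c 1 = 0 := by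
  have := hc 1 1 one_ne_zero one_ne_zero
  rw [mul_one] at this
  linarith

private theorem fvert_pow {K : Type} [Field K] (c : K → ℝ)
    (hc : ∀ f g, f ≠ 0 → g ≠ 0 → c (f * g) = c f + c g) (f : K) (hf : f ≠ 0) (n : ℕ) :
    c (f ^ n) = n * c f := by
  induction n with
  | zero => simp [fvert_one c hc]
  | succ n ih =>
    rw [pow_succ, hc _ _ (pow_ne_zero n hf) hf, ih]
    push_cast
    ring

theorem p_fvert : S_fvert := by
  intro K _ B hB w cin cout hw hcin hcout ⟨f0, hf0B, hf0, hf0w⟩ ⟨g0, hg0B, hg0, hg0w⟩ ρ hρ hh hs hfat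
  have hwc : ∀ f g, f ≠ 0 → g ≠ 0 → ((w (f * g) : ℤ) : ℝ) = w f + w g := by
    intro f g hf hg
    rw [hw.mul f g hf hg]
    push_cast
    rfl
  -- the basic inequality
  have key : ∀ f ∈ B, f ≠ 0 → 0 < w f → ∀ g ∈ B, g ≠ 0 → w g < 0 →
      (-(w g : ℝ)) * (cout f + ρ * cin f) + (w f : ℝ) * (cout g + ρ * cin g) ≤ 0 := by
    intro f hfB hf hfw g hgB hg hgw
    obtain ⟨a, ha⟩ := Int.eq_ofNat_of_zero_le hfw.le
    obtain ⟨b, hb⟩ := Int.eq_ofNat_of_zero_le (show 0 ≤ -w g by omega)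
    have hgb : w g = -(b : ℤ) := by omega
    have h1 : f ^ b * g ^ a ∈ B := hB.mul _ (fvert_ne B hB f hfB b) _ (fvert_ne B hB g hgB a)
    have n1 : f ^ b ≠ 0 := pow_ne_zero _ hf
    have n2 : g ^ a ≠ 0 := pow_ne_zero _ hg
    have h2 : w (f ^ b * g ^ a) = 0 := by
      have e1 := hwc (f ^ b) (g ^ a) n1 n2
      rw [fvert_pow (fun x => (w x : ℝ)) hwc f hf b, fvert_pow (fun x => (w x : ℝ)) hwc g hg a] at e1
      rw [ha, hgb] at e1
      have : ((w (f ^ b * g ^ a) : ℤ) : ℝ) = 0 := by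
        rw [e1]; push_cast; ring
      exact_mod_cast this
    have h3 := hh _ h1 (mul_ne_zero n1 n2) h2
    rw [hcout _ _ n1 n2, hcin _ _ n1 n2, fvert_pow cout hcout f hf, fvert_pow cout hcout g hg,
      fvert_pow cin hcin f hf, fvert_pow cin hcin g hg] at h3
    rw [ha, hgb]
    push_cast
    linarith
  -- the supremum
  set S : Set ℝ := {z | ∃ f ∈ B, f ≠ 0 ∧ 0 < w f ∧ z = (cout f + ρ * cin f) / (w f : ℝ)} with hS
  have hub : ∀ g ∈ B, g ≠ 0 → w g < 0 → ∀ z ∈ S, z ≤ (cout g + ρ * cin g) / (w g : ℝ) := by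
    rintro g hgB hg hgw z ⟨f, hfB, hf, hfw, rfl⟩
    have h1 := key f hfB hf hfw g hgB hg hgw
    have h2 : (0 : ℝ) < w f := by exact_mod_cast hfw
    have h3 : (w g : ℝ) < 0 := by exact_mod_cast hgw
    rw [div_le_iff₀ h2, div_mul_eq_mul_div, le_div_iff_of_neg h3]
    linarith
  have hSne : S.Nonempty := ⟨_, f0, hf0B, hf0, hf0w, rfl⟩
  have hSbd : BddAbove S := ⟨_, fun z hz => hub g0 hg0B hg0 hg0w z hz⟩
  set lam : ℝ := sSup S with hlam
  have hG : ∀ f ∈ B, f ≠ 0 → cout f + ρ * cin f ≤ lam * w f := by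
    intro f hfB hf
    rcases lt_trichotomy (w f) 0 with h | h | h
    · have h1 : lam ≤ (cout f + ρ * cin f) / (w f : ℝ) :=
        csSup_le hSne fun z hz => hub f hfB hf h z hz
      have h2 : (w f : ℝ) < 0 := by exact_mod_cast h
      rwa [le_div_iff_of_neg h2] at h1
    · rw [h]
      have := hh f hfB hf h
      push_cast
      linarith
    · have h1 : (cout f + ρ * cin f) / (w f : ℝ) ≤ lam := le_csSup hSbd ⟨f, hfB, hf, h, rfl⟩
      have h2 : (0 : ℝ) < w f := by exact_mod_cast h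
      rwa [div_le_iff₀ h2] at h1
  have hz : ∀ u ∈ DV B (fun f => (w f : ℝ)) cin, u ≠ 0 →
      (-(lam + ρ * (u.1 / u.2)), (1 : ℝ)) ∈ DV B (fun f => (w f : ℝ)) cout := by
    intro u hu hu0 f hfB hf
    have h1 := hu f hfB hf
    have h2 := hs u hu hu0
    have h3 := hG f hfB hf
    simp only [dot] at h1 ⊢
    have h4 : -(u.1 / u.2) * w f ≤ cin f := by
      have : -(u.1 / u.2) * w f = -(u.1 * w f) / u.2 := by ring
      rw [this, div_le_iff_of_neg h2]
      linarith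
    have h5 := mul_le_mul_of_nonneg_left h4 hρ.le
    nlinarith
  obtain ⟨u, hu, u', hu', hdet⟩ := hfat
  have hu0 : u ≠ 0 := by rintro rfl; simp at hdet
  have hu0' : u' ≠ 0 := by rintro rfl; simp at hdet
  refine ⟨⟨_, hz u hu hu0, _, hz u' hu' hu0', ?_⟩, _, hz u hu hu0, one_pos⟩
  simp only [mul_one, one_mul]
  intro h
  have h1 : u.1 / u.2 = u'.1 / u'.2 := by
    have : ρ * (u.1 / u.2) = ρ * (u'.1 / u'.2) := by linarith
    exact mul_left_cancel₀ hρ.ne' this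
  rw [div_eq_div_iff (hs u hu hu0).ne (hs u' hu' hu0').ne] at h1
  exact hdet (by linarith)

end Pool.Agent.F2PF
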