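import Pool.Agent.Lib.MP_305fdd_al.F2.PF.StmB
import Pool.Agent.Lib.MP_305fdd_al.F2.Ch.K1

/-!
# MP_305fdd_al, F_2 project, section PF, part B: piece [F2PF gap]
-/

set_option autoImplicit false

namespace Pool.Agent.F2PF

open MvPolynomial Pool.Agent.F2Ch

section
variable {K : Type} [Field K]

private theorem gap_fst {V : K → ℝ ×ₗ ℝ} (hV : IsV V) {a b : K} (ha : a ≠ 0) (hb : b ≠ 0)
    (m n : ℤ) : (ofLex (V (a ^ m * b ^ n))).1 = m * (ofLex (V a)).1 + n * (ofLex (V b)).1 := by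
  rw [hV.mul _ _ (zpow_ne_zero m ha) (zpow_ne_zero n hb), k1_zpow hV ha, k1_zpow hV hb]
  have h1 : (ofLex (m • V a + n • V b)).1 = m • (ofLex (V a)).1 + n • (ofLex (V b)).1 := rfl
  rw [h1, zsmul_eq_mul, zsmul_eq_mul]

private theorem gap_snd {V : K → ℝ ×ₗ ℝ} (hV : IsV V) {a b : K} (ha : a ≠ 0) (hb : b ≠ 0)
    (m n : ℤ) : c2 V (a ^ m * b ^ n) = m * c2 V a + n * c2 V b := by
  unfold c2
  rw [hV.mul _ _ (zpow_ne_zero m ha) (zpow_ne_zero n hb), k1_zpow hV ha, k1_zpow hV hb]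
  have h1 : (ofLex (m • V a + n • V b)).2 = m • (ofLex (V a)).2 + n • (ofLex (V b)).2 := rfl
  rw [h1, zsmul_eq_mul, zsmul_eq_mul]

omit [Field K] in
private theorem gap_pos {V : K → ℝ ×ₗ ℝ} {f : K} (h : (ofLex (V f)).1 = 0) :
    0 < V f ↔ 0 < c2 V f := by
  unfold c2
  rw [Prod.Lex.lt_iff]
  constructor
  · rintro (h1 | ⟨-, h1⟩)
    · rw [h] at h1
      exact absurd h1 (lt_irrefl _)
    · exact h1
  · intro h1
    exact Or.inr ⟨h.symm, h1⟩

end

theorem p_gap : S_gap := by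
  intro p _ k K _ _ _ _ _ n g φ s1 s2 y M hCL t ht1 ht2 hDv V V' hV hV' hE
  obtain ⟨hs, κ, Γ, iκ, iA, iG, iO, iM, W, x, ex, ac, φb, N, L, d, e, hch, hdet, hgood, hon, hM⟩ := hCL
  have hx : ∀ i, x i ≠ 0 := hch.vb.ne
  have hyt : ∀ i, y t (x i) = d i + t * e i := (hon t ht1.le ht2.le).2
  have hc : ∀ i, c2 V (x i) = e i := by
    intro i
    obtain ⟨δ, hδ, h1⟩ := hV.near (x i) (hx i)
    have h2 : 0 < min (δ / 2) (s2 - t) := lt_min (by linarith) (by linarith)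
    have h3 : min (δ / 2) (s2 - t) ≤ δ / 2 := min_le_left _ _
    have h4 : min (δ / 2) (s2 - t) ≤ s2 - t := min_le_right _ _
    have h5 := h1 _ h2 (by linarith)
    rw [(hon (t + min (δ / 2) (s2 - t)) (by linarith) (by linarith)).2 i, hyt i] at h5
    have h6 : min (δ / 2) (s2 - t) * (c2 V (x i) - e i) = 0 := by linear_combination -h5
    have h7 := (mul_eq_zero.1 h6).resolve_left h2.ne'
    linarith
  have hc' : ∀ i, c2 V' (x i) = -e i := by
    intro i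
    obtain ⟨δ, hδ, h1⟩ := hV'.near (x i) (hx i)
    have h2 : 0 < min (δ / 2) (t - s1) := lt_min (by linarith) (by linarith)
    have h3 : min (δ / 2) (t - s1) ≤ δ / 2 := min_le_left _ _
    have h4 : min (δ / 2) (t - s1) ≤ t - s1 := min_le_right _ _
    have h5 := h1 _ h2 (by linarith)
    rw [(hon (t - min (δ / 2) (t - s1)) (by linarith) (by linarith)).2 i, hyt i] at h5
    have h6 : min (δ / 2) (t - s1) * (c2 V' (x i) + e i) = 0 := by linear_combination -h5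
    have h7 := (mul_eq_zero.1 h6).resolve_left h2.ne'
    linarith
  obtain ⟨γ, hγ, hD⟩ := hDv
  obtain ⟨n0, hn0⟩ := hD (x 0) (hx 0)
  obtain ⟨n1, hn1⟩ := hD (x 1) (hx 1)
  rw [zsmul_eq_mul] at hn0 hn1
  have h1 : (ofLex (V (x 0 ^ n1 * x 1 ^ (-n0)))).1 = 0 := by
    rw [gap_fst hV.inz.isv (hx 0) (hx 1), hV.fst, hV.fst, hn0, hn1]
    push_cast
    ring
  have h2 : (ofLex (V' (x 0 ^ n1 * x 1 ^ (-n0)))).1 = 0 := by
    rw [gap_fst hV'.inz.isv (hx 0) (hx 1), hV'.fst, hV'.fst, hn0, hn1]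
    push_cast
    ring
  have h3 : c2 V (x 0 ^ n1 * x 1 ^ (-n0)) = n1 * e 0 - n0 * e 1 := by
    rw [gap_snd hV.inz.isv (hx 0) (hx 1), hc, hc]
    push_cast
    ring
  have h4 : c2 V' (x 0 ^ n1 * x 1 ^ (-n0)) = -(n1 * e 0 - n0 * e 1) := by
    rw [gap_snd hV'.inz.isv (hx 0) (hx 1), hc', hc']
    push_cast
    ring
  have h5 := hE (x 0 ^ n1 * x 1 ^ (-n0))
  rw [gap_pos h1, gap_pos h2, h3, h4] at h5
  have h6 : (n1 : ℝ) * e 0 - n0 * e 1 ≠ 0 := by
    intro h7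
    apply hdet
    rw [hyt] at hn0 hn1
    have h8 : d 0 = n0 * γ - t * e 0 := by linarith
    have h9 : d 1 = n1 * γ - t * e 1 := by linarith
    rw [h8, h9]
    linear_combination -γ * h7
  rcases lt_or_gt_of_ne h6 with h7 | h7
  · have h8 := h5.2 (by linarith)
    linarith
  · have h8 := h5.1 h7
    linarith

end Pool.Agent.F2PF
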