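import Pool.Agent.Lib.MP_305fdd_al.F2.PF.Stm

set_option autoImplicit false

namespace Pool.Agent.F2PF

open Pool.Agent.F2Ch

private theorem germ_a {K : Type} [Field K] {B : Set K} {J : Set ℝ} {y : ℝ → K → ℝ}
    {M : K → Finset (ℝ × ℝ)} (hL : Line B J y M) {t : ℝ} (ht : t ∈ J) {f : K} (hf : f ∈ B)
    (hf0 : f ≠ 0) {m : ℝ × ℝ} (hm : IsR (M f) t m ∨ IsL (M f) t m) :
    y t f = m.1 + t * m.2 := by
  have h1 : m ∈ M f := by
    rcases hm with h | h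
    · exact h.mem
    · exact h.mem
  have h2 : ∀ m' ∈ M f, m.1 + t * m.2 ≤ m'.1 + t * m'.2 := by
    rcases hm with h | h
    · exact h.min
    · exact h.min
  obtain ⟨m', hm', e⟩ := hL.ex f hf hf0 t ht
  have h3 := hL.le f hf hf0 t ht m h1
  have h4 := h2 m' hm'
  linarith

private theorem germ_b (h1 : S_in) {K : Type} [Field K] {B : Set K} {J : Set ℝ}
    {y : ℝ → K → ℝ} {M : K → Finset (ℝ × ℝ)} (hL : Line B J y M) {t0 : ℝ} {f : K} (hf : f ∈ B)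
    (hf0 : f ≠ 0) {m : ℝ × ℝ} (hm : IsR (M f) t0 m) :
    ∃ δ > 0, ∀ t', t0 < t' → t' < t0 + δ → t' ∈ J →
      y t' f = m.1 + t' * m.2 ∧ ∀ m', (IsR (M f) t' m' ∨ IsL (M f) t' m') → m' = m := by
  obtain ⟨δ, hδ, h⟩ := h1.2.2.1 (M f) t0 m hm
  refine ⟨δ, hδ, fun t' ht1 ht2 htJ => ⟨?_, ?_⟩⟩
  · obtain ⟨m', hm', e⟩ := hL.ex f hf hf0 t' htJ
    by_cases hne : m' = m
    · rw [e, hne]
    · have h3 := h t' ht1 ht2 m' hm' hne
      have h4 := hL.le f hf hf0 t' htJ m hm.mem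
      linarith
  · intro m' hm'
    by_contra hne
    have h5 : m' ∈ M f := by
      rcases hm' with h | h
      · exact h.mem
      · exact h.mem
    have h6 : m'.1 + t' * m'.2 ≤ m.1 + t' * m.2 := by
      rcases hm' with h | h
      · exact h.min m hm.mem
      · exact h.min m hm.mem
    have h3 := h t' ht1 ht2 m' h5 hne
    linarith

private theorem germ_c (h1 : S_in) {K : Type} [Field K] {B : Set K} (hB : Bs B) {J : Set ℝ}
    {y : ℝ → K → ℝ} {M : K → Finset (ℝ × ℝ)} (hL : Line B J y M) {t0 t1 : ℝ} (ht : t0 < t1)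
    (hJ : Set.Icc t0 t1 ⊆ J) {u : ℝ × ℝ}
    (hu : ∀ f ∈ B, f ≠ 0 → ∀ m, IsR (M f) t0 m → dot u m = 0) {x : K} (hx : x ≠ 0)
    {a : ℝ × ℝ} (ha : ∀ t ∈ J, y t x = a.1 + t * a.2) : dot u a = 0 := by
  obtain ⟨f, hf, g, hg, hg0, e⟩ := hB.frac x
  have hf0 : f ≠ 0 := by
    rw [← e]
    exact mul_ne_zero hx hg0
  obtain ⟨mf, hmf⟩ := h1.1 (M f) t0 (hL.ne f hf hf0)
  obtain ⟨mg, hmg⟩ := h1.1 (M g) t0 (hL.ne g hg hg0)
  obtain ⟨δf, hδf, hf'⟩ := germ_b h1 hL hf hf0 hmf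
  obtain ⟨δg, hδg, hg'⟩ := germ_b h1 hL hg hg0 hmg
  obtain ⟨d, hd0, hd1, hd2, hd3⟩ : ∃ d : ℝ, 0 < d ∧ d < δf ∧ d < δg ∧ d ≤ t1 - t0 := by
    refine ⟨min (min (δf / 2) (δg / 2)) (t1 - t0), ?_, ?_, ?_, min_le_right _ _⟩
    · exact lt_min (lt_min (half_pos hδf) (half_pos hδg)) (sub_pos.2 ht)
    · exact lt_of_le_of_lt ((min_le_left _ _).trans (min_le_left _ _)) (half_lt_self hδf)
    · exact lt_of_le_of_lt ((min_le_left _ _).trans (min_le_right _ _)) (half_lt_self hδg)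
  have key : ∀ t', t0 < t' → t' ≤ t0 + d →
      mf.1 + t' * mf.2 = (a.1 + t' * a.2) + (mg.1 + t' * mg.2) := by
    intro t' ha1 ha2
    have htJ : t' ∈ J := hJ ⟨ha1.le, by linarith⟩
    rw [← (hf' t' ha1 (by linarith) htJ).1, ← (hg' t' ha1 (by linarith) htJ).1, ← ha t' htJ,
      ← (hL.isv t' htJ).mul x g hx hg0, e]
  have k1 := key (t0 + d) (by linarith) le_rfl
  have k2 := key (t0 + d / 2) (by linarith) (by linarith)
  have e2 : mf.2 = a.2 + mg.2 := by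
    have h : (d / 2) * (mf.2 - (a.2 + mg.2)) = 0 := by
      linear_combination k1 - k2
    rcases mul_eq_zero.1 h with h | h
    · linarith
    · linarith
  have e1 : mf.1 = a.1 + mg.1 := by
    rw [e2] at k1
    linear_combination k1
  have u1 := hu f hf hf0 mf hmf
  have u2 := hu g hg hg0 mg hmg
  unfold dot at u1 u2 ⊢
  rw [e1, e2] at u1
  linear_combination u1 - u2

theorem p_germ (h1 : S_in) : S_germ := by
  intro K _ B hB J y M hL t0 ht0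
  refine ⟨fun f hf hf0 m hm => germ_a hL ht0 hf hf0 hm,
    fun f hf hf0 m hm => germ_b h1 hL hf hf0 hm, ?_⟩
  intro t1 ht1 hJ u hu
  obtain ⟨x1, x2, a, b, hx1, hx2, hdet, hab⟩ := hL.nd
  have ea := germ_c h1 hB hL ht1 hJ hu hx1 (fun t ht => (hab t ht).1)
  have eb := germ_c h1 hB hL ht1 hJ hu hx2 (fun t ht => (hab t ht).2)
  unfold dot at ea eb
  have c1 : (a.1 * b.2 - a.2 * b.1) * u.1 = 0 := by
    linear_combination b.2 * ea - a.2 * eb
  have c2 : (a.1 * b.2 - a.2 * b.1) * u.2 = 0 := by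
    linear_combination a.1 * eb - b.1 * ea
  have d1 : u.1 = 0 := (mul_eq_zero.1 c1).resolve_left hdet
  have d2 : u.2 = 0 := (mul_eq_zero.1 c2).resolve_left hdet
  exact Prod.ext d1 d2

end Pool.Agent.F2PF
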