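import Pool.Agent.Lib.MP_305fdd_al.F2.PF.Stm

/-!
# MP_305fdd_al, F_2 project, section PF: [F2PF in], leading exponents
-/

set_option autoImplicit false

namespace Pool.Agent.F2PF

theorem in_delta (t : ℝ) (m m' : ℝ × ℝ) (h1 : m.1 + t * m.2 ≤ m'.1 + t * m'.2)
    (h2 : m'.1 + t * m'.2 = m.1 + t * m.2 → m.2 ≤ m'.2) (hne : m' ≠ m) :
    ∃ δ > 0, ∀ t', t < t' → t' < t + δ → m.1 + t' * m.2 < m'.1 + t' * m'.2 := by
  rcases eq_or_lt_of_le h1 with h | h
  · have h3 := h2 h.symm
    have h4 : m.2 < m'.2 := by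
      refine lt_of_le_of_ne h3 fun h5 => hne ?_
      have h6 : m'.1 = m.1 := by rw [h5] at h; linarith
      exact Prod.ext h6 h5.symm
    refine ⟨1, one_pos, fun t' ht' _ => ?_⟩
    have h5 : 0 < (t' - t) * (m'.2 - m.2) := mul_pos (by linarith) (by linarith)
    nlinarith [h5]
  · set d : ℝ := m'.2 - m.2 with hd
    set g : ℝ := (m'.1 + t * m'.2) - (m.1 + t * m.2) with hg
    have hg0 : 0 < g := by rw [hg]; linarith
    have h1d : 0 < 1 + |d| := by positivity
    refine ⟨g / (1 + |d|), div_pos hg0 h1d, fun t' ht' ht'' => ?_⟩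
    have h5 : (t' - t) < g / (1 + |d|) := by linarith
    rw [lt_div_iff₀ h1d] at h5
    have h6 : -(|d|) ≤ d := neg_abs_le d
    have h7 : 0 ≤ (t' - t) * (d + |d|) := mul_nonneg (by linarith) (by linarith)
    have h8 : m'.1 + t' * m'.2 - (m.1 + t' * m.2) = g + (t' - t) * d := by
      rw [hg, hd]
      ring
    nlinarith [h5, h7, h8]

theorem in_rf_rf (m : ℝ × ℝ) : rf (rf m) = m := by
  unfold rf
  simp

theorem in_mem (S : Finset (ℝ × ℝ)) (m : ℝ × ℝ) : rf m ∈ S.image rf ↔ m ∈ S := by
  constructor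
  · intro h
    obtain ⟨m', hm', h'⟩ := Finset.mem_image.1 h
    have h2 : m' = m := by rw [← in_rf_rf m', h', in_rf_rf]
    exact h2 ▸ hm'
  · intro h
    exact Finset.mem_image_of_mem _ h

theorem in_forall (S : Finset (ℝ × ℝ)) (P : ℝ × ℝ → Prop) :
    (∀ m' ∈ S.image rf, P m') ↔ ∀ m' ∈ S, P (rf m') := by
  constructor
  · intro h m' hm'
    exact h _ (Finset.mem_image_of_mem _ hm')
  · intro h m' hm'
    obtain ⟨m'', hm'', rfl⟩ := Finset.mem_image.1 hm'
    exact h _ hm''

theorem in_val (t : ℝ) (m : ℝ × ℝ) : (rf m).1 + (-t) * (rf m).2 = m.1 + t * m.2 := by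
  unfold rf
  ring

theorem in_snd (m : ℝ × ℝ) : (rf m).2 = -m.2 := rfl

theorem p_in : S_in := by
  refine ⟨?_, ?_, ?_, ?_, ?_⟩
  · intro S t hS
    obtain ⟨m0, hm0, h0⟩ := Finset.exists_min_image S (fun m => m.1 + t * m.2) hS
    have hne : (S.filter fun m => m.1 + t * m.2 = m0.1 + t * m0.2).Nonempty :=
      ⟨m0, Finset.mem_filter.2 ⟨hm0, rfl⟩⟩
    obtain ⟨m, hm, h1⟩ := Finset.exists_min_image _ (fun m => m.2) hne
    obtain ⟨hmS, hm'⟩ := Finset.mem_filter.1 hm
    refine ⟨m, hmS, ?_, ?_⟩
    · intro m' hm1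
      rw [hm']
      exact h0 m' hm1
    · intro m' hm1 h2
      exact h1 m' (Finset.mem_filter.2 ⟨hm1, by rw [h2, hm']⟩)
  · intro S t m m' h h'
    have h1 : m.1 + t * m.2 = m'.1 + t * m'.2 := le_antisymm (h.min m' h'.mem) (h'.min m h.mem)
    have h2 : m.2 = m'.2 := le_antisymm (h.tie m' h'.mem h1.symm) (h'.tie m h.mem h1)
    have h3 : m.1 = m'.1 := by rw [h2] at h1; linarith
    exact Prod.ext h3 h2
  · intro S t m h
    have key : ∀ S' : Finset (ℝ × ℝ), S' ⊆ S → ∃ δ > 0, ∀ t', t < t' → t' < t + δ →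
        ∀ m' ∈ S', m' ≠ m → m.1 + t' * m.2 < m'.1 + t' * m'.2 := by
      intro S'
      induction S' using Finset.induction_on with
      | empty => exact fun _ => ⟨1, one_pos, fun t' _ _ m' hm' => absurd hm' (Finset.notMem_empty _)⟩
      | insert a s ha ih =>
        intro hs
        obtain ⟨δ, hδ, h1⟩ := ih fun x hx => hs (Finset.mem_insert_of_mem hx)
        by_cases ham : a = m
        · refine ⟨δ, hδ, fun t' ht ht' m' hm' hne => ?_⟩
          rcases Finset.mem_insert.1 hm' with rfl | hm'
          · exact absurd ham hne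
          · exact h1 t' ht ht' m' hm' hne
        · have haS : a ∈ S := hs (Finset.mem_insert_self _ _)
          obtain ⟨ε, hε, h2⟩ := in_delta t m a (h.min a haS) (h.tie a haS) ham
          refine ⟨min δ ε, lt_min hδ hε, fun t' ht ht' m' hm' hne => ?_⟩
          have h3 : min δ ε ≤ δ := min_le_left _ _
          have h4 : min δ ε ≤ ε := min_le_right _ _
          rcases Finset.mem_insert.1 hm' with rfl | hm'
          · exact h2 t' ht (by linarith)
          · exact h1 t' ht (by linarith) m' hm' hne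
    exact key S (Finset.Subset.refl S)
  · intro S t m
    constructor
    · intro h
      refine ⟨(in_mem S m).2 h.mem, ?_, ?_⟩
      · rw [in_forall]
        intro m' hm'
        rw [in_val, in_val]
        exact h.min m' hm'
      · rw [in_forall]
        intro m' hm' h1
        rw [in_val, in_val] at h1
        rw [in_snd, in_snd]
        exact neg_le_neg (h.tie m' hm' h1)
    · intro h
      refine ⟨(in_mem S m).1 h.mem, ?_, ?_⟩
      · intro m' hm'
        have h1 := (in_forall S _).1 h.min m' hm'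
        rw [in_val, in_val] at h1
        exact h1
      · intro m' hm' h1
        have h2 := (in_forall S _).1 h.tie m' hm' (by rw [in_val, in_val]; exact h1)
        rw [in_snd, in_snd] at h2
        exact neg_le_neg_iff.1 h2
  · intro S t m
    constructor
    · intro h
      refine ⟨(in_mem S m).2 h.mem, ?_, ?_⟩
      · rw [in_forall]
        intro m' hm'
        rw [in_val, in_val]
        exact h.min m' hm'
      · rw [in_forall]
        intro m' hm' h1
        rw [in_val, in_val] at h1
        rw [in_snd, in_snd]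
        exact neg_le_neg (h.tie m' hm' h1)
    · intro h
      refine ⟨(in_mem S m).1 h.mem, ?_, ?_⟩
      · intro m' hm'
        have h1 := (in_forall S _).1 h.min m' hm'
        rw [in_val, in_val] at h1
        exact h1
      · intro m' hm' h1
        have h2 := (in_forall S _).1 h.tie m' hm' (by rw [in_val, in_val]; exact h1)
        rw [in_snd, in_snd] at h2
        exact neg_le_neg_iff.1 h2

end Pool.Agent.F2PF
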