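import Pool.Agent.Lib.MP_305fdd_al.F2.PF.Stm

set_option autoImplicit false

namespace Pool.Agent.F2PF

open Pool.Agent.F2Ch

theorem p_inner (hpers : S_pers) (hkey : S_key) (hnsg : S_nsg) : S_inner := by
  intro K _ B hB t0 ts t2 y M h01 h12 hL hinf hns hsg ⟨u, hu, hsu⟩ hfat
  have hts : ts ∈ Set.Ico t0 t2 := ⟨h01.le, h12⟩
  have ht0 : t0 ∈ Set.Ico t0 t2 := ⟨le_rfl, h01.trans h12⟩
  have hns0 : ¬ SG B (y t0) := hns t0 le_rfl h01
  obtain ⟨n1, n2, -⟩ := hnsg K B hB (Set.Ico t0 t2) y M hL t0 ht0 hinf hns0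
  have hsub : Set.Icc t0 ts ⊆ Set.Ico t0 t2 := fun r hr => ⟨hr.1, hr.2.trans_lt h12⟩
  have p1 : ∀ z ∈ DR B M t0, z ≠ 0 → 0 < sd t0 z := fun z hz hz0 =>
    lt_of_le_of_ne (n2 ts h01 hsub u hu z hz hsu) (n1 z (Or.inl hz) hz0).symm
  have p2 : ∀ z ∈ DR B M t0, z ≠ 0 → 0 ≤ sd ts z := by
    intro z hz hz0
    by_contra hlt
    rw [not_le] at hlt
    have h1 := p1 z hz hz0
    simp only [sd] at h1 hlt
    have hz1 : 0 < z.1 := by
      by_contra h
      rw [not_lt] at h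
      nlinarith
    refine hns (z.2 / z.1) ?_ ?_ ((hkey K B (Set.Ico t0 t2) y M hL t0 ht0 z (Or.inl hz)).1
      (z.2 / z.1) ⟨?_, ?_⟩ z.1 hz1 ?_)
    · rw [le_div_iff₀ hz1]; linarith
    · rw [div_lt_iff₀ hz1]; linarith
    · rw [le_div_iff₀ hz1]; linarith
    · refine lt_trans ?_ h12
      rw [div_lt_iff₀ hz1]; linarith
    · rw [mul_div_cancel₀ _ hz1.ne']
  have p3 : ∃ z ∈ DR B M t0, 0 < sd ts z := by
    obtain ⟨a, ha, b, hb, hdet⟩ := hfat
    have ha0 : a ≠ 0 := by rintro rfl; simp at hdet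
    have hb0 : b ≠ 0 := by rintro rfl; simp at hdet
    have h1 := p2 a ha ha0
    have h2 := p2 b hb hb0
    rcases h1.lt_or_eq with h3 | h3
    · exact ⟨a, ha, h3⟩
    rcases h2.lt_or_eq with h4 | h4
    · exact ⟨b, hb, h4⟩
    exfalso
    simp only [sd] at h3 h4
    apply hdet
    have e1 : a.2 = ts * a.1 := by linarith
    have e2 : b.2 = ts * b.1 := by linarith
    rw [e1, e2]; ring
  obtain ⟨z, hz, hsz⟩ := p3
  have hz0 : z ≠ 0 := by
    rintro rfl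
    simp [sd] at hsz
  have hs0 := p1 z hz hz0
  obtain ⟨zR, -, hcmp⟩ := hpers K B (Set.Ico t0 t2) y M hL t0 ht0 ts hts h01 z (Or.inl hz) hs0 hsz.le
  have hδ1 : 0 < sd ts z / (1 + |z.1|) := div_pos hsz (by positivity)
  refine ⟨min (t2 - ts) (sd ts z / (1 + |z.1|)), lt_min (by linarith) hδ1,
    by linarith [min_le_left (t2 - ts) (sd ts z / (1 + |z.1|))], ?_⟩
  intro r hr hr'
  have hr2 : r < t2 := by linarith [min_le_left (t2 - ts) (sd ts z / (1 + |z.1|))]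
  have hsr : 0 < sd r z := by
    have h1 : r - ts < sd ts z / (1 + |z.1|) := by
      linarith [min_le_right (t2 - ts) (sd ts z / (1 + |z.1|))]
    rw [lt_div_iff₀ (by positivity)] at h1
    have h2 : (r - ts) * z.1 ≤ (r - ts) * |z.1| :=
      mul_le_mul_of_nonneg_left (le_abs_self _) (by linarith)
    simp only [sd] at h1 ⊢
    nlinarith
  obtain ⟨-, -, hcmp2⟩ := hpers K B (Set.Ico t0 t2) y M hL ts hts r ⟨by linarith, hr2⟩ hr z
    (Or.inl zR) hsz hsr.le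
  have hα : 0 < sd r z / sd ts z := div_pos hsr hsz
  have hβ : 0 < sd ts z / sd t0 z := div_pos hsz hs0
  have hz2 : ∀ f ∈ B, f ≠ 0 → y r f = 0 → y ts f = 0 := by
    intro f hfB hf h0
    have h1 := hcmp2 f hfB hf
    rw [h0] at h1
    have h2 : 0 ≤ y ts f := by
      by_contra h
      rw [not_le] at h
      exact absurd h1 (not_le.2 (mul_neg_of_pos_of_neg hα h))
    exact le_antisymm (hsg f hfB hf) h2
  refine ⟨?_, hz2, ?_⟩
  · intro f hfB hf
    exact (hcmp2 f hfB hf).trans (mul_nonpos_of_nonneg_of_nonpos hα.le (hsg f hfB hf))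
  · intro f hfB hf h0
    have h1 := hcmp f hfB hf
    rw [hz2 f hfB hf h0] at h1
    by_contra h
    rw [not_le] at h
    exact absurd h1 (not_le.2 (mul_neg_of_pos_of_neg hβ h))

end Pool.Agent.F2PF
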