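import Pool.Agent.Lib.MP_305fdd_al.F2.PF.Stm

/-!
# MP_305fdd_al, F_2 project, section PF: piece `inter` (descent towards a semi-good end point)
-/

set_option autoImplicit false

namespace Pool.Agent.F2PF

open Pool.Agent.F2Ch

theorem p_inter (h1 : S_pers) (h2 : S_key) (h3 : S_nsg) (h4 : S_val) (h5 : S_lim) (h6 : S_germ)
    (h7 : S_in) : S_inter := by
  intro K _ B hB s y M hs hLine hSG hInf hno
  -- the values converge
  have hconv : ∀ f ∈ B, f ≠ 0 → ∀ τ : ℕ → ℝ, (∀ n, 0 < τ n ∧ τ n < s) →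
      Filter.Tendsto τ Filter.atTop (nhds 0) →
      Filter.Tendsto (fun n => y (τ n) f) Filter.atTop (nhds (y 0 f)) := by
    intro f hf hf0 τ hτ hτ0
    obtain ⟨m, hm⟩ := h7.1 (M f) 0 (hLine.ne f hf hf0)
    obtain ⟨g1, g2, -⟩ := h6 K B hB _ y M hLine 0 ⟨le_rfl, hs⟩
    have e1 := g1 f hf hf0 m (Or.inl hm)
    obtain ⟨δ, hδ, e2⟩ := g2 f hf hf0 m hm
    have e3 : Filter.Tendsto (fun n => m.1 + τ n * m.2) Filter.atTop (nhds (m.1 + 0 * m.2)) :=
      (hτ0.mul_const m.2).const_add m.1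
    rw [e1]
    refine e3.congr' ?_
    have e4 : ∀ᶠ n in Filter.atTop, τ n < δ := hτ0.eventually (gt_mem_nhds hδ)
    filter_upwards [e4] with n hn
    exact ((e2 (τ n) (hτ n).1 (by linarith) ⟨(hτ n).1.le, (hτ n).2⟩).1).symm
  -- no functional pointing to the right near `0`
  have hfirst : ∃ δ > 0, δ ≤ s ∧ ∀ t, 0 < t → t < δ → ∀ u ∈ DR B M t, ¬ 0 < sd t u := by
    by_contra hcon
    push Not at hcon
    have hstep : ∀ n : ℕ, ∃ t, (0 < t ∧ t < s / (n + 2)) ∧ ∃ u ∈ DR B M t, 0 < sd t u := by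
      intro n
      have hn : (0 : ℝ) < (n : ℝ) + 2 := by positivity
      obtain ⟨t, ht0, ht1, u, hu, hu'⟩ := hcon (s / (n + 2)) (by positivity)
        (by rw [div_le_iff₀ hn]; nlinarith [(Nat.cast_nonneg n : (0 : ℝ) ≤ n)])
      exact ⟨t, ⟨ht0, ht1⟩, u, hu, hu'⟩
    choose τ hτ u hu hu' using hstep
    have hbd : ∀ n : ℕ, s / ((n : ℝ) + 2) ≤ s / 2 := by
      intro n
      apply div_le_div_of_nonneg_left hs.le (by norm_num)
      have : (0 : ℝ) ≤ n := Nat.cast_nonneg n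
      linarith
    have hτs : ∀ n, 0 < τ n ∧ τ n < s := by
      intro n
      have := hbd n
      exact ⟨(hτ n).1, by linarith [(hτ n).2]⟩
    have hτ0 : Filter.Tendsto τ Filter.atTop (nhds 0) := by
      have hlim : Filter.Tendsto (fun n : ℕ => s / ((n : ℝ) + 2)) Filter.atTop (nhds 0) := by
        apply Filter.Tendsto.div_atTop tendsto_const_nhds
        exact Filter.tendsto_atTop_add_const_right _ _ tendsto_natCast_atTop_atTop
      exact squeeze_zero (fun n => (hτ n).1.le) (fun n => (hτ n).2.le) hlim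
    have hr : (0 : ℝ) < s / 2 := by positivity
    have hrs : s / 2 < s := by linarith
    have hLe : ∀ n, Le B (y (s / 2)) (y (τ n)) := by
      intro n
      have hlt : τ n < s / 2 := lt_of_lt_of_le (hτ n).2 (hbd n)
      have hJ : τ n ∈ Set.Ico (0 : ℝ) s := ⟨(hτs n).1.le, (hτs n).2⟩
      have hJ' : s / 2 ∈ Set.Ico (0 : ℝ) s := ⟨hr.le, hrs⟩
      have k1 := (h2 K B _ y M hLine (τ n) hJ (u n) (Or.inl (hu n))).2 (s / 2) hlt
        (fun x hx => ⟨le_trans (hτs n).1.le hx.1, lt_of_le_of_lt hx.2 hrs⟩)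
        (fun r hr1 hr2 => (hno r (lt_trans (hτs n).1 hr1) (lt_of_le_of_lt hr2 hrs)).2) (hu' n)
      obtain ⟨-, -, k2⟩ := h1 K B _ y M hLine (τ n) hJ (s / 2) hJ' hlt (u n) (Or.inl (hu n)) (hu' n)
        k1.le
      exact ⟨sd (s / 2) (u n) / sd (τ n) (u n), div_pos k1 (hu' n), k2⟩
    have hLe0 := (h5 K B ℕ Filter.atTop (fun n => y (τ n)) (y 0) (y (s / 2))
      (fun f hf hf0 => hconv f hf hf0 τ hτs hτ0)).1 hLe hInf (hno _ hr hrs).2
    obtain ⟨c, hc, hcf⟩ := hLe0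
    apply (hno _ hr hrs).2
    intro f hf hf0
    exact (hcf f hf hf0).trans (mul_nonpos_of_nonneg_of_nonpos hc.le (hSG f hf hf0))
  obtain ⟨δ, hδ, hδs, hfst⟩ := hfirst
  refine ⟨δ, hδ, hδs, fun t ht0 ht1 => ⟨hfst t ht0 ht1, ?_⟩⟩
  rintro ⟨u, hu, hu0⟩ u' hu'
  have hts : t < s := lt_of_lt_of_le ht1 hδs
  have hJ : t ∈ Set.Ico (0 : ℝ) s := ⟨ht0.le, hts⟩
  obtain ⟨hI, hN⟩ := hno t ht0 hts
  have k1 := (h3 K B hB _ y M hLine t hJ hI hN).1 u (Or.inl hu) hu0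
  have k2 : sd t u < 0 := lt_of_le_of_ne (not_lt.1 (hfst t ht0 ht1 u hu)) k1
  have k3 := h4 K B hB _ y M hLine t hJ hI hN ((t + s) / 2) (by linarith)
    (fun x hx => ⟨le_trans ht0.le hx.1, lt_of_le_of_lt hx.2 (by linarith)⟩) u hu u' hu' k2
  exact not_lt.2 k3

end Pool.Agent.F2PF
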