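import Pool.Agent.Lib.MP_305fdd_al.F2.PF.StmB

/-!
# MP_305fdd_al, [F2PF irr]: irrational points of a line are two-sided
-/

set_option autoImplicit false

namespace Pool.Agent.F2PF

open MvPolynomial Pool.Agent.F2Ch Filter Topology

private theorem irr_wt2 (d e : Fin 2 → ℝ) (t : ℝ) (m : Fin 2 → ℤ) :
    wt (fun i => d i + t * e i) m = wt d m + t * wt e m := by
  unfold wt
  rw [Fin.sum_univ_two, Fin.sum_univ_two, Fin.sum_univ_two]
  simp only [zsmul_eq_mul]
  ring

private theorem irr_sub (a : Fin 2 → ℝ) (m m' : Fin 2 → ℤ) : wt a (m - m') = wt a m - wt a m' := by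
  unfold wt
  rw [Fin.sum_univ_two, Fin.sum_univ_two, Fin.sum_univ_two]
  simp only [zsmul_eq_mul, Pi.sub_apply]
  push_cast
  ring

/-- a relation between the weights makes all weights multiples of one number -/
private theorem irr_rel (a : Fin 2 → ℝ) (m : Fin 2 → ℤ) (hm : m ≠ 0) (h : wt a m = 0) :
    ∃ lam : ℝ, ∀ m' : Fin 2 → ℤ, ∃ n : ℤ, wt a m' = n * lam := by
  have h1 : (m 0 : ℝ) * a 0 + m 1 * a 1 = 0 := by
    unfold wt at h
    rw [Fin.sum_univ_two] at h
    simpa only [zsmul_eq_mul] using h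
  have hpos : (0 : ℝ) < (m 0 : ℝ) ^ 2 + (m 1 : ℝ) ^ 2 := by
    by_contra hcon
    push Not at hcon
    have h2 := sq_nonneg (m 0 : ℝ)
    have h3 := sq_nonneg (m 1 : ℝ)
    have h4 : (m 0 : ℝ) ^ 2 = 0 := by linarith
    have h5 : (m 1 : ℝ) ^ 2 = 0 := by linarith
    apply hm
    funext i
    fin_cases i
    · exact_mod_cast pow_eq_zero_iff (two_ne_zero) |>.1 h4
    · exact_mod_cast pow_eq_zero_iff (two_ne_zero) |>.1 h5
  refine ⟨(a 0 * m 1 - a 1 * m 0) / ((m 0 : ℝ) ^ 2 + (m 1 : ℝ) ^ 2), fun m' =>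
    ⟨m' 0 * m 1 - m' 1 * m 0, ?_⟩⟩
  unfold wt
  rw [Fin.sum_univ_two]
  simp only [zsmul_eq_mul]
  rw [mul_div_assoc', eq_div_iff hpos.ne']
  push_cast
  linear_combination ((m' 0 : ℝ) * m 0 + m' 1 * m 1) * h1

/-- values which are multiples of one number -/
private theorem irr_dv {K : Type} [Field K] (w : K → ℝ) (lam : ℝ)
    (h : ∀ f, f ≠ 0 → ∃ n : ℤ, w f = n * lam) : Dv w := by
  rcases lt_trichotomy lam 0 with hl | hl | hl
  · refine ⟨-lam, by linarith, fun f hf => ?_⟩
    obtain ⟨n, hn⟩ := h f hf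
    refine ⟨-n, ?_⟩
    rw [hn, zsmul_eq_mul]
    push_cast
    ring
  · refine ⟨1, one_pos, fun f hf => ?_⟩
    obtain ⟨n, hn⟩ := h f hf
    refine ⟨0, ?_⟩
    rw [hn, hl, mul_zero, zero_smul]
  · refine ⟨lam, hl, fun f hf => ?_⟩
    obtain ⟨n, hn⟩ := h f hf
    exact ⟨n, by rw [hn, zsmul_eq_mul]⟩

/-- an affine function which is positive on an interval -/
private theorem irr_aff (α β t s2 : ℝ) (hts : t < s2)
    (h : ∀ t', t < t' → t' < s2 → 0 < α + t' * β) : 0 ≤ α + t * β := by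
  by_contra hcon
  push Not at hcon
  by_cases hβ : β ≤ 0
  · have h1 := h ((t + s2) / 2) (by linarith) (by linarith)
    nlinarith
  · push Not at hβ
    have hε : 0 < min ((s2 - t) / 2) (-(α + t * β) / β) :=
      lt_min (by linarith) (div_pos (by linarith) hβ)
    have h1 := h (t + min ((s2 - t) / 2) (-(α + t * β) / β)) (by linarith) (by
      have := min_le_left ((s2 - t) / 2) (-(α + t * β) / β)
      linarith)
    have h2 : min ((s2 - t) / 2) (-(α + t * β) / β) * β ≤ -(α + t * β) := by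
      have h3 := min_le_right ((s2 - t) / 2) (-(α + t * β) / β)
      calc _ ≤ -(α + t * β) / β * β := mul_le_mul_of_nonneg_right h3 hβ.le
        _ = -(α + t * β) := div_mul_cancel₀ _ hβ.ne'
    linarith [add_mul t (min ((s2 - t) / 2) (-(α + t * β) / β)) β]

/-- [F2PF irr] -/
theorem p_irr : S_irr := by
  intro p _ k K _ _ _ _ _ n g φ hF s1 s2 y M hCL
  obtain ⟨hs12, κ, Γ, i1, i2, i3, i4, i5, V, x, ex, ac, φb, N, L, d, e, hch, hdet, hgood, hon,
    hM⟩ := hCL
  -- no relations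
  have hclaim : ∀ t, s1 ≤ t → t ≤ s2 → ¬ Dv (y t) → ∀ m : Fin 2 → ℤ,
      wt (fun i => d i + t * e i) m = 0 → m = 0 := by
    intro t ht1 ht2 hD m hm
    by_contra hm0
    apply hD
    obtain ⟨lam, hlam⟩ := irr_rel _ m hm0 hm
    apply irr_dv _ lam
    have hB : ∀ q : MvPolynomial (Fin n) k, aeval g q ≠ 0 → ∃ n : ℤ, y t (aeval g q) = n * lam := by
      intro q hq
      obtain ⟨-, m', -, h1⟩ := (hon t ht1 ht2).1.min q hq
      rw [h1]
      exact hlam m'
    intro f hf
    obtain ⟨a, b, hb0, hab⟩ := hF f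
    have ha0 : aeval g a ≠ 0 := by rw [← hab]; exact mul_ne_zero hf hb0
    obtain ⟨na, hna⟩ := hB a ha0
    obtain ⟨nb, hnb⟩ := hB b hb0
    refine ⟨na - nb, ?_⟩
    have h1 := (hon t ht1 ht2).1.inz.isv.mul f _ hf hb0
    rw [hab, hna, hnb] at h1
    push_cast
    linear_combination -h1
  refine ⟨?_, ?_⟩
  · intro t ht1 ht2 hD
    have hinj : ∀ f, ∀ m ∈ M f, ∀ m' ∈ M f, m'.1 + t * m'.2 = m.1 + t * m.2 → m' = m := by
      intro f m hm m' hm' h
      obtain ⟨μ, -, rfl⟩ := (hM f m).1 hm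
      obtain ⟨μ', -, rfl⟩ := (hM f m').1 hm'
      have h1 : wt (fun i => d i + t * e i) (μ' - μ) = 0 := by
        rw [irr_sub, irr_wt2, irr_wt2]
        simp only at h
        linarith
      have h2 := sub_eq_zero.1 (hclaim t ht1 ht2 hD _ h1)
      rw [h2]
    have hiff : ∀ f m, IsR (M f) t m ↔ IsL (M f) t m := by
      intro f m
      constructor
      · intro h
        exact ⟨h.mem, h.min, fun m' hm' he => by rw [hinj f m h.mem m' hm' he]⟩
      · intro h
        exact ⟨h.mem, h.min, fun m' hm' he => by rw [hinj f m h.mem m' hm' he]⟩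
    unfold DR DL
    simp only [hiff]
  · intro hD
    have hN : ∀ m ∈ N, 0 < wt d m + s1 * wt e m := by
      intro m hm
      have h0 : 0 ≤ wt d m + s1 * wt e m := by
        apply irr_aff _ _ _ s2 hs12
        intro t' h1 h2
        have := hgood t' h1 h2 m hm
        rwa [irr_wt2] at this
      rcases h0.lt_or_eq with h | h
      · exact h
      · exfalso
        have h1 := hclaim s1 le_rfl hs12.le hD m (by rw [irr_wt2]; exact h.symm)
        subst h1
        have h2 := hgood ((s1 + s2) / 2) (by linarith) (by linarith) 0 hm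
        have h3 : wt (fun i => d i + (s1 + s2) / 2 * e i) (0 : Fin 2 → ℤ) = 0 := by
          unfold wt; simp
        rw [h3] at h2
        exact lt_irrefl _ h2
    have hEv : ∀ᶠ t in 𝓝 s1, ∀ m ∈ N, 0 < wt d m + t * wt e m := by
      rw [eventually_all_finite hch.fin]
      intro m hm
      have hc : Tendsto (fun t : ℝ => wt d m + t * wt e m) (𝓝 s1) (𝓝 (wt d m + s1 * wt e m)) :=
        (continuous_const.add (continuous_id.mul continuous_const)).tendsto s1
      exact hc.eventually (lt_mem_nhds (hN m hm))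
    obtain ⟨δ, hδ, hδ'⟩ := Metric.eventually_nhds_iff.1 hEv
    have hG : ∀ t, s1 - δ < t → t ≤ s1 → Good N (fun i => d i + t * e i) := by
      intro t h1 h2 m hm
      rw [irr_wt2]
      refine hδ' ?_ m hm
      rw [Real.dist_eq, abs_lt]
      constructor <;> linarith
    have hex : ∀ t : ℝ, ∃ y' : K → ℝ, (s1 ≤ t → y' = y t) ∧ (t < s1 → s1 - δ < t →
        OnCh k p φ g L (fun i => d i + t * e i) y' ∧ ∀ i, y' (x i) = d i + t * e i) := by
      intro t
      by_cases ht : t < s1 ∧ s1 - δ < t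
      · obtain ⟨y', h1, h2⟩ := hch.cell ℝ (fun i => d i + t * e i) (hG t ht.2 ht.1.le)
        exact ⟨y', fun h => absurd ht.1 (not_lt.2 h), fun _ _ => ⟨h1, h2⟩⟩
      · exact ⟨y t, fun _ => rfl, fun h1 h2 => absurd ⟨h1, h2⟩ ht⟩
    choose y' hy' using hex
    refine ⟨δ / 2, y', by linarith, fun t h1 _ => (hy' t).1 h1, by linarith, κ, Γ, i1, i2, i3, i4,
      i5, V, x, ex, ac, φb, N, L, d, e, hch, hdet, ?_, ?_, hM⟩
    · intro t h1 h2
      rcases le_or_gt t s1 with h | h
      · exact hG t (by linarith) h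
      · exact hgood t h h2
    · intro t h1 h2
      rcases lt_or_ge t s1 with h | h
      · exact (hy' t).2 h (by linarith)
      · rw [(hy' t).1 h]
        exact hon t h h2

end Pool.Agent.F2PF
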