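import Pool.Agent.Lib.MP_305fdd_al.F2.PF.StmC

/-!
# MP_305fdd_al, F_2 project, section PF: the mirror image of the key principle
-/

set_option autoImplicit false

namespace Pool.Agent.F2PF

open Pool.Agent.F2Ch

theorem p_keyL (hkey : S_key) (hrefl : S_refl) : S_keyL := by
  intro K _ B J y M hl t ht u hu t' htt' hJ hns hsd
  obtain ⟨hl', hDR, hDL, hs⟩ := hrefl K B J y M hl
  have hu' : rf u ∈ DR B (fun f => (M f).image rf) (-t) ∨
      rf u ∈ DL B (fun f => (M f).image rf) (-t) := by
    rcases hu with hu | hu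
    · exact Or.inr ((hDR t u).1 hu)
    · exact Or.inl ((hDL t u).1 hu)
  have ht0 : -t ∈ {t | -t ∈ J} := by
    show - -t ∈ J
    rwa [neg_neg]
  have h := (hkey K B {t | -t ∈ J} (fun t => y (-t)) (fun f => (M f).image rf) hl' (-t) ht0
    (rf u) hu').2 (-t') (by linarith) ?_ ?_ ?_
  · rw [hs] at h
    linarith
  · rintro r ⟨h1, h2⟩
    exact hJ ⟨by linarith, by linarith⟩
  · intro r h1 h2
    exact hns (-r) (by linarith) (by linarith)
  · rw [hs]
    linarith

end Pool.Agent.F2PF
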