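import Pool.Agent.Lib.MP_305fdd_al.F2.PF.StmB

/-!
# MP_305fdd_al, F_2 project, section PF: the flag at the left side of a point of a line
-/

set_option autoImplicit false

namespace Pool.Agent.F2PF

open MvPolynomial Pool.Agent.F2Ch

private theorem lfl_rf_rf (u : ℝ × ℝ) : rf (rf u) = u := by
  unfold rf
  simp

private theorem lfl_iff (hrefl : S_refl) (k : Type) (p : ℕ) {K : Type} [Field k] [Field K]
    [Algebra k K] {n : ℕ} (φ : K → K) (g : Fin n → K) (J : Set ℝ) (y : ℝ → K → ℝ)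
    (M : K → Finset (ℝ × ℝ)) (hl : Line (Br k g) J y M) (t : ℝ) (V : K → ℝ ×ₗ ℝ) :
    LFl k p φ g y M t V ↔
      RFl k p φ g (fun t => y (-t)) (fun f => (M f).image rf) (-t) V := by
  obtain ⟨_, _, h3, h4⟩ := hrefl K (Br k g) J y M hl
  constructor
  · intro h
    refine
      { inz := h.inz
        fst := ?_
        near := ?_
        nd := ?_
        dr := ?_ }
    · intro f
      change (ofLex (V f)).1 = y (-(-t)) f
      rw [neg_neg, h.fst]
    · intro f hf
      obtain ⟨δ, hδ, hε⟩ := h.near f hf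
      refine ⟨δ, hδ, fun ε h1 h2 => ?_⟩
      change y (-(-t + ε)) f = y (-(-t)) f + ε * c2 V f
      rw [neg_neg, neg_add, neg_neg, ← sub_eq_add_neg]
      exact hε ε h1 h2
    · obtain ⟨x1, x2, hx1, hx2, hne⟩ := h.nd
      refine ⟨x1, x2, hx1, hx2, ?_⟩
      change y (-(-t)) x1 * c2 V x2 - y (-(-t)) x2 * c2 V x1 ≠ 0
      rw [neg_neg]
      exact hne
    · intro u
      change u ∈ DR (Br k g) (fun f => (M f).image rf) (-t) ↔
        (u.1, sd (-t) u) ∈ DV (Br k g) (y (-(-t))) (c2 V)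
      have e1 := h3 t (rf u)
      have e2 := h4 t (rf u)
      rw [lfl_rf_rf] at e1 e2
      rw [← e1, h.dl, neg_neg, e2]
      rfl
  · intro h
    refine
      { inz := h.inz
        fst := ?_
        near := ?_
        nd := ?_
        dl := ?_ }
    · intro f
      have := h.fst f
      change (ofLex (V f)).1 = y (-(-t)) f at this
      rwa [neg_neg] at this
    · intro f hf
      obtain ⟨δ, hδ, hε⟩ := h.near f hf
      refine ⟨δ, hδ, fun ε h1 h2 => ?_⟩
      have := hε ε h1 h2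
      change y (-(-t + ε)) f = y (-(-t)) f + ε * c2 V f at this
      rwa [neg_neg, neg_add, neg_neg, ← sub_eq_add_neg] at this
    · obtain ⟨x1, x2, hx1, hx2, hne⟩ := h.nd
      refine ⟨x1, x2, hx1, hx2, ?_⟩
      change y (-(-t)) x1 * c2 V x2 - y (-(-t)) x2 * c2 V x1 ≠ 0 at hne
      rwa [neg_neg] at hne
    · intro u
      have e1 := h.dr (rf u)
      change rf u ∈ DR (Br k g) (fun f => (M f).image rf) (-t) ↔
        ((rf u).1, sd (-t) (rf u)) ∈ DV (Br k g) (y (-(-t))) (c2 V) at e1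
      rw [neg_neg, h4 t u] at e1
      rw [h3 t u, e1]
      rfl

theorem p_lfl (hrfl : S_rfl) (hcrev : S_crev) (hrefl : S_refl) (hline : S_line) : S_lfl := by
  intro p _ k K _ _ _ _ _ n g φ hFG s1 s2 y M hCL t h1 h2
  have hl : Line (Br k g) (Set.Icc s1 s2) y M := ((hline p k K n g φ).2 s1 s2 y M hCL).1
  have hrev := (hcrev p k K n g φ s1 s2 y M hCL).1
  obtain ⟨⟨V, hV⟩, hz⟩ := hrfl p k K n g φ hFG (-s2) (-s1) _ _ hrev (-t) (by linarith)
    (by linarith)
  refine ⟨⟨V, (lfl_iff hrefl k p φ g _ y M hl t V).2 hV⟩, ?_⟩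
  rintro V' hV' z hz0 ⟨δ, hδ, h⟩
  refine hz V' ((lfl_iff hrefl k p φ g _ y M hl t V').1 hV') z hz0 ⟨δ, hδ, ?_⟩
  intro t' h3 h4 h5
  exact h (-t') (by linarith) (by linarith) (by linarith)

end Pool.Agent.F2PF
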