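import Pool.Agent.Lib.MP_305fdd_al.F2.PF.Stm

set_option autoImplicit false

namespace Pool.Agent.F2PF

open Pool.Agent.F2Ch Filter Topology

/-- a net in a compact interval converges along an ultrafilter -/
private theorem lim_cpt {ι : Type} (F : Filter ι) [F.NeBot] (c : ι → ℝ) (a C : ℝ)
    (h : ∀ᶠ i in F, c i ∈ Set.Icc a C) :
    ∃ (U : Ultrafilter ι) (z : ℝ), (U : Filter ι) ≤ F ∧ z ∈ Set.Icc a C ∧
      Tendsto c (U : Filter ι) (nhds z) := by
  obtain ⟨U, hU⟩ := Ultrafilter.exists_le F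
  have h1 : Set.Icc a C ∈ U.map c := by
    rw [Ultrafilter.mem_map]
    exact hU h
  have h2 : ((U.map c : Ultrafilter ℝ) : Filter ℝ) ≤ 𝓟 (Set.Icc a C) := by
    rw [le_principal_iff]
    exact h1
  obtain ⟨z, hz, hz'⟩ := isCompact_iff_ultrafilter_le_nhds.1 (isCompact_Icc (a := a) (b := C))
    (U.map c) h2
  exact ⟨U, z, hU, hz, hz'⟩

theorem p_lim : S_lim := by
  intro K _ B ι F _ v x b hx
  -- an upper bound for the constants in (b), (c)
  have hup : ∀ c : ι → ℝ, (∀ i, 0 < c i) → (∀ i, ∀ f ∈ B, f ≠ 0 → v i f ≤ c i * b f) →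
      AtInf B b → ∃ C, ∀ᶠ i in F, c i ≤ C := by
    intro c hc hcb ⟨g, hgB, hg, hgb⟩
    refine ⟨(x g - 1) / b g, ?_⟩
    have h1 : ∀ᶠ i in F, x g - 1 < v i g := (hx g hgB hg).eventually (lt_mem_nhds (by linarith))
    filter_upwards [h1] with i hi
    have h2 := hcb i g hgB hg
    rw [le_div_iff_of_neg hgb]
    linarith
  have hlimb : ∀ (U : Ultrafilter ι) (c : ι → ℝ) (z : ℝ), (U : Filter ι) ≤ F →
      Tendsto c (U : Filter ι) (nhds z) → (∀ i, ∀ f ∈ B, f ≠ 0 → v i f ≤ c i * b f) →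
      ∀ f ∈ B, f ≠ 0 → x f ≤ z * b f := by
    intro U c z hU hz hcb f hfB hf
    exact le_of_tendsto_of_tendsto ((hx f hfB hf).mono_left hU) (hz.mul_const (b f))
      (Eventually.of_forall fun i => hcb i f hfB hf)
  refine ⟨?_, ?_, ?_⟩
  · intro hle ⟨g, hgB, hg, hgx⟩ hSG
    choose c hc hcb using hle
    have h1 : ∀ᶠ i in F, v i g < x g / 2 := (hx g hgB hg).eventually (gt_mem_nhds (by linarith))
    have h2 : ∀ᶠ i in F, c i ∈ Set.Icc 0 (b g / (x g / 2)) := by
      filter_upwards [h1] with i hi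
      refine ⟨(hc i).le, ?_⟩
      have h3 := hcb i g hgB hg
      rw [le_div_iff_of_neg (by linarith)]
      have h4 : c i * v i g ≤ c i * (x g / 2) := mul_le_mul_of_nonneg_left hi.le (hc i).le
      linarith
    obtain ⟨U, z, hU, hz, hz'⟩ := lim_cpt F c 0 _ h2
    have h5 : ∀ f ∈ B, f ≠ 0 → b f ≤ z * x f := by
      intro f hfB hf
      exact le_of_tendsto_of_tendsto tendsto_const_nhds (hz'.mul ((hx f hfB hf).mono_left hU))
        (Eventually.of_forall fun i => hcb i f hfB hf)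
    refine ⟨z, lt_of_le_of_ne hz.1 ?_, h5⟩
    rintro rfl
    exact hSG fun f hfB hf => by simpa using h5 f hfB hf
  · intro hle hb hSG
    choose c hc hcb using hle
    obtain ⟨C, hC⟩ := hup c hc hcb hb
    have hg : ∃ g ∈ B, g ≠ 0 ∧ 0 < x g := by
      by_contra h
      push Not at h
      exact hSG h
    obtain ⟨g, hgB, hg, hgx⟩ := hg
    have h1 : ∀ᶠ i in F, x g / 2 < v i g := (hx g hgB hg).eventually (lt_mem_nhds (by linarith))
    have hbg : 0 < b g := by
      obtain ⟨i, hi⟩ := h1.exists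
      have h2 := hcb i g hgB hg
      have h3 : 0 < c i * b g := by linarith
      exact (mul_pos_iff_of_pos_left (hc i)).1 h3
    have h2 : ∀ᶠ i in F, c i ∈ Set.Icc (x g / 2 / b g) C := by
      filter_upwards [h1, hC] with i hi hi'
      refine ⟨?_, hi'⟩
      rw [div_le_iff₀ hbg]
      have h3 := hcb i g hgB hg
      linarith
    obtain ⟨U, z, hU, hz, hz'⟩ := lim_cpt F c _ _ h2
    have hzpos : 0 < z := lt_of_lt_of_le (by positivity) hz.1
    exact ⟨z, hzpos, hlimb U c z hU hz' hcb⟩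
  · intro hle hb
    choose c hc hcb using hle
    obtain ⟨C, hC⟩ := hup c hc hcb hb
    have h2 : ∀ᶠ i in F, c i ∈ Set.Icc 0 C := by
      filter_upwards [hC] with i hi
      exact ⟨(hc i).le, hi⟩
    obtain ⟨U, z, hU, hz, hz'⟩ := lim_cpt F c _ _ h2
    exact ⟨z, hz.1, hlimb U c z hU hz' hcb⟩

end Pool.Agent.F2PF
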