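import Pool.Agent.Lib.MP_305fdd_al.F2.PF.StmB

/-!
# MP_305fdd_al, F_2 project, section PF: piece line
-/

set_option autoImplicit false

namespace Pool.Agent.F2PF

open MvPolynomial Pool.Agent.F2Ch

private theorem line_wt (d e : Fin 2 → ℝ) (t : ℝ) (m : Fin 2 → ℤ) :
    wt (fun i => d i + t * e i) m = wt d m + t * wt e m := by
  unfold wt
  rw [Fin.sum_univ_two, Fin.sum_univ_two, Fin.sum_univ_two, zsmul_eq_mul, zsmul_eq_mul,
    zsmul_eq_mul, zsmul_eq_mul, zsmul_eq_mul, zsmul_eq_mul]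
  ring

theorem p_line : S_line := by
  intro p _ k K _ _ _ _ _ n g φ
  refine ⟨fun hg => ⟨⟨1, map_one _⟩, ?_, ?_⟩, ?_⟩
  · rintro _ ⟨a, rfl⟩ _ ⟨b, rfl⟩
    exact ⟨a * b, map_mul _ _ _⟩
  · intro x
    obtain ⟨a, b, hb, e⟩ := hg x
    exact ⟨_, ⟨a, rfl⟩, _, ⟨b, rfl⟩, hb, e⟩
  · intro s1 s2 y M hCL
    obtain ⟨h12, κ, Γ, i1, i2, i3, i4, i5, V, x, ex, ac, φb, N, L, d, e, hC, hdet, hgood, hon,
      hM⟩ := hCL
    have hmem : ∀ f (m : Fin 2 → ℤ), (L f).coeff m ≠ 0 → (wt d m, wt e m) ∈ M f :=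
      fun f m hm => (hM f _).2 ⟨m, hm, rfl⟩
    refine ⟨⟨fun t ht => (hon t ht.1 ht.2).1.inz.isv, ?_, ?_, ?_, ?_⟩, ?_, ?_⟩
    · rintro f ⟨q, rfl⟩ hf
      obtain ⟨-, m, hm, -⟩ := (hon s1 le_rfl h12.le).1.min q hf
      exact ⟨_, hmem _ m hm⟩
    · rintro f ⟨q, rfl⟩ hf t ht m' hm'
      obtain ⟨m, hm, rfl⟩ := (hM _ _).1 hm'
      have h1 := ((hon t ht.1 ht.2).1.min q hf).1 m hm
      rw [line_wt] at h1
      exact h1
    · rintro f ⟨q, rfl⟩ hf t ht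
      obtain ⟨-, m, hm, h1⟩ := (hon t ht.1 ht.2).1.min q hf
      rw [line_wt] at h1
      exact ⟨_, hmem _ m hm, h1⟩
    · refine ⟨x 0, x 1, (d 0, e 0), (d 1, e 1), hC.vb.ne 0, hC.vb.ne 1, ?_, fun t ht => ?_⟩
      · show d 0 * e 1 - e 0 * d 1 ≠ 0
        rw [mul_comm (e 0)]
        exact hdet
      · exact ⟨(hon t ht.1 ht.2).2 0, (hon t ht.1 ht.2).2 1⟩
    · intro t h1 h2
      obtain ⟨h3, h4⟩ := hon t h1 h2
      refine ⟨h3.inz, ?_⟩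
      by_contra h5
      push Not at h5
      have e0 := h4 0
      have e1 := h4 1
      rw [h5] at e0 e1
      apply hdet
      linear_combination e 0 * e1 - e 1 * e0
    · intro a b ha hab hb
      exact ⟨hab, κ, Γ, i1, i2, i3, i4, i5, V, x, ex, ac, φb, N, L, d, e, hC, hdet,
        fun t h1 h2 => hgood t (ha.trans_lt h1) (h2.trans_le hb),
        fun t h1 h2 => hon t (ha.trans h1) (h2.trans hb), hM⟩

end Pool.Agent.F2PF
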