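import Pool.Agent.Lib.MP_305fdd_al.F2.PF.StmC

/-!
# MP_305fdd_al, F_2 project, [F2PF loc]: local uniqueness of the descent
-/

set_option autoImplicit false

namespace Pool.Agent.F2PF

open MvPolynomial Pool.Agent.F2Ch

private theorem loc_sd0 (u : ℝ × ℝ) : sd 0 u = u.2 := by
  unfold sd
  ring

private theorem loc_pt {K : Type} [Field K] {B : Set K} {w w' : K → ℝ} {V V' : K → ℝ ×ₗ ℝ} {c : ℝ}
    (hw : ∀ f, w' f = c * w f) (hc2 : ∀ f, c2 V' f = c2 V f) {a b : ℝ} (hb : 0 < b)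
    (h : (a, b) ∈ DV B w' (c2 V')) : PT B w V := by
  refine ⟨a * c / b, fun f hf hf0 => ?_⟩
  have h1 := h f hf hf0
  unfold dot at h1 ⊢
  simp only at h1 ⊢
  rw [hw, hc2] at h1
  have h2 : a * c / b * w f + 1 * c2 V f = (a * (c * w f) + b * c2 V f) / b := by
    field_simp
  rw [h2]
  exact div_nonpos_of_nonpos_of_nonneg h1 hb.le

theorem p_loc (hrfl : S_rfl) (hpal : S_pal) (hpr : S_pr) (hanti : S_anti) (hfeq : S_feq)
    (hfun : S_fun) (hcoin : S_coin) (hnsg : S_nsg) (hline : S_line) : S_loc := by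
  intro p _ k K _ _ _ _ _ n g φ E A R hctx s s' y y' M M' hd hd' hpr0
  obtain ⟨⟨b0, ρ0, hb⟩, hloc⟩ := id hctx
  have hs : 0 < s := hd.cl.1
  have hs' : 0 < s' := hd'.cl.1
  obtain ⟨pr1, pr2, pr3⟩ := hpr p k K n g φ
  obtain ⟨_, _, _, an4, _⟩ := hanti p k K n g φ E A R hctx
  obtain ⟨hBs, hli⟩ := hline p k K n g φ
  obtain ⟨hL, hL2, _⟩ := hli 0 s y M hd.cl
  obtain ⟨hL', hL2', _⟩ := hli 0 s' y' M' hd'.cl
  obtain ⟨hin0, hnt0⟩ := hL2 0 le_rfl hs.le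
  obtain ⟨⟨V, hV⟩, _⟩ := hrfl p k K n g φ hb.gen 0 s y M hd.cl 0 le_rfl hs
  obtain ⟨⟨V', hV'⟩, _⟩ := hrfl p k K n g φ hb.gen 0 s' y' M' hd'.cl 0 le_rfl hs'
  obtain ⟨z, hz, hzl⟩ := hd.el
  obtain ⟨z', hz', hzl'⟩ := hd'.el
  obtain ⟨pa1, _, _⟩ := hpal p k K n g φ E A R hctx 0 s y M hd.cl z hz hzl
  obtain ⟨pa1', _, _⟩ := hpal p k K n g φ E A R hctx 0 s' y' M' hd'.cl z' hz' hzl'
  obtain ⟨hVz, hVfl⟩ := pa1 0 le_rfl hs V hV
  obtain ⟨hVz', hVfl'⟩ := pa1' 0 le_rfl hs' V' hV'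
  obtain ⟨c, hc, hcy⟩ := id hpr0
  have hpr0' : Pr (y' 0) (y 0) := (pr1 (y 0) (y' 0) (y 0)).2.1 hpr0
  obtain ⟨u, hu, hus⟩ := hd.des
  obtain ⟨u', hu', hus'⟩ := hd'.des
  have hsg0 : ¬ SG (Br k g) (y 0) := hd.ns 0 le_rfl hs.le
  have key : ∃ α β : ℝ, 0 < β ∧ ∀ f, c2 V' f = α * y 0 f + β * c2 V f := by
    by_cases hdv : Dv (y 0)
    · have hdv' : Dv (y' 0) := (pr2 (y 0) (y' 0) hpr0).2.2.2.1 hdv
      by_cases hinf : AtInf (Br k g) (y 0)
      · obtain ⟨V'', h1, h2, h3, h4, h5⟩ := pr3 V' (y' 0) (y 0) hV'.inz hV'.fst hpr0'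
        have hfl : Flag k p φ (y 0) V'' := by
          refine ⟨h1, h2, ?_⟩
          obtain ⟨f, hf, hf1, hf2⟩ := (hVfl' hdv').nt
          refine ⟨f, hf, ?_, ?_⟩
          · rw [hcy] at hf1
            exact (mul_eq_zero.1 hf1).resolve_left hc.ne'
          · rw [h3]
            exact hf2
        have hPT : PT (Br k g) (y 0) V :=
          loc_pt (c := 1) (fun f => (one_mul _).symm) (fun f => rfl) hus ((hV.dr u).1 hu)
        have hPT' : PT (Br k g) (y 0) V'' :=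
          loc_pt hcy (fun f => (h3 f).symm) hus' ((hV'.dr u').1 hu')
        have heq : Eqv V V'' := hloc.l3 (y 0) hin0 hdv hinf hsg0 V V'' (hVfl hdv)
          ⟨z, hz, hVz⟩ hPT hfl ⟨z', hz', (h5 z').1 hVz'⟩ hPT'
        obtain ⟨α, β, hβ, h6⟩ := hfeq p k K n g φ E A R hctx (y 0) (y 0) V V'' hV.inz h1 hV.fst h2
          hV.nd ⟨z, hloc.sub hz, hVz⟩ ((pr1 (y 0) (y 0) (y 0)).1) hdv heq
        exact ⟨α, β, hβ, fun f => by rw [← h3, h6]⟩
      · have hR : Pr R (y 0) := by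
          by_contra h
          exact hinf ((an4 (y 0) hin0 hnt0).2 h)
        have hR1 : Pr (y 0) R := (pr1 R (y 0) R).2.1 hR
        have hR2 : Pr (y' 0) R := (pr1 (y' 0) (y 0) R).2.2 hpr0' hR1
        obtain ⟨V1, a1, a2, a3, a4, a5⟩ := pr3 V (y 0) R hV.inz hV.fst hR1
        obtain ⟨V2, b1, b2, b3, b4, b5⟩ := pr3 V' (y' 0) R hV'.inz hV'.fst hR2
        have f1 : Flag k p φ R V1 := by
          refine ⟨a1, a2, ?_⟩
          obtain ⟨f, hf, hf1, hf2⟩ := (hVfl hdv).nt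
          refine ⟨f, hf, (pr2 (y 0) R hR1).2.2.2.2.1 f hf1, ?_⟩
          rw [a3]
          exact hf2
        have f2 : Flag k p φ R V2 := by
          refine ⟨b1, b2, ?_⟩
          obtain ⟨f, hf, hf1, hf2⟩ := (hVfl' hdv').nt
          refine ⟨f, hf, (pr2 (y' 0) R hR2).2.2.2.2.1 f hf1, ?_⟩
          rw [b3]
          exact hf2
        have heq : Eqv V1 V2 := hloc.R7u V1 V2 f1 ⟨z, hz, (a5 z).1 hVz⟩ f2 ⟨z', hz', (b5 z').1 hVz'⟩
        have heq' : Eqv V V' := fun f => ((a4 f).trans (heq f)).trans (b4 f).symm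
        exact hfeq p k K n g φ E A R hctx (y 0) (y' 0) V V' hV.inz hV'.inz hV.fst hV'.fst
          hV.nd ⟨z, hloc.sub hz, hVz⟩ hpr0 hdv heq'
    · have hinf : AtInf (Br k g) (y 0) := by
        by_contra h
        have hR : Pr R (y 0) := by
          by_contra h'
          exact h ((an4 (y 0) hin0 hnt0).2 h')
        exact hdv ((pr2 R (y 0) hR).2.2.2.1 hloc.Rdv)
      obtain ⟨α, β, hβ, h6⟩ := hfun p k K n g φ E A R hctx (y 0) (y' 0) V V' hV.inz hV'.inz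
        hV.fst hV'.fst hV.nd hV'.nd ⟨z, hloc.sub hz, hVz⟩ ⟨z', hloc.sub hz', hVz'⟩ hpr0 hdv
      refine ⟨α, β, ?_, h6⟩
      have hv : (c * u'.1 + α * sd 0 u', β * sd 0 u') ∈ DR (Br k g) M 0 := by
        rw [hV.dr]
        intro f hf hf0
        have h7 := (hV'.dr u').1 hu' f hf hf0
        unfold dot at h7 ⊢
        simp only [loc_sd0] at h7 ⊢
        rw [hcy, h6] at h7
        linarith
      have h8 := (hnsg K (Br k g) (hBs hb.gen) (Set.Icc 0 s) y M hL 0 ⟨le_rfl, hs.le⟩ hinf hsg0).2.1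
        s hs subset_rfl u hu _ hv hus
      rw [loc_sd0] at h8
      simp only at h8
      have h9 : 0 ≤ β := by
        by_contra h
        rw [not_le] at h
        have : β * sd 0 u' < 0 := mul_neg_of_neg_of_pos h hus'
        linarith
      exact lt_of_le_of_ne h9 (Ne.symm hβ)
  exact hcoin p k K n g φ E A R hctx s s' y y' M M' hd.cl hd'.cl hpr0 V V' hV hV'
    ⟨z, hloc.sub hz, hVz⟩ key

end Pool.Agent.F2PF
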