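import Pool.Agent.Lib.MP_305fdd_al.F2.PF.StmC

/-!
# MP_305fdd_al, F_2 project, section PF: [F2PF min], `P_a` has no minimum
-/

set_option autoImplicit false

namespace Pool.Agent.F2PF

open MvPolynomial Pool.Agent.F2Ch

/-- If all points of a line starting at `m` are not semi-good near `m` then the line descends towards `m`, as
nothing is below `m`. -/
private theorem min_aux (hline : S_line) (hdense : S_dense) (hmono : S_mono) (hsegd : S_segd)
    (hanti : S_anti) (hpr : S_pr) (p : ℕ) [Fact p.Prime] (k K : Type) [Field k] [CharP k p]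
    [PerfectRing k p] [Field K] [Algebra k K] (n : ℕ) (g : Fin n → K) (φ : K → K) (E A : Set K)
    (R : K → ℝ) (ctx : Ctx k p φ g E A R) (hgen : FracGen k g) (m : K → ℝ)
    (hns : ¬ SG (Br k g) m) (star : ∀ v, Dn k p φ g A m v → Pr m v) (s : ℝ) (y : ℝ → K → ℝ)
    (M : K → Finset (ℝ × ℝ)) (hCL : CL k p φ g 0 s y M) (hy0 : y 0 = m) (z : K) (hzA : z ∈ A)
    (hz : ∀ t, 0 ≤ t → t ≤ s → y t z = 0) :
    ∃ r, r ≤ s ∧ CL k p φ g 0 r y M ∧ (∀ t, 0 < t → t ≤ r → ¬ SG (Br k g) (y t)) ∧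
      ∀ t, 0 < t → t < r → DesL (Br k g) M t := by
  have hs : 0 < s := hCL.1
  obtain ⟨_, _, h3, _⟩ := hdense p k K n g φ hgen 0 s y M hCL
  obtain ⟨δ, hδ, h4⟩ := h3 0 le_rfl hs.le (by rw [hy0]; exact hns)
  set r := min s (δ / 2) with hr
  have hr0 : 0 < r := lt_min hs (by positivity)
  have hrs : r ≤ s := min_le_left _ _
  have hrδ : r ≤ δ / 2 := min_le_right _ _
  have hCL' : CL k p φ g 0 r y M :=
    ((hline p k K n g φ).2 0 s y M hCL).2.2 0 r le_rfl hr0 hrs
  have hNS : ∀ t, 0 ≤ t → t ≤ r → ¬ SG (Br k g) (y t) := by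
    intro t h0 h1
    apply h4 t h0 (h1.trans hrs)
    rw [sub_zero, abs_of_nonneg h0]
    linarith
  have hel : ∀ t, 0 ≤ t → t ≤ r → y t z = 0 := fun t h0 h1 => hz t h0 (h1.trans hrs)
  refine ⟨r, hrs, hCL', fun t h0 h1 => hNS t h0.le h1, ?_⟩
  obtain ⟨_, h5⟩ := hmono p k K n g φ E A R ctx 0 r y M hCL' z hzA
    (fun t h0 h1 => hel t h0.le h1.le) fun t h0 h1 => hNS t h0.le h1.le
  rcases h5 with h5 | h5
  · exfalso
    have h6 := hsegd p k K n g φ E A R ctx 0 r y M hCL' z hzA hel hNS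
      (fun t h0 h1 => (h5 t h0 h1).1) 0 r le_rfl hr0 le_rfl
    have hD : Dn k p φ g A m (y r) := by
      refine Or.inr ⟨r - 0, _, _, h6, ?_, ?_⟩
      · show Pr m (y (0 + 0))
        rw [add_zero, hy0]
        exact ((hpr p k K n g φ).1 m m m).1
      · show Pr (y (0 + (r - 0))) (y r)
        rw [zero_add, sub_zero]
        exact ((hpr p k K n g φ).1 (y r) m m).1
    have h7 := star _ hD
    rw [← hy0] at h7
    have h8 := (hanti p k K n g φ E A R ctx).2.1 0 r y M hCL' 0 r le_rfl hr0.le hr0.le le_rfl h7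
    exact hr0.ne h8
  · exact fun t h0 h1 => (h5 t h0 h1).1

theorem p_min (hcirr : S_cirr) (hcflag : S_cflag) (hdense : S_dense) (hmono : S_mono)
    (hsegd : S_segd) (hsegl : S_segl) (hrch : S_rch) (hanti : S_anti) (htwo : S_two)
    (hline : S_line) (hpr : S_pr) : S_min := by
  intro p _ k K _ _ _ _ _ n g φ E A R ctx m hPA hAt hmin
  obtain ⟨⟨b0, ρ0, hBase⟩, hL⟩ := id ctx
  have hgen := hBase.gen
  have star : ∀ v, Dn k p φ g A m v → Pr m v := by
    intro v hv
    obtain ⟨h1, _, _, h2⟩ := (hrch p k K n g φ E A R ctx).2 m v hPA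
      (Relation.ReflTransGen.single hv)
    exact h2 (hmin v h1)
  have hrefl : ∀ v : K → ℝ, Pr v v := fun v => ((hpr p k K n g φ).1 v v v).1
  obtain ⟨hinz, hns, ⟨z, hzA, hz⟩, hfl⟩ := id hPA
  by_cases hd : Dv m
  · obtain ⟨V0, hV0, z0, hz0A, hz0⟩ := hfl hd
    obtain ⟨V1, hV1, ⟨z1, hz1A, hz1⟩, hne⟩ := hL.l2 m hinz hd hAt V0 hV0 ⟨z0, hz0A, hz0⟩
      (Or.inl hns)
    have hnt : ∃ f, m f ≠ 0 := by
      obtain ⟨f, _, _, hf⟩ := hAt
      exact ⟨f, hf.ne⟩
    obtain ⟨s, y, M, hCL, hy0, hRF, hel⟩ :=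
      hcflag p k K n g φ E A R ctx m V0 hnt hV0 z0 (hL.sub hz0A) hz0
    obtain ⟨s', y', M', hCL', hy0', hRF', hel'⟩ :=
      hcflag p k K n g φ E A R ctx m V1 hnt hV1 z1 (hL.sub hz1A) hz1
    obtain ⟨r, hrs, hC, hN, hD⟩ := min_aux hline hdense hmono hsegd hanti hpr p k K n g φ E A R
      ctx hgen m hns star s y M hCL hy0 z0 hz0A hel
    obtain ⟨r', hrs', hC', hN', hD'⟩ := min_aux hline hdense hmono hsegd hanti hpr p k K n g φ E
      A R ctx hgen m hns star s' y' M' hCL' hy0' z1 hz1A hel'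
    apply hne
    refine htwo p k K n g φ E A R ctx r r' y y' M M' hC hC' ?_ ?_
      ⟨z0, hz0A, fun t h0 h1 => hel t h0 (h1.trans hrs)⟩
      ⟨z1, hz1A, fun t h0 h1 => hel' t h0 (h1.trans hrs')⟩ hN hN' hD hD' V0 V1 hRF hRF'
    · rw [hy0, hy0']
      exact hrefl m
    · rw [hy0]
      exact hAt
  · obtain ⟨s, y, M, hs, hCL, hy0, hel⟩ :=
      hcirr p k K n g φ E A R ctx m hinz hd z (hL.sub hzA) hz
    obtain ⟨_, _, h3, _⟩ := hdense p k K n g φ hgen (-s) s y M hCL
    obtain ⟨δ, hδ, h4⟩ := h3 0 (by linarith) hs.le (by rw [hy0]; exact hns)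
    obtain ⟨r, hr0, hrs, hrδ⟩ : ∃ r, 0 < r ∧ r ≤ s ∧ r ≤ δ / 2 :=
      ⟨min s (δ / 2), lt_min hs (by positivity), min_le_left _ _, min_le_right _ _⟩
    have hCL' : CL k p φ g (-r) r y M :=
      ((hline p k K n g φ).2 (-s) s y M hCL).2.2 (-r) r (by linarith) (by linarith) hrs
    have hNS : ∀ t, -r ≤ t → t ≤ r → ¬ SG (Br k g) (y t) := by
      intro t h0 h1
      apply h4 t (by linarith) (by linarith)
      rw [sub_zero]
      exact lt_of_le_of_lt (abs_le.2 ⟨h0, h1⟩) (by linarith)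
    have hel' : ∀ t, -r ≤ t → t ≤ r → y t z = 0 := fun t h0 h1 =>
      hel t (by linarith) (by linarith)
    obtain ⟨_, h5⟩ := hmono p k K n g φ E A R ctx (-r) r y M hCL' z hzA
      (fun t h0 h1 => hel' t h0.le h1.le) fun t h0 h1 => hNS t h0.le h1.le
    have hb := (hanti p k K n g φ E A R ctx).2.1 (-r) r y M hCL'
    rcases h5 with h5 | h5
    · have h6 := hsegd p k K n g φ E A R ctx (-r) r y M hCL' z hzA hel' hNS
        (fun t h0 h1 => (h5 t h0 h1).1) 0 r (by linarith) hr0 le_rfl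
      have hD : Dn k p φ g A m (y r) := by
        refine Or.inr ⟨r - 0, _, _, h6, ?_, ?_⟩
        · show Pr m (y (0 + 0))
          rw [add_zero, hy0]
          exact hrefl m
        · show Pr (y (0 + (r - 0))) (y r)
          rw [zero_add, sub_zero]
          exact hrefl _
      have h7 := star _ hD
      rw [← hy0] at h7
      have h8 := hb 0 r (by linarith) hr0.le (by linarith) le_rfl h7
      linarith
    · have h6 := hsegl p k K n g φ E A R ctx (-r) r y M hCL' z hzA hel' hNS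
        (fun t h0 h1 => (h5 t h0 h1).1) (-r) 0 le_rfl (by linarith) hr0.le
      have hD : Dn k p φ g A m (y (-r)) := by
        refine Or.inr ⟨0 - -r, _, _, h6, ?_, ?_⟩
        · show Pr m (y (0 - 0))
          rw [sub_zero, hy0]
          exact hrefl m
        · show Pr (y (0 - (0 - -r))) (y (-r))
          have h9 : (0 : ℝ) - (0 - -r) = -r := by ring
          rw [h9]
          exact hrefl _
      have h7 := star _ hD
      rw [← hy0] at h7
      have h8 := hb 0 (-r) (by linarith) hr0.le le_rfl (by linarith) h7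
      linarith

end Pool.Agent.F2PF
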