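import Pool.Agent.Lib.MP_305fdd_al.F2.PF.StmB

/-!
# MP_305fdd_al, F_2 project, section PF: the piece [F2PF mono]

Monotonicity of a line without semi-good points and with an elliptic element of class `a`.
-/

set_option autoImplicit false

namespace Pool.Agent.F2PF

open MvPolynomial Pool.Agent.F2Ch

private theorem mono_eqv {K : Type} [Field K] {V V' W W' : K → ℝ ×ₗ ℝ} (h1 : Eqv V W)
    (h2 : Eqv W W') (h3 : Eqv V' W') : Eqv V V' := by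
  intro f
  exact ((h1 f).trans (h2 f)).trans (h3 f).symm

private theorem mono_restr {K : Type} [Field K] {B : Set K} {s1 s2 : ℝ} {y : ℝ → K → ℝ}
    {M : K → Finset (ℝ × ℝ)} (h : Line B (Set.Icc s1 s2) y M) : Line B (Set.Ioo s1 s2) y M where
  isv := fun t ht => h.isv t ⟨ht.1.le, ht.2.le⟩
  ne := h.ne
  le := fun f hf hf0 t ht => h.le f hf hf0 t ⟨ht.1.le, ht.2.le⟩
  ex := fun f hf hf0 t ht => h.ex f hf hf0 t ⟨ht.1.le, ht.2.le⟩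
  nd := by
    obtain ⟨x1, x2, a, b, h1, h2, h3, h4⟩ := h.nd
    exact ⟨x1, x2, a, b, h1, h2, h3, fun t ht => h4 t ⟨ht.1.le, ht.2.le⟩⟩

private theorem mono_pt {K : Type} [Field K] {B : Set K} {w : K → ℝ} {V : K → ℝ ×ₗ ℝ}
    {a b : ℝ} (hb : 0 < b) (h : (a, b) ∈ DV B w (c2 V)) : PT B w V := by
  refine ⟨a / b, fun f hf hf0 => ?_⟩
  have h1 := h f hf hf0
  simp only [dot] at h1 ⊢
  have h2 : a / b * w f + 1 * c2 V f = (a * w f + b * c2 V f) / b := by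
    field_simp
  rw [h2]
  exact div_nonpos_of_nonpos_of_nonneg h1 hb.le

theorem p_mono (h_sgn : S_sgn) (h_dne : S_dne) (h_rfl : S_rfl) (h_lfl : S_lfl) (h_gap : S_gap)
    (h_irr : S_irr) (h_nsg : S_nsg) (h_anti : S_anti) (h_rk2 : S_rk2) (h_pr : S_pr)
    (h_line : S_line) : S_mono := by
  intro p _ k K _ _ _ _ _ n g φ E A R hctx s1 s2 y M hcl z hzA hz hns
  obtain ⟨⟨b0, ρ0, hB⟩, hL⟩ := id hctx
  have hzE : z ∈ E := hL.sub hzA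
  have hz0 : z ≠ 0 := (hL.ct z hzE).2.1
  obtain ⟨hBs', hline⟩ := h_line p k K n g φ
  have hBs := hBs' hB.gen
  obtain ⟨hLn, hinz, -⟩ := hline s1 s2 y M hcl
  obtain ⟨hpr1, hpr2, hpr3⟩ := h_pr p k K n g φ
  -- the flags
  have hR : ∀ t, s1 < t → t < s2 → ∃ V, RFl k p φ g y M t V ∧ V z = 0 := by
    intro t h1 h2
    obtain ⟨⟨V, hV⟩, hV2⟩ := h_rfl p k K n g φ hB.gen s1 s2 y M hcl t h1.le h2
    refine ⟨V, hV, hV2 V hV z hz0 ⟨s2 - t, by linarith, fun t' ht1 ht2 _ => ?_⟩⟩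
    exact hz t' (by linarith) (by linarith)
  have hLf : ∀ t, s1 < t → t < s2 → ∃ V, LFl k p φ g y M t V ∧ V z = 0 := by
    intro t h1 h2
    obtain ⟨⟨V, hV⟩, hV2⟩ := h_lfl p k K n g φ hB.gen s1 s2 y M hcl t h1 h2.le
    refine ⟨V, hV, hV2 V hV z hz0 ⟨t - s1, by linarith, fun t' ht1 ht2 _ => ?_⟩⟩
    exact hz t' (by linarith) (by linarith)
  -- the property nt
  have hnt : ∀ t, s1 < t → t < s2 → Dv (y t) → ∀ V : K → ℝ ×ₗ ℝ, InZ k p φ V →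
      (∀ f, (ofLex (V f)).1 = y t f) →
      (∃ x1 x2, x1 ≠ 0 ∧ x2 ≠ 0 ∧ y t x1 * c2 V x2 - y t x2 * c2 V x1 ≠ 0) → V z = 0 →
      ∃ f, f ≠ 0 ∧ y t f = 0 ∧ c2 V f ≠ 0 := by
    intro t h1 h2 hdv V hV hfst hnd hVz
    exact (h_rk2 p k K n g φ E A R hctx (y t) V hV hfst hnd ⟨z, hzE, hVz⟩).2.2 hdv
  -- (1)
  have hinf : ∀ t, s1 < t → t < s2 → AtInf (Br k g) (y t) := by
    intro t h1 h2
    obtain ⟨hi, hi2⟩ := hinz t h1.le h2.le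
    obtain ⟨-, -, -, ha4, -⟩ := h_anti p k K n g φ E A R hctx
    rw [ha4 (y t) hi hi2]
    intro hP
    have hP' : Pr (y t) R := (hpr1 R (y t) (y t)).2.1 hP
    have hdv : Dv (y t) := (hpr2 R (y t) hP).2.2.2.1 hL.Rdv
    obtain ⟨V, hV, hVz⟩ := hR t h1 h2
    obtain ⟨V', hV', hVz'⟩ := hLf t h1 h2
    obtain ⟨f, hf0, hf1, hf2⟩ := hnt t h1 h2 hdv V hV.inz hV.fst hV.nd hVz
    obtain ⟨f', hf0', hf1', hf2'⟩ := hnt t h1 h2 hdv V' hV'.inz hV'.fst hV'.nd hVz'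
    obtain ⟨W, hW, hWf, hWc, hWe, hW0⟩ := hpr3 V (y t) R hV.inz hV.fst hP'
    obtain ⟨W', hW', hWf', hWc', hWe', hW0'⟩ := hpr3 V' (y t) R hV'.inz hV'.fst hP'
    have hz1 : ∀ f, y t f = 0 → R f = 0 := (hpr2 (y t) R hP').2.2.2.2.1
    have hF : Flag k p φ R W := ⟨hW, hWf, f, hf0, hz1 f hf1, by rw [hWc]; exact hf2⟩
    have hF' : Flag k p φ R W' := ⟨hW', hWf', f', hf0', hz1 f' hf1', by rw [hWc']; exact hf2'⟩
    have hE := hL.R7u W W' hF ⟨z, hzA, (hW0 z).1 hVz⟩ hF' ⟨z, hzA, (hW0' z).1 hVz'⟩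
    exact h_gap p k K n g φ s1 s2 y M hcl t h1 h2 hdv V V' hV hV' (mono_eqv hWe hE hWe')
  -- (2)
  obtain ⟨hd1, hd2⟩ := h_dne p k K n g φ E A R hctx s1 s2 y M hcl z hzE hz
  -- (3)
  have hno : ∀ t, s1 < t → t < s2 → ¬ (DesR (Br k g) M t ∧ DesL (Br k g) M t) := by
    rintro t h1 h2 ⟨⟨u, hu, hu1⟩, ⟨u', hu', hu1'⟩⟩
    have hi := hinz t h1.le h2.le
    by_cases hdv : Dv (y t)
    · obtain ⟨V, hV, hVz⟩ := hR t h1 h2
      obtain ⟨V', hV', hVz'⟩ := hLf t h1 h2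
      have hp1 : PT (Br k g) (y t) V := mono_pt hu1 ((hV.dr u).1 hu)
      have hp2 : PT (Br k g) (y t) V' := mono_pt (by linarith) ((hV'.dl u').1 hu')
      have hF : Flag k p φ (y t) V := ⟨hV.inz, hV.fst, hnt t h1 h2 hdv V hV.inz hV.fst hV.nd hVz⟩
      have hF' : Flag k p φ (y t) V' :=
        ⟨hV'.inz, hV'.fst, hnt t h1 h2 hdv V' hV'.inz hV'.fst hV'.nd hVz'⟩
      have hE := hL.l3 (y t) hi.1 hdv (hinf t h1 h2) (hns t h1 h2) V V' hF ⟨z, hzA, hVz⟩ hp1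
        hF' ⟨z, hzA, hVz'⟩ hp2
      exact h_gap p k K n g φ s1 s2 y M hcl t h1 h2 hdv V V' hV hV' hE
    · have heq := (h_irr p k K n g φ hB.gen s1 s2 y M hcl).1 t h1.le h2.le hdv
      have hu2 : u' ∈ DR (Br k g) M t := by rw [heq]; exact hu'
      have h3 := (h_nsg K (Br k g) hBs (Set.Icc s1 s2) y M hLn t ⟨h1.le, h2.le⟩ (hinf t h1 h2)
        (hns t h1 h2)).2.1 s2 h2 (Set.Icc_subset_Icc_left h1.le) u hu u' hu2 hu1
      linarith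
  refine ⟨hinf, ?_⟩
  exact h_sgn K (Br k g) hBs s1 s2 y M (mono_restr hLn)
    (fun t h1 h2 => ⟨hinf t h1 h2, hns t h1 h2⟩) (fun t h1 h2 => hd1 t h1.le h2)
    (fun t h1 h2 => hd2 t h1 h2.le) hno

end Pool.Agent.F2PF
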