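import Pool.Agent.Lib.MP_305fdd_al.F2.PF.Stm

/-!
# MP_305fdd_al, F_2 project, section PF: piece nsg (signs at a point which is not semi-good)
-/

set_option autoImplicit false

namespace Pool.Agent.F2PF

open Pool.Agent.F2Ch

private theorem nsg_a (h1 : S_in) (h2 : S_germ) (K : Type) [Field K] (B : Set K) (hB : Bs B)
    (J : Set ℝ) (y : ℝ → K → ℝ) (M : K → Finset (ℝ × ℝ)) (hL : Line B J y M) (t : ℝ)
    (ht : t ∈ J) (hinf : AtInf B (y t)) (hsg : ¬ SG B (y t)) (u : ℝ × ℝ)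
    (hu : u ∈ DR B M t ∨ u ∈ DL B M t) (hne : u ≠ 0) : sd t u ≠ 0 := by
  intro h0
  obtain ⟨i1, -, -, i4, -⟩ := h1
  obtain ⟨g1, -, -⟩ := h2 K B hB J y M hL t ht
  have hu2 : u.2 = t * u.1 := by
    simp only [sd] at h0
    linarith
  have hkey : ∀ f ∈ B, f ≠ 0 → u.1 * y t f ≤ 0 := by
    intro f hf hf0
    rcases hu with hu | hu
    · obtain ⟨m, hm⟩ := i1 (M f) t (hL.ne f hf hf0)
      have e1 := g1 f hf hf0 m (Or.inl hm)
      have e2 := hu f hf hf0 m hm
      rw [e1]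
      simp only [dot] at e2
      rw [hu2] at e2
      linarith
    · obtain ⟨m', hm'⟩ := i1 ((M f).image rf) (-t) ((hL.ne f hf hf0).image rf)
      have hrr : rf (rf m') = m' := by simp [rf]
      have hm : IsL (M f) t (rf m') := (i4 (M f) t (rf m')).2 (by rw [hrr]; exact hm')
      have e1 := g1 f hf hf0 (rf m') (Or.inr hm)
      have e2 := hu f hf hf0 (rf m') hm
      rw [e1]
      simp only [dot] at e2
      rw [hu2] at e2
      linarith
  rcases lt_trichotomy u.1 0 with h | h | h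
  · obtain ⟨f, hf, hf0, hlt⟩ := hinf
    have := hkey f hf hf0
    nlinarith
  · apply hne
    have h3 : u.2 = 0 := by rw [hu2, h, mul_zero]
    exact Prod.ext h h3
  · apply hsg
    intro f hf hf0
    have := hkey f hf hf0
    by_contra hc
    push Not at hc
    nlinarith

private theorem nsg_b (h1 : S_in) (h2 : S_germ) (K : Type) [Field K] (B : Set K) (hB : Bs B)
    (J : Set ℝ) (y : ℝ → K → ℝ) (M : K → Finset (ℝ × ℝ)) (hL : Line B J y M) (t : ℝ)
    (ht : t ∈ J) (hinf : AtInf B (y t)) (hsg : ¬ SG B (y t)) (t1 : ℝ) (ht1 : t < t1)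
    (hJ : Set.Icc t t1 ⊆ J) (u : ℝ × ℝ) (hu : u ∈ DR B M t) (u' : ℝ × ℝ)
    (hu' : u' ∈ DR B M t) (hpos : 0 < sd t u) : 0 ≤ sd t u' := by
  by_contra hc
  push Not at hc
  obtain ⟨-, -, g3⟩ := h2 K B hB J y M hL t ht
  set z : ℝ × ℝ := (-sd t u' * u.1 + sd t u * u'.1, -sd t u' * u.2 + sd t u * u'.2) with hz
  have hdot : ∀ m : ℝ × ℝ, dot z m = -sd t u' * dot u m + sd t u * dot u' m := by
    intro m
    simp only [dot, hz]
    ring
  have hzD : z ∈ DR B M t := by
    intro f hf hf0 m hm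
    rw [hdot]
    have e1 := hu f hf hf0 m hm
    have e2 := hu' f hf hf0 m hm
    nlinarith
  have hzs : sd t z = 0 := by
    simp only [hz, sd]
    ring
  have hz0 : z = 0 := by
    by_contra hne
    exact nsg_a h1 h2 K B hB J y M hL t ht hinf hsg z (Or.inl hzD) hne hzs
  have hall : ∀ f ∈ B, f ≠ 0 → ∀ m, IsR (M f) t m → dot u m = 0 := by
    intro f hf hf0 m hm
    have e1 := hu f hf hf0 m hm
    have e2 := hu' f hf hf0 m hm
    have e3 := hdot m
    rw [hz0] at e3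
    have e4 : dot (0 : ℝ × ℝ) m = 0 := by simp [dot]
    rw [e4] at e3
    by_contra hne
    have e5 : dot u m < 0 := lt_of_le_of_ne e1 hne
    nlinarith
  have hu0 := g3 t1 ht1 hJ u hall
  rw [hu0] at hpos
  simp [sd] at hpos

theorem p_nsg (h1 : S_in) (h2 : S_germ) (h3 : S_refl) : S_nsg := by
  intro K _ B hB J y M hL t ht hinf hsg
  refine ⟨fun u hu hne => nsg_a h1 h2 K B hB J y M hL t ht hinf hsg u hu hne,
    fun t1 ht1 hJ u hu u' hu' hpos =>
      nsg_b h1 h2 K B hB J y M hL t ht hinf hsg t1 ht1 hJ u hu u' hu' hpos, ?_⟩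
  intro t1 ht1 hJ u hu u' hu' hneg
  obtain ⟨r1, -, r3, r4⟩ := h3 K B J y M hL
  have hinf' : AtInf B ((fun s => y (-s)) (-t)) := by
    simpa using hinf
  have hsg' : ¬ SG B ((fun s => y (-s)) (-t)) := by
    simpa using hsg
  have hJ' : Set.Icc (-t) (-t1) ⊆ {s | -s ∈ J} := by
    intro s hs
    apply hJ
    exact ⟨by linarith [hs.2], by linarith [hs.1]⟩
  have htJ : -t ∈ {s : ℝ | -s ∈ J} := by simpa using ht
  have h := nsg_b h1 h2 K B hB {s | -s ∈ J} (fun s => y (-s)) (fun f => (M f).image rf) r1 (-t)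
    htJ hinf' hsg' (-t1) (by linarith) hJ' (rf u) ((r3 t u).1 hu) (rf u') ((r3 t u').1 hu')
    (by rw [r4]; linarith)
  rw [r4] at h
  linarith

end Pool.Agent.F2PF
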