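import Pool.Agent.Lib.MP_305fdd_al.F2.PF.StmC

/-!
# MP_305fdd_al, F_2 project, section PF, part B: [F2PF nsn] near a semi-good end point
-/

set_option autoImplicit false

namespace Pool.Agent.F2PF

open MvPolynomial Pool.Agent.F2Ch

private theorem nsn_compact (a b : ℝ) (P : ℝ → Prop)
    (h : ∀ t0, a ≤ t0 → t0 ≤ b → ¬ P t0 → ∃ δ > 0, ∀ t, a ≤ t → t ≤ b → |t - t0| < δ → ¬ P t) :
    IsCompact {r | r ∈ Set.Icc a b ∧ P r} := by
  refine isCompact_Icc.of_isClosed_subset ?_ (fun r hr => hr.1)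
  refine isClosed_of_closure_subset fun x hx => ?_
  have hxI : x ∈ Set.Icc a b := by
    have h1 : closure {r | r ∈ Set.Icc a b ∧ P r} ⊆ Set.Icc a b :=
      closure_minimal (fun r hr => hr.1) isClosed_Icc
    exact h1 hx
  refine ⟨hxI, ?_⟩
  by_contra hP
  obtain ⟨δ, hδ, hd⟩ := h x hxI.1 hxI.2 hP
  rw [Metric.mem_closure_iff] at hx
  obtain ⟨r, hr, hxr⟩ := hx δ hδ
  refine hd r hr.1.1 hr.1.2 ?_ hr.2
  rw [abs_sub_comm, ← Real.dist_eq]
  exact hxr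

private theorem nsn_sub {K : Type} [Field K] {B : Set K} {J J' : Set ℝ} {y : ℝ → K → ℝ}
    {M : K → Finset (ℝ × ℝ)} (h : Line B J y M) (hJ : J' ⊆ J) : Line B J' y M where
  isv t ht := h.isv t (hJ ht)
  ne := h.ne
  le f hf hf0 t ht := h.le f hf hf0 t (hJ ht)
  ex f hf hf0 t ht := h.ex f hf hf0 t (hJ ht)
  nd := by
    obtain ⟨x1, x2, a, b, h1, h2, h3, h4⟩ := h.nd
    exact ⟨x1, x2, a, b, h1, h2, h3, fun t ht => h4 t (hJ ht)⟩

theorem p_nsn (hdense : S_dense) (hcS : S_cS) (hmono : S_mono) (hinter : S_inter)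
    (hrsh : S_rsh) (hanti : S_anti) (hline : S_line) : S_nsn := by
  intro p _ k K _ _ _ _ _ n g φ E A R hC s y M hcl z hzA hz hsg
  obtain ⟨b0, ρ0, hBase⟩ := hC.1
  have hL := hC.2
  have hgen := hBase.gen
  have hs0 : 0 < s := hcl.1
  obtain ⟨hBs, hline2⟩ := hline p k K n g φ
  obtain ⟨hLine, hInz, hsub⟩ := hline2 0 s y M hcl
  obtain ⟨-, -, hantic, -, -⟩ := hanti p k K n g φ E A R hC
  obtain ⟨hda, -, hdc, -⟩ := hdense p k K n g φ hgen 0 s y M hcl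
  obtain ⟨hr1, hr2, hr3⟩ := hrsh p k K n g φ hgen 0 s y M hcl
  have hAtSG : ∀ r, 0 ≤ r → r ≤ s → SG (Br k g) (y r) → AtInf (Br k g) (y r) := fun r h1 h2 h3 =>
    hantic (y r) (hInz r h1 h2).1 (hInz r h1 h2).2 h3
  -- a line does not descend away from a semi-good point on the left
  have keyR : ∀ α β, 0 ≤ α → α < β → β ≤ s → SG (Br k g) (y α) →
      (∀ t, α < t → t < β → AtInf (Br k g) (y t) ∧ ¬ SG (Br k g) (y t)) →
      ¬ ∀ t, α < t → t < β → DesR (Br k g) M t := by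
    intro α β hα hαβ hβ hSα hI hD
    obtain ⟨hLA, -, -⟩ := hline2 _ _ _ _ (hr1 α β hα hαβ hβ).1
    obtain ⟨δ, hδ, hδ2, hδ3⟩ := hinter K (Br k g) (hBs hgen) (β - α) (fun τ => y (α + τ))
      (sh α M) (sub_pos.2 hαβ) (nsn_sub hLA (fun x hx => ⟨hx.1, hx.2.le⟩))
      (by simpa using hSα)
      (by simpa using hAtSG α hα (hαβ.le.trans hβ) hSα)
      (fun t ht1 ht2 => hI (α + t) (by linarith) (by linarith))
    have hδ4 : δ / 2 < δ := half_lt_self hδ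
    obtain ⟨u, hu, hsd⟩ := hD (α + δ / 2) (by linarith) (by linarith)
    obtain ⟨h1, -, h2⟩ := hr2 α (δ / 2) u
    exact (hδ3 (δ / 2) (half_pos hδ) hδ4).1 _ (h1.1 hu) (by rw [h2]; exact hsd)
  -- the mirror image
  have keyL : ∀ α β, 0 ≤ α → α < β → β ≤ s → SG (Br k g) (y β) →
      (∀ t, α < t → t < β → AtInf (Br k g) (y t) ∧ ¬ SG (Br k g) (y t)) →
      ¬ ∀ t, α < t → t < β → DesL (Br k g) M t := by
    intro α β hα hαβ hβ hSβ hI hD
    obtain ⟨hLA, -, -⟩ := hline2 _ _ _ _ (hr1 α β hα hαβ hβ).2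
    obtain ⟨δ, hδ, hδ2, hδ3⟩ := hinter K (Br k g) (hBs hgen) (β - α) (fun τ => y (β - τ))
      (rsh β M) (sub_pos.2 hαβ) (nsn_sub hLA (fun x hx => ⟨hx.1, hx.2.le⟩))
      (by simpa using hSβ)
      (by simpa using hAtSG β (hα.trans hαβ.le) hβ hSβ)
      (fun t ht1 ht2 => hI (β - t) (by linarith) (by linarith))
    have hδ4 : δ / 2 < δ := half_lt_self hδ
    obtain ⟨u, hu, hsd⟩ := hD (β - δ / 2) (by linarith) (by linarith)
    obtain ⟨h1, -, h2⟩ := hr3 β (δ / 2) u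
    exact (hδ3 (δ / 2) (half_pos hδ) hδ4).1 _ (h1.1 hu) (by rw [h2]; exact neg_pos.2 hsd)
  -- step (1)
  have hNS : ∀ t, 0 < t → t < s → ¬ SG (Br k g) (y t) := by
    intro ε1 hε hεs hSε
    obtain ⟨q, hq0, hq1, hqd⟩ := hda 0 ε1 le_rfl hε hεs.le
    have hqs : q < s := hq1.trans hεs
    have hqN : ¬ SG (Br k g) (y q) := hcS p k K n g φ E A R hC 0 s y M hcl z (hL.sub hzA)
      (fun t h1 h2 => hz t h1.le h2.le) q hq0 hqs hqd
    have hc1 := nsn_compact 0 q (fun r => SG (Br k g) (y r)) (by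
      intro t0 h1 h2 h3
      obtain ⟨δ, hδ, h4⟩ := hdc t0 h1 (h2.trans hqs.le) h3
      exact ⟨δ, hδ, fun t h5 h6 h7 => h4 t h5 (h6.trans hqs.le) h7⟩)
    have hc2 := nsn_compact q ε1 (fun r => SG (Br k g) (y r)) (by
      intro t0 h1 h2 h3
      obtain ⟨δ, hδ, h4⟩ := hdc t0 (hq0.le.trans h1) (h2.trans hεs.le) h3
      exact ⟨δ, hδ, fun t h5 h6 h7 => h4 t (hq0.le.trans h5) (h6.trans hεs.le) h7⟩)
    obtain ⟨α, ⟨hαI, hαS⟩, hαmax⟩ := hc1.exists_isGreatest ⟨0, ⟨le_rfl, hq0.le⟩, hsg⟩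
    obtain ⟨β, ⟨hβI, hβS⟩, hβmin⟩ := hc2.exists_isLeast ⟨ε1, ⟨hq1.le, le_rfl⟩, hSε⟩
    have hαq : α < q := lt_of_le_of_ne hαI.2 (by rintro rfl; exact hqN hαS)
    have hqβ : q < β := lt_of_le_of_ne hβI.1 (by rintro rfl; exact hqN hβS)
    have hαβ : α < β := hαq.trans hqβ
    have hβs : β ≤ s := hβI.2.trans hεs.le
    have hN : ∀ t, α < t → t < β → ¬ SG (Br k g) (y t) := by
      intro t h1 h2 h3
      rcases le_total t q with h4 | h4
      · exact absurd (hαmax ⟨⟨hαI.1.trans h1.le, h4⟩, h3⟩) (not_le.2 h1)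
      · exact absurd (hβmin ⟨⟨h4, h2.le.trans hβI.2⟩, h3⟩) (not_le.2 h2)
    obtain ⟨hA, hor⟩ := hmono p k K n g φ E A R hC α β y M (hsub α β hαI.1 hαβ hβs) z hzA
      (fun t h1 h2 => hz t (hαI.1.trans h1.le) (h2.le.trans hβs)) hN
    have hI : ∀ t, α < t → t < β → AtInf (Br k g) (y t) ∧ ¬ SG (Br k g) (y t) := fun t h1 h2 =>
      ⟨hA t h1 h2, hN t h1 h2⟩
    rcases hor with h | h
    · exact keyR α β hαI.1 hαβ hβs hαS hI (fun t h1 h2 => (h t h1 h2).1)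
    · exact keyL α β hαI.1 hαβ hβs hβS hI (fun t h1 h2 => (h t h1 h2).1)
  refine ⟨hNS, ?_⟩
  obtain ⟨hA, hor⟩ := hmono p k K n g φ E A R hC 0 s y M hcl z hzA
    (fun t h1 h2 => hz t h1.le h2.le) hNS
  rcases hor with h | h
  · exact absurd (fun t h1 h2 => (h t h1 h2).1) (keyR 0 s le_rfl hs0 le_rfl hsg
      (fun t h1 h2 => ⟨hA t h1 h2, hNS t h1 h2⟩))
  · exact fun t h1 h2 => (h t h1 h2).1

end Pool.Agent.F2PF
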