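import Pool.Agent.Lib.MP_305fdd_al.F2.PF.Stm

/-!
# MP_305fdd_al, F_2 project, section PF, piece pers
-/

set_option autoImplicit false

namespace Pool.Agent.F2PF

open Pool.Agent.F2Ch

private theorem pers_exL (hin : S_in) (S : Finset (ℝ × ℝ)) (t : ℝ) (hS : S.Nonempty) :
    ∃ m, IsL S t m := by
  obtain ⟨m, hm⟩ := hin.1 (S.image rf) (-t) (hS.image rf)
  refine ⟨rf m, (hin.2.2.2.1 S t (rf m)).2 ?_⟩
  have h : rf (rf m) = m := by simp [rf]
  rw [h]
  exact hm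

private theorem pers_lead (hin : S_in) {K : Type} [Field K] (B : Set K) (J : Set ℝ)
    (y : ℝ → K → ℝ) (M : K → Finset (ℝ × ℝ)) (hL : Line B J y M) (t : ℝ) (u : ℝ × ℝ)
    (hu : u ∈ DR B M t ∨ u ∈ DL B M t) (f : K) (hf : f ∈ B) (hf0 : f ≠ 0) :
    ∃ m ∈ M f, (∀ m' ∈ M f, m.1 + t * m.2 ≤ m'.1 + t * m'.2) ∧ dot u m ≤ 0 := by
  rcases hu with hu | hu
  · obtain ⟨m, hm⟩ := hin.1 (M f) t (hL.ne f hf hf0)
    exact ⟨m, hm.mem, hm.min, hu f hf hf0 m hm⟩
  · obtain ⟨m, hm⟩ := pers_exL hin (M f) t (hL.ne f hf hf0)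
    exact ⟨m, hm.mem, hm.min, hu f hf hf0 m hm⟩

theorem p_pers (hin : S_in) : S_pers := by
  intro K _ B J y M hL t ht t' ht' htt u hu hs hs'
  have hs2 : sd t' u = sd t u - (t' - t) * u.1 := by unfold sd; ring
  have hd : 0 < t' - t := by linarith
  have key : ∀ f ∈ B, f ≠ 0 → ∀ m' ∈ M f, (∀ m'' ∈ M f, m'.1 + t' * m'.2 ≤ m''.1 + t' * m''.2) →
      dot u m' ≤ 0 := by
    intro f hf hf0 m' hm' hmin'
    obtain ⟨m, hm, hmin, hdot⟩ := pers_lead hin B J y M hL t u hu f hf hf0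
    have h1 := hmin m' hm'
    have h2 := hmin' m hm
    have h3 : (t' - t) * (dot u m' - dot u m) =
        sd t u * ((m'.1 + t' * m'.2) - (m.1 + t' * m.2)) -
          sd t' u * ((m'.1 + t * m'.2) - (m.1 + t * m.2)) := by
      unfold dot sd; ring
    have h4 : sd t u * ((m'.1 + t' * m'.2) - (m.1 + t' * m.2)) ≤ 0 :=
      mul_nonpos_of_nonneg_of_nonpos hs.le (by linarith)
    have h5 : 0 ≤ sd t' u * ((m'.1 + t * m'.2) - (m.1 + t * m.2)) :=
      mul_nonneg hs' (by linarith)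
    have h6 : (t' - t) * (dot u m' - dot u m) ≤ 0 := by linarith
    have h7 : dot u m' - dot u m ≤ 0 := by
      by_contra hc
      push Not at hc
      have := mul_pos hd hc
      linarith
    linarith
  refine ⟨?_, ?_, ?_⟩
  · intro f hf hf0 m hm
    exact key f hf hf0 m hm.mem hm.min
  · intro f hf hf0 m hm
    exact key f hf hf0 m hm.mem hm.min
  · intro f hf hf0
    obtain ⟨m, hm, hmin, hdot⟩ := pers_lead hin B J y M hL t u hu f hf hf0
    have hy : m.1 + t * m.2 ≤ y t f := by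
      obtain ⟨m0, hm0, he⟩ := hL.ex f hf hf0 t ht
      rw [he]
      exact hmin m0 hm0
    have hy' : y t' f ≤ m.1 + t' * m.2 := hL.le f hf hf0 t' ht' m hm
    have h3 : sd t u * (m.1 + t' * m.2) = sd t' u * (m.1 + t * m.2) + (t' - t) * dot u m := by
      unfold dot sd; ring
    have h4 : (t' - t) * dot u m ≤ 0 := mul_nonpos_of_nonneg_of_nonpos hd.le hdot
    have h5 : sd t' u * (m.1 + t * m.2) ≤ sd t' u * y t f := mul_le_mul_of_nonneg_left hy hs'
    have h6 : sd t u * y t' f ≤ sd t u * (m.1 + t' * m.2) := mul_le_mul_of_nonneg_left hy' hs.le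
    rw [div_mul_eq_mul_div, le_div_iff₀ hs]
    linarith

end Pool.Agent.F2PF
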