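import Pool.Agent.Lib.MP_305fdd_al.F2.PF.Stm

/-!
# MP_305fdd_al, F_2 project, section PF, piece persL
-/

set_option autoImplicit false

namespace Pool.Agent.F2PF

open Pool.Agent.F2Ch

theorem p_persL (hrefl : S_refl) (hpers : S_pers) : S_persL := by
  intro K _ B J y M hL t ht t' ht' htt u hu hs hs'
  obtain ⟨hL', hR, hLL, hsd⟩ := hrefl K B J y M hL
  have h1 := hpers K B _ _ _ hL' (-t) (by simpa using ht) (-t') (by simpa using ht') (by linarith)
    (rf u) (by
      rcases hu with hu | hu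
      · exact Or.inr ((hR t u).1 hu)
      · exact Or.inl ((hLL t u).1 hu)) (by rw [hsd]; linarith) (by rw [hsd]; linarith)
  obtain ⟨h1, h2, h3⟩ := h1
  refine ⟨(hR t' u).2 h2, (hLL t' u).2 h1, ?_⟩
  intro f hf hf0
  have h4 := h3 f hf hf0
  simp only [neg_neg] at h4
  rw [hsd, hsd, neg_div_neg_eq] at h4
  exact h4

end Pool.Agent.F2PF
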