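import Pool.Agent.Lib.MP_305fdd_al.F2.PF.StmB

/-!
# MP_305fdd_al, F_2 project, section PF, part B: [F2PF pr] scaling
-/

set_option autoImplicit false

namespace Pool.Agent.F2PF

open MvPolynomial Pool.Agent.F2Ch

/-- composition of a valuation in `InZ` with a strictly monotone homomorphism -/
private theorem pr_map {p : ℕ} {k K : Type} [Field k] [Field K] [Algebra k K] {φ : K → K}
    {Γ Γ' : Type} [AddCommGroup Γ] [LinearOrder Γ] [IsOrderedAddMonoid Γ]
    [AddCommGroup Γ'] [LinearOrder Γ'] [IsOrderedAddMonoid Γ']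
    (σ : Γ →+ Γ') (hσ : StrictMono σ) {V : K → Γ} (h : InZ k p φ V) :
    InZ k p φ (fun f => σ (V f)) := by
  refine ⟨⟨?_, ?_, ?_⟩, ?_, ?_⟩
  · simp [h.isv.zero]
  · intro x y hx hy
    simp [h.isv.mul x y hx hy]
  · intro x y hx hy hxy
    show min (σ (V x)) (σ (V y)) ≤ σ (V (x + y))
    rw [← hσ.monotone.map_min]
    exact hσ.monotone (h.isv.add x y hx hy hxy)
  · intro c
    simp [h.triv c]
  · intro f hf
    show σ (V f) ≤ p • σ (V (φ f))
    rw [← map_nsmul]
    exact hσ.monotone (h.compat f hf)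

/-- scaling of the first component -/
private def pr_sc (c : ℝ) : ℝ ×ₗ ℝ →+ ℝ ×ₗ ℝ where
  toFun x := toLex (c * (ofLex x).1, (ofLex x).2)
  map_zero' := by
    simp only [ofLex_zero, Prod.fst_zero, Prod.snd_zero, mul_zero]
    rfl
  map_add' x y := by
    simp only [ofLex_add, Prod.fst_add, Prod.snd_add, mul_add]
    rfl

private theorem pr_sc_mono (c : ℝ) (hc : 0 < c) : StrictMono (pr_sc c) := by
  intro x y h
  rw [Prod.Lex.lt_iff] at h ⊢
  show c * (ofLex x).1 < c * (ofLex y).1 ∨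
    c * (ofLex x).1 = c * (ofLex y).1 ∧ (ofLex x).2 < (ofLex y).2
  rcases h with h | ⟨h1, h2⟩
  · exact Or.inl (mul_lt_mul_of_pos_left h hc)
  · exact Or.inr ⟨by rw [h1], h2⟩

private def pr_mul (c : ℝ) : ℝ →+ ℝ := AddMonoidHom.mulLeft c

private theorem pr_mul_mono (c : ℝ) (hc : 0 < c) : StrictMono (pr_mul c) := by
  intro x y h
  show c * x < c * y
  exact mul_lt_mul_of_pos_left h hc

theorem p_pr : S_pr := by
  intro p _ k K _ _ _ _ _ n g φ
  refine ⟨?_, ?_, ?_⟩
  · intro v v' v''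
    refine ⟨⟨1, one_pos, fun f => by simp⟩, ?_, ?_⟩
    · rintro ⟨c, hc, h⟩
      refine ⟨c⁻¹, inv_pos.2 hc, fun f => ?_⟩
      rw [h f, ← mul_assoc, inv_mul_cancel₀ hc.ne', one_mul]
    · rintro ⟨c, hc, h⟩ ⟨c', hc', h'⟩
      refine ⟨c' * c, mul_pos hc' hc, fun f => ?_⟩
      rw [h' f, h f, mul_assoc]
  · rintro v v' ⟨c, hc, h⟩
    have hv' : v' = fun f => pr_mul c (v f) := funext fun f => h f
    refine ⟨?_, ?_, ?_, ?_, ?_, ?_, ?_, ?_⟩
    · intro hv
      rw [hv']
      exact pr_map (pr_mul c) (pr_mul_mono c hc) hv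
    · intro hs f hf hf0
      rw [h f]
      exact mul_nonpos_of_nonneg_of_nonpos hc.le (hs f hf hf0)
    · rintro ⟨f, hf, hf0, hneg⟩
      refine ⟨f, hf, hf0, ?_⟩
      rw [h f]
      exact mul_neg_of_pos_of_neg hc hneg
    · rintro ⟨γ, hγ, hd⟩
      refine ⟨c * γ, mul_pos hc hγ, fun f hf => ?_⟩
      obtain ⟨m, hm⟩ := hd f hf
      refine ⟨m, ?_⟩
      rw [h f, hm, zsmul_eq_mul, zsmul_eq_mul]
      ring
    · intro f hf
      rw [h f, hf, mul_zero]
    · intro f hf
      rw [h f]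
      exact mul_pos hc hf
    · refine ⟨c⁻¹, inv_pos.2 hc, fun f _ _ => ?_⟩
      rw [h f, ← mul_assoc, inv_mul_cancel₀ hc.ne', one_mul]
    · exact ⟨c, hc, fun f _ _ => (h f).le⟩
  · rintro V w w' hV hw ⟨c, hc, h⟩
    have hz : ∀ x : ℝ ×ₗ ℝ, pr_sc c x = 0 ↔ x = 0 := by
      intro x
      constructor
      · intro hx
        exact (pr_sc_mono c hc).injective (by rw [hx, map_zero])
      · rintro rfl
        exact map_zero _
    refine ⟨fun f => pr_sc c (V f), pr_map _ (pr_sc_mono c hc) hV, ?_, ?_, ?_, ?_⟩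
    · intro f
      rw [h f, ← hw f]
      rfl
    · intro f
      rfl
    · intro f
      show 0 < V f ↔ 0 < pr_sc c (V f)
      have h1 := (pr_sc_mono c hc).lt_iff_lt (a := 0) (b := V f)
      rw [map_zero] at h1
      exact h1.symm
    · intro f
      exact (hz (V f)).symm

end Pool.Agent.F2PF
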