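import Pool.Agent.Lib.MP_305fdd_al.F2.PF.Stm

set_option autoImplicit false

namespace Pool.Agent.F2PF

open Pool.Agent.F2Ch

private lemma refl_rf (m : ℝ × ℝ) : rf (rf m) = m := by
  simp [rf]

private lemma refl_dot (u m : ℝ × ℝ) : dot (rf u) m = dot u (rf m) := by
  simp [rf, dot]

theorem p_refl (hin : S_in) : S_refl := by
  obtain ⟨-, -, -, hL, hR⟩ := hin
  intro K _ B J y M hl
  refine ⟨⟨?_, ?_, ?_, ?_, ?_⟩, ?_, ?_, ?_⟩
  · intro t ht
    exact hl.isv (-t) ht
  · intro f hf h0
    exact (hl.ne f hf h0).image rf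
  · intro f hf h0 t ht m hm
    obtain ⟨m', hm', rfl⟩ := Finset.mem_image.mp hm
    have h := hl.le f hf h0 (-t) ht m' hm'
    simp only [rf]
    linarith
  · intro f hf h0 t ht
    obtain ⟨m, hm, h⟩ := hl.ex f hf h0 (-t) ht
    refine ⟨rf m, Finset.mem_image_of_mem rf hm, ?_⟩
    simp only [rf]
    linarith
  · obtain ⟨x1, x2, a, b, h1, h2, hab, h⟩ := hl.nd
    refine ⟨x1, x2, rf a, rf b, h1, h2, ?_, ?_⟩
    · simp only [rf]
      intro h3
      apply hab
      linarith
    · intro t ht
      obtain ⟨h3, h4⟩ := h (-t) ht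
      simp only [rf]
      constructor <;> linarith
  · intro t u
    constructor
    · intro hu f hf h0 m hm
      rw [refl_dot]
      refine hu f hf h0 (rf m) ((hR (M f) t (rf m)).mpr ?_)
      rwa [refl_rf]
    · intro hu f hf h0 m hm
      have h := hu f hf h0 (rf m) ((hR (M f) t m).mp hm)
      rwa [refl_dot, refl_rf] at h
  · intro t u
    constructor
    · intro hu f hf h0 m hm
      rw [refl_dot]
      refine hu f hf h0 (rf m) ((hL (M f) t (rf m)).mpr ?_)
      rwa [refl_rf]
    · intro hu f hf h0 m hm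
      have h := hu f hf h0 (rf m) ((hL (M f) t m).mp hm)
      rwa [refl_dot, refl_rf] at h
  · intro t u
    simp only [sd, rf]
    ring

end Pool.Agent.F2PF
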