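import Pool.Agent.Lib.MP_305fdd_al.F2.PF.StmC

/-!
# MP_305fdd_al, F_2 project, piece [F2PF rsh]
-/

set_option autoImplicit false

namespace Pool.Agent.F2PF

open MvPolynomial Pool.Agent.F2Ch

private theorem rsh_img (t : ℝ) (S : Finset (ℝ × ℝ)) :
    (S.image rf).image (fun m => (m.1 + -t * m.2, m.2)) = S.image fun m => (m.1 + t * m.2, -m.2) := by
  rw [Finset.image_image]
  refine Finset.image_congr ?_
  intro m _
  show ((rf m).1 + -t * (rf m).2, (rf m).2) = (m.1 + t * m.2, -m.2)
  simp only [rf]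
  congr 1
  ring

theorem p_rsh (hcrev : S_crev) (hrefl : S_refl) (hshift : S_shift) (hline : S_line) : S_rsh := by
  intro p _ k K _ _ _ _ _ n g φ _ s1 s2 y M hcl
  obtain ⟨hL, _, hres⟩ := (hline p k K n g φ).2 s1 s2 y M hcl
  refine ⟨?_, ?_, ?_⟩
  · intro t t' h1 h2 h3
    have hc := hres t t' h1 h2 h3
    constructor
    · have h := (hcrev p k K n g φ t t' y M hc).2 t
      rw [sub_self] at h
      exact h
    · have hr := (hcrev p k K n g φ t t' y M hc).1
      have h := (hcrev p k K n g φ _ _ _ _ hr).2 (-t')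
      have e1 : -t' - -t' = (0 : ℝ) := by ring
      have e2 : -t - -t' = t' - t := by ring
      have e3 : (fun τ => y (-(-t' + τ))) = fun τ => y (t' - τ) := by
        funext τ
        congr 1
        ring
      have e4 : (fun f => ((M f).image rf).image fun m => (m.1 + -t' * m.2, m.2)) = rsh t' M := by
        funext f
        exact rsh_img t' (M f)
      rw [e1, e2] at h
      simp only [e4] at h
      rw [e3] at h
      exact h
  · intro t τ u
    obtain ⟨_, h2, h3, h4⟩ := hshift K (Br k g) (Set.Icc s1 s2) y M t hL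
    exact ⟨h2 τ u, h3 τ u, h4 τ u⟩
  · intro t τ u
    obtain ⟨hLr, r1, r2, _⟩ := hrefl K (Br k g) (Set.Icc s1 s2) y M hL
    obtain ⟨_, h2, h3, _⟩ := hshift K (Br k g) _ _ _ (-t) hLr
    have e0 : -(t - τ) = -t + τ := by ring
    have e4 : (fun f => ((M f).image rf).image fun m => (m.1 + -t * m.2, m.2)) = rsh t M := by
      funext f
      exact rsh_img t (M f)
    have e5 : ((rf u).1, (rf u).2 - -t * (rf u).1) = (u.1, t * u.1 - u.2) := by
      simp only [rf]
      congr 1
      ring
    refine ⟨?_, ?_, ?_⟩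
    · rw [r2 (t - τ) u, e0, h2 τ (rf u), e4, e5]
    · rw [r1 (t - τ) u, e0, h3 τ (rf u), e4, e5]
    · simp only [sd]
      ring

end Pool.Agent.F2PF
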