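import Pool.Agent.Lib.MP_305fdd_al.F2.PF.StmC

/-!
# MP_305fdd_al, F_2 project, section PF: from the order to the direction (mirror image)
-/

set_option autoImplicit false

namespace Pool.Agent.F2PF

open MvPolynomial Pool.Agent.F2Ch

theorem p_segb (hsega : S_sega) (hrsh : S_rsh) : S_segb := by
  intro p _ k K _ _ _ _ _ n g φ E A R ctx s1 s2 y M hcl z hz h1 h2 hsg hle
  obtain ⟨⟨b0, ρ0, hbase⟩, hloc⟩ := ctx
  have ctx : Ctx k p φ g E A R := ⟨⟨b0, ρ0, hbase⟩, hloc⟩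
  have hlt : s1 < s2 := hcl.1
  obtain ⟨r1, -, r3⟩ := hrsh p k K n g φ hbase.gen s1 s2 y M hcl
  have hcl' := (r1 s1 s2 le_rfl hlt le_rfl).2
  have e0 : s2 - 0 = s2 := sub_zero s2
  have e1 : s2 - (s2 - s1) = s1 := sub_sub_cancel s2 s1
  obtain ⟨c1, c2⟩ := hsega p k K n g φ E A R ctx 0 (s2 - s1) (fun τ => y (s2 - τ)) (rsh s2 M)
    hcl' z hz (by show y (s2 - 0) z = 0; rw [e0]; exact h2)
    (by show y (s2 - (s2 - s1)) z = 0; rw [e1]; exact h1)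
    (by show ¬ SG (Br k g) (y (s2 - (s2 - s1))); rw [e1]; exact hsg)
    (by show Le (Br k g) (y (s2 - (s2 - s1))) (y (s2 - 0)); rw [e0, e1]; exact hle)
  constructor
  · intro t ht1 ht2
    have h3 := c1 (s2 - t) (by linarith) (by linarith)
    have e2 : s2 - (s2 - t) = t := sub_sub_cancel s2 t
    have h4 : y (s2 - (s2 - t)) z = 0 ∧ ¬ SG (Br k g) (y (s2 - (s2 - t))) := h3
    rwa [e2] at h4
  · intro t ht1 ht2
    obtain ⟨u', hu', hpos⟩ := c2 (s2 - t) (by linarith) (by linarith)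
    have e2 : s2 - (s2 - t) = t := sub_sub_cancel s2 t
    obtain ⟨q1, -, q3⟩ := r3 s2 (s2 - t) (u'.1, s2 * u'.1 - u'.2)
    have e3 : ((u'.1, s2 * u'.1 - u'.2) : ℝ × ℝ).1 = u'.1 := rfl
    have e4 : (((u'.1, s2 * u'.1 - u'.2) : ℝ × ℝ).1,
        s2 * ((u'.1, s2 * u'.1 - u'.2) : ℝ × ℝ).1 - ((u'.1, s2 * u'.1 - u'.2) : ℝ × ℝ).2) =
        u' := by
      ext
      · rfl
      · show s2 * u'.1 - (s2 * u'.1 - u'.2) = u'.2
        ring
    rw [e4, e2] at q1 q3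
    refine ⟨_, q1.2 hu', ?_⟩
    linarith

end Pool.Agent.F2PF
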