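import Pool.Agent.Lib.MP_305fdd_al.F2.PF.StmC

/-!
# MP_305fdd_al, F_2 project, section PF: the piece segd
-/

set_option autoImplicit false

namespace Pool.Agent.F2PF

open MvPolynomial Pool.Agent.F2Ch

/-- The line descends to the right at its left end point. -/
private theorem segd_des (hclo : S_clo) (hnsg : S_nsg) (hanti : S_anti)
    (hrfl : S_rfl) (hpal : S_pal) (hpr : S_pr) (hline : S_line)
    (p : ℕ) [Fact p.Prime] (k K : Type) [Field k] [CharP k p] [PerfectRing k p] [Field K]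
    [Algebra k K] (n : ℕ) (g : Fin n → K) (φ : K → K) (E A : Set K) (R : K → ℝ)
    (hC : Ctx k p φ g E A R) (s1 s2 : ℝ)
    (y : ℝ → K → ℝ) (M : K → Finset (ℝ × ℝ)) (hCL : CL k p φ g s1 s2 y M) (z : K) (hz : z ∈ A)
    (hel : ∀ t, s1 ≤ t → t ≤ s2 → y t z = 0)
    (hns : ∀ t, s1 ≤ t → t ≤ s2 → ¬ SG (Br k g) (y t))
    (hdes : ∀ t, s1 < t → t < s2 → DesR (Br k g) M t) :
    DesR (Br k g) M s1 := by
  obtain ⟨⟨b0, ρ0, hB⟩, hL⟩ := hC
  have hs : s1 < s2 := hCL.1
  have hBs : Bs (Br k g) := (hline p k K n g φ).1 hB.gen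
  obtain ⟨hLine, hInZ, -⟩ := (hline p k K n g φ).2 s1 s2 y M hCL
  have hs1 : s1 ∈ Set.Icc s1 s2 := ⟨le_refl _, hs.le⟩
  obtain ⟨hI1, hnt1⟩ := hInZ s1 (le_refl _) hs.le
  by_cases hA : AtInf (Br k g) (y s1)
  · -- the point is at infinity
    obtain ⟨u, hu, hu0, hus⟩ := hclo K (Br k g) hBs (Set.Icc s1 s2) y M hLine s1 hs1 s2 hs
      (le_refl _) 1 (by
        intro δ hδ
        refine ⟨min (s1 + δ / 2) ((s1 + s2) / 2), ?_, ?_, ?_⟩
        · exact lt_min (by linarith) (by linarith)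
        · exact lt_of_le_of_lt (min_le_left _ _) (by linarith)
        · obtain ⟨u, hu, hus⟩ := hdes (min (s1 + δ / 2) ((s1 + s2) / 2))
            (lt_min (by linarith) (by linarith))
            (lt_of_le_of_lt (min_le_right _ _) (by linarith))
          refine ⟨u, Or.inl hu, ?_, ?_⟩
          · rintro rfl
            simp [sd] at hus
          · rw [one_mul]
            exact hus.le)
    have h1 := (hnsg K (Br k g) hBs (Set.Icc s1 s2) y M hLine s1 hs1 hA
      (hns s1 (le_refl _) hs.le)).1 u (Or.inl hu) hu0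
    rw [one_mul] at hus
    exact ⟨u, hu, lt_of_le_of_ne hus (Ne.symm h1)⟩
  · -- the point is proportional to `R`
    have hRy : Pr R (y s1) := by
      by_contra h
      exact hA (((hanti p k K n g φ E A R ⟨⟨b0, ρ0, hB⟩, hL⟩).2.2.2.1 (y s1) hI1 hnt1).2 h)
    have hyR : Pr (y s1) R := ((hpr p k K n g φ).1 R (y s1) R).2.1 hRy
    have hDv : Dv (y s1) := ((hpr p k K n g φ).2.1 R (y s1) hRy).2.2.2.1 hL.Rdv
    obtain ⟨V, hV⟩ := (hrfl p k K n g φ hB.gen s1 s2 y M hCL s1 (le_refl _) hs).1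
    obtain ⟨hVz, hVF⟩ := (hpal p k K n g φ E A R ⟨⟨b0, ρ0, hB⟩, hL⟩ s1 s2 y M hCL z hz hel).1
      s1 (le_refl _) hs V hV
    have hVF := hVF hDv
    obtain ⟨V', hV'i, hV'f, hV'c, -, hV'z⟩ := (hpr p k K n g φ).2.2 V (y s1) R hV.inz hV.fst hyR
    obtain ⟨c, hc, hcR⟩ := hRy
    have hF : Flag k p φ R V' := by
      refine ⟨hV'i, hV'f, ?_⟩
      obtain ⟨f, hf0, hf1, hf2⟩ := hVF.nt
      refine ⟨f, hf0, ?_, ?_⟩
      · rw [hcR f] at hf1
        rcases mul_eq_zero.1 hf1 with h | h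
        · exact absurd h hc.ne'
        · exact h
      · rw [hV'c f]
        exact hf2
    obtain ⟨μ, hμ, -⟩ := hL.R7f V' hF ⟨z, hz, (hV'z z).1 hVz⟩
    refine ⟨(-μ / c, 1 + s1 * (-μ / c)), ?_, ?_⟩
    · rw [hV.dr]
      intro f hf hf0
      have h1 := hμ f hf hf0
      simp only [dot, sd] at h1 ⊢
      rw [hV'c f] at h1
      rw [hcR f]
      have h2 : -μ / c * (c * R f) = -μ * R f := by
        field_simp
      rw [h2]
      linarith
    · simp only [sd]
      linarith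

theorem p_segd (hrsh : S_rsh) (hclo : S_clo) (hnsg : S_nsg) (hanti : S_anti)
    (hrfl : S_rfl) (hpal : S_pal) (hpr : S_pr) (hline : S_line) : S_segd := by
  intro p _ k K _ _ _ _ _ n g φ E A R hC s1 s2 y M hCL z hz hel hns hdes t t' ht htt' ht'
  have hgen : FracGen k g := by
    obtain ⟨⟨b0, ρ0, hB⟩, -⟩ := hC
    exact hB.gen
  obtain ⟨h1, h2, -⟩ := hrsh p k K n g φ hgen s1 s2 y M hCL
  have hD : DesR (Br k g) M t := by
    rcases ht.eq_or_lt with h | h
    · subst h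
      exact segd_des hclo hnsg hanti hrfl hpal hpr hline p k K n g φ E A R hC s1 s2 y M hCL z hz
        hel hns hdes
    · exact hdes t h (by linarith)
  refine ⟨(h1 t t' ht htt' ht').1, ?_, ⟨z, hz, ?_⟩, ?_⟩
  · intro τ h0 hτ
    exact hns (t + τ) (by linarith) (by linarith)
  · intro τ h0 hτ
    exact hel (t + τ) (by linarith) (by linarith)
  · obtain ⟨u, hu, hus⟩ := hD
    obtain ⟨h3, -, h4⟩ := h2 t 0 u
    rw [add_zero] at h3 h4
    refine ⟨(u.1, u.2 - t * u.1), h3.1 hu, ?_⟩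
    rw [h4]
    exact hus

end Pool.Agent.F2PF
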