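import Pool.Agent.Lib.MP_305fdd_al.F2.PF.Stm

/-!
# MP_305fdd_al, F_2 project, section PF: the direction of decrease is constant on a line (piece sgn)
-/

set_option autoImplicit false

namespace Pool.Agent.F2PF

open Pool.Agent.F2Ch

theorem sgn_sd_zero (t : ℝ) : sd t (0 : ℝ × ℝ) = 0 := by
  simp [sd]

theorem sgn_rf_rf (m : ℝ × ℝ) : rf (rf m) = m := by
  simp [rf]

theorem sgn_rf_ne {m : ℝ × ℝ} (h : m ≠ 0) : rf m ≠ 0 := by
  intro h0
  apply h
  have := congrArg rf h0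
  rw [sgn_rf_rf] at this
  rw [this]
  simp [rf]

theorem p_sgn (h_pers : S_pers) (h_persL : S_persL) (h_key : S_key) (h_nsg : S_nsg)
    (h_val : S_val) (h_clo : S_clo) (h_refl : S_refl) : S_sgn := by
  intro K _ B hB t1 t2 y M hL h1 hR hLf hno
  obtain ⟨hL', hDR', hDL', hsd'⟩ := h_refl K B (Set.Ioo t1 t2) y M hL
  -- intervals inside
  have hIcc : ∀ a b : ℝ, t1 < a → b < t2 → Set.Icc a b ⊆ Set.Ioo t1 t2 := by
    intro a b ha hb z hz
    exact ⟨lt_of_lt_of_le ha hz.1, lt_of_le_of_lt hz.2 hb⟩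
  have hIcc' : ∀ a b : ℝ, t1 < a → b < t2 → Set.Icc (-b) (-a) ⊆ {t | -t ∈ Set.Ioo t1 t2} := by
    intro a b ha hb z hz
    have h3 := hz.1
    have h4 := hz.2
    exact ⟨by linarith, by linarith⟩
  -- dichotomy
  have hdich : ∀ t, t1 < t → t < t2 →
      (DesR B M t ∧ ∃ u ∈ DL B M t, 0 < sd t u) ∨ (DesL B M t ∧ ∃ u ∈ DR B M t, sd t u < 0) := by
    intro t ht1 ht2
    obtain ⟨u, hu, hu0⟩ := hR t ht1 ht2
    obtain ⟨u', hu', hu0'⟩ := hLf t ht1 ht2
    obtain ⟨hAt, hnS⟩ := h1 t ht1 ht2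
    have hns := (h_nsg K B hB _ y M hL t ⟨ht1, ht2⟩ hAt hnS).1
    have hn := hns u (Or.inl hu) hu0
    have hn' := hns u' (Or.inr hu') hu0'
    rcases lt_or_gt_of_ne hn with h | h
    · rcases lt_or_gt_of_ne hn' with h' | h'
      · exact Or.inr ⟨⟨u', hu', h'⟩, u, hu, h⟩
      · exfalso
        have := h_val K B hB _ y M hL t ⟨ht1, ht2⟩ hAt hnS ((t + t2) / 2) (by linarith)
          (hIcc t ((t + t2) / 2) ht1 (by linarith)) u hu u' hu' h
        linarith
    · rcases lt_or_gt_of_ne hn' with h' | h'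
      · exact (hno t ht1 ht2 ⟨⟨u, hu, h⟩, u', hu', h'⟩).elim
      · exact Or.inl ⟨⟨u, hu, h⟩, u', hu', h'⟩
  -- exclusive
  have hexcl : ∀ t, t1 < t → t < t2 → DesR B M t → (∃ u ∈ DR B M t, sd t u < 0) → False := by
    intro t ht1 ht2 hd he
    obtain ⟨u, hu, hu1⟩ := hd
    obtain ⟨u', hu', hu2⟩ := he
    obtain ⟨hAt, hnS⟩ := h1 t ht1 ht2
    have := (h_nsg K B hB _ y M hL t ⟨ht1, ht2⟩ hAt hnS).2.1 ((t + t2) / 2) (by linarith)
      (hIcc t ((t + t2) / 2) ht1 (by linarith)) u hu u' hu' hu1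
    linarith
  -- propagation to the right
  have hpr : ∀ t t', t1 < t → t < t' → t' < t2 → DesR B M t →
      DesR B M t' ∧ ∃ u ∈ DL B M t', 0 < sd t' u := by
    intro t t' ht1 htt' ht2 hd
    obtain ⟨u, hu, hu1⟩ := hd
    have htI : t ∈ Set.Ioo t1 t2 := ⟨ht1, htt'.trans ht2⟩
    have ht'I : t' ∈ Set.Ioo t1 t2 := ⟨ht1.trans htt', ht2⟩
    have hk := (h_key K B _ y M hL t htI u (Or.inl hu)).2 t' htt' (hIcc t t' ht1 ht2)
      (fun r hr1 hr2 => (h1 r (ht1.trans hr1) (lt_of_le_of_lt hr2 ht2)).2) hu1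
    obtain ⟨ha, hb, -⟩ := h_pers K B _ y M hL t htI t' ht'I htt' u (Or.inl hu) hu1 hk.le
    exact ⟨⟨u, ha, hk⟩, u, hb, hk⟩
  -- propagation to the left
  have hpl : ∀ t t', t1 < t' → t' < t → t < t2 → DesL B M t →
      DesL B M t' ∧ ∃ u ∈ DR B M t', sd t' u < 0 := by
    intro t t' ht1 htt' ht2 hd
    obtain ⟨u, hu, hu1⟩ := hd
    have htI : t ∈ Set.Ioo t1 t2 := ⟨ht1.trans htt', ht2⟩
    have ht'I : t' ∈ Set.Ioo t1 t2 := ⟨ht1, htt'.trans ht2⟩
    have hk := (h_key K B _ _ _ hL' (-t) (by simpa using htI) (rf u)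
      (Or.inl ((hDL' t u).1 hu))).2 (-t') (by linarith) (hIcc' t' t ht1 ht2)
      (fun r hr1 hr2 => (h1 (-r) (by linarith) (by linarith)).2)
      (by rw [hsd']; linarith)
    rw [hsd'] at hk
    have hk' : sd t' u < 0 := by linarith
    obtain ⟨ha, hb, -⟩ := h_persL K B _ y M hL t htI t' ht'I htt' u (Or.inr hu) hu1 hk'.le
    exact ⟨⟨u, hb, hk'⟩, u, ha, hk'⟩
  by_contra hcon
  push Not at hcon
  obtain ⟨⟨s, hs1, hs2, hs⟩, s', hs1', hs2', hs'⟩ := hcon
  -- `s` is leftward, `s'` is rightward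
  have hsL : DesL B M s := by
    rcases hdich s hs1 hs2 with h | h
    · obtain ⟨u, hu, hu1⟩ := h.2
      have := hs h.1 u hu
      linarith
    · exact h.1
  have hsR : DesR B M s' := by
    rcases hdich s' hs1' hs2' with h | h
    · exact h.1
    · obtain ⟨u, hu, hu1⟩ := h.2
      have := hs' h.1 u hu
      linarith
  set A : Set ℝ := {t | t1 < t ∧ t < t2 ∧ DesR B M t} with hA
  have hAne : A.Nonempty := ⟨s', hs1', hs2', hsR⟩
  have hAlow : ∀ t ∈ A, s ≤ t := by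
    intro t ht
    by_contra hlt
    push Not at hlt
    have := hpr t s ht.1 hlt hs2 ht.2.2
    exact hno s hs1 hs2 ⟨this.1, hsL⟩
  have hAbdd : BddBelow A := ⟨s, fun t ht => hAlow t ht⟩
  set ts := sInf A with hts
  have hsts : s ≤ ts := le_csInf hAne hAlow
  have htss' : ts ≤ s' := csInf_le hAbdd ⟨hs1', hs2', hsR⟩
  have hts1 : t1 < ts := by linarith
  have hts2 : ts < t2 := by linarith
  have habove : ∀ t, ts < t → t < t2 → DesR B M t := by
    intro t ht1 ht2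
    obtain ⟨a, ha, hat⟩ := exists_lt_of_csInf_lt hAne ht1
    exact (hpr a t ha.1 hat ht2 ha.2.2).1
  have hbelow : ∀ t, t1 < t → t < ts → DesL B M t := by
    intro t ht1 ht2
    rcases hdich t ht1 (ht2.trans hts2) with h | h
    · exact absurd (csInf_le hAbdd (show t ∈ A from ⟨ht1, ht2.trans hts2, h.1⟩)) (not_le.2 ht2)
    · exact h.1
  obtain ⟨hAt, hnS⟩ := h1 ts hts1 hts2
  have hns := (h_nsg K B hB _ y M hL ts ⟨hts1, hts2⟩ hAt hnS).1
  have hDR : DesR B M ts := by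
    obtain ⟨u, hu, hu0, hu1⟩ := h_clo K B hB _ y M hL ts ⟨hts1, hts2⟩ ((ts + t2) / 2)
      (by linarith) (hIcc ts ((ts + t2) / 2) hts1 (by linarith)) 1 (by
        intro δ hδ
        have hm : 0 < min δ (t2 - ts) := lt_min hδ (by linarith)
        have hm1 := min_le_left δ (t2 - ts)
        have hm2 := min_le_right δ (t2 - ts)
        refine ⟨ts + min δ (t2 - ts) / 2, by linarith, by linarith, ?_⟩
        obtain ⟨u, hu, hu1⟩ := habove (ts + min δ (t2 - ts) / 2) (by linarith) (by linarith)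
        refine ⟨u, Or.inl hu, ?_, by linarith⟩
        rintro rfl
        rw [sgn_sd_zero] at hu1
        exact lt_irrefl _ hu1)
    refine ⟨u, hu, ?_⟩
    rw [one_mul] at hu1
    exact lt_of_le_of_ne hu1 (Ne.symm (hns u (Or.inl hu) hu0))
  have hDL : DesL B M ts := by
    obtain ⟨w, hw, hw0, hw1⟩ := h_clo K B hB _ _ _ hL' (-ts) (by simpa using ⟨hts1, hts2⟩)
      (-((t1 + ts) / 2)) (by linarith) (hIcc' ((t1 + ts) / 2) ts (by linarith) hts2) 1 (by
        intro δ hδ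
        have hm : 0 < min δ (ts - t1) := lt_min hδ (by linarith)
        have hm1 := min_le_left δ (ts - t1)
        have hm2 := min_le_right δ (ts - t1)
        refine ⟨-(ts - min δ (ts - t1) / 2), by linarith, by linarith, ?_⟩
        obtain ⟨u, hu, hu1⟩ := hbelow (ts - min δ (ts - t1) / 2) (by linarith) (by linarith)
        refine ⟨rf u, Or.inl ((hDL' _ u).1 hu), ?_, ?_⟩
        · apply sgn_rf_ne
          rintro rfl
          rw [sgn_sd_zero] at hu1
          exact lt_irrefl _ hu1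
        · rw [one_mul, hsd']
          linarith)
    have hmem : rf w ∈ DL B M ts := by
      rw [hDL', sgn_rf_rf]
      exact hw
    have hle : sd ts (rf w) ≤ 0 := by
      have h3 := hsd' ts (rf w)
      rw [sgn_rf_rf] at h3
      rw [one_mul] at hw1
      linarith
    exact ⟨rf w, hmem, lt_of_le_of_ne hle (hns _ (Or.inr hmem) (sgn_rf_ne hw0))⟩
  exact hno ts hts1 hts2 ⟨hDR, hDL⟩

end Pool.Agent.F2PF
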