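import Pool.Agent.Lib.MP_305fdd_al.F2.PF.Stm

set_option autoImplicit false

namespace Pool.Agent.F2PF

open Pool.Agent.F2Ch

/-- the shift of exponents -/
def shift_e (t0 : ℝ) (m : ℝ × ℝ) : ℝ × ℝ := (m.1 + t0 * m.2, m.2)

theorem shift_inj (t0 : ℝ) : Function.Injective (shift_e t0) := by
  intro m m' h
  have h1 : m.1 + t0 * m.2 = m'.1 + t0 * m'.2 := congrArg Prod.fst h
  have h2 : (shift_e t0 m).2 = (shift_e t0 m').2 := congrArg Prod.snd h
  simp only [shift_e] at h2
  refine Prod.ext ?_ h2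
  rw [h2] at h1
  exact add_right_cancel h1

theorem shift_val (t0 s : ℝ) (m : ℝ × ℝ) :
    (shift_e t0 m).1 + s * (shift_e t0 m).2 = m.1 + (t0 + s) * m.2 := by
  simp only [shift_e]
  ring

theorem shift_dot (t0 : ℝ) (u m : ℝ × ℝ) :
    dot (u.1, u.2 - t0 * u.1) (shift_e t0 m) = dot u m := by
  simp only [dot, shift_e]
  ring

theorem shift_R (S : Finset (ℝ × ℝ)) (t0 s : ℝ) (m : ℝ × ℝ) :
    IsR (S.image (shift_e t0)) s (shift_e t0 m) ↔ IsR S (t0 + s) m := by
  constructor
  · intro h
    refine ⟨(Function.Injective.mem_finset_image (shift_inj t0)).1 h.mem, ?_, ?_⟩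
    · intro m' hm'
      have h1 := h.min _ (Finset.mem_image_of_mem _ hm')
      rwa [shift_val, shift_val] at h1
    · intro m' hm' h1
      refine h.tie (shift_e t0 m') (Finset.mem_image_of_mem _ hm') ?_
      rw [shift_val, shift_val, h1]
  · intro h
    refine ⟨Finset.mem_image_of_mem _ h.mem, ?_, ?_⟩
    · intro m' hm'
      obtain ⟨m1, hm1, rfl⟩ := Finset.mem_image.1 hm'
      rw [shift_val, shift_val]
      exact h.min m1 hm1
    · intro m' hm' h1
      obtain ⟨m1, hm1, rfl⟩ := Finset.mem_image.1 hm'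
      rw [shift_val, shift_val] at h1
      exact h.tie m1 hm1 h1

theorem shift_L (S : Finset (ℝ × ℝ)) (t0 s : ℝ) (m : ℝ × ℝ) :
    IsL (S.image (shift_e t0)) s (shift_e t0 m) ↔ IsL S (t0 + s) m := by
  constructor
  · intro h
    refine ⟨(Function.Injective.mem_finset_image (shift_inj t0)).1 h.mem, ?_, ?_⟩
    · intro m' hm'
      have h1 := h.min _ (Finset.mem_image_of_mem _ hm')
      rwa [shift_val, shift_val] at h1
    · intro m' hm' h1
      refine h.tie (shift_e t0 m') (Finset.mem_image_of_mem _ hm') ?_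
      rw [shift_val, shift_val, h1]
  · intro h
    refine ⟨Finset.mem_image_of_mem _ h.mem, ?_, ?_⟩
    · intro m' hm'
      obtain ⟨m1, hm1, rfl⟩ := Finset.mem_image.1 hm'
      rw [shift_val, shift_val]
      exact h.min m1 hm1
    · intro m' hm' h1
      obtain ⟨m1, hm1, rfl⟩ := Finset.mem_image.1 hm'
      rw [shift_val, shift_val] at h1
      exact h.tie m1 hm1 h1

theorem p_shift : S_shift := by
  intro K _ B J y M t0 hL
  have he : (fun m : ℝ × ℝ => (m.1 + t0 * m.2, m.2)) = shift_e t0 := rfl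
  simp only [he]
  refine ⟨?_, ?_, ?_, ?_⟩
  · refine ⟨fun s hs => hL.isv _ hs, ?_, ?_, ?_, ?_⟩
    · intro f hf h0
      exact (hL.ne f hf h0).image _
    · intro f hf h0 s hs m hm
      obtain ⟨m1, hm1, rfl⟩ := Finset.mem_image.1 hm
      rw [shift_val]
      exact hL.le f hf h0 _ hs m1 hm1
    · intro f hf h0 s hs
      obtain ⟨m1, hm1, h1⟩ := hL.ex f hf h0 _ hs
      refine ⟨shift_e t0 m1, Finset.mem_image_of_mem _ hm1, ?_⟩
      rw [shift_val]
      exact h1
    · obtain ⟨x1, x2, a, b, h1, h2, h3, h4⟩ := hL.nd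
      refine ⟨x1, x2, shift_e t0 a, shift_e t0 b, h1, h2, ?_, ?_⟩
      · have h5 : (shift_e t0 a).1 * (shift_e t0 b).2 - (shift_e t0 a).2 * (shift_e t0 b).1 =
            a.1 * b.2 - a.2 * b.1 := by
          simp only [shift_e]
          ring
        rw [h5]
        exact h3
      · intro s hs
        rw [shift_val, shift_val]
        exact h4 _ hs
  · intro s u
    constructor
    · intro h f hf h0 m hm
      obtain ⟨m1, _, rfl⟩ := Finset.mem_image.1 hm.mem
      rw [shift_dot]
      exact h f hf h0 m1 ((shift_R _ _ _ _).1 hm)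
    · intro h f hf h0 m hm
      have h1 := h f hf h0 _ ((shift_R _ _ _ _).2 hm)
      rwa [shift_dot] at h1
  · intro s u
    constructor
    · intro h f hf h0 m hm
      obtain ⟨m1, _, rfl⟩ := Finset.mem_image.1 hm.mem
      rw [shift_dot]
      exact h f hf h0 m1 ((shift_L _ _ _ _).1 hm)
    · intro h f hf h0 m hm
      have h1 := h f hf h0 _ ((shift_L _ _ _ _).2 hm)
      rwa [shift_dot] at h1
  · intro s u
    simp only [sd]
    ring

end Pool.Agent.F2PF

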