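import Pool.Agent.Lib.MP_305fdd_al.F2.PF.Stm

/-!
# MP_305fdd_al, F_2 project, section PF: piece strict
-/

set_option autoImplicit false

namespace Pool.Agent.F2PF

open Pool.Agent.F2Ch

/-- [F2PF strict] -/
theorem p_strict : S_strict := by
  constructor
  · intro K _ B hB v v' hv hv' hinf hsg h1 h2
    obtain ⟨c, hc, h1⟩ := h1
    obtain ⟨c', hc', h2⟩ := h2
    obtain ⟨f, hf, hf0, hvf⟩ := hinf
    have hex : ∃ g ∈ B, g ≠ 0 ∧ 0 < v g := by
      by_contra hcon
      push Not at hcon
      exact hsg fun g hg hg0 => hcon g hg hg0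
    obtain ⟨g, hg, hg0, hvg⟩ := hex
    have key : ∀ x ∈ B, x ≠ 0 → v x ≤ c' * (c * v x) := fun x hx hx0 =>
      (h2 x hx hx0).trans (mul_le_mul_of_nonneg_left (h1 x hx hx0) hc'.le)
    have e1 : c' * c = 1 := by
      apply le_antisymm
      · by_contra hcon
        push Not at hcon
        have := key f hf hf0
        nlinarith
      · by_contra hcon
        push Not at hcon
        have := key g hg hg0
        nlinarith
    have heq : ∀ x ∈ B, x ≠ 0 → v' x = c * v x := by
      intro x hx hx0
      apply le_antisymm (h1 x hx hx0)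
      have h3 := mul_le_mul_of_nonneg_left (h2 x hx hx0) hc.le
      have h4 : c * (c' * v' x) = v' x := by
        rw [← mul_assoc, mul_comm c c', e1, one_mul]
      rwa [h4] at h3
    refine ⟨c, hc, fun x => ?_⟩
    by_cases hx : x = 0
    · rw [hx, hv.zero, hv'.zero, mul_zero]
    · obtain ⟨a, ha, b, hb, hb0, hab⟩ := hB.frac x
      have ha0 : a ≠ 0 := by
        rw [← hab]
        exact mul_ne_zero hx hb0
      have e2 := hv.mul x b hx hb0
      have e3 := hv'.mul x b hx hb0
      rw [hab] at e2 e3
      have e4 := heq a ha ha0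
      have e5 := heq b hb hb0
      rw [e2, e3] at e4
      rw [e5] at e4
      linarith
  · intro K _ B _ J y M hL t ht t' ht' hP
    obtain ⟨c, hc, h⟩ := hP
    obtain ⟨x1, x2, a, b, -, -, hdet, hnd⟩ := hL.nd
    obtain ⟨a1, b1⟩ := hnd t ht
    obtain ⟨a2, b2⟩ := hnd t' ht'
    have ea := h x1
    have eb := h x2
    rw [a1, a2] at ea
    rw [b1, b2] at eb
    have e1 : (1 - c) * (a.1 * b.2 - a.2 * b.1) = 0 := by
      linear_combination b.2 * ea - a.2 * eb
    have e2 : (t' - c * t) * (a.1 * b.2 - a.2 * b.1) = 0 := by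
      linear_combination a.1 * eb - b.1 * ea
    have e3 := (mul_eq_zero.1 e1).resolve_right hdet
    have e4 := (mul_eq_zero.1 e2).resolve_right hdet
    have e5 : c = 1 := by linarith
    rw [e5] at e4
    linarith

end Pool.Agent.F2PF
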