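import Pool.Agent.Lib.MP_305fdd_al.F2.PF.StmC

/-!
# MP_305fdd_al, F_2 project, section PF, part B2: piece tot (totality below a common top)
-/

set_option autoImplicit false

namespace Pool.Agent.F2PF

open MvPolynomial Pool.Agent.F2Ch

theorem tot_one {α : Type*} (r : α → α → Prop)
    (H : ∀ x a b, r x a → r x b → r a b ∨ r b a) (x b : α) (hb : Relation.ReflTransGen r x b) :
    ∀ a, r x a → Relation.ReflTransGen r a b ∨ Relation.ReflTransGen r b a := by
  induction hb using Relation.ReflTransGen.head_induction_on with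
  | refl => exact fun a ha => Or.inr (Relation.ReflTransGen.single ha)
  | @head x x1 h1 h2 ih =>
    intro a ha
    rcases H x a x1 ha h1 with h | h
    · exact Or.inl (Relation.ReflTransGen.head h h2)
    · exact ih a h

theorem tot_two {α : Type*} (r : α → α → Prop)
    (H : ∀ x a b, r x a → r x b → r a b ∨ r b a) (x a : α) (ha : Relation.ReflTransGen r x a) :
    ∀ b, Relation.ReflTransGen r x b →
      Relation.ReflTransGen r a b ∨ Relation.ReflTransGen r b a := by
  induction ha using Relation.ReflTransGen.head_induction_on with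
  | refl => exact fun b hb => Or.inl hb
  | @head x x1 h1 h2 ih =>
    intro b hb
    rcases tot_one r H x b hb x1 h1 with h | h
    · exact ih b h
    · exact Or.inr (h.trans h2)

theorem p_tot (hdet : S_det) (hdnl : S_dnl) (hrch : S_rch) (hpr : S_pr) : S_tot := by
  intro p _ k K _ _ _ _ _ n g φ E A R hC x a b hxa hxb
  obtain ⟨hP, -, -⟩ := hpr p k K n g φ
  have hrefl : ∀ v : K → ℝ, Pr v v := fun v => (hP v v v).1
  have hsymm : ∀ v v' : K → ℝ, Pr v v' → Pr v' v := fun v v' h => (hP v v' v').2.1 h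
  have htrans : ∀ v v' v'' : K → ℝ, Pr v v' → Pr v' v'' → Pr v v'' :=
    fun v v' v'' h h' => (hP v v' v'').2.2 h h'
  have hPA := (hrch p k K n g φ E A R hC).1
  -- the case of two lines
  have key : ∀ (a b : K → ℝ) (s s' : ℝ) (y y' : ℝ → K → ℝ) (M M' : K → Finset (ℝ × ℝ)),
      DnL k p φ g A s y M → DnL k p φ g A s' y' M' → Pr (y s) a → Pr (y' s') b →
      (∃ t, 0 ≤ t ∧ t ≤ s ∧ Pr (y t) (y' s')) → Dn k p φ g A a b ∨ Dn k p φ g A b a := by
    rintro a b s s' y y' M M' hy hy' ha hb ⟨t, ht0, hts, ht⟩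
    obtain ⟨d1, -, -, -, d5, -⟩ := hdnl p k K n g φ E A R hC s y M hy
    rcases hts.lt_or_eq with h | h
    · right
      right
      refine ⟨s - t, fun τ => y (t + τ), sh t M, (d5 t s ht0 h le_rfl).2, ?_, ?_⟩
      · show Pr b (y (t + 0))
        rw [add_zero]
        exact hsymm _ _ (htrans _ _ _ ht hb)
      · show Pr (y (t + (s - t))) a
        rw [add_sub_cancel]
        exact ha
    · left
      left
      rw [h] at ht
      have hs0 : 0 ≤ s := h ▸ ht0
      refine ⟨(hPA _ _ (d1 s hs0 le_rfl) ha).1, ?_⟩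
      exact htrans _ _ _ (hsymm _ _ ha) (htrans _ _ _ ht hb)
  refine tot_two (Dn k p φ g A) ?_ x a hxa b hxb
  intro x a b hxa hxb
  rcases hxa with ⟨h1, h2⟩ | ⟨s, y, M, hy, h1, h2⟩
  · left
    rcases hxb with ⟨h3, h4⟩ | ⟨s', y', M', hy', h3, h4⟩
    · exact Or.inl ⟨(hPA _ _ h1 h2).1, htrans _ _ _ (hsymm _ _ h2) h4⟩
    · exact Or.inr ⟨s', y', M', hy', htrans _ _ _ (hsymm _ _ h2) h3, h4⟩
  · rcases hxb with ⟨h3, h4⟩ | ⟨s', y', M', hy', h3, h4⟩
    · right
      exact Or.inr ⟨s, y, M, hy, htrans _ _ _ (hsymm _ _ h4) h1, h2⟩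
    · rcases hdet p k K n g φ E A R hC s s' y y' M M' hy hy'
        (htrans _ _ _ (hsymm _ _ h1) h3) with h5 | ⟨t', ht0, hts, ht⟩
      · exact key a b s s' y y' M M' hy hy' h2 h4 h5
      · exact (key b a s' s y' y M' M hy' hy h4 h2 ⟨t', ht0, hts, hsymm _ _ ht⟩).symm

end Pool.Agent.F2PF
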