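import Pool.Agent.Lib.MP_305fdd_al.F2.PF.StmB

/-!
# MP_305fdd_al, F_2 project, section PF, part B: piece [F2PF ult]
-/

set_option autoImplicit false

namespace Pool.Agent.F2PF

open MvPolynomial Pool.Agent.F2Ch Filter Topology

section
variable {k K : Type} [Field k] [Field K] [Algebra k K]

private theorem ult_ge {n : ℕ} {g : Fin n → K} {v : K → ℝ} (hv : IsV v) (ht : Triv k v)
    (h0 : ∀ j, v (g j) = 0) (q : MvPolynomial (Fin n) k) : Ge v 0 (aeval g q) := by
  induction q using MvPolynomial.induction_on with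
  | C c =>
    right
    rw [aeval_C, ht c]
  | add a b ha hb =>
    rw [map_add]
    rcases ha with ha | ha
    · rw [ha, zero_add]
      exact hb
    · rcases hb with hb | hb
      · rw [hb, add_zero]
        exact Or.inr ha
      · by_cases h1 : aeval g a = 0
        · rw [h1, zero_add]
          exact Or.inr hb
        by_cases h2 : aeval g b = 0
        · rw [h2, add_zero]
          exact Or.inr ha
        by_cases h3 : aeval g a + aeval g b = 0
        · exact Or.inl h3
        · exact Or.inr ((le_min ha hb).trans (hv.add _ _ h1 h2 h3))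
  | mul_X a j ha =>
    rw [map_mul, aeval_X]
    by_cases h1 : aeval g a = 0
    · left
      rw [h1, zero_mul]
    by_cases h2 : g j = 0
    · left
      rw [h2, mul_zero]
    right
    rw [hv.mul _ _ h1 h2, h0 j, add_zero]
    rcases ha with ha | ha
    · exact absurd ha h1
    · exact ha

private theorem ult_inz {p : ℕ} {φ : K → K} {v : K → ℝ} (h : InZ k p φ v) {c : ℝ} (hc : 0 < c) :
    InZ k p φ (fun f => c * v f) := by
  refine ⟨⟨?_, ?_, ?_⟩, ?_, ?_⟩
  · simp only [h.isv.zero, mul_zero]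
  · intro x y hx hy
    simp only [h.isv.mul x y hx hy, mul_add]
  · intro x y hx hy hxy
    have h1 := mul_le_mul_of_nonneg_left (h.isv.add x y hx hy hxy) hc.le
    rw [mul_min_of_nonneg _ _ hc.le] at h1
    exact h1
  · intro a
    simp only [h.triv a, mul_zero]
  · intro f hf
    have h1 := mul_le_mul_of_nonneg_left (h.compat f hf) hc.le
    rw [nsmul_eq_mul] at h1 ⊢
    calc c * v f ≤ c * (p * v (φ f)) := h1
      _ = p * (c * v (φ f)) := by ring

private theorem ult_wt (d e : Fin 2 → ℝ) (m : Fin 2 → ℤ) :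
    wt (fun i => d i + 0 * e i) m = wt d m := by
  unfold wt
  simp only [zero_mul, add_zero]

end

theorem p_ult (hlim : F2UL.S_lim) (hfin : F2UL.S_fin) : S_ult := by
  intro p _ k K _ _ _ _ _ n g φ E A R hC I U v hv hz
  obtain ⟨⟨b0, ρ0, hB⟩, hL⟩ := hC
  obtain ⟨j0, hj0⟩ := hL.Rpos
  have hne : (Finset.univ : Finset (Fin n)).Nonempty := ⟨j0, Finset.mem_univ _⟩
  have hpr : ∀ w : K → ℝ, InZ k p φ w → (∃ f, w f ≠ 0) →
      (∀ q : MvPolynomial (Fin n) k, aeval g q ≠ 0 → 0 ≤ w (aeval g q)) → 0 < w (g j0) := by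
    intro w h1 h2 h3
    obtain ⟨c, hc, h4⟩ := hL.R9 w h1 h2 (by
      rintro f ⟨q, rfl⟩ hf
      exact h3 q hf)
    rw [h4]
    exact mul_pos hc hj0
  obtain ⟨r, hr⟩ : ∃ r : I → ℝ, ∀ i, 0 < r i ∧ (∀ j, |v i (g j)| ≤ r i) ∧
      ∃ j, |v i (g j)| = r i := by
    refine ⟨fun i => Finset.univ.sup' hne fun j => |v i (g j)|, fun i => ?_⟩
    have h1 : ∀ j, |v i (g j)| ≤ Finset.univ.sup' hne fun j => |v i (g j)| := fun j =>
      Finset.le_sup' (fun j => |v i (g j)|) (Finset.mem_univ j)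
    refine ⟨?_, h1, ?_⟩
    · by_contra hn
      have h2 : ∀ j, v i (g j) = 0 := fun j => by
        have h3 := (h1 j).trans (not_lt.1 hn)
        exact abs_eq_zero.1 (le_antisymm h3 (abs_nonneg _))
      have h4 := hpr (v i) (hv i).1 (hv i).2 (by
        intro q hq
        rcases ult_ge (hv i).1.isv (hv i).1.triv h2 q with h | h
        · exact absurd h hq
        · exact h)
      rw [h2] at h4
      exact lt_irrefl _ h4
    · obtain ⟨j, -, hj⟩ := Finset.exists_mem_eq_sup' hne fun j => |v i (g j)|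
      exact ⟨j, hj.symm⟩
  obtain ⟨v', hv'⟩ : ∃ v' : I → K → ℝ, ∀ i f, v' i f = (r i)⁻¹ * v i f := ⟨_, fun _ _ => rfl⟩
  have hvv : ∀ i f, v i f = r i * v' i f := fun i f => by
    rw [hv', ← mul_assoc, mul_inv_cancel₀ (hr i).1.ne', one_mul]
  have hin : ∀ i, InZ k p φ (v' i) := fun i => by
    have h1 : v' i = fun f => (r i)⁻¹ * v i f := funext fun f => hv' i f
    rw [h1]
    exact ult_inz (hv i).1 (inv_pos.2 (hr i).1)
  have hN : F2UL.Nrm k p φ g v' := by
    refine ⟨hin, fun i j => ?_, fun i => ?_⟩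
    · rw [hv', abs_mul, abs_of_pos (inv_pos.2 (hr i).1), inv_mul_le_iff₀ (hr i).1, mul_one]
      exact (hr i).2.1 j
    · obtain ⟨j, hj⟩ := (hr i).2.2
      refine ⟨j, ?_⟩
      rw [hv', abs_mul, abs_of_pos (inv_pos.2 (hr i).1), hj, inv_mul_cancel₀ (hr i).1.ne']
  obtain ⟨m, hm⟩ := hlim p k K I n g hB.gen 3 b0 ρ0 hB.pb φ hB.pinv hB.one j0 hpr U v' hN
  have hfs : ∀ S : Finset I, ∃ (q : MvPolynomial (Fin n) k) (M : ℕ) (c : k),
      (∀ i ∈ S, Ge (v' i) 0 (aeval g q)) ∧ φ^[M] (aeval g q) = 0 ∧ c ≠ 0 ∧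
        φ^[M] ((aeval g q) ^ 2) = algebraMap k K c := by
    intro S
    obtain ⟨z, hzE, hzS⟩ := hz S
    obtain ⟨⟨q, hq⟩, -, M, c, h1, h2, h3⟩ := hL.ct z hzE
    refine ⟨q, M, c, ?_, ?_, h2, ?_⟩
    · intro i hi
      right
      rw [hq, hv', hzS i hi, mul_zero]
    · rw [hq]
      exact h1
    · rw [hq]
      exact h3
  rcases hfin p k K I n g hB.gen b0 ρ0 hB.pb φ hB.pinv hB.one U v' hN m hm hfs with h1 | h1
  · left
    obtain ⟨i0, c0, hc0, h2⟩ := h1.exists
    refine ⟨i0, ?_⟩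
    filter_upwards [h1] with i hi
    obtain ⟨c, hc, h3⟩ := hi
    refine ⟨r i * c * c0⁻¹ * (r i0)⁻¹, by
      have := (hr i).1
      have := (hr i0).1
      positivity, fun f => ?_⟩
    rw [hvv i, hvv i0, h3, h2]
    have h4 := (hr i0).1.ne'
    have h5 := hc0.ne'
    field_simp
  · right
    obtain ⟨κ, iκ, iA, x, ex, ac, φb, N, L, b, s0, y, τ, hR⟩ := h1
    refine ⟨s0 / 2, y, fun f => (L f).coeff.support.image fun μ =>
      (wt (fun j => m (x j)) μ, wt b μ), ⟨half_pos hR.pos, κ, Germ (U : Filter I) ℝ, iκ, iA,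
      inferInstance, inferInstance, inferInstance, F2UL.gm U v', x, ex, ac, φb, N, L,
      fun j => m (x j), b, hR.chart, hR.det, ?_, ?_, ?_⟩, ?_⟩
    · intro t h2 h3
      have h4 := hR.pos
      exact hR.good t h2 (by linarith)
    · intro t h2 h3
      have h4 := hR.pos
      rcases eq_or_lt_of_le h2 with h5 | h5
      · subst h5
        refine ⟨⟨?_, ?_⟩, ?_⟩
        · rw [hR.zero]
          exact hm.inz
        · intro q hq
          have h6 := hR.minz q hq
          rw [hR.zero]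
          refine ⟨?_, ?_⟩
          · intro μ hμ
            rw [ult_wt]
            exact h6.1 μ hμ
          · obtain ⟨μ, hμ, h7⟩ := h6.2
            refine ⟨μ, hμ, ?_⟩
            rw [ult_wt]
            exact h7
        · intro i
          rw [hR.zero, zero_mul, add_zero]
      · exact ⟨hR.onch t h5 (by linarith), hR.xv t h5 (by linarith)⟩
    · intro f m'
      simp only [Finset.mem_image, Finsupp.mem_support_iff]
      constructor
      · rintro ⟨μ, h2, h3⟩
        exact ⟨μ, h2, h3.symm⟩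
      · rintro ⟨μ, h2, h3⟩
        exact ⟨μ, h2, h3.symm⟩
    · intro δ hδ
      have h2 : 0 < min δ (s0 / 2) := lt_min hδ (half_pos hR.pos)
      have h3 := hR.tau.eventually (Ioo_mem_nhdsGT h2)
      filter_upwards [h3, hR.run] with i h4 h5
      obtain ⟨h6, h7⟩ := h4
      obtain ⟨-, -, c, hc, h8⟩ := h5
      refine ⟨τ i, h6, h7.trans_le (min_le_left _ _), h7.trans_le (min_le_right _ _), r i * c,
        mul_pos (hr i).1 hc, fun f => ?_⟩
      rw [hvv i, h8, mul_assoc]

end Pool.Agent.F2PF
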