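import Pool.Agent.Lib.MP_305fdd_al.F2.PF.Stm

set_option autoImplicit false

namespace Pool.Agent.F2PF

open Pool.Agent.F2Ch

theorem p_val (h1 : S_in) (h2 : S_germ) : S_val := by
  classical
  obtain ⟨hex, -, -, hLR, -⟩ := h1
  intro K _ B hB J y M hL t ht hinf hsg t1 htt1 hJ u hu u' hu' hs
  by_contra hs'
  push Not at hs'
  obtain ⟨g1, -, g3⟩ := h2 K B hB J y M hL t ht
  have hexL : ∀ (S : Finset (ℝ × ℝ)), S.Nonempty → ∃ m, IsL S t m := by
    intro S hS
    obtain ⟨n, hn⟩ := hex (S.image rf) (-t) (hS.image rf)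
    obtain ⟨m0, -, hm0⟩ := Finset.mem_image.1 hn.mem
    exact ⟨m0, (hLR S t m0).2 (hm0 ▸ hn)⟩
  set s : ℝ := sd t u with hsdef
  set s' : ℝ := sd t u' with hsdef'
  have hns : (0 : ℝ) < -s := by linarith
  -- the main estimate
  have main : ∀ f ∈ B, f ≠ 0 → ∀ m, IsR (M f) t m →
      y t f = m.1 + t * m.2 ∧ u.1 / (-s) * y t f ≤ m.2 ∧ m.2 ≤ -u'.1 / s' * y t f := by
    intro f hf hf0 m hm
    obtain ⟨m', hm'⟩ := hexL (M f) (hL.ne f hf hf0)
    have e1 := g1 f hf hf0 m (Or.inl hm)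
    have e2 := g1 f hf hf0 m' (Or.inr hm')
    have e3 : m.2 ≤ m'.2 := hm.tie m' hm'.mem (by rw [← e2, ← e1])
    have e4 := hu f hf hf0 m hm
    have e5 := hu' f hf hf0 m' hm'
    have e6 : u.1 * y t f + s * m.2 ≤ 0 := by
      have : dot u m = u.1 * y t f + s * m.2 := by
        rw [e1, hsdef, dot, sd]; ring
      rw [← this]; exact e4
    have e7 : u'.1 * y t f + s' * m'.2 ≤ 0 := by
      have : dot u' m' = u'.1 * y t f + s' * m'.2 := by
        rw [e2, hsdef', dot, sd]; ring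
      rw [← this]; exact e5
    refine ⟨e1, ?_, ?_⟩
    · rw [div_mul_eq_mul_div, div_le_iff₀ hns]
      linarith
    · refine e3.trans ?_
      rw [div_mul_eq_mul_div, le_div_iff₀ hs']
      linarith
  have hab : ∀ f ∈ B, f ≠ 0 → u.1 / (-s) * y t f ≤ -u'.1 / s' * y t f := by
    intro f hf hf0
    obtain ⟨m, hm⟩ := hex (M f) t (hL.ne f hf hf0)
    obtain ⟨-, e1, e2⟩ := main f hf hf0 m hm
    exact e1.trans e2
  have hEq : u.1 / (-s) = -u'.1 / s' := by
    apply le_antisymm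
    · have : ∃ f ∈ B, f ≠ 0 ∧ 0 < y t f := by
        by_contra hcon
        push Not at hcon
        exact hsg hcon
      obtain ⟨f, hf, hf0, hpos⟩ := this
      exact le_of_mul_le_mul_right (hab f hf hf0) hpos
    · obtain ⟨f, hf, hf0, hneg⟩ := hinf
      exact (mul_le_mul_right_of_neg hneg).1 (hab f hf hf0)
  set a : ℝ := u.1 / (-s) with ha
  have hz : ((a, -(1 - t * a)) : ℝ × ℝ) = 0 := by
    apply g3 t1 htt1 hJ
    intro f hf hf0 m hm
    obtain ⟨e0, e1, e2⟩ := main f hf hf0 m hm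
    rw [← hEq] at e2
    have e3 : m.2 = a * y t f := le_antisymm e2 e1
    have e4 : m.1 = (1 - t * a) * y t f := by
      have : m.1 = y t f - t * m.2 := by rw [e0]; ring
      rw [this, e3]; ring
    rw [dot, e3, e4]
    ring
  have h3 : a = 0 := congrArg Prod.fst hz
  have h4 : -(1 - t * a) = 0 := congrArg Prod.snd hz
  rw [h3] at h4
  norm_num at h4

end Pool.Agent.F2PF
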