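import Pool.Agent.Lib.MP_305fdd_al.F2.PF.StmC

set_option autoImplicit false

namespace Pool.Agent.F2PF

open MvPolynomial Pool.Agent.F2Ch Filter Topology

theorem zorn_le_trans {K : Type} [Field K] {B : Set K} {a b c : K → ℝ} (h1 : Le B a b)
    (h2 : Le B b c) : Le B a c := by
  obtain ⟨c1, hc1, h1⟩ := h1
  obtain ⟨c2, hc2, h2⟩ := h2
  refine ⟨c1 * c2, mul_pos hc1 hc2, fun f hf hf0 => (h1 f hf hf0).trans ?_⟩
  rw [mul_assoc]
  exact mul_le_mul_of_nonneg_left (h2 f hf hf0) hc1.le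

theorem zorn_fst {K : Type} [Field K] {w : K → ℝ} {V : K → ℝ ×ₗ ℝ}
    (h : ∀ f, (ofLex (V f)).1 = w f) {z : K} (hz : V z = 0) : w z = 0 := by
  rw [← h z, hz]
  rfl

/-- the upper bound in the second alternative of the ultralimit -/
theorem zorn_line (h_sega : S_sega) (h_segd : S_segd)
    (h_dnl : S_dnl) (h_anti : S_anti) (h_lim : S_lim) (h_dense : S_dense) (h_line : S_line)
    (h_pr : S_pr) (p : ℕ) [Fact p.Prime] (k K : Type) [Field k] [CharP k p] [PerfectRing k p]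
    [Field K] [Algebra k K] (n : ℕ) (g : Fin n → K) (φ : K → K) (E A : Set K) (R : K → ℝ)
    (hC : Ctx k p φ g E A R) (s : ℝ) (y : ℝ → K → ℝ) (M : K → Finset (ℝ × ℝ))
    (hcl : CL k p φ g 0 s y M) (z0 : K) (hz0 : z0 ∈ A) (s0 : ℝ) (hs0 : 0 < s0) (hs0s : s0 < s)
    (h0 : y s0 z0 = 0) (hns : ¬ SG (Br k g) (y s0))
    (hst : ∀ t1, 0 < t1 → t1 ≤ s0 → ∃ t', 0 < t' ∧ t' < t1 ∧ y t' z0 = 0 ∧
      Le (Br k g) (y s0) (y t')) :
    ∀ t, 0 < t → t ≤ s0 → DnL k p φ g A t (fun τ => y (0 + τ)) (sh 0 M) := by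
  obtain ⟨-, hcut⟩ := h_line p k K n g φ
  have hB := hC.1
  obtain ⟨b0, ρ0, hbase⟩ := hB
  obtain ⟨hlineB, hnt, hres⟩ := hcut 0 s y M hcl
  obtain ⟨ha1, ha2, ha3, ha4, ha5⟩ := h_anti p k K n g φ E A R hC
  obtain ⟨hp1, hp2, hp3⟩ := h_pr p k K n g φ
  obtain ⟨hd1, hd2, hd3, hd4⟩ := h_dense p k K n g φ hbase.gen 0 s y M hcl
  have key : ∀ t1, 0 < t1 → t1 ≤ s0 → ∃ t', 0 < t' ∧ t' < t1 ∧
      (∀ t, t' ≤ t → t ≤ s0 → y t z0 = 0 ∧ ¬ SG (Br k g) (y t)) ∧
      ∀ t, t' < t → t < s0 → DesR (Br k g) M t := by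
    intro t1 ht1 ht1'
    obtain ⟨t', ht', htt, hz', hle⟩ := hst t1 ht1 ht1'
    have hc : CL k p φ g t' s0 y M := hres t' s0 ht'.le (htt.trans_le ht1') hs0s.le
    obtain ⟨h1, h2⟩ := h_sega p k K n g φ E A R hC t' s0 y M hc z0 hz0 hz' h0 hns hle
    exact ⟨t', ht', htt, h1, h2⟩
  have hel : ∀ t, 0 < t → t ≤ s0 → y t z0 = 0 ∧ ¬ SG (Br k g) (y t) := by
    intro t ht hts
    obtain ⟨t', ht', htt, h1, -⟩ := key t ht hts
    exact h1 t htt.le hts
  have hdes : ∀ t, 0 < t → t < s0 → DesR (Br k g) M t := by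
    intro t ht hts
    obtain ⟨t', ht', htt, -, h1⟩ := key t ht hts.le
    exact h1 t htt hts
  -- the sequence
  have hz0B : z0 ∈ Br k g ∧ z0 ≠ 0 := ⟨(hC.2.ct z0 (hC.2.sub hz0)).1, (hC.2.ct z0 (hC.2.sub hz0)).2.1⟩
  have hseq : ∀ m : ℕ, 0 < s0 / (m + 2) ∧ s0 / (m + 2) < s0 := by
    intro m
    have hm : (0 : ℝ) < m + 2 := by positivity
    refine ⟨div_pos hs0 hm, ?_⟩
    rw [div_lt_iff₀ hm]
    nlinarith [(Nat.cast_nonneg m : (0 : ℝ) ≤ m)]
  have hseqlim : Tendsto (fun m : ℕ => s0 / ((m : ℝ) + 2)) atTop (𝓝[Set.Icc 0 s] 0) := by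
    rw [tendsto_nhdsWithin_iff]
    constructor
    · have h1 : Tendsto (fun m : ℕ => (m : ℝ) + 2) atTop atTop :=
        tendsto_atTop_add_const_right _ _ tendsto_natCast_atTop_atTop
      exact h1.const_div_atTop s0
    · exact Eventually.of_forall fun m => ⟨(hseq m).1.le, ((hseq m).2.trans hs0s).le⟩
  have hlimf : ∀ f ∈ Br k g, f ≠ 0 →
      Tendsto (fun m : ℕ => y (s0 / ((m : ℝ) + 2)) f) atTop (𝓝 (y 0 f)) := by
    intro f hf hf0
    have h1 : ContinuousWithinAt (fun t => y t f) (Set.Icc 0 s) 0 :=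
      hd2 f hf hf0 0 ⟨le_rfl, (hs0.trans hs0s).le⟩
    exact h1.tendsto.comp hseqlim
  have hy0z : y 0 z0 = 0 := by
    have h1 := hlimf z0 hz0B.1 hz0B.2
    have h2 : (fun m : ℕ => y (s0 / ((m : ℝ) + 2)) z0) = fun _ => 0 := by
      funext m
      exact (hel _ (hseq m).1 (hseq m).2.le).1
    rw [h2] at h1
    exact (tendsto_nhds_unique h1 tendsto_const_nhds)
  have hy0 := hnt 0 le_rfl (hs0.trans hs0s).le
  have hns0 : ¬ SG (Br k g) (y 0) := by
    by_cases hR : Pr R (y 0)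
    · intro hsg
      exact ha5 ((hp2 _ _ ((hp1 R (y 0) R).2.1 hR)).2.1 hsg)
    · have hinf : AtInf (Br k g) (y 0) := (ha4 (y 0) hy0.1 hy0.2).2 hR
      have hle : ∀ m : ℕ, Le (Br k g) (y s0) (y (s0 / ((m : ℝ) + 2))) := by
        intro m
        set t := s0 / ((m : ℝ) + 2) with ht
        have ht0 : 0 < t := (hseq m).1
        have hts : t < s0 := (hseq m).2
        have hc : CL k p φ g t s0 y M := hres t s0 ht0.le hts hs0s.le
        have h1 := h_segd p k K n g φ E A R hC t s0 y M hc z0 hz0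
          (fun r hr hr' => (hel r (ht0.trans_le hr) hr').1)
          (fun r hr hr' => (hel r (ht0.trans_le hr) hr').2)
          (fun r hr hr' => hdes r (ht0.trans hr) hr') t s0 le_rfl hts le_rfl
        obtain ⟨-, -, -, -, h5, -⟩ := h_dnl p k K n g φ E A R hC _ _ _ h1
        have h6 := (h5 0 (s0 - t) le_rfl (sub_pos.2 hts) le_rfl).1
        simpa using h6
      have h7 := (h_lim K (Br k g) ℕ atTop (fun m => y (s0 / ((m : ℝ) + 2))) (y 0) (y s0)
        hlimf).1 hle hinf hns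
      intro hsg
      obtain ⟨c, hc, h8⟩ := h7
      exact hns fun f hf hf0 => (h8 f hf hf0).trans
        (mul_nonpos_of_nonneg_of_nonpos hc.le (hsg f hf hf0))
  -- all points
  have hall : ∀ t, 0 ≤ t → t ≤ s0 → y t z0 = 0 ∧ ¬ SG (Br k g) (y t) := by
    intro t ht hts
    rcases ht.eq_or_lt with rfl | ht
    · exact ⟨hy0z, hns0⟩
    · exact hel t ht hts
  have hc0 : CL k p φ g 0 s0 y M := hres 0 s0 le_rfl hs0 hs0s.le
  intro t ht hts
  have h1 := h_segd p k K n g φ E A R hC 0 s0 y M hc0 z0 hz0 (fun r hr hr' => (hall r hr hr').1)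
    (fun r hr hr' => (hall r hr hr').2) hdes 0 t le_rfl ht hts
  rwa [sub_zero] at h1

theorem p_zorn (h_asc : S_asc) (h_ult : S_ult) (h_rch : S_rch) (h_sega : S_sega)
    (h_segd : S_segd) (h_dnl : S_dnl) (h_anti : S_anti) (h_lim : S_lim) (h_dense : S_dense)
    (h_line : S_line) (h_pr : S_pr) : S_zorn := by
  intro p _ k K _ _ _ _ _ n g φ E A R hC
  obtain ⟨hr1, hr2⟩ := h_rch p k K n g φ E A R hC
  obtain ⟨ha1, ha2, ha3, ha4, ha5⟩ := h_anti p k K n g φ E A R hC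
  obtain ⟨hp1, hp2, hp3⟩ := h_pr p k K n g φ
  have hRPA : PA k p φ g A R := by
    refine ⟨hC.2.Rinz, ha5, ?_, fun _ => hC.2.R7e⟩
    obtain ⟨V, hV, z, hz, hVz⟩ := hC.2.R7e
    exact ⟨z, hz, zorn_fst hV.fst hVz⟩
  refine ⟨hRPA, fun w hw => ?_⟩
  obtain ⟨z0, hz0, hwz0⟩ := hw.2.2.1
  have hz0E : z0 ∈ E := hC.2.sub hz0
  let X : Type := {v : K → ℝ // PA k p φ g A v ∧ Rch k p φ g A v w}
  have hXz : ∀ v : X, v.1 z0 = 0 := fun v => (hr2 v.1 w v.2.1 v.2.2).2.2.1 z0 hz0E hwz0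
  have hne : Nonempty X := ⟨⟨w, hw, Relation.ReflTransGen.refl⟩⟩
  have hzorn : ∃ m : X, ∀ a : X, Rch k p φ g A a.1 m.1 → Rch k p φ g A m.1 a.1 := by
    refine exists_maximal_of_nonempty_chains_bounded
      (r := fun v v' : X => Rch k p φ g A v'.1 v.1) ?_ ?_
    · intro c hc hcne
      let I : Type := {v : X // v ∈ c}
      have : Nonempty I := ⟨⟨hcne.some, hcne.some_mem⟩⟩
      let F : Filter I := ⨅ i : I, 𝓟 {j : I | Rch k p φ g A j.1.1 i.1.1}
      have hF : F.NeBot := by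
        refine iInf_neBot_of_directed' ?_ fun i => ?_
        · intro i j
          have hij : Rch k p φ g A i.1.1 j.1.1 ∨ Rch k p φ g A j.1.1 i.1.1 := by
            by_cases h : i.1 = j.1
            · left
              rw [h]
              exact Relation.ReflTransGen.refl
            · rcases hc i.2 j.2 h with h | h
              · right; exact h
              · left; exact h
          rcases hij with h | h
          · refine ⟨i, le_rfl, ?_⟩
            refine principal_mono.2 fun l hl => ?_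
            exact Relation.ReflTransGen.trans hl h
          · refine ⟨j, ?_, le_rfl⟩
            refine principal_mono.2 fun l hl => ?_
            exact Relation.ReflTransGen.trans hl h
        · exact principal_neBot_iff.2 ⟨i, Relation.ReflTransGen.refl⟩
      let U : Ultrafilter I := Ultrafilter.of F
      have hU : ∀ i : I, ∀ᶠ j in (U : Filter I), Rch k p φ g A j.1.1 i.1.1 := by
        intro i
        have h1 : (U : Filter I) ≤ F := Ultrafilter.of_le F
        exact h1 (mem_iInf_of_mem i (mem_principal_self _))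
      have hnb : (U : Filter I).NeBot := U.neBot
      rcases h_ult p k K n g φ E A R hC I U (fun i => i.1.1) (fun i => by
          refine ⟨i.1.2.1.1, ?_⟩
          by_contra hcon
          push Not at hcon
          exact i.1.2.1.2.1 fun f _ _ => (hcon f).le)
        (fun S => ⟨z0, hz0E, fun i _ => hXz i.1⟩) with ⟨i0, hi0⟩ | ⟨s, y, M, hcl, hrun⟩
      · refine ⟨i0.1, fun a ha => ?_⟩
        obtain ⟨i, h1, h2⟩ := (hi0.and (hU ⟨a, ha⟩)).exists
        exact Relation.ReflTransGen.trans (hr1 _ _ i0.1.2.1 h1).2 h2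
      · have hs : 0 < s := hcl.1
        obtain ⟨i0, s0, hs0, -, hs0s, hpr0⟩ := (hrun 1 one_pos).exists
        have h0 : y s0 z0 = 0 := (hp2 _ _ ((hp1 (y s0) i0.1.1 R).2.1 hpr0)).2.2.2.2.1 z0 (hXz i0.1)
        have hns : ¬ SG (Br k g) (y s0) := fun h => i0.1.2.1.2.1 ((hp2 _ _ hpr0).2.1 h)
        have hD := zorn_line h_sega h_segd h_dnl h_anti h_lim h_dense h_line h_pr p k K n g φ E A R
          hC s y M hcl z0 hz0 s0 hs0 hs0s h0 hns (by
            intro t1 ht1 ht1'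
            obtain ⟨i, ⟨t', ht', htt, hts, hpr⟩, hri⟩ := ((hrun t1 ht1).and (hU i0)).exists
            have h1 : Pr i.1.1 (y t') := (hp1 (y t') i.1.1 R).2.1 hpr
            refine ⟨t', ht', htt, (hp2 _ _ h1).2.2.2.2.1 z0 (hXz i.1), ?_⟩
            have h2 : Le (Br k g) (y s0) i0.1.1 := (hp2 _ _ hpr0).2.2.2.2.2.2.1
            have h3 : Le (Br k g) i0.1.1 i.1.1 := (hr2 _ _ i.1.2.1 hri).2.1
            have h4 : Le (Br k g) i.1.1 (y t') := (hp2 _ _ h1).2.2.2.2.2.2.1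
            exact zorn_le_trans h2 (zorn_le_trans h3 h4))
        have hPA0 : PA k p φ g A (y 0) := by
          obtain ⟨h1, -⟩ := h_dnl p k K n g φ E A R hC _ _ _ (hD s0 hs0 le_rfl)
          have h2 := h1 0 le_rfl hs0.le
          simpa using h2
        have hstep : ∀ t, 0 < t → t ≤ s0 → ∀ v : K → ℝ, Pr (y t) v → Rch k p φ g A (y 0) v := by
          intro t ht hts v hv
          refine Relation.ReflTransGen.single (Or.inr ⟨t, _, _, hD t ht hts, ?_, ?_⟩)
          · simpa using (hp1 (y 0) (y 0) (y 0)).1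
          · simpa using hv
        refine ⟨⟨y 0, hPA0, Relation.ReflTransGen.trans (hstep s0 hs0 le_rfl _ hpr0) i0.1.2.2⟩,
          fun a ha => ?_⟩
        obtain ⟨i, ⟨t, ht, htt, -, hpr⟩, hri⟩ := ((hrun s0 hs0).and (hU ⟨a, ha⟩)).exists
        exact Relation.ReflTransGen.trans (hstep t ht htt.le _ hpr) hri
    · intro a b c hab hbc
      exact Relation.ReflTransGen.trans hbc hab
  obtain ⟨m, hm⟩ := hzorn
  have hRm : Pr R m.1 := by
    by_contra hcon
    obtain ⟨v, hv, hdn, hnpr⟩ := h_asc p k K n g φ E A R hC m.1 m.2.1 hcon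
    have h1 : Rch k p φ g A v m.1 := Relation.ReflTransGen.single hdn
    have h2 := hm ⟨v, hv, Relation.ReflTransGen.trans h1 m.2.2⟩ h1
    exact hnpr ((hr2 v m.1 hv h1).2.2.2 h2)
  exact Relation.ReflTransGen.trans (hr1 R m.1 hRPA hRm).2 m.2.2

end Pool.Agent.F2PF
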