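import Pool.Agent.Lib.MP_305fdd_al.F2.ChMain
import Pool.Agent.Lib.MP_305fdd_al.F2.UL.p_lim
import Pool.Agent.Lib.MP_305fdd_al.F2.UL.p_fin
import Pool.Agent.Lib.MP_305fdd_al.F2.UL.p_zero
import Pool.Agent.Lib.MP_305fdd_al.F2.UL.p_one
import Pool.Agent.Lib.MP_305fdd_al.F2.UL.p_two
import Pool.Agent.Lib.MP_305fdd_al.F2.UL.p_three
import Pool.Agent.Lib.MP_305fdd_al.F2.PF.P_cS
import Pool.Agent.Lib.MP_305fdd_al.F2.PF.P_cirr
import Pool.Agent.Lib.MP_305fdd_al.F2.PF.P_coin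
import Pool.Agent.Lib.MP_305fdd_al.F2.PF.P_crev
import Pool.Agent.Lib.MP_305fdd_al.F2.PF.P_ell
import Pool.Agent.Lib.MP_305fdd_al.F2.PF.P_ext
import Pool.Agent.Lib.MP_305fdd_al.F2.PF.P_fstart
import Pool.Agent.Lib.MP_305fdd_al.F2.PF.P_fvert
import Pool.Agent.Lib.MP_305fdd_al.F2.PF.P_gap
import Pool.Agent.Lib.MP_305fdd_al.F2.PF.P_gor
import Pool.Agent.Lib.MP_305fdd_al.F2.PF.P_in
import Pool.Agent.Lib.MP_305fdd_al.F2.PF.P_irr
import Pool.Agent.Lib.MP_305fdd_al.F2.PF.P_key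
import Pool.Agent.Lib.MP_305fdd_al.F2.PF.P_lim
import Pool.Agent.Lib.MP_305fdd_al.F2.PF.P_line
import Pool.Agent.Lib.MP_305fdd_al.F2.PF.P_pers
import Pool.Agent.Lib.MP_305fdd_al.F2.PF.P_pr
import Pool.Agent.Lib.MP_305fdd_al.F2.PF.P_refl
import Pool.Agent.Lib.MP_305fdd_al.F2.PF.P_rk2
import Pool.Agent.Lib.MP_305fdd_al.F2.PF.P_shift
import Pool.Agent.Lib.MP_305fdd_al.F2.PF.P_strict
import Pool.Agent.Lib.MP_305fdd_al.F2.PF.P_ult
import Pool.Agent.Lib.MP_305fdd_al.F2.PF.P_anti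
import Pool.Agent.Lib.MP_305fdd_al.F2.PF.P_cflag
import Pool.Agent.Lib.MP_305fdd_al.F2.PF.P_dense
import Pool.Agent.Lib.MP_305fdd_al.F2.PF.P_feq
import Pool.Agent.Lib.MP_305fdd_al.F2.PF.P_fper
import Pool.Agent.Lib.MP_305fdd_al.F2.PF.P_fun
import Pool.Agent.Lib.MP_305fdd_al.F2.PF.P_germ
import Pool.Agent.Lib.MP_305fdd_al.F2.PF.P_keyL
import Pool.Agent.Lib.MP_305fdd_al.F2.PF.P_nsg
import Pool.Agent.Lib.MP_305fdd_al.F2.PF.P_persL
import Pool.Agent.Lib.MP_305fdd_al.F2.PF.P_rfl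
import Pool.Agent.Lib.MP_305fdd_al.F2.PF.P_rsh
import Pool.Agent.Lib.MP_305fdd_al.F2.PF.P_val
import Pool.Agent.Lib.MP_305fdd_al.F2.PF.P_arr
import Pool.Agent.Lib.MP_305fdd_al.F2.PF.P_clo
import Pool.Agent.Lib.MP_305fdd_al.F2.PF.P_cloL
import Pool.Agent.Lib.MP_305fdd_al.F2.PF.P_fline
import Pool.Agent.Lib.MP_305fdd_al.F2.PF.P_inner
import Pool.Agent.Lib.MP_305fdd_al.F2.PF.P_inter
import Pool.Agent.Lib.MP_305fdd_al.F2.PF.P_lfl
import Pool.Agent.Lib.MP_305fdd_al.F2.PF.P_pal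
import Pool.Agent.Lib.MP_305fdd_al.F2.PF.P_segd
import Pool.Agent.Lib.MP_305fdd_al.F2.PF.P_segl
import Pool.Agent.Lib.MP_305fdd_al.F2.PF.P_sgn
import Pool.Agent.Lib.MP_305fdd_al.F2.PF.P_dne
import Pool.Agent.Lib.MP_305fdd_al.F2.PF.P_dnl
import Pool.Agent.Lib.MP_305fdd_al.F2.PF.P_fdep
import Pool.Agent.Lib.MP_305fdd_al.F2.PF.P_loc
import Pool.Agent.Lib.MP_305fdd_al.F2.PF.P_mono
import Pool.Agent.Lib.MP_305fdd_al.F2.PF.P_nsn
import Pool.Agent.Lib.MP_305fdd_al.F2.PF.P_rch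
import Pool.Agent.Lib.MP_305fdd_al.F2.PF.P_sega
import Pool.Agent.Lib.MP_305fdd_al.F2.PF.P_segb
import Pool.Agent.Lib.MP_305fdd_al.F2.PF.P_asc
import Pool.Agent.Lib.MP_305fdd_al.F2.PF.P_det
import Pool.Agent.Lib.MP_305fdd_al.F2.PF.P_tot
import Pool.Agent.Lib.MP_305fdd_al.F2.PF.P_zorn
import Pool.Agent.Lib.MP_305fdd_al.F2.PF.P_bot
import Pool.Agent.Lib.MP_305fdd_al.F2.PF.P_btw
import Pool.Agent.Lib.MP_305fdd_al.F2.PF.P_fat
import Pool.Agent.Lib.MP_305fdd_al.F2.PF.P_two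
import Pool.Agent.Lib.MP_305fdd_al.F2.PF.P_bfat
import Pool.Agent.Lib.MP_305fdd_al.F2.PF.P_bnd
import Pool.Agent.Lib.MP_305fdd_al.F2.PF.P_bni
import Pool.Agent.Lib.MP_305fdd_al.F2.PF.P_bsd
import Pool.Agent.Lib.MP_305fdd_al.F2.PF.P_bsi
import Pool.Agent.Lib.MP_305fdd_al.F2.PF.P_min
import Pool.Agent.Lib.MP_305fdd_al.F2.PF.P_fin

/-!
# MP_305fdd_al, F_2 project, section PF: all statements without hypotheses
-/

set_option autoImplicit false

namespace Pool.Agent.F2PF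

open Pool.Agent

theorem t_cS : S_cS := p_cS
theorem t_cirr : S_cirr := p_cirr F2Ch.t_X2 F2Ch.t_X3
theorem t_coin : S_coin := p_coin
theorem t_crev : S_crev := p_crev
theorem t_ell : S_ell := p_ell
theorem t_ext : S_ext := p_ext
theorem t_fstart : S_fstart := p_fstart
theorem t_fvert : S_fvert := p_fvert
theorem t_gap : S_gap := p_gap
theorem t_gor : S_gor := p_gor
theorem t_in : S_in := p_in
theorem t_irr : S_irr := p_irr
theorem t_key : S_key := p_key t_in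
theorem t_lim : S_lim := p_lim
theorem t_line : S_line := p_line
theorem t_pers : S_pers := p_pers t_in
theorem t_pr : S_pr := p_pr
theorem t_refl : S_refl := p_refl t_in
theorem t_rk2 : S_rk2 := p_rk2
theorem t_shift : S_shift := p_shift
theorem t_strict : S_strict := p_strict
theorem t_ult : S_ult := p_ult F2UL.p_lim (F2UL.p_fin F2UL.p_zero F2UL.p_one F2UL.p_two F2UL.p_three)
theorem t_anti : S_anti := p_anti t_strict t_line t_pr
theorem t_cflag : S_cflag := p_cflag t_rk2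
theorem t_dense : S_dense := p_dense t_line
theorem t_feq : S_feq := p_feq t_rk2
theorem t_fper : S_fper := p_fper t_key t_pers t_line
theorem t_fun : S_fun := p_fun t_rk2
theorem t_germ : S_germ := p_germ t_in
theorem t_keyL : S_keyL := p_keyL t_key t_refl
theorem t_nsg : S_nsg := p_nsg t_in t_germ t_refl
theorem t_persL : S_persL := p_persL t_refl t_pers
theorem t_rfl : S_rfl := p_rfl t_line t_in t_germ
theorem t_rsh : S_rsh := p_rsh t_crev t_refl t_shift t_line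
theorem t_val : S_val := p_val t_in t_germ
theorem t_arr : S_arr := p_arr t_persL t_key t_nsg
theorem t_clo : S_clo := p_clo t_in t_germ
theorem t_cloL : S_cloL := p_cloL t_clo t_refl
theorem t_fline : S_fline := p_fline t_pers t_key t_nsg
theorem t_inner : S_inner := p_inner t_pers t_key t_nsg
theorem t_inter : S_inter := p_inter t_pers t_key t_nsg t_val t_lim t_germ t_in
theorem t_lfl : S_lfl := p_lfl t_rfl t_crev t_refl t_line
theorem t_pal : S_pal := p_pal t_rk2 t_rfl t_lfl t_line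
theorem t_segd : S_segd := p_segd t_rsh t_clo t_nsg t_anti t_rfl t_pal t_pr t_line
theorem t_segl : S_segl := p_segl t_segd t_rsh
theorem t_sgn : S_sgn := p_sgn t_pers t_persL t_key t_nsg t_val t_clo t_refl
theorem t_dne : S_dne := p_dne t_rk2 t_rfl t_lfl
theorem t_dnl : S_dnl := p_dnl t_line t_rsh t_key t_pers t_pal t_anti t_pr
theorem t_fdep : S_fdep := p_fdep t_fvert t_nsg t_fun t_rfl t_lfl t_pal t_pr t_dnl t_line
theorem t_loc : S_loc := p_loc t_rfl t_pal t_pr t_anti t_feq t_fun t_coin t_nsg t_line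
theorem t_mono : S_mono := p_mono t_sgn t_dne t_rfl t_lfl t_gap t_irr t_nsg t_anti t_rk2 t_pr t_line
theorem t_nsn : S_nsn := p_nsn t_dense t_cS t_mono t_inter t_rsh t_anti t_line
theorem t_rch : S_rch := p_rch t_pr t_dnl t_ell t_anti
theorem t_sega : S_sega := p_sega t_ell t_line t_mono t_cloL t_nsg t_anti t_keyL t_persL
theorem t_segb : S_segb := p_segb t_sega t_rsh
theorem t_asc : S_asc := p_asc t_anti t_cflag t_cirr t_dense t_mono t_segd t_segl t_dnl t_line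
theorem t_det : S_det := p_det t_loc t_dnl t_dense t_line
theorem t_tot : S_tot := p_tot t_det t_dnl t_rch t_pr
theorem t_zorn : S_zorn := p_zorn t_asc t_ult t_rch t_sega t_segd t_dnl t_anti t_lim t_dense t_line t_pr
theorem t_bot : S_bot := p_bot t_ult t_zorn t_tot t_rch t_segb t_segl t_pal t_cflag t_dense t_anti t_line t_pr
theorem t_btw : S_btw := p_btw t_det t_dnl t_rch t_pr
theorem t_fat : S_fat := p_fat t_zorn t_fdep t_fper t_pr
theorem t_two : S_two := p_two t_zorn t_tot t_btw t_rch t_pal t_segl t_dnl t_anti t_lim t_dense t_line t_pr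
theorem t_bfat : S_bfat := p_bfat t_fat t_fdep t_rsh t_dnl
theorem t_bnd : S_bnd := p_bnd t_keyL t_persL t_anti t_ell t_dense t_bfat t_segl t_dnl t_line
theorem t_bni : S_bni := p_bni t_irr t_dense t_keyL t_persL t_ell t_bfat t_pal t_anti t_rch t_line
theorem t_bsd : S_bsd := p_bsd t_arr t_bfat t_rfl t_rk2 t_ell t_dense t_anti t_cflag t_nsn t_two t_line
theorem t_bsi : S_bsi := p_bsi t_irr t_bfat t_rsh t_inner t_dense t_anti t_ell t_cS t_line
theorem t_min : S_min := p_min t_cirr t_cflag t_dense t_mono t_segd t_segl t_rch t_anti t_two t_line t_pr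
theorem t_fin : S_fin := p_fin t_bot t_min t_bni t_bnd t_bsi t_bsd

end Pool.Agent.F2PF
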