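import Pool.Agent.Lib.MP_305fdd_al.F2.PF.StmB

/-!
# MP_305fdd_al, F_2 project, section PF, part B2 (order, fatness, bottom of `P_a`): the pieces [F2PF ..]

Every `def S_xx : Prop` is one independent piece; its docstring contains the complete proof.  The other statements (of
`PF/Stm.lean`, `PF/StmB.lean` and of this file) may be taken as hypotheses.

Conventions.  `B = Br k g`; NS = not semi-good (`¬ SG B v`); `v ~ v'` means `Pr v v'`.  `Dn x x'`: `x'` is the bottom of a straight descending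
segment with top `x` (or `x ~ x'`); `Rch`: finite chains.  `sh t M`, `rsh t M`: the exponents of the lines `τ ↦ y (t + τ)`, `τ ↦ y (t - τ)`.
`S_anti` is cited by its parts (a) antisymmetry, (b) points of a line, (c) semi-good implies at infinity, (d) `AtInf v ↔ ¬ R ~ v`, (e) `R` is NS.
`S_ell`: (a) `V z ≤ 0`, (b) ellipticity goes up, (c) convexity.  `S_dense`: (a) density, (b) continuity, (c) NS is open, (d) `AtInf` is open.
-/

set_option autoImplicit false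

namespace Pool.Agent.F2PF

open MvPolynomial Pool.Agent.F2Ch

/-! ## 1. Segments -/

/-- [F2PF keyL] (about 40 lines) Uses `S_key`, `S_refl`. The mirror image of `S_key` (b).
Proof. `S_key` (b) for the reflected line and `rf u` at `-t`: `sd (-t) (rf u) = - sd t u`. -/
def S_keyL : Prop :=
  ∀ (K : Type) [Field K] (B : Set K) (J : Set ℝ) (y : ℝ → K → ℝ) (M : K → Finset (ℝ × ℝ)),
    Line B J y M → ∀ t ∈ J, ∀ u : ℝ × ℝ, (u ∈ DR B M t ∨ u ∈ DL B M t) →
    ∀ t', t' < t → Set.Icc t' t ⊆ J → (∀ r, t' ≤ r → r < t → ¬ SG B (y r)) →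
      sd t u < 0 → sd t' u < 0

/-- [F2PF cloL] (about 40 lines) Uses `S_clo`, `S_refl`. The mirror image of `S_clo`.
Proof. `S_clo` for the reflected line at `-t` with `-σ`: `-σ * sd (-t') (rf u) = σ * sd t' u`. -/
def S_cloL : Prop :=
  ∀ (K : Type) [Field K] (B : Set K), Bs B → ∀ (J : Set ℝ) (y : ℝ → K → ℝ)
    (M : K → Finset (ℝ × ℝ)), Line B J y M → ∀ t ∈ J, ∀ t1, t1 < t → Set.Icc t1 t ⊆ J →
    ∀ σ : ℝ, (∀ δ > 0, ∃ t', t - δ < t' ∧ t' < t ∧ ∃ u : ℝ × ℝ,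
      (u ∈ DR B M t' ∨ u ∈ DL B M t') ∧ u ≠ 0 ∧ 0 ≤ σ * sd t' u) →
    ∃ u ∈ DL B M t, u ≠ 0 ∧ 0 ≤ σ * sd t u

/-- [F2PF rsh] (about 80 lines) Uses `S_crev`, `S_refl`, `S_shift`, `S_line`. Subintervals, shifted and reversed.
Proof. Restrict to `[t, t']`, then shift by `t`, resp. reverse and shift by `- t'` (`S_crev`; the images of the exponents compose: `rf` and then `m ↦ (m.1 + (-t') * m.2, m.2)` is `m ↦ (m.1 + t' * m.2, - m.2)`).  Functionals: with `u' = (u.1, t' * u.1 - u.2)`, `dot u' (m.1 + t' * m.2, - m.2) = dot u m` and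
`sd τ u' = - sd (t' - τ) u`, and `IsL (M f) (t' - τ) m ↔ IsR (rsh t' M f) τ (m.1 + t' * m.2, - m.2)`; this holds for all `t'`, `τ` (it is `S_shift` and `S_refl`). -/
def S_rsh : Prop :=
  ∀ (p : ℕ) [Fact p.Prime] (k K : Type) [Field k] [CharP k p] [PerfectRing k p] [Field K]
    [Algebra k K] (n : ℕ) (g : Fin n → K) (φ : K → K), FracGen k g → ∀ (s1 s2 : ℝ)
    (y : ℝ → K → ℝ) (M : K → Finset (ℝ × ℝ)), CL k p φ g s1 s2 y M →
    (∀ t t', s1 ≤ t → t < t' → t' ≤ s2 →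
      CL k p φ g 0 (t' - t) (fun τ => y (t + τ)) (sh t M) ∧
      CL k p φ g 0 (t' - t) (fun τ => y (t' - τ)) (rsh t' M)) ∧
    (∀ t τ (u : ℝ × ℝ), (u ∈ DR (Br k g) M (t + τ) ↔ (u.1, u.2 - t * u.1) ∈
        DR (Br k g) (sh t M) τ) ∧
      (u ∈ DL (Br k g) M (t + τ) ↔ (u.1, u.2 - t * u.1) ∈ DL (Br k g) (sh t M) τ) ∧
      sd τ (u.1, u.2 - t * u.1) = sd (t + τ) u) ∧
    ∀ t τ (u : ℝ × ℝ), (u ∈ DL (Br k g) M (t - τ) ↔ (u.1, t * u.1 - u.2) ∈
        DR (Br k g) (rsh t M) τ) ∧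
      (u ∈ DR (Br k g) M (t - τ) ↔ (u.1, t * u.1 - u.2) ∈ DL (Br k g) (rsh t M) τ) ∧
      sd τ (u.1, t * u.1 - u.2) = -sd (t - τ) u

/-- [F2PF pal] (about 60 lines) Uses `S_rk2`, `S_rfl`, `S_lfl`, `S_line`. Flags of lines; the points of a line with an elliptic element of class `a` which are NS are in `P_a`.
Proof. `V z = 0` by `S_rfl` (`S_lfl`), `z ≠ 0` by `LocF.ct`.  `Flag`: `inz`, `fst`, and `nt` from `S_rk2` (third part, `RFl.nd`).  `PA`: at `t < s2` the right flag, at `t = s2` the left flag. -/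
def S_pal : Prop :=
  ∀ (p : ℕ) [Fact p.Prime] (k K : Type) [Field k] [CharP k p] [PerfectRing k p] [Field K]
    [Algebra k K] (n : ℕ) (g : Fin n → K) (φ : K → K) (E A : Set K) (R : K → ℝ),
    Ctx k p φ g E A R → ∀ (s1 s2 : ℝ)
    (y : ℝ → K → ℝ) (M : K → Finset (ℝ × ℝ)), CL k p φ g s1 s2 y M → ∀ z ∈ A,
    (∀ t, s1 ≤ t → t ≤ s2 → y t z = 0) →
    (∀ t, s1 ≤ t → t < s2 → ∀ V, RFl k p φ g y M t V →
      V z = 0 ∧ (Dv (y t) → Flag k p φ (y t) V)) ∧
    (∀ t, s1 < t → t ≤ s2 → ∀ V, LFl k p φ g y M t V →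
      V z = 0 ∧ (Dv (y t) → Flag k p φ (y t) V)) ∧
    ∀ t, s1 ≤ t → t ≤ s2 → ¬ SG (Br k g) (y t) → PA k p φ g A (y t)

/-- [F2PF segd] (about 120 lines) Uses `S_rsh`, `S_clo`, `S_nsg`, `S_anti`, `S_rfl`, `S_pal`, `S_pr`, `S_line`. Descending lines are `DnL`, including the end points.
Proof. The line `τ ↦ y (t + τ)` on `[0, t' - t]` (`S_rsh`); `des` at `0` means `DesR B M t`.  This is given if `s1 < t`.  Let `t = s1`.  `S_clo` with `σ = 1`: a nonzero `u ∈ DR B M s1` with `0 ≤ sd s1 u`.  If `AtInf (y s1)` then `sd s1 u ≠ 0` (`S_nsg`, first part), so `DesR`.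
Otherwise `Pr R (y s1)` (`S_anti` (d)), `y s1 = c R`; let `V` be the right flag at `s1` (`S_rfl`, `S_pal`), rescaled to a flag `V'` at `R` (`S_pr`; `c2 V' = c2 V`); `LocF.R7f`: `(-μ, 1) ∈ DV B R (c2 V')`, so `(-μ / c, 1) ∈ DV B (y s1) (c2 V)` and `u = (-μ / c, 1 + s1 * (-μ / c))` is in `DR B M s1` by `RFl.dr`,
`sd s1 u = 1`. -/
def S_segd : Prop :=
  ∀ (p : ℕ) [Fact p.Prime] (k K : Type) [Field k] [CharP k p] [PerfectRing k p] [Field K]
    [Algebra k K] (n : ℕ) (g : Fin n → K) (φ : K → K) (E A : Set K) (R : K → ℝ),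
    Ctx k p φ g E A R → ∀ (s1 s2 : ℝ)
    (y : ℝ → K → ℝ) (M : K → Finset (ℝ × ℝ)), CL k p φ g s1 s2 y M → ∀ z ∈ A,
    (∀ t, s1 ≤ t → t ≤ s2 → y t z = 0) → (∀ t, s1 ≤ t → t ≤ s2 → ¬ SG (Br k g) (y t)) →
    (∀ t, s1 < t → t < s2 → DesR (Br k g) M t) →
    ∀ t t', s1 ≤ t → t < t' → t' ≤ s2 →
      DnL k p φ g A (t' - t) (fun τ => y (t + τ)) (sh t M)

/-- [F2PF segl] (about 60 lines) Uses `S_segd`, `S_rsh`. The mirror image of `S_segd`.
Proof. `S_segd` for the line `Y τ = y (s2 - τ)` on `[0, s2 - s1]` with the exponents `rsh s2 M`; `Y (a + τ) = y ((s2 - a) - τ)` and `sh a (rsh s2 M) = rsh (s2 - a) M` (composition of images: `(m.1 + s2 m.2 - a m.2, - m.2)`). -/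
def S_segl : Prop :=
  ∀ (p : ℕ) [Fact p.Prime] (k K : Type) [Field k] [CharP k p] [PerfectRing k p] [Field K]
    [Algebra k K] (n : ℕ) (g : Fin n → K) (φ : K → K) (E A : Set K) (R : K → ℝ),
    Ctx k p φ g E A R → ∀ (s1 s2 : ℝ)
    (y : ℝ → K → ℝ) (M : K → Finset (ℝ × ℝ)), CL k p φ g s1 s2 y M → ∀ z ∈ A,
    (∀ t, s1 ≤ t → t ≤ s2 → y t z = 0) → (∀ t, s1 ≤ t → t ≤ s2 → ¬ SG (Br k g) (y t)) →
    (∀ t, s1 < t → t < s2 → DesL (Br k g) M t) →
    ∀ t t', s1 ≤ t → t < t' → t' ≤ s2 →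
      DnL k p φ g A (t' - t) (fun τ => y (t' - τ)) (rsh t' M)

/-- [F2PF sega] (about 150 lines) Uses `S_ell`, `S_line`, `S_mono`, `S_cloL`, `S_nsg`, `S_anti`, `S_keyL`, `S_persL`. FROM THE ORDER TO THE DIRECTION.
Proof. Elliptic: `S_ell` (c).  NS: let `f ∈ B`, `0 < y s2 f`; `y s2 f ≤ c * y s1 f`, so `0 < y s1 f`; for `t` between, `y t f = m.1 + t * m.2` for some `m ∈ M f` and `m.1 + s1 * m.2 ≥ y s1 f > 0`, `m.1 + s2 * m.2 ≥ y s2 f > 0`, so `0 < y t f`.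
`S_mono`: `DesR` on `(s1, s2)` or `DesL` on `(s1, s2)`; suppose `DesL`.  `AtInf (y s2)`: otherwise (`S_anti` (d)) `0 ≤ y s2 f ≤ c * y s1 f` for all `f ∈ B - 0`, so `R ~ y s2` and `R ~ y s1`, `y s1 ~ y s2`, `s1 = s2` (`S_anti` (b)).  `S_cloL` at `s2` with `σ = -1`: a nonzero `u ∈ DL B M s2` with `sd s2 u ≤ 0`, so `< 0` by `S_nsg`
(first part).  `S_keyL` (all `y r`, `s1 ≤ r < s2`, are NS): `sd s1 u < 0`; `S_persL` from `s2` to `s1`: `y s1 f ≤ (sd s1 u / sd s2 u) * y s2 f`: `Le B (y s1) (y s2)`.  `S_anti` (a), (b): `s1 = s2`, a contradiction. -/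
def S_sega : Prop :=
  ∀ (p : ℕ) [Fact p.Prime] (k K : Type) [Field k] [CharP k p] [PerfectRing k p] [Field K]
    [Algebra k K] (n : ℕ) (g : Fin n → K) (φ : K → K) (E A : Set K) (R : K → ℝ),
    Ctx k p φ g E A R → ∀ (s1 s2 : ℝ)
    (y : ℝ → K → ℝ) (M : K → Finset (ℝ × ℝ)), CL k p φ g s1 s2 y M → ∀ z ∈ A,
    y s1 z = 0 → y s2 z = 0 → ¬ SG (Br k g) (y s2) → Le (Br k g) (y s2) (y s1) →
    (∀ t, s1 ≤ t → t ≤ s2 → y t z = 0 ∧ ¬ SG (Br k g) (y t)) ∧
    ∀ t, s1 < t → t < s2 → DesR (Br k g) M t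

/-- [F2PF segb] (about 60 lines) Uses `S_sega`, `S_rsh`. The mirror image of `S_sega`.
Proof. `S_sega` for `τ ↦ y (s2 - τ)` on `[0, s2 - s1]`, exponents `rsh s2 M`; `DesR B (rsh s2 M) τ` gives `DesL B M (s2 - τ)` (`S_rsh`, third part: given `u' ∈ DR B (rsh s2 M) τ` put `u = (u'.1, s2 * u'.1 - u'.2)`). -/
def S_segb : Prop :=
  ∀ (p : ℕ) [Fact p.Prime] (k K : Type) [Field k] [CharP k p] [PerfectRing k p] [Field K]
    [Algebra k K] (n : ℕ) (g : Fin n → K) (φ : K → K) (E A : Set K) (R : K → ℝ),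
    Ctx k p φ g E A R → ∀ (s1 s2 : ℝ)
    (y : ℝ → K → ℝ) (M : K → Finset (ℝ × ℝ)), CL k p φ g s1 s2 y M → ∀ z ∈ A,
    y s1 z = 0 → y s2 z = 0 → ¬ SG (Br k g) (y s1) → Le (Br k g) (y s1) (y s2) →
    (∀ t, s1 ≤ t → t ≤ s2 → y t z = 0 ∧ ¬ SG (Br k g) (y t)) ∧
    ∀ t, s1 < t → t < s2 → DesL (Br k g) M t

/-- [F2PF dnl] (about 150 lines) Uses `S_line`, `S_rsh`, `S_key`, `S_pers`, `S_pal`, `S_anti`, `S_pr`. PROPERTIES OF DESCENDING SEGMENTS.
Proof. Let `u ∈ DR B M 0`, `0 < sd 0 u`.  `S_key` (b): `0 < sd t u` for `0 ≤ t ≤ s`; `S_pers` (from `0` to `t`): `u ∈ DR B M t ∩ DL B M t` for `0 < t ≤ s`.  From `t` to `t'`: `y t' f ≤ (sd t' u / sd t u) * y t f`, the factor is positive: `Le`.  `PA`: `S_pal`.  The line `τ ↦ y (t + τ)` (`S_rsh`): `des` at `0` is `DesR B M t`; `ns`,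
`el` are inherited.  `AtInf (y t)` for `t > 0`: otherwise `R ~ y t` (`S_anti` (d)), `0 ≤ y t f ≤ c * y 0 f` on `B - 0`, so `R ~ y 0`, `y 0 ~ y t`, `t = 0`.  `Dn (y t) (y t')`: for `t < t'` the second alternative with `Pr` reflexive (`y (t + 0) = y t`, `y (t + (t' - t)) = y t'`), for `t = t'` the first. -/
def S_dnl : Prop :=
  ∀ (p : ℕ) [Fact p.Prime] (k K : Type) [Field k] [CharP k p] [PerfectRing k p] [Field K]
    [Algebra k K] (n : ℕ) (g : Fin n → K) (φ : K → K) (E A : Set K) (R : K → ℝ),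
    Ctx k p φ g E A R → ∀ (s : ℝ) (y : ℝ → K → ℝ) (M : K → Finset (ℝ × ℝ)),
    DnL k p φ g A s y M →
    (∀ t, 0 ≤ t → t ≤ s → PA k p φ g A (y t)) ∧
    (∀ t, 0 < t → t ≤ s → AtInf (Br k g) (y t)) ∧
    (∀ t, 0 ≤ t → t < s → DesR (Br k g) M t) ∧
    (∀ t, 0 < t → t ≤ s → ∃ u ∈ DL (Br k g) M t, 0 < sd t u) ∧
    (∀ t t', 0 ≤ t → t < t' → t' ≤ s → Le (Br k g) (y t') (y t) ∧
      DnL k p φ g A (t' - t) (fun τ => y (t + τ)) (sh t M)) ∧
    ∀ t t', 0 ≤ t → t ≤ t' → t' ≤ s → Dn k p φ g A (y t) (y t')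

/-- [F2PF rch] (about 100 lines) Uses `S_pr`, `S_dnl`, `S_ell`, `S_anti`. Chains.
Proof. (a) `PA` is invariant under `Pr`: `S_pr` (rescale the flag).  (b) One step `Dn x x'`, `PA x`: first alternative: (a), `Le` by `S_pr`; second alternative: `S_dnl` (`PA (y s)`, `Le B (y s) (y 0)`) and scaling.  Induction over the chain (`Le` is transitive).  Ellipticity: `S_ell` (b).  (c) `Rch x x'` and `Rch x' x`: `Le` in both directions,
`S_anti` (a). -/
def S_rch : Prop :=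
  ∀ (p : ℕ) [Fact p.Prime] (k K : Type) [Field k] [CharP k p] [PerfectRing k p] [Field K]
    [Algebra k K] (n : ℕ) (g : Fin n → K) (φ : K → K) (E A : Set K) (R : K → ℝ),
    Ctx k p φ g E A R →
    (∀ x x' : K → ℝ, PA k p φ g A x → Pr x x' → PA k p φ g A x' ∧ Rch k p φ g A x x') ∧
    ∀ x x' : K → ℝ, PA k p φ g A x → Rch k p φ g A x x' → PA k p φ g A x' ∧
      Le (Br k g) x' x ∧ (∀ z ∈ E, x' z = 0 → x z = 0) ∧ (Rch k p φ g A x' x → Pr x x')

/-! ## 2. Uniqueness -/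

/-- [F2PF feq] (about 120 lines) Uses `S_rk2`. Equivalent flags with the same divisorial first component.
Proof. `S_rk2` for `V`: chart, `x`, `ex`, `IsVB V x ex`.  For `f ≠ 0` let `h = f * ∏ i, x i ^ (- ex f i)`: `V h = 0`; by `Eqv` for `h` and `h⁻¹`, `V' h = 0`.  So `V' f = ∑ ex f i • V' (x i)`, in particular for `c2 V'`; and `w f`, `c2 V f` are given by the same formula.  The determinant `w (x 0) * c2 V (x 1) - w (x 1) * c2 V (x 0)` is not `0`
(otherwise `nd` fails, by the formula).  Solve `c2 V' (x i) = α * w (x i) + β * c2 V (x i)`, `i = 0, 1` (Cramer); then it holds for all `f ≠ 0`, and for `f = 0` all terms are `0`.  `0 < β`: `S_rk2` (third part): `f ≠ 0` with `w f = 0`, `c2 V f ≠ 0`, and `0 < c2 V f` after replacing `f` by `f⁻¹`; `0 < V f`, so `0 < V' f`, and the first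
component of `V' f` is `w' f = 0`, so `0 < c2 V' f = β * c2 V f`. -/
def S_feq : Prop :=
  ∀ (p : ℕ) [Fact p.Prime] (k K : Type) [Field k] [CharP k p] [PerfectRing k p] [Field K]
    [Algebra k K] (n : ℕ) (g : Fin n → K) (φ : K → K) (E A : Set K) (R : K → ℝ),
    Ctx k p φ g E A R → ∀ (w w' : K → ℝ) (V V' : K → ℝ ×ₗ ℝ), InZ k p φ V → InZ k p φ V' →
    (∀ f, (ofLex (V f)).1 = w f) → (∀ f, (ofLex (V' f)).1 = w' f) →
    (∃ x1 x2, x1 ≠ 0 ∧ x2 ≠ 0 ∧ w x1 * c2 V x2 - w x2 * c2 V x1 ≠ 0) → (∃ z ∈ E, V z = 0) →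
    Pr w w' → Dv w → Eqv V V' →
    ∃ α β : ℝ, 0 < β ∧ ∀ f, c2 V' f = α * w f + β * c2 V f

/-- [F2PF fun] (about 100 lines) Uses `S_rk2`. The same for an irrational first component (no equivalence is needed).
Proof. As in `S_feq`: `V h = 0` gives `w h = 0`, so `w' h = 0`, and by `S_rk2` (second part) for `V'` (`¬ Dv w'` since `w ~ w'`) `V' h = 0`.  So `c2 V' = α w + β c2 V`.  `β ≠ 0`: otherwise `c2 V' = (α / c) w'` (`w' = c w`) and `nd` for `V'` fails. -/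
def S_fun : Prop :=
  ∀ (p : ℕ) [Fact p.Prime] (k K : Type) [Field k] [CharP k p] [PerfectRing k p] [Field K]
    [Algebra k K] (n : ℕ) (g : Fin n → K) (φ : K → K) (E A : Set K) (R : K → ℝ),
    Ctx k p φ g E A R → ∀ (w w' : K → ℝ) (V V' : K → ℝ ×ₗ ℝ), InZ k p φ V → InZ k p φ V' →
    (∀ f, (ofLex (V f)).1 = w f) → (∀ f, (ofLex (V' f)).1 = w' f) →
    (∃ x1 x2, x1 ≠ 0 ∧ x2 ≠ 0 ∧ w x1 * c2 V x2 - w x2 * c2 V x1 ≠ 0) →
    (∃ x1 x2, x1 ≠ 0 ∧ x2 ≠ 0 ∧ w' x1 * c2 V' x2 - w' x2 * c2 V' x1 ≠ 0) →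
    (∃ z ∈ E, V z = 0) → (∃ z ∈ E, V' z = 0) → Pr w w' → ¬ Dv w →
    ∃ α β : ℝ, β ≠ 0 ∧ ∀ f, c2 V' f = α * w f + β * c2 V f

/-- [F2PF coin] (about 200 lines) Uses `S_rk2`. LOCAL COINCIDENCE of two lines.
Proof. `w = y 0`, `y' 0 = c w`, `c > 0`.  Chart of rank two at `V` (`S_rk2`), `x i`, and `Chart.unif`: finite sets `G0`, `G1`.  Let `F = G0 ∪ G1 ∪ {x 0, x 1}` (nonzero elements; finite).  By `near` there is `δ1 > 0` with, for `0 < ε < δ1` and `f ∈ F`: `ε ≤ s`, `ε ≤ s'`, `y ε f = w f + ε * c2 V f` and `y' ε f = c * w f + ε * c2 V' f`, and (decreasing `δ1`)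
both are `0` on `G0` and positive on `G1`.  [`g ∈ G0`: `V g = 0`: `w g = 0 = c2 V g`, so `c2 V' g = α w g + β c2 V g = 0`.  `g ∈ G1`: `w g > 0`, or `w g = 0 < c2 V g` and then `c2 V' g = β c2 V g > 0`.]  By `unif` both `y ε` and `y' ε` are on the chart, at the weights given by their values at the `x i`.
Let `t > 0` be small and `t' = c * t / (β - t * α)`: for small `t` it is in `(0, δ1)`.  With `λ = c + t' * α` one has `t' * β = t * λ` (so `λ > 0`), and `y' t' (x i) = c w (x i) + t' (α w (x i) + β c2 V (x i)) = λ (w (x i) + t c2 V (x i)) = λ * y t (x i)`.  The valuation `λ * y t` is on the chart at the weight `λ * (y t ∘ x)`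
(minimal weights scale by `λ > 0`, `InZ` scales), so `y' t' = λ * y t` by `Chart.uniq`. -/
def S_coin : Prop :=
  ∀ (p : ℕ) [Fact p.Prime] (k K : Type) [Field k] [CharP k p] [PerfectRing k p] [Field K]
    [Algebra k K] (n : ℕ) (g : Fin n → K) (φ : K → K) (E A : Set K) (R : K → ℝ),
    Ctx k p φ g E A R → ∀ (s s' : ℝ) (y y' : ℝ → K → ℝ) (M M' : K → Finset (ℝ × ℝ)),
    CL k p φ g 0 s y M → CL k p φ g 0 s' y' M' → Pr (y 0) (y' 0) →
    ∀ V V', RFl k p φ g y M 0 V → RFl k p φ g y' M' 0 V' → (∃ z ∈ E, V z = 0) →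
    (∃ α β : ℝ, 0 < β ∧ ∀ f, c2 V' f = α * y 0 f + β * c2 V f) →
    ∃ δ > 0, ∀ t, 0 < t → t < δ → ∃ t', 0 < t' ∧ t' ≤ s' ∧ Pr (y t) (y' t')

/-- [F2PF loc] (about 150 lines) Uses `S_rfl`, `S_pal`, `S_pr`, `S_anti`, `S_feq`, `S_fun`, `S_coin`, `S_nsg`, `S_line`, `S_dnl`. LOCAL UNIQUENESS OF THE DESCENT.
Proof. `V`, `V'` the right flags at `0` (`S_rfl`), `V z = 0 = V' z'` with `z, z' ∈ A` (`DnL.el`).  `w = y 0`, `y' 0 = c w`.  It is enough to find `α`, `β > 0` with `c2 V' = α w + β c2 V` (`S_coin`).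
(1) `w` divisorial and `AtInf w`: `V` is a flag at `w` (`S_pal`), of pole type: `u ∈ DR B M 0`, `0 < sd 0 u = u.2`, so `(u.1 / u.2, 1) ∈ DV B w (c2 V)` (`RFl.dr`).  The same for `V'` at `y' 0`; rescale `V'` to a flag `V''` at `w` (`S_pr`), `c2 V'' = c2 V'`, of pole type.  `LocF.l3` (`w` is NS): `Eqv V V''`; `S_feq`.
(2) `R ~ w`: rescale both to flags at `R`, `LocF.R7u`: equivalent, so `Eqv V V'`; `S_feq`.  (`w ~ R` is divisorial.)  (By `S_anti` (d) and since `w` is nontrivial these are the cases with `w` divisorial.)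
(3) `w` not divisorial: then `AtInf w` (`S_anti` (d); `R` is divisorial).  `S_fun`: `c2 V' = α w + β c2 V`, `β ≠ 0`.  `u ∈ DR B M 0`, `0 < u.2`; `u' ∈ DR B M' 0`, `0 < u'.2`: `u'.1 * (c w f) + u'.2 * (α w f + β c2 V f) ≤ 0` on `B - 0`, so `(c u'.1 + α u'.2, β u'.2) ∈ DR B M 0` (`RFl.dr`, `sd 0 v = v.2`), and `S_nsg` (second part, with `u`) gives
`0 ≤ β u'.2`.  So `β > 0`. -/
def S_loc : Prop :=
  ∀ (p : ℕ) [Fact p.Prime] (k K : Type) [Field k] [CharP k p] [PerfectRing k p] [Field K]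
    [Algebra k K] (n : ℕ) (g : Fin n → K) (φ : K → K) (E A : Set K) (R : K → ℝ),
    Ctx k p φ g E A R → ∀ (s s' : ℝ) (y y' : ℝ → K → ℝ) (M M' : K → Finset (ℝ × ℝ)),
    DnL k p φ g A s y M → DnL k p φ g A s' y' M' → Pr (y 0) (y' 0) →
    ∃ δ > 0, ∀ t, 0 < t → t < δ → ∃ t', 0 < t' ∧ t' ≤ s' ∧ Pr (y t) (y' t')

/-- [F2PF det] (about 150 lines) Uses `S_loc`, `S_dnl`, `S_dense`, `S_line`, `S_pr`. TWO DESCENDING SEGMENTS WITH THE SAME TOP.
Proof. Suppose that no `t ∈ [0, s]` has `y t ~ y' s'`.  `P = {t | ∃ t' ∈ [0, s'], Pr (y t) (y' t')}`.  (1) `P ∩ [0, s]` is closed: let `t_n → t`, `y' t'_n = c_n * y t_n`, `t'_n ∈ [0, s']`; pass to a subsequence `t'_n → t'`.  There is `f ∈ B - 0` with `y t f ≠ 0` (`y t` is not trivial, `Bs.frac`).  By continuity (`S_dense` (b))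
`c_n = y' t'_n f / y t_n f → c := y' t' f / y t f`, so `c ≥ 0` and `y' t' h = c * y t h` for all `0 ≠ h ∈ B`, hence for all `h ∈ K` (`Bs.frac`); `c ≠ 0` because `y' t'` is not trivial.  So `t ∈ P`.
(2) `0 ∈ P`.  (3) Let `t ∈ P`, `0 ≤ t < s`, `y t ~ y' t'`: `t' < s'` by assumption.  `S_dnl`: the lines `τ ↦ y (t + τ)` and `τ ↦ y' (t' + τ)` are descending; `S_loc`: `(t, t + δ) ⊆ P`.  By `IsClosed.Icc_subset_of_forall_mem_nhdsWithin`, `[0, s] ⊆ P`, so `s ∈ P`: the second alternative. -/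
def S_det : Prop :=
  ∀ (p : ℕ) [Fact p.Prime] (k K : Type) [Field k] [CharP k p] [PerfectRing k p] [Field K]
    [Algebra k K] (n : ℕ) (g : Fin n → K) (φ : K → K) (E A : Set K) (R : K → ℝ),
    Ctx k p φ g E A R → ∀ (s s' : ℝ) (y y' : ℝ → K → ℝ) (M M' : K → Finset (ℝ × ℝ)),
    DnL k p φ g A s y M → DnL k p φ g A s' y' M' → Pr (y 0) (y' 0) →
    (∃ t, 0 ≤ t ∧ t ≤ s ∧ Pr (y t) (y' s')) ∨ ∃ t', 0 ≤ t' ∧ t' ≤ s' ∧ Pr (y s) (y' t')

/-- [F2PF tot] (about 100 lines) Uses `S_det`, `S_dnl`, `S_rch`, `S_pr`. TOTALITY below a common top.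
Proof. CLAIM: `Dn x a` and `Dn x b` imply `Dn a b` or `Dn b a`.  If `x ~ a` (`PA x`): `PA a` (`S_rch`) and `Dn a b` (the first alternative if `x ~ b`; the same line if the second alternative holds for `x, b`, as `a ~ y 0`).  The same if `x ~ b`.  Otherwise lines `y` (to `a`), `y'` (to `b`) with `y 0 ~ x ~ y' 0`.  `S_det`: `y t ~ y' s' ~ b` with `0 ≤ t ≤ s`: if
`t < s` the line `τ ↦ y (t + τ)` gives `Dn b a`; if `t = s` then `a ~ b` and `PA a` (`S_dnl`): `Dn a b`.  The other case is symmetric.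
GENERAL: if a relation `r` has this property then `r x a` and `ReflTransGen r x b` imply `ReflTransGen r a b ∨ ReflTransGen r b a` (head induction on the chain from `x` to `b`: `x = b`: `r b a`; `r x x1`, chain from `x1` to `b`: `r a x1` gives `ReflTransGen r a b`; `r x1 a`: induction hypothesis for `x1`);
then by head induction on the chain from `x` to `a`: for `r x x1`, chain from `x1` to `a`, and the chain from `x` to `b`: `ReflTransGen r x1 b` (induction hypothesis) or `ReflTransGen r b x1`, so `ReflTransGen r b a`. -/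
def S_tot : Prop :=
  ∀ (p : ℕ) [Fact p.Prime] (k K : Type) [Field k] [CharP k p] [PerfectRing k p] [Field K]
    [Algebra k K] (n : ℕ) (g : Fin n → K) (φ : K → K) (E A : Set K) (R : K → ℝ),
    Ctx k p φ g E A R → ∀ x a b : K → ℝ, Rch k p φ g A x a → Rch k p φ g A x b →
    Rch k p φ g A a b ∨ Rch k p φ g A b a

/-- [F2PF btw] (about 120 lines) Uses `S_det`, `S_dnl`, `S_rch`, `S_pr`. A point between the ends of a descending segment is on it.
Proof. Head induction on `Rch x v`, for all descending lines `y` from `x` (`x ~ y 0`) to `b` (`y s ~ b`); all points are in `P_a` (`S_rch`).  `x = v`: `t = 0`.  Step `Dn x x1`, `Rch x1 v`.  If `x ~ x1`: the induction hypothesis for the same line.  Otherwise a descending line `y'`, `x ~ y' 0`, `y' s' ~ x1`.  `S_det`: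
(i) `y t ~ y' s' ~ x1`, `0 ≤ t ≤ s`.  If `t < s`: the induction hypothesis for `x1` and the line `τ ↦ y (t + τ)` on `[0, s - t]` (`S_dnl`).  If `t = s`: `b ~ x1`, so `Rch v x1` (`Rch v b`, `S_rch`), and `Rch x1 v`, so `x1 ~ v` (`S_rch`): `t = s`.
(ii) `y s ~ y' t'`: `b ~ y' t'`, `Dn (y' t') (y' s')` (`S_dnl`), so `Rch b x1`, `Rch b v`; with `Rch v b`: `b ~ v`: `t = s`. -/
def S_btw : Prop :=
  ∀ (p : ℕ) [Fact p.Prime] (k K : Type) [Field k] [CharP k p] [PerfectRing k p] [Field K]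
    [Algebra k K] (n : ℕ) (g : Fin n → K) (φ : K → K) (E A : Set K) (R : K → ℝ),
    Ctx k p φ g E A R → ∀ (s : ℝ) (y : ℝ → K → ℝ) (M : K → Finset (ℝ × ℝ)),
    DnL k p φ g A s y M → ∀ x v b : K → ℝ, Pr x (y 0) → Pr (y s) b → Rch k p φ g A x v →
    Rch k p φ g A v b → ∃ t, 0 ≤ t ∧ t ≤ s ∧ Pr (y t) v

/-! ## 3. Every point of `P_a` is below `R` -/

/-- [F2PF asc] (about 200 lines) Uses `S_anti`, `S_cflag`, `S_cirr`, `S_dense`, `S_mono`, `S_segd`, `S_segl`, `S_dnl`, `S_line`. ASCENT.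
Proof. `m` is nontrivial and `AtInf m` (`S_anti` (d)).
(i) `Dv m`: an `a`-flag `V0`, `z0 ∈ A`, `V0 z0 = 0` (`PA`); `LocF.l2` (`¬ SG m`): `V1`, `z1 ∈ A`, `¬ Eqv V0 V1`.  `S_cflag`: lines `y`, `y'` on `[0, s]`, `[0, s']` with `y 0 = m = y' 0`; by `S_dense` (c) and `S_line` (restriction) all their points are NS.  `S_mono` for both.  If both have `DesR` on the open intervals then `S_segd` gives
`DnL` for both, so `DesR` at `0` (`sh 0`, `S_rsh`), i.e. `V0`, `V1` are of pole type (`RFl.dr`: `u ∈ DR B M 0`, `0 < u.2`, divide), so `Eqv V0 V1` by `LocF.l3`: a contradiction.  So one of them, say `y`, has `DesL` on `(0, s)`.  `S_segl` with `t = 0`, `t' = s`: a descending line `τ ↦ y (s - τ)` from `v = y s` to `y 0 = m`: `Dn v m`, `PA v` (`S_dnl`), and not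
`v ~ m` (`S_anti` (b)).
(ii) `¬ Dv m`: `S_cirr` with `z ∈ A`, `m z = 0`: a line on `[-s, s]`, `y 0 = m`; shrink it such that all points are NS.  `S_mono`: `DesR` on `(-s, s)`: `S_segd` with `t = -s`, `t' = 0`: `v = y (-s)`.  `DesL` on `(-s, s)`: `S_segl` with `t = 0`, `t' = s`: `v = y s`. -/
def S_asc : Prop :=
  ∀ (p : ℕ) [Fact p.Prime] (k K : Type) [Field k] [CharP k p] [PerfectRing k p] [Field K]
    [Algebra k K] (n : ℕ) (g : Fin n → K) (φ : K → K) (E A : Set K) (R : K → ℝ),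
    Ctx k p φ g E A R → ∀ m : K → ℝ, PA k p φ g A m → ¬ Pr R m →
    ∃ v, PA k p φ g A v ∧ Dn k p φ g A v m ∧ ¬ Pr v m

/-- [F2PF zorn] (about 250 lines) Uses `S_asc`, `S_ult`, `S_rch`, `S_ell`, `S_sega`, `S_segd`, `S_dnl`, `S_anti`, `S_lim`, `S_dense`, `S_line`, `S_pr`. EVERY POINT OF `P_a` IS BELOW `R`.
Proof. `PA R`: `LocF.Rinz`, `S_anti` (e), `LocF.R7e`.  Fix `w` with `PA w`, `z0 ∈ A`, `w z0 = 0`.  `X = {v // PA v ∧ Rch v w}`, `r v v' := Rch v' v` (transitive), `w ∈ X`.  All `v ∈ X` have `v z0 = 0` (`S_rch`).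
CHAINS ARE BOUNDED (`exists_maximal_of_nonempty_chains_bounded` or the preorder form of Zorn's lemma).  Let `C ⊆ X` be a nonempty chain.  Ultrafilter `U` on (the type) `C` containing all sets `{v ∈ C | Rch v c}`, `c ∈ C` (directed since `C` is a chain, `Rch` is reflexive and transitive).  `S_ult` (`I = C`, the family of the points; `z = z0` for all finite sets).
(a) `v0 ∈ C` with `v0 ~ v` for almost all `v`: then `v0` is an upper bound: for `c ∈ C` there is `v` with `Rch v c` and `v0 ~ v`, so `Rch v0 v`, `Rch v0 c`.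
(b) `CL 0 s y M` and for all `δ > 0` almost all `v ∈ C` are `~ y t` with `0 < t < δ`, `t < s`.  Choose one such `v0 ~ y s0`, `0 < s0 < s`.  For `t1 ∈ (0, s0]` choose `v ∈ C` with `Rch v v0` and `v ~ y t'`, `0 < t' < t1`: `Le B (y s0) (y t')` (`S_rch`, scaling), `y t' z0 = 0 = y s0 z0`, `y s0` NS: by `S_sega` on `[t', s0]` the points of `[t', s0]` are
NS and `z0`-elliptic and `DesR` holds on `(t', s0)`.  So for all `t ∈ (0, s0]`: `y t` NS, `y t z0 = 0`, and `DesR B M t` for `t < s0`.  `y 0 z0 = 0` by continuity (`S_dense` (b)).  `y 0` is NS: clear if `R ~ y 0` (`S_anti` (e)); otherwise `AtInf (y 0)` (`S_anti` (d)); for `0 < t < s0`, `Le B (y s0) (y t)` (`S_segd`, `S_dnl` on `[t, s0]`), and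
`y t f → y 0 f` for `f ∈ B`: `S_lim` (first part, `b = y s0`, `x = y 0`, `v` = the `y t` along `t → 0+`): `Le B (y s0) (y 0)`, so `y 0` is NS.  `S_segd` on `[0, s0]`: for `0 < t ≤ s0` the line `τ ↦ y (0 + τ)` on `[0, t]` is descending.  So `PA (y 0)`, `Dn (y 0) v` for all `v ~ y t`, `0 < t ≤ s0`; `Rch (y 0) w` via `v0`; for `c ∈ C` there is `v ∈ C` with `Rch v c` and
`v ~ y t`, `0 < t < s0`: `Rch (y 0) c`.  So `y 0` is an upper bound in `X`.
END.  Let `m ∈ X` be maximal: `Rch v m` implies `Rch m v` for `v ∈ X`.  If not `R ~ m`: `S_asc` gives `v` with `PA v`, `Dn v m`, not `v ~ m`; `v ∈ X`, so `Rch m v`, and `S_rch` gives `v ~ m`, a contradiction.  So `R ~ m`, `Rch R m` (`S_rch`), `Rch m w`. -/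
def S_zorn : Prop :=
  ∀ (p : ℕ) [Fact p.Prime] (k K : Type) [Field k] [CharP k p] [PerfectRing k p] [Field K]
    [Algebra k K] (n : ℕ) (g : Fin n → K) (φ : K → K) (E A : Set K) (R : K → ℝ),
    Ctx k p φ g E A R → PA k p φ g A R ∧ ∀ w : K → ℝ, PA k p φ g A w → Rch k p φ g A R w

/-! ## 4. Fatness -/

/-- [F2PF fper] (about 60 lines) Uses `S_key`, `S_pers`, `S_line`. Fatness persists along a descending segment.
Proof. Let `u, u' ∈ DR B M 0` with `0 < sd 0 u`, `0 < sd 0 u'`, independent.  `S_key` (b): `0 < sd t u`, `0 < sd t u'` for `0 ≤ t ≤ s`; `S_pers` from `0` to `t > 0`: `u, u' ∈ DR B M t ∩ DL B M t`. -/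
def S_fper : Prop :=
  ∀ (p : ℕ) [Fact p.Prime] (k K : Type) [Field k] [CharP k p] [PerfectRing k p] [Field K]
    [Algebra k K] (n : ℕ) (g : Fin n → K) (φ : K → K) (A : Set K) (s : ℝ) (y : ℝ → K → ℝ)
    (M : K → Finset (ℝ × ℝ)), DnL k p φ g A s y M → FatR (Br k g) M 0 →
    (∀ t, 0 ≤ t → t ≤ s → FatR (Br k g) M t) ∧
    ∀ t, 0 < t → t ≤ s → ∃ u ∈ DL (Br k g) M t, ∃ u' ∈ DL (Br k g) M t, 0 < sd t u ∧
      0 < sd t u' ∧ u.1 * u'.2 - u.2 * u'.1 ≠ 0

/-- [F2PF fdep] (about 250 lines) Uses `S_fvert`, `S_nsg`, `S_fun`, `S_rfl`, `S_lfl`, `S_pal`, `S_pr`, `S_dnl`, `S_line`, `S_rk2`. FATNESS AT THE DEPARTURE.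
Proof. `V` = right flag of `y` at `0`, `w = y 0`.  (0) If `AtInf w` then all nonzero `v ∈ DR B M 0` have `0 < sd 0 v` (`S_nsg`, first and second part, with `DesR` at `0`); so it is enough to find two independent elements of `DR B M 0`, i.e. (`RFl.dr`, `sd 0 v = v.2`) of `DV B w (c2 V)`.
(1) `R ~ x ~ w = c R`: rescale `V` to a flag `V'` at `R` (`S_pr`, `S_pal`); `LocF.R7f`: `(-μ, 1), (-μ-1, 1) ∈ DV B R (c2 V')`, `c2 V' = c2 V`, so `(-μ/c, 1), (-(μ+1)/c, 1) ∈ DV B w (c2 V)`: these are in `DR B M 0` with `sd 0 = 1`, independent.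
(2) `FatA x`: a descending line `y1` on `[0, s1]`, `y1 s1 ~ x ~ w`, `y1 s1 = c * w`, `u, u' ∈ DL B M1 s1` independent with `0 < sd s1`.  `AtInf (y1 s1)` (`S_dnl`), so `AtInf w`; `w` is NS (`DnL.ns`).  `V1` = left flag of `y1` at `s1` (`S_lfl`): `(u.1, - sd s1 u) ∈ DV B (y1 s1) (c2 V1)` (`LFl.dl`); rescale `V1` to `V1'` with first component `w`
(`c2 V1' = c2 V1`): `a = (c * u.1, - sd s1 u)`, `b = (c * u'.1, - sd s1 u') ∈ DV B w (c2 V1')`: independent (the determinant is `c (u'.1 * u.2 - u.1 * u'.2)`), second coordinates negative.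
(2a) `Dv w`: `V` is an `a`-flag of pole type at `w` (`S_pal`, `DesR` at `0`), `V1'` an `a`-flag of `b_0` type (`S_pal`; divide `a` by `sd s1 u`).  `LocF.l6`: `ρ > 0`.  `w f = w0 f • γ` with `w0 : K → ℤ`, `w0 0 = 0` (choose), `IsV w0`.  `S_fvert` with `cin = c2 V1'`, `cout = c2 V`: `w` takes both signs on `B` (NS, `AtInf`); hypothesis on `DV B w0 cin`: let
`0 ≠ v` be in it and `0 ≤ v.2`.  `v.2 = 0`: `v.1 * w0 ≤ 0` on `B`, `v.1 = 0`, contradiction.  `v.2 > 0`: `v.2 • a' - a'.2 • v` (`a' = (γ * a.1, a.2)`, which is in `DV B w0 cin`) has second coordinate `0` and is in `DV`, so its first coordinate is `0` as before; the same for `b'`; so `a'` and `b'` are multiples of `v`, contradiction.  `Fat (DV B w0 cin)`: `a'`, `b'`.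
The conclusion `Fat (DV B w0 cout)` gives two independent elements of `DV B w cout` (divide the first coordinates by `γ`); use (0).
(2b) `¬ Dv w`: `S_fun` for `V` and `V1'`: `c2 V1' = α w + β c2 V`, `β ≠ 0`; `v ∈ DV B w (c2 V1')` gives `(v.1 + α v.2, β v.2) ∈ DV B w (c2 V)`: the images of `a`, `b` are independent; use (0). -/
def S_fdep : Prop :=
  ∀ (p : ℕ) [Fact p.Prime] (k K : Type) [Field k] [CharP k p] [PerfectRing k p] [Field K]
    [Algebra k K] (n : ℕ) (g : Fin n → K) (φ : K → K) (E A : Set K) (R : K → ℝ),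
    Ctx k p φ g E A R → ∀ (x : K → ℝ) (s : ℝ) (y : ℝ → K → ℝ) (M : K → Finset (ℝ × ℝ)),
    (Pr R x ∨ FatA k p φ g A x) → DnL k p φ g A s y M → Pr x (y 0) → FatR (Br k g) M 0

/-- [F2PF fat] (about 60 lines) Uses `S_zorn`, `S_fdep`, `S_fper`, `S_pr`. EVERY POINT OF `P_a` IS FAT FROM ABOVE.
Proof. Induction on the chain `Rch R x` (`S_zorn`) for the statement `Pr R x ∨ FatA x`.  Start: `Pr R R`.  Step `Dn x x'`: if `x ~ x'`: `Pr` is transitive and `FatA` is invariant.  Otherwise a descending line `y` with `x ~ y 0`, `y s ~ x'`: `S_fdep`: `FatR B M 0`; `S_fper` with `t = s`: `FatA x'`. -/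
def S_fat : Prop :=
  ∀ (p : ℕ) [Fact p.Prime] (k K : Type) [Field k] [CharP k p] [PerfectRing k p] [Field K]
    [Algebra k K] (n : ℕ) (g : Fin n → K) (φ : K → K) (E A : Set K) (R : K → ℝ),
    Ctx k p φ g E A R → ∀ x : K → ℝ, PA k p φ g A x → Pr R x ∨ FatA k p φ g A x

/-! ## 5. The bottom -/

/-- [F2PF two] (about 250 lines) Uses `S_zorn`, `S_tot`, `S_btw`, `S_rch`, `S_pal`, `S_segl`, `S_dnl`, `S_anti`, `S_lim`, `S_dense`, `S_line`, `S_rsh`, `S_pr`. TWO ASCENDING LINES FROM THE SAME POINT ARE EQUIVALENT.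
Proof. (0) All `y t` (`0 < t ≤ s`), `y' t` (`0 < t ≤ s'`) are in `P_a` (`S_pal`); any two points of `P_a` are comparable for `Rch` (`S_zorn`, `S_tot` with top `R`).  (1) For `0 < t < t' ≤ s` the line `τ ↦ y (t' - τ)` on `[0, t' - t]` is descending (`S_segl` on `[t, t']`), similarly for `y'`.
(2) CLAIM: for `0 < t < s` there is `ε0 > 0` such that `Rch (y t) (y' ε)` for all `0 < ε < ε0`, `ε ≤ s'`.  Otherwise, by (0), there are arbitrarily small `ε` with `Rch (y' ε) (y t)`, so `Le B (y t) (y' ε)` (`S_rch`); `S_lim` (first part; `b = y t`, `x = y' 0`, continuity `S_dense` (b), `AtInf (y' 0)` by scaling): `Le B (y t) (y' 0)`, so `Le B (y t) (y 0)`.  If `y 0` is semi-good then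
so is `y t`: contradiction.  If `y 0` is NS then `S_segl` on `[0, t]` and `S_dnl` give `Le B (y 0) (y t)`, so `y 0 ~ y t` and `t = 0` (`S_anti` (a), (b)): contradiction.
(3) In the same way for `0 < ε < s'` there is `t0 > 0` with `Rch (y' ε) (y t)` for all `0 < t < t0`, `t ≤ s`.
(4) Let `0 < t1 < s`, `ε0` from (2) for `t1`, and `0 < ε < ε0`, `ε < s'`.  By (3) there is `0 < t2 < t1` with `Rch (y' ε) (y t2)`.  `S_btw` for the line `τ ↦ y (t1 - τ)` on `[0, t1 - t2]`, `x = y t1`, `v = y' ε`, `b = y t2`: `y' ε ~ y τ'` for some `τ' ∈ [t2, t1]`.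
(5) Let `0 < V f` (so `f ≠ 0`).  By `near`, `0 < y τ f` for all small `τ > 0`, so by (4) `0 < y' ε f` for all small `ε > 0`.  If `V' f ≤ 0` then by `near` `y' ε f ≤ 0` for small `ε`: contradiction.  So `0 < V' f`.  Conversely let `0 < V' f` and suppose `V f ≤ 0`: by `near` `y τ f ≤ 0` for small `τ`, so `y' ε f ≤ 0` for small `ε` by (4), but `near` for `V'` gives
`0 < y' ε f`: contradiction. -/
def S_two : Prop :=
  ∀ (p : ℕ) [Fact p.Prime] (k K : Type) [Field k] [CharP k p] [PerfectRing k p] [Field K]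
    [Algebra k K] (n : ℕ) (g : Fin n → K) (φ : K → K) (E A : Set K) (R : K → ℝ),
    Ctx k p φ g E A R → ∀ (s s' : ℝ) (y y' : ℝ → K → ℝ) (M M' : K → Finset (ℝ × ℝ)),
    CL k p φ g 0 s y M → CL k p φ g 0 s' y' M' → Pr (y 0) (y' 0) → AtInf (Br k g) (y 0) →
    (∃ z ∈ A, ∀ t, 0 ≤ t → t ≤ s → y t z = 0) → (∃ z ∈ A, ∀ t, 0 ≤ t → t ≤ s' → y' t z = 0) →
    (∀ t, 0 < t → t ≤ s → ¬ SG (Br k g) (y t)) → (∀ t, 0 < t → t ≤ s' → ¬ SG (Br k g) (y' t)) →
    (∀ t, 0 < t → t < s → DesL (Br k g) M t) → (∀ t, 0 < t → t < s' → DesL (Br k g) M' t) →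
    ∀ V V', RFl k p φ g y M 0 V → RFl k p φ g y' M' 0 V' → Eqv V V'

/-- [F2PF bot] (about 200 lines) Uses `S_ult`, `S_zorn`, `S_tot`, `S_rch`, `S_segb`, `S_segl`, `S_pal`, `S_cflag`, `S_dense`, `S_anti`, `S_ell`, `S_line`, `S_pr`. THE BOTTOM OF `P_a`.
Proof. Any two points of `P_a` are comparable (`S_zorn`, `S_tot`).  (0) There is `v1` with `PA v1` and not `R ~ v1`: `LocF.R7e`, `S_cflag`: a line `y` with `y 0 = R`, `z` elliptic; `R` is NS (`S_anti` (e)), so `y t` is NS for small `t` (`S_dense` (c)), `PA (y t)` (`S_pal`), not `R ~ y t` for `t > 0` (`S_anti` (b)).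
`I = {w // PA w}`; ultrafilter `U` on `I` containing the sets `{v | Rch w v}`, `w ∈ I` (directed: for `w, w'` one of `Rch w w'`, `Rch w' w` holds).  `S_ult`: for a finite set `S` of points take the lowest one `v` (a point of `S` with `Rch w v` for all `w ∈ S`, by totality; if `S` is empty any `z`) and `z ∈ A`, `v z = 0`; `w z = 0` for `w ∈ S` by `S_rch`.
(a) `m ∈ I` with `m ~ v` for almost all `v`: for `w ∈ I` there is `v` with `Rch w v`, `m ~ v`: `Rch w m`.  `AtInf m`: otherwise `R ~ m` (`S_anti` (d)) and `Le B m v1` gives `0 ≤ m f ≤ c * v1 f` on `B - 0`, so `R ~ v1`: contradiction.  First alternative.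
(b) `CL 0 s y M`, and almost all `v ∈ I` are `~ y t` with `t` as small as we like.  Choose `v0 ~ y s0`, `0 < s0 < s`.  Given `0 < t1 ≤ s0` choose `v` with `Rch v0 v` and `v ~ y t'`, `0 < t' < t1`; `z1 ∈ A` with `v z1 = 0`, so `v0 z1 = 0`; `Le B (y t') (y s0)`; `y t'` NS.  `S_segb` on `[t', s0]`: all points of `[t', s0]` are NS and `z1`-elliptic, `DesL` on `(t', s0)`.  So (`S_pal`) `PA (y t)`
for `0 < t ≤ s0`, `DesL B M t` for `0 < t < s0`, and (`S_segl` on `[t', s0]`, for `t' < t < t'' ≤ s0`) the field `seg`.  `cof`: for `w ∈ I` and `δ > 0` there is `v` with `Rch w v` and `v ~ y t`, `0 < t < δ`, `t ≤ s0`: `Rch w (y t)`.  So `Bot A s0 y M` (restrict `CL`). -/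
def S_bot : Prop :=
  ∀ (p : ℕ) [Fact p.Prime] (k K : Type) [Field k] [CharP k p] [PerfectRing k p] [Field K]
    [Algebra k K] (n : ℕ) (g : Fin n → K) (φ : K → K) (E A : Set K) (R : K → ℝ),
    Ctx k p φ g E A R →
    (∃ m : K → ℝ, PA k p φ g A m ∧ AtInf (Br k g) m ∧ ∀ w, PA k p φ g A w → Rch k p φ g A w m) ∨
    ∃ (s : ℝ) (y : ℝ → K → ℝ) (M : K → Finset (ℝ × ℝ)), Bot k p φ g A s y M

/-- [F2PF bfat] (about 80 lines) Uses `S_fat`, `S_fdep`, `S_rsh`, `S_dnl`. Fatness on the bottom line.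
Proof. `0 < t < s`.  `AtInf (y t)`: `Bot.seg` for `t < s`: a descending line from `y s` to `y t`; `S_dnl`.  Let `0 < t0 < t`: the line `τ ↦ y (t - τ)` on `[0, t - t0]` is descending with the exponents `rsh t M`; `S_fat` for `y t` and `S_fdep`: `FatR B (rsh t M) 0`: independent `v, v' ∈ DR B (rsh t M) 0` with positive `sd 0`.  By `S_rsh` (`τ = 0`) they correspond to
`u = (v.1, t * v.1 - v.2)` etc. in `DL B M t` with `sd t u = - sd 0 v < 0`, independent. -/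
def S_bfat : Prop :=
  ∀ (p : ℕ) [Fact p.Prime] (k K : Type) [Field k] [CharP k p] [PerfectRing k p] [Field K]
    [Algebra k K] (n : ℕ) (g : Fin n → K) (φ : K → K) (E A : Set K) (R : K → ℝ),
    Ctx k p φ g E A R → ∀ (s : ℝ) (y : ℝ → K → ℝ) (M : K → Finset (ℝ × ℝ)),
    Bot k p φ g A s y M → ∀ t, 0 < t → t < s →
    AtInf (Br k g) (y t) ∧ Fat (DL (Br k g) M t) ∧ DesL (Br k g) M t

/-- [F2PF bni] (about 200 lines) Uses `S_irr`, `S_dense`, `S_keyL`, `S_persL`, `S_ell`, `S_bfat`, `S_pal`, `S_anti`, `S_rch`, `S_line`. The limit is not an irrational NS point.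
Proof. `S_irr`: extend the line to `[-δ, s]` (same `M`; write `y` again).  `AtInf (y 0)`: `S_anti` (d), since `R ~ y 0` would make `y 0` divisorial.  By `S_dense` (c), (d) decrease `δ` such that all `y r`, `-δ ≤ r ≤ 0`, are NS and `AtInf`.  Choose `r ∈ (-δ, 0)` and `t2 ∈ (0, s)` with `y r`, `y t2` divisorial (`S_dense` (a)).  For every `t ∈ (0, s)`: `u ∈ DL B M t`, `sd t u < 0`
(`Bot.des`); `S_keyL` (all points of `[r, t)` are NS): `sd r u < 0`; `S_persL`: `Le B (y r) (y t)`.  `LocF.l1`: `z' ∈ E`, `y r z' = 0`; `y t2 z' = 0` (`S_ell` (b)).  `PA (y t2)`: `z1 ∈ A`, `y t2 z1 = 0`; `LocF.l1'` at `y t2` (`AtInf`: `S_bfat`): `z' ∈ A`.  `z'` is elliptic on `[r, t2]` (`S_ell` (c)), so `PA (y r)` (`S_pal` for the restricted line).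
`Bot.cof` with `w = y r`: `Rch (y r) (y t)` for some `t ∈ (0, s)`: `Le B (y t) (y r)` (`S_rch`), so `y r ~ y t` (`S_anti` (a)) and `r = t` (`S_anti` (b)): contradiction. -/
def S_bni : Prop :=
  ∀ (p : ℕ) [Fact p.Prime] (k K : Type) [Field k] [CharP k p] [PerfectRing k p] [Field K]
    [Algebra k K] (n : ℕ) (g : Fin n → K) (φ : K → K) (E A : Set K) (R : K → ℝ),
    Ctx k p φ g E A R → ∀ (s : ℝ) (y : ℝ → K → ℝ) (M : K → Finset (ℝ × ℝ)),
    Bot k p φ g A s y M → ¬ SG (Br k g) (y 0) → ¬ Dv (y 0) → False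

/-- [F2PF bnd] (about 150 lines) Uses `S_keyL`, `S_persL`, `S_anti`, `S_ell`, `S_dense`, `S_bfat`, `S_segl`, `S_dnl`, `S_line`, `S_pr`. A divisorial NS limit is a minimum of `P_a`.
Proof. For `0 < t < s`: `u ∈ DL B M t`, `sd t u < 0`; `S_keyL` (all points of `[0, t)` are NS): `sd 0 u < 0`; `S_persL`: `Le B (y 0) (y t)`.  `AtInf (y 0)`: otherwise `R ~ y 0`, `0 ≤ y 0 f ≤ c * y t f`, `R ~ y t`, `y 0 ~ y t`, `t = 0` (`S_anti`).  `LocF.l1`: `z' ∈ E`, `y 0 z' = 0`; so `y t z' = 0` for `0 < t < s` (`S_ell` (b)).  Choose `t2 ∈ (0, s)` divisorial; `PA (y t2)`, `LocF.l1'`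
(`AtInf (y t2)`: `S_bfat`): `z' ∈ A`.  For `0 < t < s`: `S_segl` on `[0, t]`: the line from `y t` down to `y 0` is descending; so `Dn (y t) (y 0)` and `PA (y 0)` (`S_dnl`).  For `PA w`: `Rch w (y t)` for some `0 < t < s` (`Bot.cof` with `δ = s`), so `Rch w (y 0)`. -/
def S_bnd : Prop :=
  ∀ (p : ℕ) [Fact p.Prime] (k K : Type) [Field k] [CharP k p] [PerfectRing k p] [Field K]
    [Algebra k K] (n : ℕ) (g : Fin n → K) (φ : K → K) (E A : Set K) (R : K → ℝ),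
    Ctx k p φ g E A R → ∀ (s : ℝ) (y : ℝ → K → ℝ) (M : K → Finset (ℝ × ℝ)),
    Bot k p φ g A s y M → ¬ SG (Br k g) (y 0) → Dv (y 0) →
    ∃ m : K → ℝ, PA k p φ g A m ∧ AtInf (Br k g) m ∧ ∀ w, PA k p φ g A w → Rch k p φ g A w m

/-- [F2PF min] (about 200 lines) Uses `S_cirr`, `S_cflag`, `S_dense`, `S_mono`, `S_segd`, `S_segl`, `S_dnl`, `S_rch`, `S_anti`, `S_two`, `S_line`, `S_pr`. `P_a` HAS NO MINIMUM.
Proof. (*) There is no `v` with `Dn m v` and not `m ~ v`: `PA v` (`S_rch`), so `Rch v m`, and `Rch m v`: `m ~ v`.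
(i) `¬ Dv m`: `S_cirr` with `z ∈ A`, `m z = 0`; shrink such that all points of the line on `[-s, s]` are NS (`S_dense` (c)).  `S_mono`: if `DesR` on `(-s, s)`: `S_segd` with `t = 0`, `t' = s`: `Dn m (y s)`, and not `m ~ y s` (`S_anti` (b)), against (*).  If `DesL`: `S_segl` with `t = -s`, `t' = 0`: a descending line from `y 0 = m` to `y (-s)`, against (*).
(ii) `Dv m`: an `a`-flag `V0` at `m`, `z0` (`PA`); `LocF.l2` (`¬ SG m`, `AtInf m`): `V1`, `z1 ∈ A`, `¬ Eqv V0 V1`.  `S_cflag`: lines `y`, `y'` with `y 0 = m = y' 0`; shrink: all points NS.  `S_mono`: `DesR` on `(0, s)` would give `Dn m (y s)` by `S_segd`, against (*); so `DesL` on `(0, s)`; the same for `y'`.  `S_two`: `Eqv V0 V1`, a contradiction. -/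
def S_min : Prop :=
  ∀ (p : ℕ) [Fact p.Prime] (k K : Type) [Field k] [CharP k p] [PerfectRing k p] [Field K]
    [Algebra k K] (n : ℕ) (g : Fin n → K) (φ : K → K) (E A : Set K) (R : K → ℝ),
    Ctx k p φ g E A R → ∀ m : K → ℝ, PA k p φ g A m → AtInf (Br k g) m →
    (∀ w, PA k p φ g A w → Rch k p φ g A w m) → False

/-- [F2PF bsi] (about 150 lines) Uses `S_irr`, `S_bfat`, `S_rsh`, `S_inner`, `S_dense`, `S_anti`, `S_ell`, `S_cS`, `S_line`. The limit is not an irrational semi-good point.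
Proof. `S_irr`: extend the line to `[-δ, s]` (same `M`; write `y` again).  Fix `t ∈ (0, s)`; the line `Y τ = y (t - τ)` on `[0, t + δ]` with exponents `rsh t M` (`S_rsh`).  `S_inner` (with `t0 = 0`, `ts = t`, `t2 = t + δ`): `AtInf (Y 0)` (`S_bfat`), `Y r` NS for `0 ≤ r < t` (`Bot.pa`), `SG (Y t)`, and `DesR`, `Fat` for `rsh t M` at `0` (`S_bfat`, `S_rsh`).  Conclusion: `0 < δ' ≤ δ` such that for
`-δ' < r < 0`: `SG (y r)`, and for `0 ≠ f ∈ B`: `y r f = 0` implies `y 0 f = 0`.  Choose `r' ∈ (-δ', 0)` with `y r'` divisorial (`S_dense` (a)); it is nontrivial and semi-good, so `AtInf` (`S_anti` (c)).  `LocF.l1`: `z ∈ E`, `y r' z = 0`, so `y 0 z = 0` and `z` is elliptic on `[r', 0]` (`S_ell` (c)).  Choose `r ∈ (r', 0)` with `y r` divisorial; `SG (y r)` contradicts `S_cS` for the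
line restricted to `[r', 0]`. -/
def S_bsi : Prop :=
  ∀ (p : ℕ) [Fact p.Prime] (k K : Type) [Field k] [CharP k p] [PerfectRing k p] [Field K]
    [Algebra k K] (n : ℕ) (g : Fin n → K) (φ : K → K) (E A : Set K) (R : K → ℝ),
    Ctx k p φ g E A R → ∀ (s : ℝ) (y : ℝ → K → ℝ) (M : K → Finset (ℝ × ℝ)),
    Bot k p φ g A s y M → SG (Br k g) (y 0) → ¬ Dv (y 0) → False

/-- [F2PF nsn] (about 150 lines) Uses `S_dense`, `S_cS`, `S_mono`, `S_inter`, `S_rsh`, `S_anti`, `S_line`. Near a semi-good end point of a line with an elliptic element of class `a` all points are NS and the line descends towards the end point.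
Proof. (1) Suppose `y ε1` is semi-good, `0 < ε1 < s`.  Choose `q ∈ (0, ε1)` with `y q` divisorial (`S_dense` (a)); `y q` is NS by `S_cS` (line on `[0, s]`).  The set of the `r ∈ [0, s]` with `y r` semi-good is closed (`S_dense` (c)); let `α` be its largest element in `[0, q]`, `β` its smallest element in `[q, ε1]`: `α < q < β`, `y α`, `y β` semi-good (hence `AtInf`, `S_anti` (c)), NS on `(α, β)`.
`S_mono` on `[α, β]`: `AtInf` on `(α, β)`, and `DesR` on `(α, β)` or `DesL` on `(α, β)`.  `S_inter` for `τ ↦ y (α + τ)` on `[0, β - α)` (exponents `sh α M`): no `DesR` near `α`.  `S_inter` for `τ ↦ y (β - τ)` (exponents `rsh β M`): no `DesL` near `β`.  Contradiction.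
(2) So all `y t`, `0 < t < s`, are NS; `S_mono` on `[0, s]` and `S_inter` at `0` (no `DesR` near `0`): `DesL` on `(0, s)`. -/
def S_nsn : Prop :=
  ∀ (p : ℕ) [Fact p.Prime] (k K : Type) [Field k] [CharP k p] [PerfectRing k p] [Field K]
    [Algebra k K] (n : ℕ) (g : Fin n → K) (φ : K → K) (E A : Set K) (R : K → ℝ),
    Ctx k p φ g E A R → ∀ (s : ℝ) (y : ℝ → K → ℝ) (M : K → Finset (ℝ × ℝ)),
    CL k p φ g 0 s y M → ∀ z ∈ A, (∀ t, 0 ≤ t → t ≤ s → y t z = 0) → SG (Br k g) (y 0) →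
    (∀ t, 0 < t → t < s → ¬ SG (Br k g) (y t)) ∧ ∀ t, 0 < t → t < s → DesL (Br k g) M t

/-- [F2PF bsd] (about 200 lines) Uses `S_arr`, `S_bfat`, `S_rfl`, `S_rk2`, `S_ell`, `S_dense`, `S_anti`, `S_cflag`, `S_nsn`, `S_two`, `S_line`. The limit is not a divisorial semi-good point.
Proof. `m = y 0`: nontrivial, semi-good, so `AtInf m` (`S_anti` (c)).  For `0 < t < s`: `S_arr` (`Line` on `[0, s)`; `AtInf (y t)`, `DesL`, `Fat` by `S_bfat`; NS on `(0, t]` by `Bot.pa`): `Le B m (y t)`, and there is `ζ ∈ DR B M 0` with `ζ.2 < 0`.  `V` = right flag at `0` (`S_rfl`): `(ζ.1, ζ.2) ∈ DV B m (c2 V)` (`RFl.dr`), so `m f = 0` implies `0 ≤ c2 V f` for `0 ≠ f ∈ B`.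
(★) For `z ∈ E` with `m z = 0`: `0 ≤ V z`, and `V z ≤ 0` (`S_ell` (a)), so `V z = 0`.
`LocF.l1`: `z0 ∈ E`, `m z0 = 0`.  `y t z0 = 0` for `0 < t < s` (`S_ell` (b)).  Choose `t` with `y t` divisorial (`S_dense` (a)); `PA (y t)` and `LocF.l1'`: `z0 ∈ A`.  `V` is a flag at `m` (`S_rk2`, third part, with `V z0 = 0`).  `LocF.l2` (second disjunct, (★)): a flag `V1` at `m`, `z1 ∈ A`, `V1 z1 = 0`, `¬ Eqv V V1`.
`S_cflag`: a line `y'` on `[0, s']` with `y' 0 = m`, right flag `V1`, `z1` elliptic.  `S_nsn`: NS and `DesL` on `(0, s')`.  Restrict `y` to `[0, s / 2]` (with `z0`, elliptic on it, `Bot.pa`, `Bot.des`) and `y'` to `[0, s' / 2]`.  `S_two`: `Eqv V V1`: a contradiction.  (The right flag at `0` of the restricted lines is the same.) -/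
def S_bsd : Prop :=
  ∀ (p : ℕ) [Fact p.Prime] (k K : Type) [Field k] [CharP k p] [PerfectRing k p] [Field K]
    [Algebra k K] (n : ℕ) (g : Fin n → K) (φ : K → K) (E A : Set K) (R : K → ℝ),
    Ctx k p φ g E A R → ∀ (s : ℝ) (y : ℝ → K → ℝ) (M : K → Finset (ℝ × ℝ)),
    Bot k p φ g A s y M → SG (Br k g) (y 0) → Dv (y 0) → False

/-- [F2PF fin] (about 30 lines) Uses `S_bot`, `S_min`, `S_bni`, `S_bnd`, `S_bsi`, `S_bsd`. THE LOCAL FACTS ARE CONTRADICTORY.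
Proof. `S_bot`.  First alternative: `S_min`.  Second alternative: four cases according to `SG (y 0)` and `Dv (y 0)`. -/
def S_fin : Prop :=
  ∀ (p : ℕ) [Fact p.Prime] (k K : Type) [Field k] [CharP k p] [PerfectRing k p] [Field K]
    [Algebra k K] (n : ℕ) (g : Fin n → K) (φ : K → K) (E A : Set K) (R : K → ℝ),
    ¬ Ctx k p φ g E A R

end Pool.Agent.F2PF
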