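import Pool.Agent.Lib.MP_305fdd_al.F2.PF.Stm

/-!
# MP_305fdd_al, F_2 project, section PF, piece key
-/

set_option autoImplicit false

namespace Pool.Agent.F2PF

open Pool.Agent.F2Ch

private theorem key_exL (hin : S_in) (S : Finset (ℝ × ℝ)) (t : ℝ) (hS : S.Nonempty) :
    ∃ m, IsL S t m := by
  obtain ⟨m, hm⟩ := hin.1 (S.image rf) (-t) (hS.image rf)
  refine ⟨rf m, (hin.2.2.2.1 S t (rf m)).2 ?_⟩
  have h : rf (rf m) = m := by simp [rf]
  rw [h]
  exact hm

theorem p_key (hin : S_in) : S_key := by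
  intro K _ B J y M hL t ht u hu
  have ha : ∀ r ∈ J, ∀ c : ℝ, 0 < c → u = (c, c * r) → SG B (y r) := by
    intro r hr c hc huc f hf hf0
    have h1 : ∃ m ∈ M f, dot u m ≤ 0 := by
      rcases hu with hu | hu
      · obtain ⟨m, hm⟩ := hin.1 (M f) t (hL.ne f hf hf0)
        exact ⟨m, hm.mem, hu f hf hf0 m hm⟩
      · obtain ⟨m, hm⟩ := key_exL hin (M f) t (hL.ne f hf hf0)
        exact ⟨m, hm.mem, hu f hf hf0 m hm⟩
    obtain ⟨m, hm, hdot⟩ := h1
    have h2 := hL.le f hf hf0 r hr m hm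
    have h3 : dot u m = c * (m.1 + r * m.2) := by
      rw [huc]; unfold dot; ring
    rw [h3] at hdot
    have h4 : m.1 + r * m.2 ≤ 0 := by
      by_contra hcon
      push Not at hcon
      have := mul_pos hc hcon
      linarith
    linarith
  refine ⟨ha, ?_⟩
  intro t' htt hJ hns hs
  by_contra hcon
  push Not at hcon
  have h1 : sd t u - sd t' u = (t' - t) * u.1 := by unfold sd; ring
  have hu1 : 0 < u.1 := by
    by_contra hc
    push Not at hc
    have : (t' - t) * u.1 ≤ 0 := mul_nonpos_of_nonneg_of_nonpos (by linarith) hc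
    linarith
  have hr1 : t < u.2 / u.1 := by
    rw [lt_div_iff₀ hu1]
    unfold sd at hs
    linarith
  have hr2 : u.2 / u.1 ≤ t' := by
    rw [div_le_iff₀ hu1]
    unfold sd at hcon
    linarith
  refine hns (u.2 / u.1) hr1 hr2 (ha (u.2 / u.1) (hJ ⟨hr1.le, hr2⟩) u.1 hu1 ?_)
  have : u.1 * (u.2 / u.1) = u.2 := by field_simp
  rw [this]

end Pool.Agent.F2PF
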