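import Pool.Agent.Lib.MP_305fdd_al.F2.PF.StmC

/-!
# MP_305fdd_al, F_2 project, piece [F2PF pal]
-/

set_option autoImplicit false

namespace Pool.Agent.F2PF

open MvPolynomial Pool.Agent.F2Ch

theorem p_pal (hrk : S_rk2) (hrfl : S_rfl) (hlfl : S_lfl) (hline : S_line) : S_pal := by
  intro p _ k K _ _ _ _ _ n g φ E A R hctx s1 s2 y M hcl z hzA hz
  have hloc := hctx.2
  obtain ⟨b0, ρ0, hB⟩ := hctx.1
  have hgen : FracGen k g := hB.gen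
  have hzE : z ∈ E := hloc.sub hzA
  have hz0 : z ≠ 0 := (hloc.ct z hzE).2.1
  have h1 : ∀ t, s1 ≤ t → t < s2 → ∀ V, RFl k p φ g y M t V →
      V z = 0 ∧ (Dv (y t) → Flag k p φ (y t) V) := by
    intro t ht1 ht2 V hV
    have hVz : V z = 0 := (hrfl p k K n g φ hgen s1 s2 y M hcl t ht1 ht2).2 V hV z hz0
      ⟨1, one_pos, fun t' h1 _ h3 => hz t' (ht1.trans h1.le) h3⟩
    refine ⟨hVz, fun hDv => ⟨hV.inz, hV.fst, ?_⟩⟩
    exact (hrk p k K n g φ E A R hctx (y t) V hV.inz hV.fst hV.nd ⟨z, hzE, hVz⟩).2.2 hDv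
  have h2 : ∀ t, s1 < t → t ≤ s2 → ∀ V, LFl k p φ g y M t V →
      V z = 0 ∧ (Dv (y t) → Flag k p φ (y t) V) := by
    intro t ht1 ht2 V hV
    have hVz : V z = 0 := (hlfl p k K n g φ hgen s1 s2 y M hcl t ht1 ht2).2 V hV z hz0
      ⟨1, one_pos, fun t' h1 _ h3 => hz t' h3 (h1.le.trans ht2)⟩
    refine ⟨hVz, fun hDv => ⟨hV.inz, hV.fst, ?_⟩⟩
    exact (hrk p k K n g φ E A R hctx (y t) V hV.inz hV.fst hV.nd ⟨z, hzE, hVz⟩).2.2 hDv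
  refine ⟨h1, h2, ?_⟩
  intro t ht1 ht2 hns
  refine ⟨(((hline p k K n g φ).2 s1 s2 y M hcl).2.1 t ht1 ht2).1, hns, ⟨z, hzA, hz t ht1 ht2⟩, ?_⟩
  intro hDv
  by_cases hlt : t < s2
  · obtain ⟨V, hV⟩ := (hrfl p k K n g φ hgen s1 s2 y M hcl t ht1 hlt).1
    exact ⟨V, (h1 t ht1 hlt V hV).2 hDv, z, hzA, (h1 t ht1 hlt V hV).1⟩
  · have hts : s1 < t := lt_of_lt_of_le hcl.1 (not_lt.mp hlt)
    obtain ⟨V, hV⟩ := (hlfl p k K n g φ hgen s1 s2 y M hcl t hts ht2).1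
    exact ⟨V, (h2 t hts ht2 V hV).2 hDv, z, hzA, (h2 t hts ht2 V hV).1⟩

end Pool.Agent.F2PF
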