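import Pool.Agent.Lib.MP_305fdd_al.F2.PF.StmB

/-!
# MP_305fdd_al, [F2PF rfl]: the flag at the right side of a point of a line
-/

set_option autoImplicit false

namespace Pool.Agent.F2PF

open MvPolynomial Pool.Agent.F2Ch

/-- the weights of a lexicographic weight -/
private theorem rfl_wt (d e : Fin 2 → ℝ) (t : ℝ) (m : Fin 2 → ℤ) :
    wt (fun i => (toLex (d i + t * e i, e i) : ℝ ×ₗ ℝ)) m =
      toLex (wt d m + t * wt e m, wt e m) := by
  unfold wt
  rw [Fin.sum_univ_two, Fin.sum_univ_two, Fin.sum_univ_two]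
  apply ofLex.injective
  ext
  · show m 0 • (d 0 + t * e 0) + m 1 • (d 1 + t * e 1) =
      m 0 • d 0 + m 1 • d 1 + t * (m 0 • e 0 + m 1 • e 1)
    simp only [zsmul_eq_mul]
    ring
  · rfl

private theorem rfl_wt2 (d e : Fin 2 → ℝ) (t : ℝ) (m : Fin 2 → ℤ) :
    wt (fun i => d i + t * e i) m = wt d m + t * wt e m := by
  unfold wt
  rw [Fin.sum_univ_two, Fin.sum_univ_two, Fin.sum_univ_two]
  simp only [zsmul_eq_mul]
  ring

/-- an affine function which is positive on an interval -/
private theorem rfl_aff (α β t s2 : ℝ) (hts : t < s2)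
    (h : ∀ t', t < t' → t' < s2 → 0 < α + t' * β) :
    0 < α + t * β ∨ (α + t * β = 0 ∧ 0 < β) := by
  have h0 : 0 ≤ α + t * β := by
    by_contra hcon
    push Not at hcon
    by_cases hβ : β ≤ 0
    · have h1 := h ((t + s2) / 2) (by linarith) (by linarith)
      nlinarith
    · push Not at hβ
      have hε : 0 < min ((s2 - t) / 2) (-(α + t * β) / β) :=
        lt_min (by linarith) (div_pos (by linarith) hβ)
      have h1 := h (t + min ((s2 - t) / 2) (-(α + t * β) / β)) (by linarith) (by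
        have := min_le_left ((s2 - t) / 2) (-(α + t * β) / β)
        linarith)
      have h2 : min ((s2 - t) / 2) (-(α + t * β) / β) * β ≤ -(α + t * β) := by
        have h3 := min_le_right ((s2 - t) / 2) (-(α + t * β) / β)
        calc _ ≤ -(α + t * β) / β * β := mul_le_mul_of_nonneg_right h3 hβ.le
          _ = -(α + t * β) := div_mul_cancel₀ _ hβ.ne'
      linarith [add_mul t (min ((s2 - t) / 2) (-(α + t * β) / β)) β]
  rcases h0.lt_or_eq with h1 | h1
  · exact Or.inl h1
  · refine Or.inr ⟨h1.symm, ?_⟩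
    have h2 := h ((t + s2) / 2) (by linarith) (by linarith)
    have h3 : α + (t + s2) / 2 * β = (s2 - t) / 2 * β := by linear_combination -h1
    rw [h3] at h2
    exact (pos_iff_pos_of_mul_pos h2).1 (by linarith)

/-- [F2PF rfl] -/
theorem p_rfl (hline : S_line) (hin : S_in) (hgerm : S_germ) : S_rfl := by
  intro p _ k K _ _ _ _ _ n g φ hF s1 s2 y M hCL t ht1 ht2
  obtain ⟨hl1, hl2⟩ := hline p k K n g φ
  have hBs := hl1 hF
  obtain ⟨hL, hiz, -⟩ := hl2 s1 s2 y M hCL
  have htJ : t ∈ Set.Icc s1 s2 := ⟨ht1, ht2.le⟩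
  obtain ⟨hg1, hg2, -⟩ := hgerm K (Br k g) hBs (Set.Icc s1 s2) y M hL t htJ
  obtain ⟨hi1, -, -, -, -⟩ := hin
  refine ⟨?_, ?_⟩
  · obtain ⟨-, κ, Γ, i1, i2, i3, i4, i5, V0, x, ex, ac, φb, N, L, d, e, hch, hdet, hgood, hon,
      hM⟩ := hCL
    -- the flag
    have hGood : Good N (fun i => (toLex (d i + t * e i, e i) : ℝ ×ₗ ℝ)) := by
      intro m hm
      rw [rfl_wt, Prod.Lex.lt_iff]
      have h := rfl_aff (wt d m) (wt e m) t s2 ht2 (fun t' h1 h2 => by
        have := hgood t' (by linarith) h2 m hm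
        rwa [rfl_wt2] at this)
      rcases h with h | ⟨h, h'⟩
      · exact Or.inl h
      · exact Or.inr ⟨h.symm, h'⟩
    obtain ⟨V, hV, hVx⟩ := hch.cell (ℝ ×ₗ ℝ) (fun i => toLex (d i + t * e i, e i)) hGood
    have hkey : ∀ f ∈ Br k g, f ≠ 0 → ∀ m, IsR (M f) t m →
        V f = toLex (m.1 + t * m.2, m.2) := by
      rintro f ⟨q, hq⟩ hf m hm
      have h1 := hV.min q (by rwa [hq])
      rw [hq] at h1
      obtain ⟨h2, μ', hμ', h3⟩ := h1
      obtain ⟨μ, hμ, rfl⟩ := (hM f m).1 hm.mem
      have h4 := h2 μ hμ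
      rw [rfl_wt] at h3 h4
      rw [h3] at h4 ⊢
      have hmem : (wt d μ', wt e μ') ∈ M f := (hM f _).2 ⟨μ', hμ', rfl⟩
      have h5 := hm.min _ hmem
      have h6 := hm.tie _ hmem
      simp only at h5 h6
      rw [Prod.Lex.le_iff] at h4
      simp only [ofLex_toLex] at h4
      rcases h4 with h4 | ⟨h4, h4'⟩
      · exact absurd h5 (not_le.2 h4)
      · have h7 := h6 h4
        have h8 : wt e μ' = wt e μ := le_antisymm h4' h7
        simp only
        rw [h4, h8]
    have hfstB : ∀ f ∈ Br k g, f ≠ 0 → (ofLex (V f)).1 = y t f := by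
      intro f hf hf0
      obtain ⟨m, hm⟩ := hi1 (M f) t (hL.ne f hf hf0)
      rw [hkey f hf hf0 m hm, hg1 f hf hf0 m (Or.inl hm)]
      rfl
    have hfst : ∀ f, (ofLex (V f)).1 = y t f := by
      intro f
      by_cases hf : f = 0
      · rw [hf, hV.inz.isv.zero, (hL.isv t htJ).zero]
        rfl
      · obtain ⟨a, ha, b, hb, hb0, hab⟩ := hBs.frac f
        have ha0 : a ≠ 0 := by rw [← hab]; exact mul_ne_zero hf hb0
        have h1 := hfstB a ha ha0
        have h2 := hfstB b hb hb0
        rw [← hab, hV.inz.isv.mul f b hf hb0, (hL.isv t htJ).mul f b hf hb0] at h1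
        have h3 : (ofLex (V f + V b)).1 = (ofLex (V f)).1 + (ofLex (V b)).1 := rfl
        rw [h3] at h1
        linarith
    have hnearB : ∀ f ∈ Br k g, f ≠ 0 → ∃ δ > 0, ∀ ε, 0 < ε → ε < δ →
        y (t + ε) f = y t f + ε * c2 V f := by
      intro f hf hf0
      obtain ⟨m, hm⟩ := hi1 (M f) t (hL.ne f hf hf0)
      obtain ⟨δ, hδ, h⟩ := hg2 f hf hf0 m hm
      refine ⟨min δ (s2 - t), lt_min hδ (by linarith), ?_⟩
      intro ε h1 h2
      have h3 := (h (t + ε) (by linarith) (by linarith [min_le_left δ (s2 - t)])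
        ⟨by linarith, by linarith [min_le_right δ (s2 - t)]⟩).1
      rw [h3, hg1 f hf hf0 m (Or.inl hm)]
      have h4 : c2 V f = m.2 := by
        unfold c2
        rw [hkey f hf hf0 m hm]
        rfl
      rw [h4]
      ring
    refine ⟨V, ⟨hV.inz, hfst, ?_, ?_, ?_⟩⟩
    · intro f hf
      obtain ⟨a, ha, b, hb, hb0, hab⟩ := hBs.frac f
      have ha0 : a ≠ 0 := by rw [← hab]; exact mul_ne_zero hf hb0
      obtain ⟨δ1, hδ1, h1⟩ := hnearB a ha ha0
      obtain ⟨δ2, hδ2, h2⟩ := hnearB b hb hb0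
      refine ⟨min (min δ1 δ2) (s2 - t), lt_min (lt_min hδ1 hδ2) (by linarith), ?_⟩
      intro ε he1 he2
      have m1 := min_le_left (min δ1 δ2) (s2 - t)
      have m2 := min_le_right (min δ1 δ2) (s2 - t)
      have m3 := min_le_left δ1 δ2
      have m4 := min_le_right δ1 δ2
      have h3 := h1 ε he1 (by linarith)
      have h4 := h2 ε he1 (by linarith)
      have hJ : t + ε ∈ Set.Icc s1 s2 := ⟨by linarith, by linarith⟩
      have h5 := (hL.isv _ hJ).mul f b hf hb0
      have h6 := (hL.isv t htJ).mul f b hf hb0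
      have h7 : c2 V (f * b) = c2 V f + c2 V b := by
        unfold c2
        rw [hV.inz.isv.mul f b hf hb0]
        rfl
      rw [hab] at h5 h6 h7
      rw [h5, h6, h7] at h3
      linear_combination h3 - h4
    · refine ⟨x 0, x 1, hch.vb.ne 0, hch.vb.ne 1, ?_⟩
      have h0 := (hon t ht1 ht2.le).2 0
      have h1 := (hon t ht1 ht2.le).2 1
      have h2 : ∀ i, c2 V (x i) = e i := by
        intro i
        unfold c2
        rw [hVx i]
        rfl
      rw [h0, h1, h2, h2]
      intro hcon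
      apply hdet
      linear_combination hcon
    · intro u
      have hdot : ∀ f ∈ Br k g, f ≠ 0 → ∀ m, IsR (M f) t m →
          dot (u.1, sd t u) (y t f, c2 V f) = dot u m := by
        intro f hf hf0 m hm
        have h4 : c2 V f = m.2 := by
          unfold c2
          rw [hkey f hf hf0 m hm]
          rfl
        rw [h4, hg1 f hf hf0 m (Or.inl hm)]
        unfold dot sd
        simp only
        ring
      constructor
      · intro h f hf hf0
        obtain ⟨m, hm⟩ := hi1 (M f) t (hL.ne f hf hf0)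
        rw [hdot f hf hf0 m hm]
        exact h f hf hf0 m hm
      · intro h f hf hf0 m hm
        rw [← hdot f hf hf0 m hm]
        exact h f hf hf0
  · rintro V hV z hz ⟨δ, hδ, h⟩
    obtain ⟨δ1, hδ1, h1⟩ := hV.near z hz
    obtain ⟨ε, he0, he1⟩ := exists_between (lt_min (lt_min hδ hδ1) (sub_pos.2 ht2))
    have m1 := min_le_left (min δ δ1) (s2 - t)
    have m2 := min_le_right (min δ δ1) (s2 - t)
    have m3 := min_le_left δ δ1
    have m4 := min_le_right δ δ1
    have e1 := h1 ε he0 (by linarith)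
    have e2 := h1 (ε / 2) (by linarith) (by linarith)
    rw [h (t + ε) (by linarith) (by linarith) (by linarith)] at e1
    rw [h (t + ε / 2) (by linarith) (by linarith) (by linarith)] at e2
    have h3 : c2 V z = 0 := by
      have : ε * c2 V z = 0 := by linarith
      exact (mul_eq_zero.1 this).resolve_left he0.ne'
    have h4 : y t z = 0 := by rw [h3] at e1; linarith
    apply ofLex.injective
    ext
    · rw [hV.fst z, h4]
      rfl
    · exact h3

end Pool.Agent.F2PF
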